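import Pool.Agent.Lib.MP_958b88_lc.YUnion

/-!
# The interface between the combinatorial part and the evaluation part

`comb_main` is the only statement about the forcing which the evaluation part uses.
-/

set_option autoImplicit false

namespace MP958

/-- `τ` is a name for a function from `ℕ` to finite binary sequences, below `p₀`. -/
structure RNameBelow {P : Type} [Preorder P] (p₀ : P) (τ : ℕ → List Bool → P → Prop) : Prop where
  mono : ∀ j w p q, q ≤ p → τ j w p → τ j w q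
  func : ∀ j w w' p, τ j w p → τ j w' p → w = w'
  total : ∀ j, ∀ p ≤ p₀, ∃ q ≤ p, ∃ w, τ j w q

/-- `z` is a name for a real, below `p₀`. -/
structure ZNameBelow {P : Type} [Preorder P] (p₀ : P) (z : ℕ → Bool → P → Prop) : Prop where
  mono : ∀ i b p q, q ≤ p → z i b p → z i b q
  func : ∀ i b b' p, z i b p → z i b' p → b = b'
  total : ∀ i, ∀ p ≤ p₀, ∃ q ≤ p, ∃ b, z i b q

/-- `p₀` forces `f ≪ ht τ`. -/
def GrowBelow {P : Type} [Preorder P] (f : ℕ → ℕ) (p₀ : P) (τ : ℕ → List Bool → P → Prop) :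
    Prop :=
  ∀ k, ∀ p ≤ p₀, ∃ q ≤ p, ∃ N, ∀ j, N ≤ j → ∀ r ≤ q, ∀ w, τ j w r → f (j ^ k) ≤ w.length

/-- `p` forces that `w` is an initial segment of `z`. -/
def InitSeg {P : Type} (z : ℕ → Bool → P → Prop) (w : List Bool) (p : P) : Prop :=
  ∀ i (h : i < w.length), z i w[i] p

/-- The family indexed by `K_m` witnesses `add(I_{f m}) ≤ |K_m|`. -/
def UpperProp {P : Type} [Preorder P] {K : Type} (rk : K → ℕ) (f : ℕ → ℕ → ℕ) (m : ℕ) : Prop :=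
  ∃ σ : {α : K // rk α = m} → ℕ → List Bool → P → Prop,
    (∀ α (p₀ : P), RNameBelow p₀ (σ α)) ∧
    (∀ k, ∃ N, ∀ j, N ≤ j → ∀ α w p, σ α j w p → f m (j ^ k) ≤ w.length) ∧
    ∀ (τ : ℕ → List Bool → P → Prop) (p₀ : P), RNameBelow p₀ τ → GrowBelow (f m) p₀ τ →
      ∃ q ≤ p₀, ∃ α, ∃ z : ℕ → Bool → P → Prop, ZNameBelow q z ∧
        (∀ N, ∀ r ≤ q, ∃ r' ≤ r, ∃ j, N ≤ j ∧ ∃ w, σ α j w r' ∧ InitSeg z w r') ∧
        ∃ N, ∀ j, N ≤ j → ∀ r ≤ q, ∀ w, τ j w r → ¬ InitSeg z w r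

/-- Families indexed by `K_m` of members of `I_{f n}` are bounded. -/
def LowerProp {P : Type} [Preorder P] {K : Type} (rk : K → ℕ) (f : ℕ → ℕ → ℕ) (m n : ℕ) :
    Prop :=
  ∀ (p₀ : P) (ρ : {α : K // rk α = m} → ℕ → List Bool → P → Prop),
    (∀ α, RNameBelow p₀ (ρ α)) → (∀ α, GrowBelow (f n) p₀ (ρ α)) →
    ∃ τ : ℕ → List Bool → P → Prop, RNameBelow p₀ τ ∧ GrowBelow (f n) p₀ τ ∧
      ∀ α, ∀ p ≤ p₀, ∃ q ≤ p, ∃ N, ∀ j, N ≤ j → ∀ r ≤ q, ∃ r' ≤ r, ∃ i, j ≤ i ∧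
        ∃ w w', ρ α j w r' ∧ τ i w' r' ∧ w' <+: w

/-- The combinatorial main theorem. -/
def CombMain : Prop :=
  ∃ (P : Type) (_ : Preorder P) (_ : Nonempty P) (K : Type) (rk : K → ℕ) (f : ℕ → ℕ → ℕ),
    (∀ n, StrictMono (f n)) ∧ (∀ m, UpperProp (P := P) rk f m) ∧
    ∀ m n, m < n → LowerProp (P := P) rk f m n

end MP958
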