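import Mathlib

/-!
# Additivities of Yorioka ideals: parameters, conditions and the iteration

A condition is a finite set of atoms; stronger conditions are larger sets.
-/

set_option autoImplicit false

namespace MP958

open Set

/-- Parameters of the construction.  Stage `t` has type `ty t`; `f n` jumps at the stages of
type `n`. -/
structure Params where
  ty : ℕ → ℕ
  e : ℕ → ℕ
  L : ℕ → ℕ
  f : ℕ → ℕ → ℕ
  H : ℕ → ℕ → ℕ
  ty_inf : ∀ l N, ∃ t, N ≤ t ∧ ty t = l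
  f_mono : ∀ n, StrictMono (f n)
  e_ge : ∀ t, t + 2 ≤ e t
  len : ∀ t, 2 * e t + L t = f (ty t) ((2 ^ (2 * e t + 1)) ^ (t + 1))
  e_step : ∀ t t', t < t' → 2 * e t + L t + 1 ≤ e t'
  big : ∀ t, 2 * e t < f (ty t) (2 ^ e t)
  count : ∀ t, 2 ^ (2 * e t + L t + 2) ≤ H 0 t * 2 ^ f (ty t) (2 ^ e t)
  H_mono : ∀ q t, H q t ≤ H (q + 1) t
  H_grow : ∀ q n k w m, ∃ N, ∀ t, N ≤ t → ty t ≠ n →
    (∏ j ∈ Finset.range (max m (w * (H q t + 1))), 2 ^ 2 ^ f n (j ^ k)) * H q t ≤ H (q + 1) t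
  H_lt : ∀ q, ∃ N, ∀ t, N ≤ t → H q t < 2 ^ L t

/-- Atoms of conditions: values of Cohen reals, values of the generic slaloms, promises. -/
inductive Atom (K Θ : Type) : Type
  | coh (α : K) (t : ℕ) (x : List Bool)
  | stm (c : Θ) (j k : ℕ) (S : Finset (List Bool))
  | pro (c : Θ) (ζ : K) (j : ℕ)

/-- Raw conditions. -/
abbrev Cond (K Θ : Type) : Type := Finset (Atom K Θ)

/-- Names used at the stages of the iteration: the type, and for `ζ : K` and `j : ℕ` a countable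
list of conditions with values. -/
abbrev Nm (K Θ : Type) : Type := ℕ × (K → ℕ → ℕ → Option (Cond K Θ × List Bool))

variable {K Θ : Type}

/-- The coordinate of an atom. -/
def Atom.crd : Atom K Θ → Option Θ
  | .coh _ _ _ => none
  | .stm c _ _ _ => some c
  | .pro c _ _ => some c

/-- Contribution of an atom to the length of the stem at `c`. -/
noncomputable def Atom.slv (c : Θ) : Atom K Θ → ℕ
  | .coh _ _ _ => 0
  | .stm c' j _ _ => by classical exact if c' = c then j + 1 else 0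
  | .pro _ _ _ => 0

/-- The length of the stem of `p` at `c`. -/
noncomputable def slen (c : Θ) (p : Cond K Θ) : ℕ := p.sup (Atom.slv c)

/-- The set of those `ζ` with a promise at `c`. -/
def proms (c : Θ) (p : Cond K Θ) : Set K := {ζ | ∃ j, Atom.pro c ζ j ∈ p}

open Classical in
/-- Restriction to the coordinates below `c` (Cohen atoms are kept). -/
noncomputable def res [LinearOrder Θ] (p : Cond K Θ) (c : Θ) : Cond K Θ :=
  p.filter fun a => ∀ d, a.crd = some d → d < c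

/-- `r` forces over `G` that the `j`-th value of the `ζ`-th name lies in `A`. -/
def Fc (G : Set (Cond K Θ)) (r : Cond K Θ) (nm : Nm K Θ) (ζ : K) (j : ℕ)
    (A : Set (List Bool)) : Prop :=
  ∀ q ∈ G, r ⊆ q → ∃ q' ∈ G, q ⊆ q' ∧ ∃ a u v, nm.2 ζ j a = some (u, v) ∧ u ⊆ q' ∧ v ∈ A

/-- Correctness of the stem of `p` at `c`. -/
structure StemOK (f : ℕ → ℕ) (c : Θ) (p : Cond K Θ) : Prop where
  uniq : ∀ j k S k' S', Atom.stm c j k S ∈ p → Atom.stm c j k' S' ∈ p → k = k' ∧ S = S'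
  tot : ∀ j, j < slen c p → ∃ k S, Atom.stm c j k S ∈ p
  mono : ∀ j k S j' k' S', Atom.stm c j k S ∈ p → Atom.stm c j' k' S' ∈ p → j ≤ j' → k ≤ k'
  card : ∀ j k S, Atom.stm c j k S ∈ p → S.card ≤ j
  str : ∀ j k S, Atom.stm c j k S ∈ p → ∀ w ∈ S, w.length = f (j ^ k)

variable (Q : Params) (rk : K → ℕ)

/-- Correctness of `p` at the coordinate `c`, relative to the conditions `G` below `c`. -/
structure OKat [LinearOrder Θ] (nm : Nm K Θ) (c : Θ) (G : Set (Cond K Θ)) (p : Cond K Θ) :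
    Prop where
  stem : StemOK (Q.f nm.1) c p
  typ : ∀ ζ ∈ proms c p, rk ζ < nm.1
  cnt : (proms c p).ncard ≤ slen c p
  mem : ∀ ζ i j k S, Atom.pro c ζ i ∈ p → Atom.stm c j k S ∈ p → i ≤ j →
    Fc G (res p c) nm ζ j {v | ∃ w ∈ S, w <+: v}
  lng : ∀ ζ i j k S, Atom.pro c ζ i ∈ p → Atom.stm c j k S ∈ p → ∀ j', slen c p ≤ j' →
    Fc G (res p c) nm ζ j' {v | Q.f nm.1 (j' ^ k) ≤ v.length}

/-- Correctness of the Cohen part. -/
structure CohOK (p : Cond K Θ) : Prop where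
  uniq : ∀ α t x y, Atom.coh α t x ∈ p → Atom.coh α t y ∈ p → x = y
  ty : ∀ α t x, Atom.coh α t x ∈ p → Q.ty t = rk α
  len : ∀ α t x, Atom.coh α t x ∈ p → x.length = Q.L t

section Iteration

variable [LinearOrder Θ] [WellFoundedLT Θ] (nm : Θ → Nm K Θ)

/-- Conditions with coordinates below `c`. -/
noncomputable def Pst : Θ → Set (Cond K Θ) :=
  (wellFounded_lt (α := Θ)).fix fun c rec => {p | CohOK Q rk p ∧
    ∀ a ∈ p, ∀ d, a.crd = some d → ∃ h : d < c, OKat Q rk (nm d) d (rec d h) p}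

/-- Conditions with coordinates below `ξ` (`⊤`: all conditions). -/
def PT (ξ : WithTop Θ) : Set (Cond K Θ) := {p | CohOK Q rk p ∧
    ∀ a ∈ p, ∀ d, a.crd = some d → (d : WithTop Θ) < ξ ∧
      OKat Q rk (nm d) d (Pst Q rk nm d) p}

theorem mem_Pst {c : Θ} {p : Cond K Θ} : p ∈ Pst Q rk nm c ↔ CohOK Q rk p ∧
    ∀ a ∈ p, ∀ d, a.crd = some d → d < c ∧ OKat Q rk (nm d) d (Pst Q rk nm d) p := by
  unfold Pst
  rw [WellFounded.fix_eq]
  constructor
  · rintro ⟨h0, h⟩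
    refine ⟨h0, fun a ha d hd => ?_⟩
    obtain ⟨h1, h2⟩ := h a ha d hd
    exact ⟨h1, h2⟩
  · rintro ⟨h0, h⟩
    refine ⟨h0, fun a ha d hd => ?_⟩
    obtain ⟨h1, h2⟩ := h a ha d hd
    exact ⟨h1, h2⟩

theorem Pst_eq (c : Θ) : Pst Q rk nm c = PT Q rk nm c := by
  ext p
  rw [mem_Pst]
  simp only [PT, mem_setOf_eq, WithTop.coe_lt_coe]

end Iteration

end MP958
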