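import Pool.Agent.Lib.MP_958b88_lc.YUnion

/-!
# Parameters, bookkeeping, dependent choice, trees, long stems, Delta systems, ccc
-/

set_option autoImplicit false

section

/-!
# Existence of the parameters
-/


namespace MP958

namespace Par

/-- `Y t = (2 ^ (2 e + 1)) ^ (t + 1)` -/
def Yv (e t : ℕ) : ℕ := (2 ^ (2 * e + 1)) ^ (t + 1)

/-- widths -/
def Hv (e t : ℕ) : ℕ → ℕ
  | 0 => 2 ^ (Yv e t + 2)
  | q + 1 => 2 ^ ((t * (Hv e t q + 2)) * 2 ^ ((t * (Hv e t q + 2)) ^ t + e)) * Hv e t q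

/-- the jump at stage `t` -/
def Vv (e t : ℕ) : ℕ := Hv e t t + 1 + 2 * e

/-- `(e t, sum of the previous jumps)` -/
def st : ℕ → ℕ × ℕ
  | 0 => (2, 0)
  | t + 1 => (Yv (st t).1 t + ((st t).2 + Vv (st t).1 t) + (t * (Hv (st t).1 t t + 2)) ^ t +
      (st t).1 + 3, (st t).2 + Vv (st t).1 t)

def e (t : ℕ) : ℕ := (st t).1
def V (t : ℕ) : ℕ := Vv (e t) t
def W (t : ℕ) : ℕ := (st t).2
def ty (t : ℕ) : ℕ := (Nat.unpair t).1

theorem e_succ (t : ℕ) : e (t + 1) = Yv (e t) t + (W t + V t) + (t * (Hv (e t) t t + 2)) ^ t +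
    e t + 3 := rfl

theorem W_succ (t : ℕ) : W (t + 1) = W t + V t := rfl

theorem W_eq (t : ℕ) : W t = ∑ s ∈ Finset.range t, V s := by
  induction t with
  | zero => rfl
  | succ t ih => rw [W_succ, Finset.sum_range_succ, ih]

theorem e_strict : StrictMono e := strictMono_nat_of_lt_succ fun t => by rw [e_succ]; omega

theorem e_ge (t : ℕ) : t + 2 ≤ e t := by
  induction t with
  | zero => exact le_rfl
  | succ t ih => rw [e_succ]; omega

theorem W_le_e (t : ℕ) : W t ≤ e t := by
  cases t with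
  | zero => exact Nat.zero_le _
  | succ t => rw [e_succ, W_succ]; omega

theorem Hv_mono (e t : ℕ) : Monotone (Hv e t) := monotone_nat_of_le_succ fun q => by
  show Hv e t q ≤ 2 ^ _ * Hv e t q
  exact Nat.le_mul_of_pos_left _ (by positivity)

/-- the term of stage `s` in `f n j` -/
def term (n j s : ℕ) : ℕ := if ty s = n ∧ 2 ^ e s ≤ j then V s else 0

def f (n j : ℕ) : ℕ := j + ∑ s ∈ Finset.range (j + 1), term n j s

theorem term_eq_zero {n j s : ℕ} (h : j < 2 ^ e s) : term n j s = 0 := by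
  unfold term
  rw [if_neg]
  rintro ⟨-, h'⟩
  omega

theorem lt_two_pow_e (s : ℕ) : s < 2 ^ e s :=
  lt_of_lt_of_le (by have := e_ge s; omega) (Nat.lt_two_pow_self (n := e s)).le

theorem f_eq {n j t : ℕ} (h : j < 2 ^ e (t + 1)) :
    f n j = j + ∑ s ∈ Finset.range (t + 1), term n j s := by
  unfold f
  congr 1
  have h1 : ∀ M, j + 1 ≤ M → ∑ s ∈ Finset.range M, term n j s =
      ∑ s ∈ Finset.range (j + 1), term n j s := by
    intro M hM
    symm
    refine Finset.sum_subset (Finset.range_mono hM) fun s _ hs => term_eq_zero ?_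
    have h2 := lt_two_pow_e s
    rw [Finset.mem_range] at hs
    omega
  have h2 : ∀ M, t + 1 ≤ M → ∑ s ∈ Finset.range M, term n j s =
      ∑ s ∈ Finset.range (t + 1), term n j s := by
    intro M hM
    symm
    refine Finset.sum_subset (Finset.range_mono hM) fun s _ hs => term_eq_zero ?_
    rw [Finset.mem_range, not_lt] at hs
    exact h.trans_le (Nat.pow_le_pow_right (by norm_num) (e_strict.monotone hs))
  rw [← h1 _ (le_max_left (j + 1) (t + 1)), h2 _ (le_max_right (j + 1) (t + 1))]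

theorem f_mono (n : ℕ) : StrictMono (f n) := strictMono_nat_of_lt_succ fun j => by
  unfold f
  have h1 : ∑ s ∈ Finset.range (j + 1), term n j s ≤
      ∑ s ∈ Finset.range (j + 1 + 1), term n (j + 1) s := by
    calc ∑ s ∈ Finset.range (j + 1), term n j s ≤
        ∑ s ∈ Finset.range (j + 1), term n (j + 1) s := by
          refine Finset.sum_le_sum fun s _ => ?_
          unfold term
          split_ifs with h1 h2
          · exact le_rfl
          · exact absurd ⟨h1.1, by omega⟩ h2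
          · exact Nat.zero_le _
          · exact le_rfl
      _ ≤ _ := Finset.sum_le_sum_of_subset (Finset.range_mono (by omega))
  omega

/-- the sum of the jumps of the type of `t` up to `t` -/
def A (t : ℕ) : ℕ := ∑ s ∈ Finset.range (t + 1), if ty s = ty t then V s else 0

theorem V_le_A (t : ℕ) : V t ≤ A t := by
  unfold A
  refine le_trans ?_ (Finset.single_le_sum (f := fun s => if ty s = ty t then V s else 0)
    (fun _ _ => Nat.zero_le _) (Finset.self_mem_range_succ t))
  simp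

theorem A_le (t : ℕ) : A t ≤ W t + V t := by
  rw [← W_succ, W_eq]
  refine Finset.sum_le_sum fun s _ => ?_
  split_ifs <;> omega

theorem f_ty {t j : ℕ} (h1 : 2 ^ e t ≤ j) (h2 : j < 2 ^ e (t + 1)) : f (ty t) j = j + A t := by
  rw [f_eq h2]
  congr 1
  refine Finset.sum_congr rfl fun s hs => ?_
  have h3 : 2 ^ e s ≤ j := (Nat.pow_le_pow_right (by norm_num)
    (e_strict.monotone (by rw [Finset.mem_range] at hs; omega))).trans h1
  unfold term
  by_cases h4 : ty s = ty t
  · rw [if_pos ⟨h4, h3⟩, if_pos h4]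
  · rw [if_neg (fun h => h4 h.1), if_neg h4]

theorem f_other {n t j : ℕ} (hn : ty t ≠ n) (h : j < 2 ^ e (t + 1)) : f n j ≤ j + e t := by
  rw [f_eq h, Finset.sum_range_succ]
  have h1 : term n j t = 0 := by
    unfold term
    rw [if_neg (fun h => hn h.1)]
  have h2 : ∑ s ∈ Finset.range t, term n j s ≤ W t := by
    rw [W_eq]
    refine Finset.sum_le_sum fun s _ => ?_
    unfold term
    split_ifs <;> omega
  have := W_le_e t
  omega

theorem e_le_Yv (e t : ℕ) : 2 * e ≤ Yv e t ∧ 2 ^ e ≤ Yv e t := by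
  have h1 : 2 ^ (2 * e + 1) ≤ Yv e t := by
    unfold Yv
    exact Nat.le_self_pow (by omega) _
  constructor
  · refine le_trans ?_ h1
    have := Nat.lt_two_pow_self (n := 2 * e + 1)
    omega
  · exact le_trans (Nat.pow_le_pow_right (by norm_num) (by omega)) h1

theorem Yv_lt (t : ℕ) : Yv (e t) t < 2 ^ e (t + 1) := by
  refine lt_of_le_of_lt ?_ (Nat.lt_two_pow_self (n := e (t + 1)))
  rw [e_succ]; omega

def L (t : ℕ) : ℕ := Yv (e t) t + A t - 2 * e t

theorem len (t : ℕ) : 2 * e t + L t = Yv (e t) t + A t := by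
  unfold L
  have := (e_le_Yv (e t) t).1
  omega

theorem len' (t : ℕ) : 2 * e t + L t = f (ty t) (Yv (e t) t) := by
  rw [f_ty (e_le_Yv _ _).2 (Yv_lt t), len]

theorem grow {q n k w m t : ℕ} (hq : q ≤ t) (hk : k ≤ t) (hw : w ≤ t) (hm : m ≤ t)
    (ht : ty t ≠ n) :
    (∏ j ∈ Finset.range (max m (w * (Hv (e t) t q + 1))), 2 ^ 2 ^ f n (j ^ k)) * Hv (e t) t q ≤
      Hv (e t) t (q + 1) := by
  show _ ≤ 2 ^ ((t * (Hv (e t) t q + 2)) * 2 ^ ((t * (Hv (e t) t q + 2)) ^ t + e t)) *
    Hv (e t) t q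
  refine Nat.mul_le_mul_right _ ?_
  set N := t * (Hv (e t) t q + 2) with hN
  have hNm : max m (w * (Hv (e t) t q + 1)) ≤ N := by
    refine max_le ?_ ?_
    · rw [hN]; nlinarith [Nat.zero_le (Hv (e t) t q)]
    · rw [hN]; exact Nat.mul_le_mul hw (by omega)
  have hNt : N ^ t < 2 ^ e (t + 1) := by
    refine lt_of_le_of_lt ?_ (Nat.lt_two_pow_self (n := e (t + 1)))
    have h1 : N ≤ t * (Hv (e t) t t + 2) := by
      rw [hN]
      exact Nat.mul_le_mul_left _ (by have := Hv_mono (e t) t hq; omega)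
    have h2 : N ^ t ≤ (t * (Hv (e t) t t + 2)) ^ t := Nat.pow_le_pow_left h1 t
    rw [e_succ]; omega
  calc ∏ j ∈ Finset.range (max m (w * (Hv (e t) t q + 1))), 2 ^ 2 ^ f n (j ^ k)
      ≤ ∏ _j ∈ Finset.range (max m (w * (Hv (e t) t q + 1))), 2 ^ 2 ^ (N ^ t + e t) := by
        refine Finset.prod_le_prod' fun j hj => ?_
        rw [Finset.mem_range] at hj
        have hjN : j < N := hj.trans_le hNm
        have h3 : j ^ k ≤ N ^ t := (Nat.pow_le_pow_left hjN.le k).trans
          (Nat.pow_le_pow_right (by omega) hk)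
        refine Nat.pow_le_pow_right (by norm_num) (Nat.pow_le_pow_right (by norm_num) ?_)
        refine (f_other ht (h3.trans_lt hNt)).trans ?_
        omega
    _ = (2 ^ 2 ^ (N ^ t + e t)) ^ (max m (w * (Hv (e t) t q + 1))) := by
        rw [Finset.prod_const, Finset.card_range]
    _ ≤ (2 ^ 2 ^ (N ^ t + e t)) ^ N := Nat.pow_le_pow_right (by positivity) hNm
    _ = 2 ^ (N * 2 ^ (N ^ t + e t)) := by rw [← pow_mul, mul_comm]

end Par

open Par in
theorem exists_params : Nonempty Params := by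
  refine ⟨⟨ty, e, L, f, fun q t => Hv (e t) t q, ?_, f_mono, e_ge, ?_, ?_, ?_, ?_, ?_, ?_, ?_⟩⟩
  · intro l N
    exact ⟨Nat.pair l N, Nat.right_le_pair l N, by simp [ty]⟩
  · intro t
    exact len' t
  · intro t t' h
    have h1 : e (t + 1) ≤ e t' := e_strict.monotone h
    have h2 := len t
    have h3 := A_le t
    rw [e_succ] at h1
    omega
  · intro t
    have h1 : 2 ^ e t < 2 ^ e (t + 1) := Nat.pow_lt_pow_right (by norm_num) (e_strict (by omega))
    rw [f_ty le_rfl h1]
    have h2 := V_le_A t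
    have h3 : V t = Hv (e t) t t + 1 + 2 * e t := rfl
    have hb : 0 < 2 ^ e t := by positivity
    generalize 2 ^ e t = B at *
    omega
  · intro t
    have h1 : 2 ^ e t < 2 ^ e (t + 1) := Nat.pow_lt_pow_right (by norm_num) (e_strict (by omega))
    rw [f_ty le_rfl h1, len]
    show _ ≤ 2 ^ (Yv (e t) t + 2) * 2 ^ (2 ^ e t + A t)
    rw [← pow_add]
    refine Nat.pow_le_pow_right (by norm_num) ?_
    generalize 2 ^ e t = B at *
    omega
  · intro q t
    exact Hv_mono (e t) t (Nat.le_succ q)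
  · intro q n k w m
    refine ⟨max (max q k) (max w m), fun t ht hn => ?_⟩
    have h1 := le_max_left (max q k) (max w m)
    have h2 := le_max_right (max q k) (max w m)
    have h3 := le_max_left q k
    have h4 := le_max_right q k
    have h5 := le_max_left w m
    have h6 := le_max_right w m
    exact grow (by omega) (by omega) (by omega) (by omega) hn
  · intro q
    refine ⟨q, fun t ht => ?_⟩
    have h1 : Hv (e t) t q ≤ Hv (e t) t t := Hv_mono (e t) t ht
    have h2 := V_le_A t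
    have h3 : V t = Hv (e t) t t + 1 + 2 * e t := rfl
    have h4 := len t
    have h5 := (e_le_Yv (e t) t).1
    refine lt_of_lt_of_le (b := L t) (by omega) (Nat.lt_two_pow_self (n := L t)).le

end MP958

end

section

/-!
# Bookkeeping
-/


namespace MP958

open Cardinal

namespace Bk

variable {K Θ : Type}

/-- Atoms as a sum type. -/
def atomFun : Atom K Θ → (K × ℕ × List Bool) ⊕ ((Θ × ℕ × ℕ × Finset (List Bool)) ⊕ (Θ × K × ℕ))
  | .coh α t x => Sum.inl (α, t, x)
  | .stm c j k S => Sum.inr (Sum.inl (c, j, k, S))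
  | .pro c ζ j => Sum.inr (Sum.inr (c, ζ, j))

theorem atomFun_injective : Function.Injective (atomFun (K := K) (Θ := Θ)) := by
  intro a b h
  cases a <;> cases b <;> simp_all [atomFun]

theorem mk_atom_le {μ : Cardinal.{0}} (hμ : ℵ₀ ≤ μ) (hK : #K ≤ μ) (hΘ : #Θ ≤ μ) :
    #(Atom K Θ) ≤ μ := by
  refine (mk_le_of_injective atomFun_injective).trans ?_
  have hcount : ∀ (X : Type) [Countable X], #X ≤ μ := fun X _ => (mk_le_aleph0).trans hμ
  have hmul : ∀ (X Y : Type), #X ≤ μ → #Y ≤ μ → #(X × Y) ≤ μ := by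
    intro X Y hX hY
    rw [mk_prod, Cardinal.lift_id, Cardinal.lift_id]
    exact (mul_le_mul' hX hY).trans (mul_eq_self hμ).le
  have hadd : ∀ (X Y : Type), #X ≤ μ → #Y ≤ μ → #(X ⊕ Y) ≤ μ := by
    intro X Y hX hY
    rw [mk_sum, Cardinal.lift_id, Cardinal.lift_id]
    exact (add_le_add hX hY).trans (add_eq_self hμ).le
  refine hadd _ _ (hmul _ _ hK (hcount _)) (hadd _ _ (hmul _ _ hΘ (hcount _))
    (hmul _ _ hΘ (hmul _ _ hK (hcount _))))

theorem mk_nm_le {lam : Cardinal.{0}} (hlam : ℵ₀ ≤ lam) (hK : #K = lam) (hΘ : #Θ = 2 ^ lam) :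
    #(Nm K Θ) ≤ 2 ^ lam := by
  have hμ : ℵ₀ ≤ (2 : Cardinal.{0}) ^ lam := hlam.trans (cantor lam).le
  have hKμ : #K ≤ 2 ^ lam := by rw [hK]; exact (cantor lam).le
  have hA : #(Atom K Θ) ≤ 2 ^ lam := mk_atom_le hμ hKμ hΘ.le
  have hC : #(Cond K Θ) ≤ 2 ^ lam := by
    show #(Finset (Atom K Θ)) ≤ 2 ^ lam
    rcases finite_or_infinite (Atom K Θ) with h | h
    · exact (mk_le_aleph0).trans hμ
    · rw [mk_finset_of_infinite]; exact hA
  have hO : #(Option (Cond K Θ × List Bool)) ≤ 2 ^ lam := by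
    rw [mk_option, mk_prod, Cardinal.lift_id, Cardinal.lift_id]
    have h1 : #(Cond K Θ) * #(List Bool) ≤ 2 ^ lam :=
      (mul_le_mul' hC ((mk_le_aleph0).trans hμ)).trans (mul_eq_self hμ).le
    exact (add_le_add h1 (one_le_aleph0.trans hμ)).trans (add_eq_self hμ).le
  have hF : #(K → ℕ → ℕ → Option (Cond K Θ × List Bool)) ≤ 2 ^ lam := by
    have e : (K → ℕ → ℕ → Option (Cond K Θ × List Bool)) ≃
        (K × ℕ × ℕ → Option (Cond K Θ × List Bool)) :=
      { toFun := fun f x => f x.1 x.2.1 x.2.2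
        invFun := fun f a b c => f (a, b, c)
        left_inv := fun _ => rfl
        right_inv := fun _ => rfl }
    have h2 : #(K × ℕ × ℕ) = lam := by
      rw [mk_prod, Cardinal.lift_id, Cardinal.lift_id, hK, mk_eq_aleph0 (ℕ × ℕ)]
      exact mul_eq_left hlam hlam aleph0_ne_zero
    rw [e.cardinal_eq, ← Cardinal.power_def, h2]
    calc #(Option (Cond K Θ × List Bool)) ^ lam ≤ (2 ^ lam) ^ lam :=
          power_le_power_right hO
      _ = 2 ^ lam := by rw [← power_mul, mul_eq_self hlam]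
  show #(ℕ × (K → ℕ → ℕ → Option (Cond K Θ × List Bool))) ≤ 2 ^ lam
  rw [mk_prod, Cardinal.lift_id, Cardinal.lift_id]
  exact (mul_le_mul' ((mk_le_aleph0).trans hμ) hF).trans (mul_eq_self hμ).le

end Bk

/-- The index set of the iteration: every name is listed cofinally often. -/
theorem exists_book (K : Type) [Infinite K] : ∃ (Θ : Type) (_ : LinearOrder Θ)
    (_ : WellFoundedLT Θ) (_ : Nonempty Θ) (nm : Θ → Nm K Θ),
    (∀ f : K × ℕ × ℕ → Θ, ∃ η, ∀ x, f x < η) ∧ ∀ (c : Nm K Θ) (η : Θ), ∃ ξ, η < ξ ∧ nm ξ = c := by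
  set lam := #K with hlam
  have hinf : ℵ₀ ≤ lam := aleph0_le_mk K
  have hμ : ℵ₀ ≤ (2 : Cardinal.{0}) ^ lam := hinf.trans (cantor lam).le
  let Θ : Type := ((2 : Cardinal.{0}) ^ lam).ord.ToType
  have hΘ : #Θ = 2 ^ lam := mk_ord_toType _
  have hne : Nonempty Θ := by
    rw [← mk_ne_zero_iff, hΘ]
    exact (aleph0_pos.trans_le hμ).ne'
  have hinfΘ : Infinite Θ := by
    rw [infinite_iff, hΘ]; exact hμ
  have hnm : #(Nm K Θ) ≤ 2 ^ lam := Bk.mk_nm_le hinf rfl hΘ
  have hprod : #(Nm K Θ × Θ) ≤ #Θ := by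
    rw [mk_prod, Cardinal.lift_id, Cardinal.lift_id, hΘ]
    exact (mul_le_mul_left hnm _).trans (mul_eq_self hμ).le
  have hnn : Nonempty (Nm K Θ × Θ) := ⟨((0, fun _ _ _ => none), hne.some)⟩
  obtain ⟨g⟩ := hprod
  have hg : Function.Surjective (Function.invFun g) := Function.invFun_surjective g.injective
  refine ⟨Θ, inferInstance, inferInstance, hne, fun ξ => (Function.invFun g ξ).1, ?_, ?_⟩
  · intro f
    by_contra hcon
    push Not at hcon
    have hcof : IsCofinal (Set.range f) := by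
      intro η
      obtain ⟨x, hx⟩ := hcon η
      exact ⟨f x, ⟨x, rfl⟩, hx⟩
    have h1 : Order.cof Θ ≤ #(Set.range f) := Order.cof_le hcof
    have h2 : #(Set.range f) ≤ lam := by
      refine mk_range_le.trans ?_
      rw [mk_prod, Cardinal.lift_id, Cardinal.lift_id, mk_eq_aleph0 (ℕ × ℕ)]
      exact (mul_eq_left hinf hinf aleph0_ne_zero).le
    have h3 : Order.cof Θ = ((2 : Cardinal.{0}) ^ lam).ord.cof := Ordinal.cof_toType _
    have h4 : lam < ((2 : Cardinal.{0}) ^ lam).ord.cof :=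
      lt_cof_ord_power hinf one_lt_two
    rw [h3] at h1
    exact absurd (h1.trans h2) (not_le.mpr h4)
  · intro c η
    by_contra hcon
    push Not at hcon
    have h1 : ∀ θ : Θ, ∃ ξ : Set.Iic η, Function.invFun g ξ.1 = (c, θ) := by
      intro θ
      obtain ⟨ξ, hξ⟩ := hg (c, θ)
      refine ⟨⟨ξ, ?_⟩, hξ⟩
      by_contra h2
      refine hcon ξ (not_le.mp h2) ?_
      show (Function.invFun g ξ).1 = c
      rw [hξ]
    choose h hh using h1
    have hinj : Function.Injective h := by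
      intro a b hab
      have := hh a
      rw [hab, hh b] at this
      exact (Prod.ext_iff.mp this).2.symm
    have h2 : #Θ ≤ #(Set.Iic η) := mk_le_of_injective hinj
    have h3 : #(Set.Iic η) < #Θ := by
      have h4 : #(Set.Iio η) < #Θ := by
        rw [hΘ]
        have h6 := mk_Iio_lt η (by rw [hΘ]; exact (Ordinal.type_toType _).symm)
        rwa [hΘ] at h6
      have h5 : Set.Iic η = Set.Iio η ∪ {η} := by
        ext x; simp [le_iff_lt_or_eq, or_comm]
      rw [h5]
      refine (mk_union_le _ _).trans_lt ?_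
      rw [mk_singleton]
      exact add_lt_of_lt (aleph0_le_mk Θ) h4 (one_lt_aleph0.trans_le (aleph0_le_mk Θ))
    exact absurd h2 (not_le.mpr h3)

/-- The index set of the families. -/
theorem exists_K : ∃ (K : Type) (rk : K → ℕ), Infinite K ∧
    (∀ n, Cardinal.mk {α : K // rk α = n} = Cardinal.aleph (n + 1)) ∧
    ∀ n, Cardinal.mk {α : K // rk α < n} ≤ Cardinal.aleph n := by
  let F : ℕ → Type := fun n => (Cardinal.aleph (n + 1) : Cardinal.{0}).out
  have hF : ∀ n, #(F n) = Cardinal.aleph (n + 1) := fun n => mk_out _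
  have hfib : ∀ n, #{α : (Σ n, F n) // α.1 = n} = Cardinal.aleph (n + 1) := by
    intro n
    rw [← hF n]
    refine Cardinal.mk_congr ?_
    exact Equiv.sigmaSubtype n
  refine ⟨Σ n, F n, Sigma.fst, ?_, hfib, ?_⟩
  · have h1 : Infinite (F 0) := by
      rw [infinite_iff, hF]; exact aleph0_le_aleph _
    exact Infinite.of_injective (fun x : F 0 => (⟨0, x⟩ : Σ n, F n)) sigma_mk_injective
  · intro n
    have h1 : ∀ i : Fin n, #(F i) ≤ Cardinal.aleph n := by
      intro i
      rw [hF]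
      refine aleph_le_aleph.mpr ?_
      have := i.2
      exact_mod_cast this
    let e : {α : (Σ n, F n) // α.1 < n} → Σ i : Fin n, F i := fun α => ⟨⟨α.1.1, α.2⟩, α.1.2⟩
    have he : Function.Injective e := by
      rintro ⟨⟨a, x⟩, ha⟩ ⟨⟨b, y⟩, hb⟩ h
      simp only [e, Sigma.mk.injEq, Fin.mk.injEq] at h
      obtain ⟨h1, h2⟩ := h
      subst h1
      simp_all
    refine (mk_le_of_injective he).trans ?_
    rw [mk_sigma]
    refine (Cardinal.sum_le_sum _ (fun _ => Cardinal.aleph n) h1).trans ?_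
    rw [Cardinal.sum_const, Cardinal.lift_id, Cardinal.lift_id, mk_fin]
    refine (mul_le_mul_left ((natCast_le_aleph0).trans (aleph0_le_aleph n)) _).trans ?_
    exact (mul_eq_self (aleph0_le_aleph n)).le

end MP958

end

section

/-!
# Dependent choice for names over a preorder
-/


namespace MP958

open Set

section DC

variable {P : Type} [Preorder P] {X : Type} (Inv : X → P → Prop) (R : X → X → P → Prop)

/-- Names for elements of `X`, decided on a dense set below `q`. -/
structure GoodNm (q : P) (W : X → P → Prop) : Prop where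
  mono : ∀ x p r, r ≤ p → W x p → W x r
  func : ∀ x y p, W x p → W y p → x = y
  dense : ∀ p ≤ q, ∃ r ≤ p, ∃ x, W x r
  inv : ∀ x p, W x p → p ≤ q ∧ Inv x p

/-- Families of pairwise incompatible valid triples. -/
def DCFam (W : X → P → Prop) : Set (Set (P × X × X)) :=
  {A | (∀ a ∈ A, W a.2.2 a.1 ∧ R a.2.2 a.2.1 a.1 ∧ Inv a.2.1 a.1) ∧
    ∀ a ∈ A, ∀ b ∈ A, ∀ r, r ≤ a.1 → r ≤ b.1 → a = b}

theorem exists_max_fam (W : X → P → Prop) : ∃ A, Maximal (· ∈ DCFam Inv R W) A := by
  apply zorn_subset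
  intro c hc hchain
  refine ⟨⋃₀ c, ⟨?_, ?_⟩, fun s hs => subset_sUnion_of_mem hs⟩
  · rintro a ⟨A, hA, ha⟩
    exact (hc hA).1 a ha
  · rintro a ⟨A, hA, ha⟩ b ⟨B, hB, hb⟩ r hra hrb
    rcases hchain.total hA hB with h | h
    · exact (hc hB).2 a (h ha) b hb r hra hrb
    · exact (hc hA).2 a ha b (h hb) r hra hrb

theorem good_step (hInv : ∀ x p r, r ≤ p → Inv x p → Inv x r)
    (hR : ∀ x y p r, r ≤ p → R x y p → R x y r) (q : P)
    (hstep : ∀ x, ∀ p ≤ q, Inv x p → ∃ r ≤ p, ∃ y, R x y r ∧ Inv y r)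
    (W : X → P → Prop) (hW : GoodNm Inv q W) :
    ∃ W' : X → P → Prop, GoodNm Inv q W' ∧ (∀ x y p, W x p → W' y p → R x y p) ∧
      (∀ y p, W' y p → ∃ x, W x p) := by
  obtain ⟨A, hA⟩ := exists_max_fam Inv R W
  have hA1 := hA.prop.1
  have hA2 := hA.prop.2
  refine ⟨fun y p => ∃ a ∈ A, a.2.1 = y ∧ p ≤ a.1, ⟨?_, ?_, ?_, ?_⟩, ?_, ?_⟩
  · rintro x p r hr ⟨a, ha, hax, hpa⟩
    exact ⟨a, ha, hax, hr.trans hpa⟩
  · rintro x y p ⟨a, ha, rfl, hpa⟩ ⟨b, hb, rfl, hpb⟩
    rw [hA2 a ha b hb p hpa hpb]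
  · intro p hp
    obtain ⟨p', hp', x, hx⟩ := hW.dense p hp
    obtain ⟨r, hr, y, hy, hy'⟩ := hstep x p' (hp'.trans hp) (hW.inv x p' hx).2
    by_cases hc : ∃ a ∈ A, ∃ s, s ≤ a.1 ∧ s ≤ r
    · obtain ⟨a, ha, s, hs, hs'⟩ := hc
      exact ⟨s, hs'.trans (hr.trans hp'), a.2.1, a, ha, rfl, hs⟩
    · refine ⟨r, hr.trans hp', y, (r, y, x), ?_, rfl, le_rfl⟩
      have hmem : insert (r, y, x) A ∈ DCFam Inv R W := by
        refine ⟨?_, ?_⟩
        · rintro a (rfl | ha)
          · exact ⟨hW.mono x p' r hr hx, hy, hy'⟩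
          · exact hA1 a ha
        · rintro a (rfl | ha) b (rfl | hb) s hsa hsb
          · rfl
          · exact absurd ⟨b, hb, s, hsb, hsa⟩ hc
          · exact absurd ⟨a, ha, s, hsa, hsb⟩ hc
          · exact hA2 a ha b hb s hsa hsb
      exact hA.2 hmem (subset_insert _ _) (mem_insert _ _)
  · rintro x p ⟨a, ha, rfl, hpa⟩
    obtain ⟨h1, h2, h3⟩ := hA1 a ha
    exact ⟨hpa.trans (hW.inv _ _ h1).1, hInv _ _ _ hpa h3⟩
  · rintro x y p hx ⟨a, ha, rfl, hpa⟩
    obtain ⟨h1, h2, h3⟩ := hA1 a ha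
    have : x = a.2.2 := hW.func _ _ p hx (hW.mono _ _ _ hpa h1)
    rw [this]
    exact hR _ _ _ _ hpa h2
  · rintro y p ⟨a, ha, rfl, hpa⟩
    obtain ⟨h1, h2, h3⟩ := hA1 a ha
    exact ⟨a.2.2, hW.mono _ _ _ hpa h1⟩

end DC

/-- Dependent choice for names: a sequence of names for states `Z k`, with decided values on
dense sets below `q`. -/
theorem exists_dc {P : Type} [Preorder P] {X : Type} (Inv : X → P → Prop) (R : X → X → P → Prop)
    (hInv : ∀ x p r, r ≤ p → Inv x p → Inv x r)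
    (hR : ∀ x y p r, r ≤ p → R x y p → R x y r) (q : P) (x₀ : X) (h0 : Inv x₀ q)
    (hstep : ∀ x, ∀ p ≤ q, Inv x p → ∃ r ≤ p, ∃ y, R x y r ∧ Inv y r) :
    ∃ Z : ℕ → X → P → Prop, (∀ k x p r, r ≤ p → Z k x p → Z k x r) ∧
      (∀ k x y p, Z k x p → Z k y p → x = y) ∧ (∀ k, ∀ p ≤ q, ∃ r ≤ p, ∃ x, Z k x r) ∧
      (∀ p, p ≤ q → Z 0 x₀ p) ∧ (∀ k x p, Z k x p → p ≤ q ∧ Inv x p) ∧
      (∀ k x y p, Z k x p → Z (k + 1) y p → R x y p) ∧
      (∀ k y p, Z (k + 1) y p → ∃ x, Z k x p) := by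
  classical
  have hW0 : GoodNm Inv q (fun x p => x = x₀ ∧ p ≤ q) := by
    refine ⟨?_, ?_, ?_, ?_⟩
    · rintro x p r hr ⟨rfl, hp⟩
      exact ⟨rfl, hr.trans hp⟩
    · rintro x y p ⟨rfl, -⟩ ⟨rfl, -⟩
      rfl
    · intro p hp
      exact ⟨p, le_rfl, x₀, rfl, hp⟩
    · rintro x p ⟨rfl, hp⟩
      exact ⟨hp, hInv _ _ _ hp h0⟩
  choose! F hF1 hF2 hF3 using good_step Inv R hInv hR q hstep
  let Z : ℕ → {W : X → P → Prop // GoodNm Inv q W} :=
    fun n => Nat.rec ⟨_, hW0⟩ (fun _ W => ⟨F W.1, hF1 W.1 W.2⟩) n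
  refine ⟨fun k => (Z k).1, fun k => (Z k).2.mono, fun k => (Z k).2.func,
    fun k => (Z k).2.dense, fun p hp => ⟨rfl, hp⟩, fun k => (Z k).2.inv, ?_, ?_⟩
  · intro k x y p
    exact hF2 (Z k).1 (Z k).2 x y p
  · intro k y p
    exact hF3 (Z k).1 (Z k).2 y p

end MP958

end

section

/-!
# Clean nodes: the finite combinatorics of the upper bound
-/


namespace MP958

open Set

variable (Q : Params)

/-- Comparable sequences. -/
def Comp (u v : List Bool) : Prop := u <+: v ∨ v <+: u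

/-- The clean nodes of stage `t`. -/
def Rset (T : ℕ → List Bool) (m t : ℕ) : Set (List Bool) :=
  {u | u.length = 2 * Q.e t ∧ ∀ j, m ≤ j → j < 2 ^ Q.e t → ¬ Comp (T j) u}

/-- The bad values at stage `t` above `u`, as far as they can be seen from `T` restricted to
the numbers below `N`. -/
def Bfin (T : ℕ → List Bool) (m l t N : ℕ) (u : List Bool) : Set (List Bool) :=
  {x | x.length = Q.L t ∧ ∃ t', Q.ty t' = l ∧ t < t' ∧ 2 ^ Q.e t' ≤ N ∧
    ∀ u' ∈ Rset Q T m t', ¬ (u ++ x) <+: u'}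

variable {Q}

theorem Rset_congr {T T' : ℕ → List Bool} {m t : ℕ} (h : ∀ j, j < 2 ^ Q.e t → T j = T' j) :
    Rset Q T m t = Rset Q T' m t := by
  ext u
  simp only [Rset, mem_setOf_eq]
  refine and_congr_right fun _ => forall_congr' fun j => forall_congr' fun _ =>
    forall_congr' fun hj => ?_
  rw [h j hj]

/-- The words of length `n`. -/
def Wd (n : ℕ) : Finset (List Bool) := Finset.univ.image fun g : Fin n → Bool => List.ofFn g

theorem mem_Wd {n : ℕ} {u : List Bool} : u ∈ Wd n ↔ u.length = n := by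
  simp only [Wd, Finset.mem_image, Finset.mem_univ, true_and]
  constructor
  · rintro ⟨g, rfl⟩
    simp
  · rintro rfl
    exact ⟨fun i => u.get i, List.ofFn_get u⟩

theorem card_Wd (n : ℕ) : (Wd n).card = 2 ^ n := by
  rw [Wd, Finset.card_image_of_injective _ List.ofFn_injective]
  simp

open Classical in
theorem card_ext_le {n : ℕ} {v : List Bool} (hv : v.length ≤ n) :
    ((Wd n).filter fun u => v <+: u).card ≤ 2 ^ (n - v.length) := by
  rw [← card_Wd (n - v.length)]
  refine Finset.card_le_card_of_injOn (fun u => u.drop v.length) ?_ ?_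
  · intro u hu
    simp only [Finset.coe_filter, mem_Wd, mem_setOf_eq] at hu
    simp only [Finset.mem_coe, mem_Wd, List.length_drop, hu.1]
  · intro u hu u' hu' h
    simp only [Finset.coe_filter, mem_Wd, mem_setOf_eq] at hu hu'
    obtain ⟨w, rfl⟩ := hu.2
    obtain ⟨w', rfl⟩ := hu'.2
    simp only [List.drop_left] at h
    rw [h]

open Classical in
theorem card_ext_eq {n : ℕ} {v : List Bool} (hv : v.length ≤ n) :
    ((Wd n).filter fun u => v <+: u).card = 2 ^ (n - v.length) := by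
  refine le_antisymm (card_ext_le hv) ?_
  rw [← card_Wd (n - v.length)]
  refine Finset.card_le_card_of_injOn (fun u => v ++ u) ?_ ?_
  · intro u hu
    simp only [Finset.mem_coe, mem_Wd] at hu
    simp only [Finset.coe_filter, mem_Wd, mem_setOf_eq, List.length_append, hu,
      List.prefix_append, and_true]
    omega
  · intro u _ u' _ h
    exact List.append_cancel_left h

/-- The weight of `s` at `v`. -/
noncomputable def wt (s v : List Bool) : ℝ := by
  classical exact if Comp s v then min ((1 / 2) ^ s.length) ((1 / 2) ^ v.length) else 0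

theorem wt_nonneg (s v : List Bool) : 0 ≤ wt s v := by
  unfold wt
  split_ifs <;> positivity

theorem comp_of_prefix {s u v : List Bool} (h : Comp s v) (huv : u <+: v) : Comp s u := by
  rcases h with h | h
  · rcases List.prefix_or_prefix_of_prefix h huv with h' | h'
    · exact Or.inl h'
    · exact Or.inr h'
  · exact Or.inr (huv.trans h)

open Classical in
theorem card_cmp_le {n : ℕ} {s v : List Bool} (hv : v.length ≤ n) :
    (((Wd n).filter fun u => v <+: u ∧ Comp s u).card : ℝ) ≤ 2 ^ n * wt s v + 1 := by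
  by_cases hc : Comp s v
  · have hw : wt s v = min ((1 / 2) ^ s.length) ((1 / 2) ^ v.length) := by
      unfold wt; rw [if_pos hc]
    have hpow : ∀ a, a ≤ n → (2 : ℝ) ^ n * (1 / 2) ^ a = 2 ^ (n - a) := by
      intro a ha
      obtain ⟨b, rfl⟩ := Nat.exists_eq_add_of_le ha
      rw [Nat.add_sub_cancel_left, pow_add, one_div, inv_pow]
      field_simp
    rcases le_total s.length v.length with h1 | h1
    · -- at most `2 ^ (n - |v|)` words
      have h2 : ((1 / 2 : ℝ)) ^ v.length ≤ (1 / 2) ^ s.length :=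
        pow_le_pow_of_le_one (by norm_num) (by norm_num) h1
      rw [hw, min_eq_right h2, hpow _ hv]
      have h3 : ((Wd n).filter fun u => v <+: u ∧ Comp s u).card ≤ 2 ^ (n - v.length) :=
        (Finset.card_le_card fun u hu => by
          simp only [Finset.mem_filter] at hu ⊢; exact ⟨hu.1, hu.2.1⟩).trans (card_ext_le hv)
      have h4 : (((Wd n).filter fun u => v <+: u ∧ Comp s u).card : ℝ) ≤ 2 ^ (n - v.length) := by
        exact_mod_cast h3
      linarith
    · have h2 : ((1 / 2 : ℝ)) ^ s.length ≤ (1 / 2) ^ v.length :=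
        pow_le_pow_of_le_one (by norm_num) (by norm_num) h1
      rw [hw, min_eq_left h2]
      rcases le_or_gt s.length n with h3 | h3
      · rw [hpow _ h3]
        have h4 : ((Wd n).filter fun u => v <+: u ∧ Comp s u).card ≤ 2 ^ (n - s.length) := by
          refine (Finset.card_le_card fun u hu => ?_).trans (card_ext_le h3)
          simp only [Finset.mem_filter, mem_Wd] at hu ⊢
          refine ⟨hu.1, ?_⟩
          rcases hu.2.2 with h | h
          · exact h
          · have : u = s := h.eq_of_length_le (by omega)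
            rw [this]
        have h5 : (((Wd n).filter fun u => v <+: u ∧ Comp s u).card : ℝ) ≤ 2 ^ (n - s.length) := by
          exact_mod_cast h4
        linarith
      · have h4 : ((Wd n).filter fun u => v <+: u ∧ Comp s u).card ≤ 1 := by
          rw [Finset.card_le_one]
          have key : ∀ u, u ∈ ((Wd n).filter fun u => v <+: u ∧ Comp s u) → u = s.take n := by
            intro u hu
            simp only [Finset.mem_filter, mem_Wd] at hu
            rcases hu.2.2 with h | h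
            · have := h.length_le
              omega
            · rw [← hu.1]
              exact List.prefix_iff_eq_take.1 h
          intro a ha b hb
          rw [key a ha, key b hb]
        have h5 : (((Wd n).filter fun u => v <+: u ∧ Comp s u).card : ℝ) ≤ 1 := by
          exact_mod_cast h4
        have h6 : (0 : ℝ) ≤ 2 ^ n * (1 / 2) ^ s.length := by positivity
        linarith
  · have : ((Wd n).filter fun u => v <+: u ∧ Comp s u) = ∅ := by
      refine Finset.filter_eq_empty_iff.2 fun u _ hu => hc (comp_of_prefix hu.2 hu.1)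
    rw [this]
    have := wt_nonneg s v
    simp only [Finset.card_empty, Nat.cast_zero]
    positivity

/-- The total weight of `s` at words of the same length. -/
theorem sum_wt_le {n : ℕ} (s : List Bool) (V : Finset (List Bool)) (hV : ∀ v ∈ V, v.length = n) :
    ∑ v ∈ V, wt s v ≤ (1 / 2) ^ s.length := by
  classical
  have h0 : ∑ v ∈ V, wt s v = ∑ v ∈ V.filter (fun v => Comp s v), wt s v := by
    rw [Finset.sum_filter]
    refine Finset.sum_congr rfl fun v _ => ?_
    unfold wt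
    split_ifs <;> rfl
  rw [h0]
  have h1 : ∀ v ∈ V.filter (fun v => Comp s v), wt s v = min ((1 / 2) ^ s.length) ((1 / 2) ^ n) := by
    intro v hv
    rw [Finset.mem_filter] at hv
    unfold wt
    rw [if_pos hv.2, hV v hv.1]
  rw [Finset.sum_congr rfl h1, Finset.sum_const, nsmul_eq_mul]
  rcases le_or_gt n s.length with h2 | h2
  · have h3 : (V.filter (fun v => Comp s v)).card ≤ 1 := by
      rw [Finset.card_le_one]
      have key : ∀ u, u ∈ V.filter (fun v => Comp s v) → u = s.take n := by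
        intro u hu
        rw [Finset.mem_filter] at hu
        have hl := hV u hu.1
        rcases hu.2 with h | h
        · have h4 : s = u := h.eq_of_length_le (by omega)
          rw [h4, List.take_of_length_le (by omega)]
        · rw [← hl]
          exact List.prefix_iff_eq_take.1 h
      intro a ha b hb
      rw [key a ha, key b hb]
    have h4 : ((V.filter (fun v => Comp s v)).card : ℝ) ≤ 1 := by exact_mod_cast h3
    calc _ ≤ 1 * min ((1 / 2 : ℝ) ^ s.length) ((1 / 2) ^ n) := by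
          refine mul_le_mul_of_nonneg_right h4 (by positivity)
      _ ≤ _ := by rw [one_mul]; exact min_le_left _ _
  · have h3 : (V.filter (fun v => Comp s v)).card ≤ 2 ^ (n - s.length) := by
      refine (Finset.card_le_card fun u hu => ?_).trans (card_ext_le (v := s) h2.le)
      rw [Finset.mem_filter] at hu
      simp only [Finset.mem_filter, mem_Wd]
      have hl := hV u hu.1
      refine ⟨hl, ?_⟩
      rcases hu.2 with h | h
      · exact h
      · have := h.length_le
        omega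
    have h4 : ((V.filter (fun v => Comp s v)).card : ℝ) ≤ 2 ^ (n - s.length) := by
      exact_mod_cast h3
    calc _ ≤ 2 ^ (n - s.length) * min ((1 / 2 : ℝ) ^ s.length) ((1 / 2) ^ n) := by
          refine mul_le_mul_of_nonneg_right h4 (by positivity)
      _ ≤ 2 ^ (n - s.length) * (1 / 2 : ℝ) ^ n :=
          mul_le_mul_of_nonneg_left (min_le_right _ _) (by positivity)
      _ = _ := by
          obtain ⟨b, rfl⟩ := Nat.exists_eq_add_of_le h2.le
          rw [Nat.add_sub_cancel_left, pow_add, one_div, inv_pow, inv_pow]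
          field_simp

theorem sum_geom_le (a : ℕ) (g : ℕ → ℕ) (hg : StrictMono g) (J : Finset ℕ)
    (hJ : ∀ j ∈ J, a ≤ j) : ∑ j ∈ J, (1 / 2 : ℝ) ^ g j ≤ 2 * (1 / 2) ^ g a := by
  have h1 : ∀ j ∈ J, (1 / 2 : ℝ) ^ g j ≤ (1 / 2) ^ g a * (1 / 2) ^ (j - a) := by
    intro j hj
    rw [← pow_add]
    refine pow_le_pow_of_le_one (by norm_num) (by norm_num) ?_
    obtain ⟨b, rfl⟩ := Nat.exists_eq_add_of_le (hJ j hj)
    rw [Nat.add_sub_cancel_left, add_comm a b, add_comm (g a) b]
    exact hg.add_le_nat b a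
  calc ∑ j ∈ J, (1 / 2 : ℝ) ^ g j ≤ ∑ j ∈ J, (1 / 2 : ℝ) ^ g a * (1 / 2) ^ (j - a) :=
        Finset.sum_le_sum h1
    _ = (1 / 2 : ℝ) ^ g a * ∑ j ∈ J, (1 / 2 : ℝ) ^ (j - a) := by rw [Finset.mul_sum]
    _ ≤ (1 / 2 : ℝ) ^ g a * 2 := by
        refine mul_le_mul_of_nonneg_left ?_ (by positivity)
        have h2 : ∑ j ∈ J, (1 / 2 : ℝ) ^ (j - a) = ∑ i ∈ J.image (fun j => j - a), (1 / 2 : ℝ) ^ i := by
          rw [Finset.sum_image]
          intro x hx y hy h
          have h3 := hJ x hx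
          have h4 := hJ y hy
          simp only at h
          omega
        rw [h2]
        have h5 := (summable_geometric_two).sum_le_tsum (J.image (fun j => j - a))
          (fun i _ => by positivity)
        rw [tsum_geometric_two] at h5
        exact h5
    _ = _ := by ring

theorem card_Bfin {T : ℕ → List Bool} {m l t N : ℕ} {u : List Bool}
    (hT : ∀ j, m ≤ j → j < N → Q.f l j ≤ (T j).length) (ht : Q.ty t = l)
    (hu : u ∈ Rset Q T m t) (X : Finset (List Bool)) (hX : ∀ x ∈ X, x ∈ Bfin Q T m l t N u) :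
    X.card ≤ Q.H 0 t := by
  classical
  set ℓ := 2 * Q.e t + Q.L t with hℓ
  set J : Finset ℕ := (Finset.range N).filter fun j => m ≤ j ∧ 2 ^ Q.e t ≤ j with hJ
  -- the key estimate for one word
  have key : ∀ x ∈ X, (1 / 2 : ℝ) ^ (ℓ + 1) ≤ ∑ j ∈ J, wt (T j) (u ++ x) := by
    intro x hx
    obtain ⟨hxl, t', ht', htt, htN, hbad⟩ := hX x hx
    set n := 2 * Q.e t' with hn
    have hvl : (u ++ x).length = ℓ := by rw [List.length_append, hu.1, hxl]
    have hstep := Q.e_step t t' htt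
    have hvn : (u ++ x).length ≤ n := by omega
    set J' : Finset ℕ := (Finset.range (2 ^ Q.e t')).filter fun j => m ≤ j ∧ 2 ^ Q.e t ≤ j with hJ'
    have hcov : ((Wd n).filter fun w => (u ++ x) <+: w) ⊆
        J'.biUnion fun j => (Wd n).filter fun w => (u ++ x) <+: w ∧ Comp (T j) w := by
      intro w hw
      rw [Finset.mem_filter, mem_Wd] at hw
      have h1 : w ∉ Rset Q T m t' := fun h => hbad w h hw.2
      simp only [Rset, mem_setOf_eq, not_and, not_forall, not_not] at h1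
      obtain ⟨j, hmj, hjt, hc⟩ := h1 hw.1
      rw [Finset.mem_biUnion]
      refine ⟨j, ?_, ?_⟩
      · rw [hJ', Finset.mem_filter, Finset.mem_range]
        refine ⟨hjt, hmj, ?_⟩
        by_contra hlt
        push Not at hlt
        exact hu.2 j hmj hlt (comp_of_prefix hc ((List.prefix_append u x).trans hw.2))
      · rw [Finset.mem_filter, mem_Wd]
        exact ⟨hw.1, hw.2, hc⟩
    have h2 : ((2 : ℝ)) ^ (n - ℓ) ≤ ∑ j ∈ J', (2 ^ n * wt (T j) (u ++ x) + 1) := by
      have h3 : 2 ^ (n - ℓ) ≤ ∑ j ∈ J', ((Wd n).filter fun w => (u ++ x) <+: w ∧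
          Comp (T j) w).card := by
        rw [← hvl, ← card_ext_eq hvn]
        exact (Finset.card_le_card hcov).trans Finset.card_biUnion_le
      have h4 : ((2 : ℝ)) ^ (n - ℓ) ≤ ∑ j ∈ J', (((Wd n).filter fun w => (u ++ x) <+: w ∧
          Comp (T j) w).card : ℝ) := by exact_mod_cast h3
      exact h4.trans (Finset.sum_le_sum fun j _ => card_cmp_le hvn)
    rw [Finset.sum_add_distrib, ← Finset.mul_sum, Finset.sum_const, nsmul_eq_mul, mul_one] at h2
    have h5 : (J'.card : ℝ) ≤ 2 ^ Q.e t' := by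
      have : J'.card ≤ 2 ^ Q.e t' := (Finset.card_filter_le _ _).trans (by simp)
      exact_mod_cast this
    have h6 : ∑ j ∈ J', wt (T j) (u ++ x) ≤ ∑ j ∈ J, wt (T j) (u ++ x) := by
      refine Finset.sum_le_sum_of_subset_of_nonneg ?_ fun j _ _ => wt_nonneg _ _
      intro j hj
      rw [hJ', Finset.mem_filter, Finset.mem_range] at hj
      rw [hJ, Finset.mem_filter, Finset.mem_range]
      exact ⟨hj.1.trans_le htN, hj.2⟩
    have h7 : (2 : ℝ) ^ n * ∑ j ∈ J', wt (T j) (u ++ x) ≤ 2 ^ n * ∑ j ∈ J, wt (T j) (u ++ x) :=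
      mul_le_mul_of_nonneg_left h6 (by positivity)
    -- `2 ^ (e t') ≤ 2 ^ (n - ℓ - 1)`
    have h8 : (2 : ℝ) ^ Q.e t' ≤ 2 ^ (n - ℓ - 1) :=
      pow_le_pow_right₀ (by norm_num) (by omega)
    have h9 : (2 : ℝ) ^ (n - ℓ) = 2 ^ (n - ℓ - 1) * 2 := by
      rw [← pow_succ]
      congr 1
      omega
    have h10 : (2 : ℝ) ^ (n - ℓ - 1) ≤ 2 ^ n * ∑ j ∈ J, wt (T j) (u ++ x) := by linarith
    have h11 : (2 : ℝ) ^ n * (1 / 2) ^ (ℓ + 1) = 2 ^ (n - ℓ - 1) := by
      obtain ⟨b, hb⟩ : ∃ b, n = (ℓ + 1) + b := ⟨n - ℓ - 1, by omega⟩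
      rw [hb, show ℓ + 1 + b - ℓ - 1 = b by omega, pow_add, one_div, inv_pow]
      field_simp
    rw [← h11] at h10
    exact le_of_mul_le_mul_left h10 (by positivity)
  have hsum : (X.card : ℝ) * (1 / 2) ^ (ℓ + 1) ≤ 2 * (1 / 2) ^ Q.f l (2 ^ Q.e t) := by
    calc (X.card : ℝ) * (1 / 2) ^ (ℓ + 1) = ∑ _x ∈ X, (1 / 2 : ℝ) ^ (ℓ + 1) := by
          rw [Finset.sum_const, nsmul_eq_mul]
      _ ≤ ∑ x ∈ X, ∑ j ∈ J, wt (T j) (u ++ x) := Finset.sum_le_sum key
      _ = ∑ j ∈ J, ∑ x ∈ X, wt (T j) (u ++ x) := Finset.sum_comm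
      _ ≤ ∑ j ∈ J, (1 / 2 : ℝ) ^ (T j).length := by
          refine Finset.sum_le_sum fun j _ => ?_
          have h1 : ∑ x ∈ X, wt (T j) (u ++ x) = ∑ v ∈ X.image (fun x => u ++ x), wt (T j) v := by
            rw [Finset.sum_image]
            intro a _ b _ h
            exact List.append_cancel_left h
          rw [h1]
          refine sum_wt_le (n := ℓ) _ _ ?_
          intro v hv
          obtain ⟨x, hx, rfl⟩ := Finset.mem_image.1 hv
          rw [List.length_append, hu.1, (hX x hx).1]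
      _ ≤ ∑ j ∈ J, (1 / 2 : ℝ) ^ Q.f l j := by
          refine Finset.sum_le_sum fun j hj => ?_
          rw [hJ, Finset.mem_filter, Finset.mem_range] at hj
          exact pow_le_pow_of_le_one (by norm_num) (by norm_num) (hT j hj.2.1 hj.1)
      _ ≤ _ := sum_geom_le _ _ (Q.f_mono l) _ fun j hj => by
          rw [hJ, Finset.mem_filter] at hj
          exact hj.2.2
  have hc := Q.count t
  rw [ht] at hc
  have hmain : X.card * 2 ^ Q.f l (2 ^ Q.e t) ≤ 2 ^ (ℓ + 2) := by
    have h1 : (X.card : ℝ) * 2 ^ Q.f l (2 ^ Q.e t) ≤ 2 ^ (ℓ + 2) := by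
      have h2 := mul_le_mul_of_nonneg_right hsum
        (show (0 : ℝ) ≤ 2 ^ (ℓ + 1) * 2 ^ Q.f l (2 ^ Q.e t) by positivity)
      have h3 : (X.card : ℝ) * (1 / 2) ^ (ℓ + 1) * (2 ^ (ℓ + 1) * 2 ^ Q.f l (2 ^ Q.e t))
          = X.card * 2 ^ Q.f l (2 ^ Q.e t) := by
        rw [one_div, inv_pow]; field_simp
      have h4 : 2 * (1 / 2 : ℝ) ^ Q.f l (2 ^ Q.e t) * (2 ^ (ℓ + 1) * 2 ^ Q.f l (2 ^ Q.e t))
          = 2 ^ (ℓ + 2) := by
        rw [one_div, inv_pow]; field_simp; ring
      rw [h3, h4] at h2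
      exact h2
    exact_mod_cast h1
  exact le_of_mul_le_mul_right (hmain.trans hc) (by positivity)

theorem exists_clean {T : ℕ → List Bool} {m l t : ℕ} (hm : 2 ≤ m)
    (hT : ∀ j, m ≤ j → j < 2 ^ Q.e t → Q.f l j ≤ (T j).length) :
    ∃ u, u ∈ Rset Q T m t := by
  classical
  by_contra hcon
  push Not at hcon
  set n := 2 * Q.e t with hn
  set J : Finset ℕ := (Finset.range (2 ^ Q.e t)).filter fun j => m ≤ j with hJ
  have he := Q.e_ge t
  have hcov : ((Wd n).filter fun w => [] <+: w) ⊆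
      J.biUnion fun j => (Wd n).filter fun w => [] <+: w ∧ Comp (T j) w := by
    intro w hw
    rw [Finset.mem_filter, mem_Wd] at hw
    have h1 := hcon w
    simp only [Rset, mem_setOf_eq, not_and, not_forall, not_not] at h1
    obtain ⟨j, hmj, hjt, hc⟩ := h1 hw.1
    rw [Finset.mem_biUnion]
    refine ⟨j, ?_, ?_⟩
    · rw [hJ, Finset.mem_filter, Finset.mem_range]
      exact ⟨hjt, hmj⟩
    · rw [Finset.mem_filter, mem_Wd]
      exact ⟨hw.1, hw.2, hc⟩
  have h2 : ((2 : ℝ)) ^ n ≤ ∑ j ∈ J, (2 ^ n * wt (T j) [] + 1) := by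
    have h3 : 2 ^ (n - ([] : List Bool).length) ≤ ∑ j ∈ J, ((Wd n).filter fun w => [] <+: w ∧
        Comp (T j) w).card := by
      rw [← card_ext_eq (v := []) (n := n) (by simp)]
      exact (Finset.card_le_card hcov).trans Finset.card_biUnion_le
    simp only [List.length_nil, Nat.sub_zero] at h3
    have h4 : ((2 : ℝ)) ^ n ≤ ∑ j ∈ J, (((Wd n).filter fun w => [] <+: w ∧
        Comp (T j) w).card : ℝ) := by exact_mod_cast h3
    exact h4.trans (Finset.sum_le_sum fun j _ => card_cmp_le (by simp))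
  rw [Finset.sum_add_distrib, ← Finset.mul_sum, Finset.sum_const, nsmul_eq_mul, mul_one] at h2
  have h5 : (J.card : ℝ) ≤ 2 ^ Q.e t := by
    have : J.card ≤ 2 ^ Q.e t := (Finset.card_filter_le _ _).trans (by simp)
    exact_mod_cast this
  have h6 : ∑ j ∈ J, wt (T j) [] ≤ ∑ j ∈ J, (1 / 2 : ℝ) ^ Q.f l j := by
    refine Finset.sum_le_sum fun j hj => ?_
    rw [hJ, Finset.mem_filter, Finset.mem_range] at hj
    have h7 : wt (T j) [] ≤ (1 / 2) ^ (T j).length := by
      have := sum_wt_le (n := 0) (T j) {[]} (by simp)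
      simpa using this
    exact h7.trans (pow_le_pow_of_le_one (by norm_num) (by norm_num) (hT j hj.2 hj.1))
  have h8 : ∑ j ∈ J, (1 / 2 : ℝ) ^ Q.f l j ≤ 2 * (1 / 2) ^ Q.f l 2 :=
    sum_geom_le _ _ (Q.f_mono l) _ fun j hj => by
      rw [hJ, Finset.mem_filter] at hj
      exact hm.trans hj.2
  have h9 : (1 / 2 : ℝ) ^ Q.f l 2 ≤ (1 / 2) ^ 2 :=
    pow_le_pow_of_le_one (by norm_num) (by norm_num) (Q.f_mono l).le_apply
  have h10 : ∑ j ∈ J, wt (T j) [] ≤ 1 / 2 := by
    have : 2 * (1 / 2 : ℝ) ^ 2 = 1 / 2 := by norm_num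
    linarith
  have h11 : (2 : ℝ) ^ n * ∑ j ∈ J, wt (T j) [] ≤ 2 ^ n * (1 / 2) :=
    mul_le_mul_of_nonneg_left h10 (by positivity)
  have h12 : (2 : ℝ) ^ n = 2 ^ Q.e t * 2 ^ Q.e t := by
    rw [hn, two_mul, pow_add]
  have h13 : (4 : ℝ) ≤ 2 ^ Q.e t := by
    calc (4 : ℝ) = 2 ^ 2 := by norm_num
      _ ≤ 2 ^ Q.e t := pow_le_pow_right₀ (by norm_num) (by omega)
  nlinarith

end MP958

end

section

/-!
# One-step extensions of stems
-/


namespace MP958

open Set

variable {K Θ : Type} [LinearOrder Θ] [WellFoundedLT Θ]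
  {Q : Params} {rk : K → ℕ} {nm : Θ → Nm K Θ}

open Classical in
/-- Adding atoms at the coordinate `c`. -/
theorem one_add_mem {ξ : WithTop Θ} {c : Θ} (hc : (c : WithTop Θ) < ξ) {q T : Cond K Θ}
    (hq : q ∈ PT Q rk nm ξ) (hT : ∀ a ∈ T, a.crd = some c)
    (hok : OKat Q rk (nm c) c (Pst Q rk nm c) (q ∪ T)) : q ∪ T ∈ PT Q rk nm ξ := by
  rw [PT_iff]
  refine ⟨⟨?_, ?_, ?_⟩, ?_, ?_⟩
  · intro α t x y h1 h2
    refine (PT.coh hq).uniq α t x y ?_ ?_
    · rcases Finset.mem_union.1 h1 with h | h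
      · exact h
      · exact absurd (hT _ h) (by simp [Atom.crd])
    · rcases Finset.mem_union.1 h2 with h | h
      · exact h
      · exact absurd (hT _ h) (by simp [Atom.crd])
  · intro α t x h1
    refine (PT.coh hq).ty α t x ?_
    rcases Finset.mem_union.1 h1 with h | h
    · exact h
    · exact absurd (hT _ h) (by simp [Atom.crd])
  · intro α t x h1
    refine (PT.coh hq).len α t x ?_
    rcases Finset.mem_union.1 h1 with h | h
    · exact h
    · exact absurd (hT _ h) (by simp [Atom.crd])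
  · intro a ha d hd
    rcases Finset.mem_union.1 ha with h | h
    · exact (PT_iff.1 hq).2.1 a h d hd
    · have := hT a h
      rw [hd] at this
      cases this
      exact hc
  · intro d
    by_cases hdc : d = c
    · subst hdc
      exact hok
    · refine (PT.okat hq d).congr ?_ (res_mono Finset.subset_union_left d)
      intro a ha
      rw [Finset.mem_union]
      refine ⟨Or.inl, fun h => h.elim id fun h => ?_⟩
      have := hT a h
      rw [ha] at this
      cases this
      exact absurd rfl hdc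

/-- The atoms of conditions below `c` have coordinates below `c`. -/
theorem crd_lt {c : Θ} {r : Cond K Θ} (hr : r ∈ PT Q rk nm c) {a : Atom K Θ} (ha : a ∈ r) {d : Θ}
    (hd : a.crd = some d) : d < c :=
  WithTop.coe_lt_coe.1 ((PT_iff.1 hr).2.1 a ha d hd)

theorem subset_res {c : Θ} {r p : Cond K Θ} (hr : r ∈ PT Q rk nm c) (h : r ⊆ p) :
    r ⊆ res p c :=
  fun _ ha => mem_res.2 ⟨h ha, fun _ hd => crd_lt hr ha hd⟩

/-- Deciding finitely many names. -/
theorem decide_names {c : Θ} {nm' : Nm K Θ} {p : Cond K Θ} (hp : p ∈ Pst Q rk nm c) (j : ℕ)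
    (A : Set (List Bool)) (F : Finset K)
    (hF : ∀ ζ ∈ F, Fc (Pst Q rk nm c) p nm' ζ j A) :
    ∃ r ∈ Pst Q rk nm c, p ⊆ r ∧ ∀ ζ ∈ F, ∃ a u v, nm'.2 ζ j a = some (u, v) ∧ u ⊆ r ∧ v ∈ A := by
  classical
  induction F using Finset.induction_on with
  | empty => exact ⟨p, hp, subset_rfl, by simp⟩
  | insert ζ F hζ ih =>
    obtain ⟨r, hr, hpr, h⟩ := ih fun ζ' h' => hF ζ' (Finset.mem_insert_of_mem h')
    obtain ⟨r', hr', hrr', a, u, v, h1, h2, h3⟩ := hF ζ (Finset.mem_insert_self _ _) r hr hpr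
    refine ⟨r', hr', hpr.trans hrr', fun ζ' h' => ?_⟩
    rcases Finset.mem_insert.1 h' with rfl | h'
    · exact ⟨a, u, v, h1, h2, h3⟩
    · obtain ⟨a, u, v, h4, h5, h6⟩ := h ζ' h'
      exact ⟨a, u, v, h4, h5.trans hrr', h6⟩

open Classical in
/-- Adding one set to the stem, with a possibly larger `k`. -/
theorem one_extend {ξ : WithTop Θ} {c : Θ} (hc : (c : WithTop Θ) < ξ) {p : Cond K Θ}
    (hp : p ∈ PT Q rk nm ξ) (K' : ℕ) (hK : ∀ j k S, Atom.stm c j k S ∈ p → k ≤ K')
    (hl : ∀ ζ i, Atom.pro c ζ i ∈ p → ∀ j, slen c p ≤ j →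
      Fc (Pst Q rk nm c) (res p c) (nm c) ζ j {v | Q.f (nm c).1 (j ^ K') ≤ v.length}) :
    ∃ r ∈ PT Q rk nm c, res p c ⊆ r ∧ ∃ S,
      r ∪ p ∪ {Atom.stm c (slen c p) K' S} ∈ PT Q rk nm ξ := by
  set L := slen c p with hL
  set F : Finset K := (proms_finite c p).toFinset with hF
  obtain ⟨r, hr, hpr, hdec⟩ := decide_names (res_mem hp c) L
    {v | Q.f (nm c).1 (L ^ K') ≤ v.length} F (by
      intro ζ hζ
      obtain ⟨i, hi⟩ := (Set.Finite.mem_toFinset _).1 hζ
      exact hl ζ i hi L le_rfl)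
  have hr' : r ∈ PT Q rk nm c := by rwa [← Pst_eq]
  have hdec' : ∀ ζ, ∃ v : List Bool, ζ ∈ F → ∃ a u, (nm c).2 ζ L a = some (u, v) ∧ u ⊆ r ∧
      Q.f (nm c).1 (L ^ K') ≤ v.length := by
    intro ζ
    by_cases hζ : ζ ∈ F
    · obtain ⟨a, u, v, h1, h2, h3⟩ := hdec ζ hζ
      exact ⟨v, fun _ => ⟨a, u, h1, h2, h3⟩⟩
    · exact ⟨[], fun h => absurd h hζ⟩
  choose V hV using hdec'
  set S : Finset (List Bool) := F.image fun ζ => (V ζ).take (Q.f (nm c).1 (L ^ K')) with hS
  have hq0 : r ∪ p ∈ PT Q rk nm ξ := join_mem hp hr' hc.le hpr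
  refine ⟨r, hr', hpr, S, ?_⟩
  refine one_add_mem hc hq0 (by simp [Atom.crd]) ?_
  set U := r ∪ p ∪ {Atom.stm c L K' S} with hU
  have hstm : ∀ j k S', Atom.stm c j k S' ∈ U ↔
      Atom.stm c j k S' ∈ p ∨ (j = L ∧ k = K' ∧ S' = S) := by
    intro j k S'
    rw [hU, Finset.mem_union, Finset.mem_union, Finset.mem_singleton]
    constructor
    · rintro ((h | h) | h)
      · exact absurd (crd_lt hr' h rfl) (lt_irrefl _)
      · exact Or.inl h
      · injection h with _ h1 h2 h3
        exact Or.inr ⟨h1, h2, h3⟩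
    · rintro (h | ⟨rfl, rfl, rfl⟩)
      · exact Or.inl (Or.inr h)
      · exact Or.inr rfl
  have hpro : ∀ ζ i, Atom.pro c ζ i ∈ U ↔ Atom.pro c ζ i ∈ p := by
    intro ζ i
    rw [hU, Finset.mem_union, Finset.mem_union, Finset.mem_singleton]
    constructor
    · rintro ((h | h) | h)
      · exact absurd (crd_lt hr' h rfl) (lt_irrefl _)
      · exact h
      · cases h
    · intro h
      exact Or.inl (Or.inr h)
  have hlen : slen c U = L + 1 := by
    apply le_antisymm
    · refine slen_le fun j k S' h => ?_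
      rcases (hstm j k S').1 h with h | ⟨rfl, _⟩
      · have := lt_slen h
        omega
      · omega
    · exact lt_slen ((hstm L K' S).2 (Or.inr ⟨rfl, rfl, rfl⟩))
  have hproms : proms c U = proms c p := by
    ext ζ
    exact exists_congr fun i => hpro ζ i
  have hpU : p ⊆ U := fun a ha => by
    rw [hU, Finset.mem_union, Finset.mem_union]
    exact Or.inl (Or.inr ha)
  have hrU : r ⊆ res U c := subset_res hr' fun a ha => by
    rw [hU, Finset.mem_union, Finset.mem_union]
    exact Or.inl (Or.inl ha)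
  have hok := PT.okat hp c
  have hcnt : F.card ≤ L := by
    have := hok.cnt
    rwa [Set.ncard_eq_toFinset_card _ (proms_finite c p)] at this
  constructor
  · constructor
    · intro j k S1 k' S1' h1 h2
      rcases (hstm _ _ _).1 h1 with g1 | ⟨g1, g2, g3⟩ <;>
        rcases (hstm _ _ _).1 h2 with g4 | ⟨g4, g5, g6⟩
      · exact hok.stem.uniq j k S1 k' S1' g1 g4
      · have := lt_slen g1
        omega
      · have := lt_slen g4
        omega
      · exact ⟨g2.trans g5.symm, g3.trans g6.symm⟩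
    · intro j hj
      rw [hlen] at hj
      rcases Nat.lt_succ_iff_lt_or_eq.1 hj with hj | rfl
      · obtain ⟨k, S1, h⟩ := hok.stem.tot j hj
        exact ⟨k, S1, hpU h⟩
      · exact ⟨K', S, (hstm _ _ _).2 (Or.inr ⟨rfl, rfl, rfl⟩)⟩
    · intro j k S1 j' k' S1' h1 h2 hjj
      rcases (hstm _ _ _).1 h1 with g1 | ⟨g1, g2, g3⟩ <;>
        rcases (hstm _ _ _).1 h2 with g4 | ⟨g4, g5, g6⟩
      · exact hok.stem.mono _ _ _ _ _ _ g1 g4 hjj
      · rw [g5]
        exact hK _ _ _ g1
      · have := lt_slen g4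
        omega
      · rw [g2, g5]
    · intro j k S1 h1
      rcases (hstm _ _ _).1 h1 with h1 | ⟨rfl, rfl, rfl⟩
      · exact hok.stem.card j k S1 h1
      · exact Finset.card_image_le.trans hcnt
    · intro j k S1 h1 w hw
      rcases (hstm _ _ _).1 h1 with h1 | ⟨rfl, rfl, rfl⟩
      · exact hok.stem.str j k S1 h1 w hw
      · obtain ⟨ζ, hζ, rfl⟩ := Finset.mem_image.1 hw
        obtain ⟨a, u, h1, h2, h3⟩ := hV ζ hζ
        rw [List.length_take]
        exact min_eq_left h3
  · rw [hproms]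
    exact hok.typ
  · rw [hproms, hlen]
    exact hok.cnt.trans (Nat.le_succ _)
  · intro ζ i j k S1 h1 h2 hij
    have h1' := (hpro _ _).1 h1
    rcases (hstm _ _ _).1 h2 with h2 | ⟨rfl, rfl, rfl⟩
    · exact Fc_mono (res_mono hpU c) (hok.mem ζ i j k S1 h1' h2 hij)
    · intro q hq hUq
      have hζ : ζ ∈ F := (Set.Finite.mem_toFinset _).2 ⟨i, h1'⟩
      obtain ⟨a, u, h3, h4, h5⟩ := hV ζ hζ
      refine ⟨q, hq, subset_rfl, a, u, V ζ, h3, h4.trans (hrU.trans hUq), ?_⟩
      exact ⟨_, Finset.mem_image_of_mem _ hζ, List.take_prefix _ _⟩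
  · intro ζ i j k S1 h1 h2 j' hj'
    have h1' := (hpro _ _).1 h1
    rw [hlen] at hj'
    rcases (hstm _ _ _).1 h2 with h2 | ⟨rfl, rfl, rfl⟩
    · exact Fc_mono (res_mono hpU c) (hok.lng ζ i j k S1 h1' h2 j' (by omega))
    · exact Fc_mono (res_mono hpU c) (hl ζ i h1' j' (by omega))

end MP958

end

section

/-!
# Extending stems
-/


namespace MP958

open Set

variable {K Θ : Type}

open Classical in
/-- The current value of `k` for the stem of `p` at `c`. -/
noncomputable def curK (c : Θ) (p : Cond K Θ) : ℕ :=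
  if h : ∃ k S, Atom.stm c (slen c p - 1) k S ∈ p then h.choose else 0

/-- `s` is a set of stem atoms at `c` for the numbers in `[m, M)`, with constant `k`. -/
def StemExt (f : ℕ → ℕ) (c : Θ) (k m M : ℕ) (s : Cond K Θ) : Prop :=
  (∀ a ∈ s, ∃ j S, a = Atom.stm c j k S ∧ m ≤ j ∧ j < M ∧ S.card ≤ j ∧
    ∀ w ∈ S, w.length = f (j ^ k)) ∧
  ∀ j, m ≤ j → j < M → ∃! S, Atom.stm c j k S ∈ s

/-- All binary strings of length `n`. -/
noncomputable def strs (n : ℕ) : Finset (List Bool) := by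
  classical exact (Finset.univ : Finset (Fin n → Bool)).image List.ofFn

theorem mem_strs {n : ℕ} {w : List Bool} : w ∈ strs n ↔ w.length = n := by
  classical
  simp only [strs, Finset.mem_image, Finset.mem_univ, true_and]
  constructor
  · rintro ⟨g, rfl⟩
    simp
  · rintro rfl
    exact ⟨w.get, List.ofFn_get w⟩

theorem card_strs (n : ℕ) : (strs n).card = 2 ^ n := by
  classical
  rw [strs, Finset.card_image_of_injective _ List.ofFn_injective]
  simp

/-- The number of possible extensions of a stem. -/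
theorem stemExt_card (f : ℕ → ℕ) (c : Θ) (k m M : ℕ) :
    {s : Cond K Θ | StemExt f c k m M s}.Finite ∧
    {s : Cond K Θ | StemExt f c k m M s}.ncard ≤ ∏ j ∈ Finset.range M, 2 ^ 2 ^ f (j ^ k) := by
  classical
  set P : Finset (∀ j ∈ Finset.range M, Finset (List Bool)) :=
    Finset.pi (Finset.range M) fun j => (strs (f (j ^ k))).powerset with hP
  have hcard : P.card = ∏ j ∈ Finset.range M, 2 ^ 2 ^ f (j ^ k) := by
    rw [hP, Finset.card_pi]
    refine Finset.prod_congr rfl fun j _ => ?_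
    rw [Finset.card_powerset, card_strs]
  set F : (∀ j ∈ Finset.range M, Finset (List Bool)) → Cond K Θ := fun G =>
    ((Finset.range M).attach.filter fun j => m ≤ j.1).image
      fun j => Atom.stm c j.1 k (G j.1 j.2) with hF
  have hsub : {s : Cond K Θ | StemExt f c k m M s} ⊆ ↑(P.image F) := by
    intro s hs
    obtain ⟨h1, h2⟩ := hs
    rw [Finset.coe_image]
    have h3 : ∀ j ∈ Finset.range M, ∃ S : Finset (List Bool), (m ≤ j → Atom.stm c j k S ∈ s) ∧
        S ∈ (strs (f (j ^ k))).powerset := by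
      intro j hj
      by_cases hmj : m ≤ j
      · obtain ⟨S, hS, -⟩ := h2 j hmj (Finset.mem_range.1 hj)
        refine ⟨S, fun _ => hS, Finset.mem_powerset.2 fun w hw => mem_strs.2 ?_⟩
        obtain ⟨j', S', h4, -, -, -, h5⟩ := h1 _ hS
        cases h4
        exact h5 w hw
      · exact ⟨∅, fun h => absurd h hmj, by simp⟩
    choose G hG1 hG2 using h3
    refine ⟨G, ?_, ?_⟩
    · simp only [hP, Finset.mem_coe, Finset.mem_pi]
      exact hG2
    · ext a
      simp only [hF, Finset.mem_image, Finset.mem_filter, Finset.mem_attach, true_and,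
        Subtype.exists]
      constructor
      · rintro ⟨j, hj, h4, rfl⟩
        exact hG1 j hj h4
      · intro ha
        obtain ⟨j, S, rfl, h4, h5, -, -⟩ := h1 a ha
        refine ⟨j, Finset.mem_range.2 h5, h4, ?_⟩
        obtain ⟨S', -, hu⟩ := h2 j h4 h5
        rw [hu _ (hG1 j (Finset.mem_range.2 h5) h4), hu _ ha]
  refine ⟨(Finset.finite_toSet _).subset hsub, ?_⟩
  calc {s : Cond K Θ | StemExt f c k m M s}.ncard ≤ (↑(P.image F) : Set (Cond K Θ)).ncard :=
        Set.ncard_le_ncard hsub (Finset.finite_toSet _)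
    _ = (P.image F).card := Set.ncard_coe_finset _
    _ ≤ P.card := Finset.card_image_le
    _ = _ := hcard

theorem StemExt.empty (f : ℕ → ℕ) (c : Θ) (k m : ℕ) : StemExt f c k m m (∅ : Cond K Θ) :=
  ⟨by simp, fun j h1 h2 => by omega⟩

variable [LinearOrder Θ] [WellFoundedLT Θ] {Q : Params} {rk : K → ℕ} {nm : Θ → Nm K Θ}

/-- Changing a condition at a single coordinate. -/
theorem add_mem {ξ : WithTop Θ} {c : Θ} (hc : (c : WithTop Θ) < ξ) {V W : Cond K Θ}
    (hV : V ∈ PT Q rk nm ξ) (hVW : V ⊆ W) (hW : ∀ a ∈ W, a ∉ V → a.crd = some c)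
    (hok : OKat Q rk (nm c) c (Pst Q rk nm c) W) : W ∈ PT Q rk nm ξ := by
  rw [PT_iff] at hV ⊢
  refine ⟨⟨?_, ?_, ?_⟩, ?_, ?_⟩
  · intro α t x y h1 h2
    refine hV.1.uniq α t x y ?_ ?_
    · by_contra h
      simpa [Atom.crd] using hW _ h1 h
    · by_contra h
      simpa [Atom.crd] using hW _ h2 h
  · intro α t x h1
    refine hV.1.ty α t x ?_
    by_contra h
    simpa [Atom.crd] using hW _ h1 h
  · intro α t x h1
    refine hV.1.len α t x ?_
    by_contra h
    simpa [Atom.crd] using hW _ h1 h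
  · intro a ha d hd
    by_cases h : a ∈ V
    · exact hV.2.1 a h d hd
    · rw [hW a ha h] at hd
      cases hd
      exact hc
  · intro d
    rcases eq_or_ne d c with rfl | hdc
    · exact hok
    · refine (hV.2.2 d).congr ?_ (res_mono hVW d)
      intro a ha
      refine ⟨fun h => hVW h, fun h => ?_⟩
      by_contra h'
      rw [hW a h h'] at ha
      cases ha
      exact hdc rfl

open Classical in
theorem extend_one {ξ : WithTop Θ} {c : Θ} (hc : (c : WithTop Θ) < ξ) {p : Cond K Θ}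
    (hp : p ∈ PT Q rk nm ξ) {q : Cond K Θ} (hq : q ∈ PT Q rk nm c) (hqp : res p c ⊆ q) (k : ℕ)
    (hk : ∀ j k' S, Atom.stm c j k' S ∈ p → k' ≤ k)
    (hl : ∀ ζ ∈ proms c p, ∀ j', slen c p ≤ j' →
      Fc (Pst Q rk nm c) q (nm c) ζ j' {v | Q.f (nm c).1 (j' ^ k) ≤ v.length}) :
    ∃ r ∈ PT Q rk nm c, q ⊆ r ∧ ∃ S : Finset (List Bool), S.card ≤ slen c p ∧
      (∀ w ∈ S, w.length = Q.f (nm c).1 (slen c p ^ k)) ∧
      r ∪ p ∪ {Atom.stm c (slen c p) k S} ∈ PT Q rk nm ξ := by
  set ℓ := slen c p with hℓ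
  set f := Q.f (nm c).1 with hf
  have hfin := proms_finite c p
  -- decide the values of the promised names
  have key : ∀ Z : Finset K, (∀ ζ ∈ Z, ζ ∈ proms c p) → ∃ r ∈ PT Q rk nm c, q ⊆ r ∧
      ∀ ζ ∈ Z, ∃ a u v, (nm c).2 ζ ℓ a = some (u, v) ∧ u ⊆ r ∧ f (ℓ ^ k) ≤ v.length := by
    intro Z
    induction Z using Finset.induction_on with
    | empty => exact fun _ => ⟨q, hq, subset_rfl, by simp⟩
    | insert ζ Z hζ ih =>
      intro hZ
      obtain ⟨r, hr, hqr, h1⟩ := ih fun ζ' h => hZ ζ' (Finset.mem_insert_of_mem h)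
      obtain ⟨r', hr', h2, a, u, v, h3, h4, h5⟩ :=
        hl ζ (hZ ζ (Finset.mem_insert_self _ _)) ℓ le_rfl r (by rw [Pst_eq]; exact hr) hqr
      rw [Pst_eq] at hr'
      refine ⟨r', hr', hqr.trans h2, ?_⟩
      intro ζ' hζ'
      rcases Finset.mem_insert.1 hζ' with rfl | h6
      · exact ⟨a, u, v, h3, h4, h5⟩
      · obtain ⟨a, u, v, h7, h8, h9⟩ := h1 ζ' h6
        exact ⟨a, u, v, h7, h8.trans h2, h9⟩
  obtain ⟨r, hr, hqr, hdec⟩ := key hfin.toFinset fun ζ h => hfin.mem_toFinset.1 h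
  have hdec' : ∀ ζ, ∃ v : List Bool, ζ ∈ proms c p → ∃ a u, (nm c).2 ζ ℓ a = some (u, v) ∧
      u ⊆ r ∧ f (ℓ ^ k) ≤ v.length := by
    intro ζ
    by_cases h : ζ ∈ proms c p
    · obtain ⟨a, u, v, h1⟩ := hdec ζ (hfin.mem_toFinset.2 h)
      exact ⟨v, fun _ => ⟨a, u, h1⟩⟩
    · exact ⟨[], fun h' => absurd h' h⟩
  choose val hval using hdec'
  set S : Finset (List Bool) := hfin.toFinset.image fun ζ => (val ζ).take (f (ℓ ^ k)) with hS
  have hScard : S.card ≤ ℓ := by
    calc S.card ≤ hfin.toFinset.card := Finset.card_image_le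
      _ = (proms c p).ncard := (Set.ncard_eq_toFinset_card _ hfin).symm
      _ ≤ ℓ := (PT.okat hp c).cnt
  have hSlen : ∀ w ∈ S, w.length = f (ℓ ^ k) := by
    intro w hw
    obtain ⟨ζ, hζ, rfl⟩ := Finset.mem_image.1 hw
    obtain ⟨a, u, -, -, h1⟩ := hval ζ (hfin.mem_toFinset.1 hζ)
    simp [List.length_take, h1]
  have hV : r ∪ p ∈ PT Q rk nm ξ := join_mem hp hr hc.le (hqp.trans hqr)
  have hrc : ∀ a ∈ r, a.crd ≠ some c := fun a ha h =>
    absurd ((PT_iff.1 hr).2.1 a ha c h) (lt_irrefl _)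
  have hVp : ∀ a : Atom K Θ, a.crd = some c → (a ∈ r ∪ p ↔ a ∈ p) := by
    intro a ha
    rw [Finset.mem_union]
    exact ⟨fun h => h.elim (fun h' => absurd ha (hrc a h')) id, Or.inr⟩
  set W := r ∪ p ∪ {Atom.stm c ℓ k S} with hW
  have hVW : r ∪ p ⊆ W := Finset.subset_union_left
  have hWmem : ∀ a : Atom K Θ, a.crd = some c → (a ∈ W ↔ a ∈ p ∨ a = Atom.stm c ℓ k S) := by
    intro a ha
    rw [hW, Finset.mem_union, Finset.mem_singleton, hVp a ha]
  have hstW : ∀ j k' S', Atom.stm c j k' S' ∈ W ↔ Atom.stm c j k' S' ∈ p ∨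
      (j = ℓ ∧ k' = k ∧ S' = S) := by
    intro j k' S'
    rw [hWmem _ rfl]
    simp only [Atom.stm.injEq, true_and]
  have hprW : ∀ ζ i, Atom.pro c ζ i ∈ W ↔ Atom.pro c ζ i ∈ p := by
    intro ζ i
    rw [hWmem _ rfl]
    simp
  have hpW : proms c W = proms c p := by
    ext ζ
    exact exists_congr fun i => hprW ζ i
  have hslW : slen c W = ℓ + 1 := by
    refine le_antisymm (slen_le fun j k' S' h => ?_) ?_
    · rcases (hstW _ _ _).1 h with h | ⟨h1, -, -⟩
      · exact (lt_slen h).trans (Nat.lt_succ_self _)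
      · omega
    · exact lt_slen ((hstW ℓ k S).2 (Or.inr ⟨rfl, rfl, rfl⟩))
  have hresW : r ⊆ res W c := by
    intro a ha
    refine mem_res.2 ⟨hVW (Finset.mem_union_left _ ha), fun d hd => ?_⟩
    exact WithTop.coe_lt_coe.1 ((PT_iff.1 hr).2.1 a ha d hd)
  have hokp := PT.okat hp c
  refine ⟨r, hr, hqr, S, hScard, hSlen, ?_⟩
  refine add_mem hc hV hVW ?_ ⟨⟨?_, ?_, ?_, ?_, ?_⟩, ?_, ?_, ?_, ?_⟩
  · intro a ha h
    rcases Finset.mem_union.1 ha with h' | h'
    · exact absurd h' h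
    · rw [Finset.mem_singleton.1 h']
      rfl
  · intro j k1 S1 k2 S2 h1 h2
    rcases (hstW _ _ _).1 h1 with h1 | ⟨h3, h4, h5⟩ <;>
      rcases (hstW _ _ _).1 h2 with h2 | ⟨h6, h7, h8⟩
    · exact hokp.stem.uniq j k1 S1 k2 S2 h1 h2
    · have := lt_slen h1
      omega
    · have := lt_slen h2
      omega
    · exact ⟨h4.trans h7.symm, h5.trans h8.symm⟩
  · intro j hj
    rw [hslW] at hj
    rcases Nat.lt_succ_iff_lt_or_eq.1 hj with h | rfl
    · obtain ⟨k', S', h'⟩ := hokp.stem.tot j h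
      exact ⟨k', S', (hstW _ _ _).2 (Or.inl h')⟩
    · exact ⟨k, S, (hstW _ _ _).2 (Or.inr ⟨rfl, rfl, rfl⟩)⟩
  · intro j1 k1 S1 j2 k2 S2 h1 h2 h3
    rcases (hstW _ _ _).1 h1 with h1 | ⟨h4, h5, -⟩ <;>
      rcases (hstW _ _ _).1 h2 with h2 | ⟨h6, h7, -⟩
    · exact hokp.stem.mono j1 k1 S1 j2 k2 S2 h1 h2 h3
    · rw [h7]
      exact hk j1 k1 S1 h1
    · have := lt_slen h2
      omega
    · rw [h5, h7]
  · intro j k1 S1 h1
    rcases (hstW _ _ _).1 h1 with h1 | ⟨h2, h3, h4⟩
    · exact hokp.stem.card j k1 S1 h1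
    · rw [h2, h4]
      exact hScard
  · intro j k1 S1 h1
    rcases (hstW _ _ _).1 h1 with h1 | ⟨h2, h3, h4⟩
    · exact hokp.stem.str j k1 S1 h1
    · rw [h2, h3, h4]
      exact hSlen
  · rw [hpW]
    exact hokp.typ
  · rw [hpW, hslW]
    exact hokp.cnt.trans (Nat.le_succ _)
  · intro ζ i j k1 S1 h1 h2 h3
    have h1' := (hprW _ _).1 h1
    rcases (hstW _ _ _).1 h2 with h2 | ⟨h7, h8, h9⟩
    · exact Fc_mono (res_mono (Finset.subset_union_right.trans hVW) c)
        (hokp.mem ζ i j k1 S1 h1' h2 h3)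
    · rw [h7, h9]
      intro q' hq' hres
      obtain ⟨a, u, h4, h5, h6⟩ := hval ζ ⟨i, h1'⟩
      refine ⟨q', hq', subset_rfl, a, u, val ζ, h4, h5.trans (hresW.trans hres), ?_⟩
      refine ⟨(val ζ).take (f (ℓ ^ k)), ?_, List.take_prefix _ _⟩
      exact Finset.mem_image.2 ⟨ζ, hfin.mem_toFinset.2 ⟨i, h1'⟩, rfl⟩
  · intro ζ i j k1 S1 h1 h2 j' h3
    rw [hslW] at h3
    have h1' := (hprW _ _).1 h1
    rcases (hstW _ _ _).1 h2 with h2 | ⟨h7, h8, h9⟩
    · exact Fc_mono (res_mono (Finset.subset_union_right.trans hVW) c)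
        (hokp.lng ζ i j k1 S1 h1' h2 j' (by omega))
    · rw [h8]
      exact Fc_mono (hqr.trans hresW) (hl ζ ⟨i, h1'⟩ j' (by omega))

open Classical in
theorem extend_many {ξ : WithTop Θ} {c : Θ} (hc : (c : WithTop Θ) < ξ) {p : Cond K Θ}
    (hp : p ∈ PT Q rk nm ξ) {q : Cond K Θ} (hq : q ∈ PT Q rk nm c) (hqp : res p c ⊆ q) (k : ℕ)
    (hk : ∀ j k' S, Atom.stm c j k' S ∈ p → k' ≤ k)
    (hl : ∀ ζ ∈ proms c p, ∀ j', slen c p ≤ j' →
      Fc (Pst Q rk nm c) q (nm c) ζ j' {v | Q.f (nm c).1 (j' ^ k) ≤ v.length}) (n : ℕ) :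
    ∃ r ∈ PT Q rk nm c, q ⊆ r ∧ ∃ s, StemExt (Q.f (nm c).1) c k (slen c p) (slen c p + n) s ∧
      r ∪ p ∪ s ∈ PT Q rk nm ξ ∧ slen c (r ∪ p ∪ s) = slen c p + n := by
  induction n with
  | zero =>
    refine ⟨q, hq, subset_rfl, ∅, by simpa using StemExt.empty _ c k _, ?_, ?_⟩
    · rw [Finset.union_empty]
      exact join_mem hp hq hc.le hqp
    · rw [Finset.union_empty, add_zero]
      refine le_antisymm (slen_le fun j k' S h => ?_) (slen_mono Finset.subset_union_right)
      rcases Finset.mem_union.1 h with h | h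
      · exact absurd ((PT_iff.1 hq).2.1 _ h c rfl) (lt_irrefl _)
      · exact lt_slen h
  | succ n ih =>
    obtain ⟨r, hr, hqr, s, hs, hU, hsl⟩ := ih
    set U := r ∪ p ∪ s with hUdef
    have hrc : ∀ a ∈ r, a.crd ≠ some c := fun a ha h =>
      absurd ((PT_iff.1 hr).2.1 a ha c h) (lt_irrefl _)
    have hresU : res U c ⊆ r := by
      intro a ha
      obtain ⟨h1, h2⟩ := mem_res.1 ha
      rcases Finset.mem_union.1 h1 with h1 | h1
      · rcases Finset.mem_union.1 h1 with h1 | h1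
        · exact h1
        · exact (hqp.trans hqr) (mem_res.2 ⟨h1, h2⟩)
      · obtain ⟨j, S, rfl, -⟩ := hs.1 a h1
        exact absurd (h2 c rfl) (lt_irrefl _)
    have hprU : ∀ ζ i, Atom.pro c ζ i ∈ U → Atom.pro c ζ i ∈ p := by
      intro ζ i h
      rcases Finset.mem_union.1 h with h | h
      · rcases Finset.mem_union.1 h with h | h
        · exact absurd rfl (hrc _ h)
        · exact h
      · obtain ⟨j, S, h', -⟩ := hs.1 _ h
        cases h'
    obtain ⟨r', hr', hrr', S, hS1, hS2, hW⟩ := extend_one hc hU hr hresU k (by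
      intro j k' S h
      rcases Finset.mem_union.1 h with h | h
      · rcases Finset.mem_union.1 h with h | h
        · exact absurd rfl (hrc _ h)
        · exact hk j k' S h
      · obtain ⟨j, S, h', -⟩ := hs.1 _ h
        cases h'
        exact le_rfl) (by
      rintro ζ ⟨i, hi⟩ j' hj'
      refine Fc_mono hqr (hl ζ ⟨i, hprU ζ i hi⟩ j' ?_)
      rw [hsl] at hj'
      omega)
    rw [hsl] at hS1 hS2 hW
    have hWeq : r' ∪ U ∪ {Atom.stm c (slen c p + n) k S} =
        r' ∪ p ∪ (s ∪ {Atom.stm c (slen c p + n) k S}) := by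
      ext a
      simp only [hUdef, Finset.mem_union, Finset.mem_singleton]
      constructor
      · rintro ((h | ((h | h) | h)) | h)
        · exact Or.inl (Or.inl h)
        · exact Or.inl (Or.inl (hrr' h))
        · exact Or.inl (Or.inr h)
        · exact Or.inr (Or.inl h)
        · exact Or.inr (Or.inr h)
      · rintro ((h | h) | (h | h))
        · exact Or.inl (Or.inl h)
        · exact Or.inl (Or.inr (Or.inl (Or.inr h)))
        · exact Or.inl (Or.inr (Or.inr h))
        · exact Or.inr h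
    refine ⟨r', hr', hqr.trans hrr', s ∪ {Atom.stm c (slen c p + n) k S}, ⟨?_, ?_⟩, ?_, ?_⟩
    · intro a ha
      rcases Finset.mem_union.1 ha with h | h
      · obtain ⟨j, S', h1, h2, h3, h4, h5⟩ := hs.1 a h
        exact ⟨j, S', h1, h2, by omega, h4, h5⟩
      · exact ⟨slen c p + n, S, Finset.mem_singleton.1 h, by omega, by omega, hS1, hS2⟩
    · intro j h1 h2
      rcases Nat.lt_or_ge j (slen c p + n) with h3 | h3
      · obtain ⟨S', h4, h5⟩ := hs.2 j h1 h3
        refine ⟨S', Finset.mem_union_left _ h4, fun S'' h6 => ?_⟩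
        rcases Finset.mem_union.1 h6 with h6 | h6
        · exact h5 S'' h6
        · have := Finset.mem_singleton.1 h6
          simp only [Atom.stm.injEq, true_and] at this
          omega
      · have h4 : j = slen c p + n := by omega
        subst h4
        refine ⟨S, Finset.mem_union_right _ (Finset.mem_singleton_self _), fun S'' h6 => ?_⟩
        rcases Finset.mem_union.1 h6 with h6 | h6
        · obtain ⟨j, S', h7, -, h8, -⟩ := hs.1 _ h6
          simp only [Atom.stm.injEq, true_and] at h7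
          omega
        · have := Finset.mem_singleton.1 h6
          simp only [Atom.stm.injEq, true_and] at this
          exact this
    · rw [← hWeq]
      exact hW
    · rw [← hWeq]
      refine le_antisymm (slen_le fun j k' S' h => ?_) ?_
      · simp only [Finset.mem_union, Finset.mem_singleton, Atom.stm.injEq, true_and] at h
        rcases h with (h | h) | h
        · exact absurd ((PT_iff.1 hr').2.1 _ h c rfl) (lt_irrefl _)
        · have := lt_slen h
          omega
        · omega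
      · have : Atom.stm c (slen c p + n) k S ∈ r' ∪ U ∪ {Atom.stm c (slen c p + n) k S} :=
          Finset.mem_union_right _ (Finset.mem_singleton_self _)
        have := lt_slen this
        omega

/-- The current `k` satisfies the hypotheses of `extend_many`. -/
theorem curK_spec {ξ : WithTop Θ} {c : Θ} {p : Cond K Θ} (hp : p ∈ PT Q rk nm ξ) :
    (∀ j k' S, Atom.stm c j k' S ∈ p → k' ≤ curK c p) ∧
    ∀ ζ ∈ proms c p, ∀ j', slen c p ≤ j' → Fc (Pst Q rk nm c) (res p c) (nm c) ζ j'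
      {v | Q.f (nm c).1 (j' ^ curK c p) ≤ v.length} := by
  have hok := PT.okat hp c
  rcases Nat.eq_zero_or_pos (slen c p) with h0 | h0
  · constructor
    · intro j k' S h
      have := lt_slen h
      omega
    · intro ζ hζ
      have h1 := hok.cnt
      rw [h0] at h1
      have h2 : proms c p = ∅ := (Set.ncard_eq_zero (proms_finite c p)).1 (Nat.le_zero.1 h1)
      rw [h2] at hζ
      exact absurd hζ (Set.notMem_empty _)
  · have h1 : ∃ k S, Atom.stm c (slen c p - 1) k S ∈ p := hok.stem.tot _ (by omega)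
    have h2 : ∃ S, Atom.stm c (slen c p - 1) (curK c p) S ∈ p := by
      unfold curK
      rw [dif_pos h1]
      exact h1.choose_spec
    obtain ⟨S, hS⟩ := h2
    constructor
    · intro j k' S' h
      have := lt_slen h
      exact hok.stem.mono _ _ _ _ _ _ h hS (by omega)
    · rintro ζ ⟨i, hi⟩ j' hj'
      exact hok.lng ζ i _ _ S hi hS j' hj'

open Classical in
/-- Stems can be extended with constant `k`, after extending the part below `c`. -/
theorem extend_stem {ξ : WithTop Θ} {c : Θ} (hc : (c : WithTop Θ) < ξ) {p : Cond K Θ}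
    (hp : p ∈ PT Q rk nm ξ) {q : Cond K Θ} (hq : q ∈ PT Q rk nm c) (hqp : res p c ⊆ q) (M : ℕ) :
    ∃ r ∈ PT Q rk nm c, q ⊆ r ∧ ∃ s, StemExt (Q.f (nm c).1) c (curK c p) (slen c p)
      (max (slen c p) M) s ∧ r ∪ p ∪ s ∈ PT Q rk nm ξ ∧
      slen c (r ∪ p ∪ s) = max (slen c p) M := by
  obtain ⟨h1, h2⟩ := curK_spec (c := c) hp
  obtain ⟨r, hr, hqr, s, hs, hU, hsl⟩ := extend_many hc hp hq hqp (curK c p) h1
    (fun ζ hζ j' hj' => Fc_mono hqp (h2 ζ hζ j' hj')) (M - slen c p)
  have h3 : slen c p + (M - slen c p) = max (slen c p) M := by omega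
  rw [h3] at hs hsl
  exact ⟨r, hr, hqr, s, hs, hU, hsl⟩

open Classical in
/-- Every condition can be extended so that the stems are long. -/
theorem exists_long {ξ : WithTop Θ} {p : Cond K Θ} (hp : p ∈ PT Q rk nm ξ) (N : ℕ) :
    ∃ q ∈ PT Q rk nm ξ, p ⊆ q ∧ ∀ c, N * (proms c q).ncard ≤ slen c q := by
  induction ξ using WellFoundedLT.induction generalizing p with
  | ind ξ ih =>
    -- the finite set of coordinates of `p`
    set F : Finset Θ := p.biUnion fun a => a.crd.toFinset with hF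
    have hmemF : ∀ d, d ∈ F ↔ ∃ a ∈ p, a.crd = some d := by
      intro d
      simp [hF]
    rcases F.eq_empty_or_nonempty with hE | hne
    · refine ⟨p, hp, subset_rfl, fun c => ?_⟩
      have : proms c p = ∅ := by
        ext ζ
        simp only [proms, Set.mem_setOf_eq, Set.mem_empty_iff_false, iff_false, not_exists]
        intro j hj
        have : c ∈ F := (hmemF c).2 ⟨_, hj, rfl⟩
        rw [hE] at this
        simp at this
      rw [this]
      simp
    · set c := F.max' hne with hc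
      have hcF : c ∈ F := F.max'_mem hne
      obtain ⟨a₀, ha₀, ha₀c⟩ := (hmemF c).1 hcF
      have hcξ : (c : WithTop Θ) < ξ := (PT_iff.1 hp).2.1 a₀ ha₀ c ha₀c
      obtain ⟨r, hr, hpr, s, hs, hU, hsl⟩ := extend_stem hcξ hp (res_mem' hp c) subset_rfl
        (N * (proms c p).ncard)
      obtain ⟨r', hr', hrr', hlong⟩ := ih c hcξ hr
      have hresU : res (r ∪ p ∪ s) c ⊆ r' := by
        intro a ha
        obtain ⟨h1, h2⟩ := mem_res.1 ha
        rcases Finset.mem_union.1 h1 with h1 | h1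
        · rcases Finset.mem_union.1 h1 with h1 | h1
          · exact hrr' h1
          · exact hrr' (hpr (mem_res.2 ⟨h1, h2⟩))
        · obtain ⟨j, S, rfl, -⟩ := hs.1 a h1
          exact absurd (h2 c rfl) (lt_irrefl _)
      have hW := join_mem hU hr' hcξ.le hresU
      refine ⟨r' ∪ (r ∪ p ∪ s), hW, ?_, ?_⟩
      · exact (Finset.subset_union_right.trans Finset.subset_union_left).trans
          Finset.subset_union_right
      · intro d
        rcases lt_trichotomy d c with hd | hd | hd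
        · have h1 : proms d (r' ∪ (r ∪ p ∪ s)) ⊆ proms d r' := by
            rintro ζ ⟨i, hi⟩
            refine ⟨i, ?_⟩
            rcases Finset.mem_union.1 hi with hi | hi
            · exact hi
            · exact hresU (mem_res.2 ⟨hi, by rintro d' ⟨⟩; exact hd⟩)
          calc N * (proms d (r' ∪ (r ∪ p ∪ s))).ncard ≤ N * (proms d r').ncard :=
                Nat.mul_le_mul_left _ (Set.ncard_le_ncard h1 (proms_finite d r'))
            _ ≤ slen d r' := hlong d
            _ ≤ _ := slen_mono Finset.subset_union_left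
        · rw [hd]
          clear hd
          have h1 : proms c (r' ∪ (r ∪ p ∪ s)) ⊆ proms c p := by
            rintro ζ ⟨i, hi⟩
            refine ⟨i, ?_⟩
            rcases Finset.mem_union.1 hi with hi | hi
            · exact absurd ((PT_iff.1 hr').2.1 _ hi c rfl) (lt_irrefl _)
            · rcases Finset.mem_union.1 hi with hi | hi
              · rcases Finset.mem_union.1 hi with hi | hi
                · exact absurd ((PT_iff.1 hr).2.1 _ hi c rfl) (lt_irrefl _)
                · exact hi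
              · obtain ⟨j, S, h', -⟩ := hs.1 _ hi
                cases h'
          calc N * (proms c (r' ∪ (r ∪ p ∪ s))).ncard ≤ N * (proms c p).ncard :=
                Nat.mul_le_mul_left _ (Set.ncard_le_ncard h1 (proms_finite c p))
            _ ≤ max (slen c p) (N * (proms c p).ncard) := le_max_right _ _
            _ = slen c (r ∪ p ∪ s) := hsl.symm
            _ ≤ _ := slen_mono Finset.subset_union_right
        · have h1 : proms d (r' ∪ (r ∪ p ∪ s)) = ∅ := by
            ext ζ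
            simp only [Set.mem_empty_iff_false, iff_false]
            rintro ⟨i, hi⟩
            rcases Finset.mem_union.1 hi with hi | hi
            · exact absurd ((PT_iff.1 hr').2.1 _ hi d rfl)
                (not_lt.2 (WithTop.coe_le_coe.2 hd.le))
            · rcases Finset.mem_union.1 hi with hi | hi
              · rcases Finset.mem_union.1 hi with hi | hi
                · exact absurd ((PT_iff.1 hr).2.1 _ hi d rfl)
                    (not_lt.2 (WithTop.coe_le_coe.2 hd.le))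
                · have : d ∈ F := (hmemF d).2 ⟨_, hi, rfl⟩
                  exact absurd (F.le_max' d this) (not_le.2 hd)
              · obtain ⟨j, S, h', -⟩ := hs.1 _ hi
                cases h'
          rw [h1]
          simp

end MP958

end

section

/-!
# The Δ-system lemma and linked families of conditions
-/


namespace MP958

open Set

variable {K Θ : Type}

theorem delta_uncountable_aux {I X : Type} [DecidableEq X] : ∀ (n : ℕ) (S : Set I),
    ¬ S.Countable → ∀ s : I → Finset X, (∀ i ∈ S, (s i).card = n) →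
    ∃ J ⊆ S, ¬ J.Countable ∧ ∃ R : Finset X, ∀ i ∈ J, ∀ j ∈ J, i ≠ j → s i ∩ s j = R := by
  classical
  intro n
  induction n with
  | zero =>
    intro S hS s hs
    refine ⟨S, subset_rfl, hS, ∅, fun i hi j _ _ => ?_⟩
    rw [Finset.card_eq_zero.1 (hs i hi)]
    simp
  | succ n ih =>
    intro S hS s hs
    by_cases h1 : ∃ x, ¬ ({i | i ∈ S ∧ x ∈ s i}).Countable
    · obtain ⟨x, hx⟩ := h1
      obtain ⟨J, hJ, hJ2, R, hR⟩ := ih _ hx (fun i => (s i).erase x) (by
        rintro i ⟨hi, hix⟩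
        rw [Finset.card_erase_of_mem hix, hs i hi]
        rfl)
      refine ⟨J, fun i hi => (hJ hi).1, hJ2, insert x R, fun i hi j hj hij => ?_⟩
      rw [← hR i hi j hj hij]
      ext y
      simp only [Finset.mem_inter, Finset.mem_insert, Finset.mem_erase]
      have h2 := (hJ hi).2
      have h3 := (hJ hj).2
      by_cases hy : y = x
      · subst hy
        simp [h2, h3]
      · simp [hy]
    · push Not at h1
      obtain ⟨J, hJ⟩ := zorn_subset {J : Set I | J ⊆ S ∧ ∀ i ∈ J, ∀ j ∈ J, i ≠ j →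
          Disjoint (s i) (s j)} (by
        intro C hC hchain
        refine ⟨⋃₀ C, ⟨sUnion_subset fun t ht => (hC ht).1, ?_⟩,
          fun t ht => subset_sUnion_of_mem ht⟩
        rintro i ⟨t, ht, hi⟩ j ⟨u, hu, hj⟩ hij
        rcases hchain.total ht hu with h | h
        · exact (hC hu).2 i (h hi) j hj hij
        · exact (hC ht).2 i hi j (h hj) hij)
      refine ⟨J, hJ.prop.1, fun hJc => ?_, ∅, fun i hi j hj hij =>
        Finset.disjoint_iff_inter_eq_empty.1 (hJ.prop.2 i hi j hj hij)⟩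
      have h2 : (⋃ i ∈ J, (s i : Set X)).Countable :=
        hJc.biUnion fun i _ => (s i).countable_toSet
      have h3 : (⋃ x ∈ ⋃ i ∈ J, (s i : Set X), {i | i ∈ S ∧ x ∈ s i}).Countable :=
        h2.biUnion fun x _ => h1 x
      have h4 : ∃ i ∈ S, i ∉ J ∪ ⋃ x ∈ ⋃ i ∈ J, (s i : Set X), {i | i ∈ S ∧ x ∈ s i} := by
        by_contra hcon
        push Not at hcon
        exact hS ((hJc.union h3).mono hcon)
      obtain ⟨i, hiS, hi⟩ := h4
      rw [mem_union, not_or] at hi
      have h5 : ∀ j ∈ J, Disjoint (s i) (s j) := by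
        intro j hj
        rw [Finset.disjoint_left]
        intro x hx hxj
        apply hi.2
        simp only [mem_iUnion]
        exact ⟨x, ⟨j, hj, hxj⟩, hiS, hx⟩
      have h6 : insert i J ⊆ S ∧ ∀ a ∈ insert i J, ∀ b ∈ insert i J, a ≠ b →
          Disjoint (s a) (s b) := by
        refine ⟨insert_subset hiS hJ.prop.1, ?_⟩
        rintro a (rfl | ha) b (rfl | hb) hab
        · exact absurd rfl hab
        · exact h5 b hb
        · exact (h5 a ha).symm
        · exact hJ.prop.2 a ha b hb hab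
      exact hi.1 (hJ.le_of_ge h6 (subset_insert i J) (mem_insert i J))

/-- The Δ-system lemma. -/
theorem delta_uncountable {I X : Type} [DecidableEq X] (S : Set I) (hS : ¬ S.Countable)
    (s : I → Finset X) :
    ∃ J ⊆ S, ¬ J.Countable ∧ ∃ R : Finset X, ∀ i ∈ J, ∀ j ∈ J, i ≠ j → s i ∩ s j = R := by
  have h1 : ∃ n, ¬ ({i | i ∈ S ∧ (s i).card = n}).Countable := by
    by_contra hcon
    push Not at hcon
    apply hS
    refine (countable_iUnion hcon).mono fun i hi => ?_
    simp only [mem_iUnion]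
    exact ⟨_, hi, rfl⟩
  obtain ⟨n, hn⟩ := h1
  obtain ⟨J, hJ, h⟩ := delta_uncountable_aux n _ hn s fun i hi => hi.2
  exact ⟨J, fun i hi => (hJ hi).1, h⟩

/-- Pigeonhole: an uncountable family of finite subsets of a countable set has an uncountable
constant subfamily. -/
theorem exists_const {I X : Type} (S : Set I) (hS : ¬ S.Countable) (A : Set X)
    (hA : A.Countable) (d : I → Finset X) (hd : ∀ i ∈ S, (d i : Set X) ⊆ A) :
    ∃ T ⊆ S, ¬ T.Countable ∧ ∃ D, ∀ i ∈ T, d i = D := by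
  classical
  by_contra hcon
  push Not at hcon
  have h1 : ∀ D : Finset X, ({i | i ∈ S ∧ d i = D}).Countable := by
    intro D
    by_contra h
    obtain ⟨i, hi, h2⟩ := hcon _ (fun i hi => hi.1) h D
    exact h2 hi.2
  have h2 : ({D : Finset X | (D : Set X) ⊆ A}).Countable := by
    have h3 := Set.countable_setOf_finite_subset hA
    refine (h3.preimage (f := fun D : Finset X => (D : Set X)) Finset.coe_injective).mono ?_
    intro D hD
    exact ⟨D.finite_toSet, hD⟩
  apply hS
  refine (h2.biUnion fun D _ => h1 D).mono fun i hi => ?_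
  simp only [mem_iUnion]
  exact ⟨d i, hd i hi, hi, rfl⟩

/-- Labels of atoms: the coordinate, or the index of a Cohen value. -/
def Atom.lab : Atom K Θ → Θ ⊕ (K × ℕ)
  | .coh α t _ => Sum.inr (α, t)
  | .stm c _ _ _ => Sum.inl c
  | .pro c _ _ => Sum.inl c

/-- Atoms which are not promises. -/
def Atom.Hard : Atom K Θ → Prop
  | .coh _ _ _ => True
  | .stm _ _ _ _ => True
  | .pro _ _ _ => False

theorem countable_hard (R : Set (Θ ⊕ (K × ℕ))) (hR : R.Countable) :
    ({a : Atom K Θ | a.Hard ∧ a.lab ∈ R}).Countable := by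
  haveI : Countable R := hR.to_subtype
  let g : R × (List Bool ⊕ (ℕ × ℕ × Finset (List Bool))) → Option (Atom K Θ) := fun x =>
    match x.1.1, x.2 with
    | Sum.inr (α, t), Sum.inl y => some (.coh α t y)
    | Sum.inl c, Sum.inr (j, k, S) => some (.stm c j k S)
    | _, _ => none
  have h1 : (range g).Countable := countable_range g
  refine (h1.preimage (f := some) (Option.some_injective _)).mono ?_
  rintro a ⟨ha, hl⟩
  cases a with
  | coh α t y => exact ⟨(⟨_, hl⟩, Sum.inl y), rfl⟩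
  | stm c j k S => exact ⟨(⟨_, hl⟩, Sum.inr (j, k, S)), rfl⟩
  | pro c ζ j => exact absurd ha id

open Classical in
/-- An uncountable family of conditions has an uncountable subfamily whose members agree on the
common labels, up to promises. -/
theorem exists_agree {I : Type} (S : Set I) (hS : ¬ S.Countable) (p : I → Cond K Θ) :
    ∃ T ⊆ S, ¬ T.Countable ∧ ∀ i ∈ T, ∀ j ∈ T, ∀ a ∈ p j, a.Hard →
      (∃ b ∈ p i, b.lab = a.lab) → a ∈ p i := by
  obtain ⟨J, hJS, hJ, R, hR⟩ := delta_uncountable S hS fun i => (p i).image Atom.lab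
  obtain ⟨T, hTJ, hT, D, hD⟩ := exists_const J hJ _
    (countable_hard (R : Set (Θ ⊕ (K × ℕ))) R.countable_toSet)
    (fun i => (p i).filter fun a => a.Hard ∧ a.lab ∈ R) (by
      intro i _ a ha
      simp only [Finset.coe_filter, mem_setOf_eq] at ha
      exact ha.2)
  refine ⟨T, hTJ.trans hJS, hT, fun i hi j hj a ha hard hlab => ?_⟩
  by_cases hij : i = j
  · rw [hij]
    exact ha
  have h1 : a.lab ∈ R := by
    rw [← hR i (hTJ hi) j (hTJ hj) hij, Finset.mem_inter]
    obtain ⟨b, hb, hb2⟩ := hlab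
    exact ⟨Finset.mem_image.2 ⟨b, hb, hb2⟩, Finset.mem_image_of_mem _ ha⟩
  have h2 : a ∈ (p j).filter fun a => a.Hard ∧ a.lab ∈ R := by
    rw [Finset.mem_filter]
    exact ⟨ha, hard, h1⟩
  rw [hD j hj, ← hD i hi, Finset.mem_filter] at h2
  exact h2.1

variable [LinearOrder Θ] [WellFoundedLT Θ] {Q : Params} {rk : K → ℕ} {nm : Θ → Nm K Θ}

open Classical in
/-- Finitely many conditions which agree on common labels, up to promises, have a condition as
union, if there are not too many promises. -/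
theorem biUnion_mem {ξ : WithTop Θ} {I : Type} (F : Finset I) (p : I → Cond K Θ)
    (hp : ∀ i ∈ F, p i ∈ PT Q rk nm ξ)
    (hag : ∀ i ∈ F, ∀ j ∈ F, ∀ a ∈ p j, a.Hard → (∃ b ∈ p i, b.lab = a.lab) → a ∈ p i)
    (hcnt : ∀ d : Θ, (d : WithTop Θ) < ξ →
      (proms d (F.biUnion p)).ncard ≤ slen d (F.biUnion p)) :
    F.biUnion p ∈ PT Q rk nm ξ := by
  have hsub : ∀ i ∈ F, p i ⊆ F.biUnion p := fun i hi => Finset.subset_biUnion_of_mem p hi
  have hlab : ∀ (a : Atom K Θ) (d : Θ), a.crd = some d → a.lab = Sum.inl d := by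
    intro a d h
    cases a with
    | coh α t x => simp [Atom.crd] at h
    | stm c j k S =>
      simp only [Atom.crd, Option.some.injEq] at h
      rw [← h]
      rfl
    | pro c ζ j =>
      simp only [Atom.crd, Option.some.injEq] at h
      rw [← h]
      rfl
  have hst : ∀ i ∈ F, ∀ a ∈ p i, ∀ d, a.crd = some d → ∀ j k S,
      Atom.stm d j k S ∈ F.biUnion p → Atom.stm d j k S ∈ p i := by
    intro i hi a ha d hd j k S hS
    obtain ⟨i', hi', h1⟩ := Finset.mem_biUnion.1 hS
    exact hag i hi i' hi' _ h1 trivial ⟨a, ha, hlab a d hd⟩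
  refine union_mem ⟨?_, ?_, ?_⟩ ?_ ?_ ?_ ?_
  · intro α t x y hx hy
    obtain ⟨i, hi, hx⟩ := Finset.mem_biUnion.1 hx
    obtain ⟨j, hj, hy⟩ := Finset.mem_biUnion.1 hy
    exact (PT.coh (hp i hi)).uniq α t x y hx (hag i hi j hj _ hy trivial ⟨_, hx, rfl⟩)
  · intro α t x hx
    obtain ⟨i, hi, hx⟩ := Finset.mem_biUnion.1 hx
    exact (PT.coh (hp i hi)).ty α t x hx
  · intro α t x hx
    obtain ⟨i, hi, hx⟩ := Finset.mem_biUnion.1 hx
    exact (PT.coh (hp i hi)).len α t x hx
  · intro a ha d hd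
    obtain ⟨i, hi, ha⟩ := Finset.mem_biUnion.1 ha
    exact (PT_iff.1 (hp i hi)).2.1 a ha d hd
  · intro a ha d hd
    obtain ⟨i, hi, ha⟩ := Finset.mem_biUnion.1 ha
    exact ⟨ξ, p i, hp i hi, hsub i hi, hst i hi a ha d hd⟩
  · intro d ζ i hζ
    obtain ⟨i', hi', h1⟩ := Finset.mem_biUnion.1 hζ
    exact ⟨ξ, p i', hp i' hi', hsub i' hi', h1, hst i' hi' _ h1 d rfl⟩
  · intro a ha d hd
    obtain ⟨i, hi, ha⟩ := Finset.mem_biUnion.1 ha
    exact hcnt d ((PT_iff.1 (hp i hi)).2.1 a ha d hd)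

open Classical in
theorem ncard_proms_biUnion {I : Type} (d : Θ) (F : Finset I) (p : I → Cond K Θ) :
    (proms d (F.biUnion p)).ncard ≤ ∑ i ∈ F, (proms d (p i)).ncard := by
  induction F using Finset.induction_on with
  | empty =>
    have : proms d ((∅ : Finset I).biUnion p) = ∅ := by
      ext ζ
      simp [proms]
    rw [this]
    simp
  | insert i F hi ih =>
    rw [Finset.sum_insert hi]
    have h1 : proms d ((insert i F).biUnion p) = proms d (p i) ∪ proms d (F.biUnion p) := by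
      ext ζ
      simp only [proms, Finset.biUnion_insert, Finset.mem_union, mem_setOf_eq, mem_union]
      exact exists_or
    rw [h1]
    exact (Set.ncard_union_le _ _).trans (Nat.add_le_add_left ih _)

open Classical in
/-- Among uncountably many conditions with stems of length at least `N` times the number of
promises, there are uncountably many such that the union of any `N` of them is a condition. -/
theorem exists_linked {ξ : WithTop Θ} (N : ℕ) {I : Type} (S : Set I) (hS : ¬ S.Countable)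
    (p : I → Cond K Θ) (hp : ∀ i ∈ S, p i ∈ PT Q rk nm ξ)
    (hlong : ∀ i ∈ S, ∀ c, N * (proms c (p i)).ncard ≤ slen c (p i)) :
    ∃ T ⊆ S, ¬ T.Countable ∧ ∀ F : Finset I, (∀ i ∈ F, i ∈ T) → F.card ≤ N →
      F.biUnion p ∈ PT Q rk nm ξ := by
  obtain ⟨T, hTS, hT, h⟩ := exists_agree S hS p
  refine ⟨T, hTS, hT, fun F hF hFN => biUnion_mem F p (fun i hi => hp i (hTS (hF i hi)))
    (fun i hi j hj => h i (hF i hi) j (hF j hj)) fun d _ => ?_⟩
  rcases F.eq_empty_or_nonempty with rfl | hne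
  · have : proms d ((∅ : Finset I).biUnion p) = ∅ := by
      ext ζ
      simp [proms]
    rw [this]
    simp
  have hN : 0 < N := (Finset.card_pos.2 hne).trans_le hFN
  refine Nat.le_of_mul_le_mul_left ?_ hN
  calc N * (proms d (F.biUnion p)).ncard
      ≤ N * ∑ i ∈ F, (proms d (p i)).ncard := Nat.mul_le_mul_left _ (ncard_proms_biUnion d F p)
    _ = ∑ i ∈ F, N * (proms d (p i)).ncard := Finset.mul_sum _ _ _
    _ ≤ ∑ i ∈ F, slen d (F.biUnion p) := Finset.sum_le_sum fun i hi =>
        (hlong i (hTS (hF i hi)) d).trans (slen_mono (Finset.subset_biUnion_of_mem p hi))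
    _ = F.card * slen d (F.biUnion p) := by rw [Finset.sum_const, smul_eq_mul]
    _ ≤ N * slen d (F.biUnion p) := Nat.mul_le_mul_right _ hFN

open Classical in
/-- The same for conditions without coordinates, with no bound on the number of conditions. -/
theorem exists_linked_bot {ξ : WithTop Θ} (hξ : ∀ c : Θ, ¬ (c : WithTop Θ) < ξ) {I : Type}
    (S : Set I) (hS : ¬ S.Countable) (p : I → Cond K Θ) (hp : ∀ i ∈ S, p i ∈ PT Q rk nm ξ) :
    ∃ T ⊆ S, ¬ T.Countable ∧ ∀ F : Finset I, (∀ i ∈ F, i ∈ T) →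
      F.biUnion p ∈ PT Q rk nm ξ := by
  obtain ⟨T, hTS, hT, h⟩ := exists_agree S hS p
  exact ⟨T, hTS, hT, fun F hF => biUnion_mem F p (fun i hi => hp i (hTS (hF i hi)))
    (fun i hi j hj => h i (hF i hi) j (hF j hj)) fun d hd => absurd hd (hξ d)⟩

end MP958

end

section

/-!
# The countable chain condition
-/


namespace MP958

open Set

variable {K Θ : Type}

variable [LinearOrder Θ] [WellFoundedLT Θ] {Q : Params} {rk : K → ℕ} {nm : Θ → Nm K Θ}

theorem ccc {ξ : WithTop Θ} (A : Set (Cond K Θ)) (hA : A ⊆ PT Q rk nm ξ)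
    (hanti : ∀ a ∈ A, ∀ b ∈ A, a ≠ b → ¬ ∃ r ∈ PT Q rk nm ξ, a ⊆ r ∧ b ⊆ r) : A.Countable := by
  classical
  by_contra hunc
  have hex : ∀ a : Cond K Θ, ∃ q : Cond K Θ, a ∈ A →
      q ∈ PT Q rk nm ξ ∧ a ⊆ q ∧ ∀ c, 2 * (proms c q).ncard ≤ slen c q := by
    intro a
    by_cases ha : a ∈ A
    · obtain ⟨q, hq, haq, hl⟩ := exists_long (hA ha) 2
      exact ⟨q, fun _ => ⟨hq, haq, hl⟩⟩
    · exact ⟨a, fun h => absurd h ha⟩
  choose q hq using hex
  obtain ⟨T, hTA, hT, hlink⟩ := exists_linked (Q := Q) (rk := rk) (nm := nm) (ξ := ξ) 2 A hunc q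
    (fun a ha => (hq a ha).1) (fun a ha => (hq a ha).2.2)
  have hne : ∃ a ∈ T, ∃ b ∈ T, a ≠ b := by
    by_contra hcon
    push Not at hcon
    apply hT
    exact (Set.Subsingleton.countable (fun a ha b hb => hcon a ha b hb))
  obtain ⟨a, ha, b, hb, hab⟩ := hne
  have hF := hlink {a, b} (by
    intro i hi
    rcases Finset.mem_insert.1 hi with h | h
    · rw [h]; exact ha
    · rw [Finset.mem_singleton.1 h]; exact hb) (Finset.card_le_two)
  refine hanti a (hTA ha) b (hTA hb) hab ⟨_, hF, ?_, ?_⟩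
  · exact (hq a (hTA ha)).2.1.trans (Finset.subset_biUnion_of_mem q (by simp))
  · exact (hq b (hTA hb)).2.1.trans (Finset.subset_biUnion_of_mem q (by simp))

/-- Countable maximal antichains inside a set of conditions. -/
theorem exists_antichain {ξ : WithTop Θ} (D : Set (Cond K Θ)) (hD : D ⊆ PT Q rk nm ξ) :
    ∃ A ⊆ D, A.Countable ∧ (∀ a ∈ A, ∀ b ∈ A, a ≠ b → ¬ ∃ r ∈ PT Q rk nm ξ, a ⊆ r ∧ b ⊆ r) ∧
      ∀ d ∈ D, ∃ a ∈ A, ∃ r ∈ PT Q rk nm ξ, a ⊆ r ∧ d ⊆ r := by
  obtain ⟨A, hA⟩ := zorn_subset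
    {A : Set (Cond K Θ) | A ⊆ D ∧
      ∀ a ∈ A, ∀ b ∈ A, a ≠ b → ¬ ∃ r ∈ PT Q rk nm ξ, a ⊆ r ∧ b ⊆ r} (by
    intro C hC hchain
    refine ⟨⋃₀ C, ⟨?_, ?_⟩, fun s hs => subset_sUnion_of_mem hs⟩
    · exact sUnion_subset fun s hs => (hC hs).1
    · rintro a ⟨s, hs, has⟩ b ⟨t, ht, hbt⟩ hab
      rcases hchain.total hs ht with hst | hts
      · exact (hC ht).2 a (hst has) b hbt hab
      · exact (hC hs).2 a has b (hts hbt) hab)
  have hAm : A ⊆ D ∧ ∀ a ∈ A, ∀ b ∈ A, a ≠ b → ¬ ∃ r ∈ PT Q rk nm ξ, a ⊆ r ∧ b ⊆ r := hA.prop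
  refine ⟨A, hAm.1, ccc A (hAm.1.trans hD) hAm.2, hAm.2, ?_⟩
  intro d hd
  by_contra hcon
  have hdA : d ∈ A := by
    have hsub : insert d A ⊆ A := hA.le_of_ge (y := insert d A) (by
      refine ⟨insert_subset hd hAm.1, ?_⟩
      rintro a (rfl | ha) b (rfl | hb) hab
      · exact absurd rfl hab
      · rintro ⟨r, hr, h1, h2⟩
        exact hcon ⟨b, hb, r, hr, h2, h1⟩
      · rintro ⟨r, hr, h1, h2⟩
        exact hcon ⟨a, ha, r, hr, h1, h2⟩
      · exact hAm.2 a ha b hb hab) (subset_insert d A)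
    exact hsub (mem_insert d A)
  exact hcon ⟨d, hdA, d, hD hd, subset_rfl, subset_rfl⟩

end MP958

end
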