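import Pool.Agent.Lib.MP_958b88_lc.YMid

/-!
# The preservation theorem
-/

set_option autoImplicit false

namespace MP958

open Set

variable {K Θ : Type}

variable [LinearOrder Θ] [WellFoundedLT Θ] (Q : Params) (rk : K → ℕ) (nm : Θ → Nm K Θ)

/-- `S` is a `P_ξ`-name for a slalom of width `H` on the stages of type `l`. -/
structure SName (ξ : WithTop Θ) (l : ℕ) (H : ℕ → ℕ) (S : ℕ → List Bool → Set (Cond K Θ)) :
    Prop where
  mono : ∀ t x, ∀ p ∈ PT Q rk nm ξ, ∀ q ∈ PT Q rk nm ξ, p ⊆ q → p ∈ S t x → q ∈ S t x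
  width : ∀ t, Q.ty t = l → ∀ p ∈ PT Q rk nm ξ, ∀ X : Finset (List Bool),
    (∀ x ∈ X, p ∈ S t x) → X.card ≤ H t

/-- `p` forces that `x_α(t) ∈ S(t)`. -/
def CapAt (ξ : WithTop Θ) (S : ℕ → List Bool → Set (Cond K Θ)) (α : K) (t : ℕ)
    (p : Cond K Θ) : Prop :=
  ∀ q ∈ PT Q rk nm ξ, p ⊆ q → ∀ x, Atom.coh α t x ∈ q → ∃ r ∈ PT Q rk nm ξ, q ⊆ r ∧ r ∈ S t x

/-- The indices of those Cohen reals which some condition forces to be captured by `S`. -/
def BadS (ξ : WithTop Θ) (l : ℕ) (S : ℕ → List Bool → Set (Cond K Θ)) : Set K :=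
  {α | rk α = l ∧ ∃ p ∈ PT Q rk nm ξ, ∃ N, ∀ t, N ≤ t → Q.ty t = l → CapAt Q rk nm ξ S α t p}

variable {Q rk nm}

/-- `W` forces `x ∈ S(t)`. -/
def Fo (Q : Params) (rk : K → ℕ) (nm : Θ → Nm K Θ) (ξ : WithTop Θ)
    (S : ℕ → List Bool → Set (Cond K Θ)) (t : ℕ) (x : List Bool) (W : Cond K Θ) : Prop :=
  ∀ r ∈ PT Q rk nm ξ, W ⊆ r → ∃ r' ∈ PT Q rk nm ξ, r ⊆ r' ∧ r' ∈ S t x

theorem Fo.mono {ξ : WithTop Θ} {S : ℕ → List Bool → Set (Cond K Θ)} {t : ℕ} {x : List Bool}
    {W W' : Cond K Θ} (h : W ⊆ W') (hW : Fo Q rk nm ξ S t x W) : Fo Q rk nm ξ S t x W' :=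
  fun r hr hWr => hW r hr (h.trans hWr)

theorem Fo.width {ξ : WithTop Θ} {l : ℕ} {H : ℕ → ℕ} {S : ℕ → List Bool → Set (Cond K Θ)}
    (hS : SName Q rk nm ξ l H S) {t : ℕ} (ht : Q.ty t = l) {W : Cond K Θ}
    (hW : W ∈ PT Q rk nm ξ) (X : Finset (List Bool)) (hX : ∀ x ∈ X, Fo Q rk nm ξ S t x W) :
    X.card ≤ H t := by
  classical
  have key : ∀ Y : Finset (List Bool), Y ⊆ X → ∃ r ∈ PT Q rk nm ξ, W ⊆ r ∧
      ∀ x ∈ Y, r ∈ S t x := by
    intro Y
    induction Y using Finset.induction_on with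
    | empty => exact fun _ => ⟨W, hW, subset_rfl, by simp⟩
    | insert y Y hy ih =>
      intro hYX
      obtain ⟨r, hr, hWr, h1⟩ := ih fun x hx => hYX (Finset.mem_insert_of_mem hx)
      obtain ⟨r', hr', hrr', h2⟩ := hX y (hYX (Finset.mem_insert_self _ _)) r hr hWr
      refine ⟨r', hr', hWr.trans hrr', fun x hx => ?_⟩
      rcases Finset.mem_insert.1 hx with rfl | hx
      · exact h2
      · exact hS.mono t x r hr r' hr' hrr' (h1 x hx)
  obtain ⟨r, hr, -, h1⟩ := key X subset_rfl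
  exact hS.width t ht r hr X h1

theorem regular_aleph (l : ℕ) : (Cardinal.aleph ((l : Ordinal) + 1)).IsRegular :=
  Cardinal.isRegular_aleph_add_one _

theorem aleph_lt_succ (l : ℕ) : Cardinal.aleph (l : Ordinal) < Cardinal.aleph ((l : Ordinal) + 1) :=
  Cardinal.aleph_lt_aleph.2 (lt_add_one _)

/-- Small unions. -/
theorem small_union {ι : Type} (l : ℕ) (hι : Cardinal.mk ι < Cardinal.aleph ((l : Ordinal) + 1))
    (B : Set K) (C : ι → Set K)
    (hC : ∀ i, Cardinal.mk (C i) < Cardinal.aleph ((l : Ordinal) + 1)) (h : B ⊆ ⋃ i, C i) :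
    Cardinal.mk B < Cardinal.aleph ((l : Ordinal) + 1) :=
  (Cardinal.mk_le_mk_of_subset h).trans_lt
    ((Cardinal.card_iUnion_lt_iff_forall_of_isRegular (regular_aleph l) hι).2 hC)

/-- The base case. -/
theorem pres_bot {ξ : WithTop Θ} (hξ : ∀ c : Θ, ¬ (c : WithTop Θ) < ξ) (l q : ℕ)
    (S : ℕ → List Bool → Set (Cond K Θ)) (hS : SName Q rk nm ξ l (Q.H q) S) :
    (BadS Q rk nm ξ l S).Countable := by
  classical
  by_contra hunc
  have hex : ∀ α : K, ∃ (p : Cond K Θ) (N : ℕ), α ∈ BadS Q rk nm ξ l S →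
      p ∈ PT Q rk nm ξ ∧ ∀ t, N ≤ t → Q.ty t = l → CapAt Q rk nm ξ S α t p := by
    intro α
    by_cases h : α ∈ BadS Q rk nm ξ l S
    · obtain ⟨-, p, hp, N, hN⟩ := h
      exact ⟨p, N, fun _ => ⟨hp, hN⟩⟩
    · exact ⟨∅, 0, fun h' => absurd h' h⟩
  choose p N hpN using hex
  -- a bound for the stages mentioned in `p α`
  let tv : Atom K Θ → ℕ := fun a => match a with
    | .coh _ t _ => t + 1
    | _ => 0
  let g : K → ℕ := fun α => max (N α) ((p α).sup tv)
  have hcov : BadS Q rk nm ξ l S = ⋃ n : ℕ, {α | α ∈ BadS Q rk nm ξ l S ∧ g α = n} := by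
    ext α
    simp
  obtain ⟨n, hn⟩ : ∃ n : ℕ, ¬ {α | α ∈ BadS Q rk nm ξ l S ∧ g α = n}.Countable := by
    by_contra hcon
    push Not at hcon
    apply hunc
    rw [hcov]
    exact Set.countable_iUnion hcon
  obtain ⟨T, hT1, hT2, hT3⟩ := exists_linked_bot (Q := Q) (rk := rk) (nm := nm) hξ
    {α | α ∈ BadS Q rk nm ξ l S ∧ g α = n} hn p (fun α hα => (hpN α hα.1).1)
  have hTinf : T.Infinite := fun h => hT2 h.countable
  obtain ⟨N₁, hN₁⟩ := Q.H_lt q
  obtain ⟨t, htN, ht⟩ := Q.ty_inf l (max n N₁)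
  obtain ⟨F, hFT, hFcard⟩ := hTinf.exists_subset_card_eq (Q.H q t + 1)
  have hlt : Q.H q t < 2 ^ Q.L t := hN₁ t ((le_max_right _ _).trans htN)
  -- distinct values
  obtain ⟨Y, hYs, hYcard⟩ := Finset.exists_subset_card_eq (s := strs (Q.L t)) (n := F.card)
    (by rw [card_strs, hFcard]; omega)
  let e : F ≃ Y := Finset.equivOfCardEq hYcard.symm
  let val : K → List Bool := fun α => if h : α ∈ F then (e ⟨α, h⟩).1 else []
  have hval1 : ∀ α ∈ F, val α ∈ Y := by
    intro α hα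
    simp only [val, hα, dif_pos]
    exact (e ⟨α, hα⟩).2
  have hval2 : ∀ α ∈ F, ∀ β ∈ F, val α = val β → α = β := by
    intro α hα β hβ h
    simp only [val, hα, hβ, dif_pos] at h
    have := e.injective (Subtype.ext h)
    exact congrArg Subtype.val this
  have hUn : F.biUnion p ∈ PT Q rk nm ξ := hT3 F fun α hα => hFT hα
  have hnocrd : ∀ a ∈ F.biUnion p, ∀ d, a.crd ≠ some d := fun a ha d hd =>
    hξ d ((PT_iff.1 hUn).2.1 a ha d hd)
  have hold : ∀ α s x, Atom.coh α s x ∈ F.biUnion p → s < t := by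
    intro α s x h
    obtain ⟨β, hβ, h1⟩ := Finset.mem_biUnion.1 h
    have h2 : tv (Atom.coh α s x) ≤ (p β).sup tv := Finset.le_sup h1
    have h3 : g β = n := (hT1 (hFT hβ)).2
    have h4 : (p β).sup tv ≤ g β := le_max_right _ _
    have h5 : n ≤ t := (le_max_left _ _).trans htN
    have h6 : tv (Atom.coh α s x) = s + 1 := rfl
    omega
  set U : Cond K Θ := F.biUnion p ∪ F.image fun α => Atom.coh α t (val α) with hU
  have hUmem : ∀ a ∈ U, a ∈ F.biUnion p ∨ ∃ α ∈ F, a = Atom.coh α t (val α) := by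
    intro a ha
    rcases Finset.mem_union.1 ha with h | h
    · exact Or.inl h
    · obtain ⟨α, h1, h2⟩ := Finset.mem_image.1 h
      exact Or.inr ⟨α, h1, h2.symm⟩
  have hUPT : U ∈ PT Q rk nm ξ := by
    refine ⟨⟨?_, ?_, ?_⟩, ?_⟩
    · intro β s x y h1 h2
      rcases hUmem _ h1 with h1 | ⟨β1, h3, h4⟩ <;> rcases hUmem _ h2 with h2 | ⟨β2, h5, h6⟩
      · exact hUn.1.uniq β s x y h1 h2
      · simp only [Atom.coh.injEq] at h6
        have := hold _ _ _ h1
        omega
      · simp only [Atom.coh.injEq] at h4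
        have := hold _ _ _ h2
        omega
      · simp only [Atom.coh.injEq] at h4 h6
        rw [h4.2.2, h6.2.2, ← h4.1, ← h6.1]
    · intro β s x h1
      rcases hUmem _ h1 with h1 | ⟨β1, h3, h4⟩
      · exact hUn.1.ty β s x h1
      · simp only [Atom.coh.injEq] at h4
        rw [h4.2.1, h4.1, ht]
        exact ((hT1 (hFT h3)).1.1).symm
    · intro β s x h1
      rcases hUmem _ h1 with h1 | ⟨β1, h3, h4⟩
      · exact hUn.1.len β s x h1
      · simp only [Atom.coh.injEq] at h4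
        rw [h4.2.1, h4.2.2]
        exact mem_strs.1 (hYs (hval1 β1 h3))
    · intro a ha d hd
      rcases hUmem _ ha with h1 | ⟨β1, h3, h4⟩
      · exact absurd hd (hnocrd a h1 d)
      · rw [h4] at hd
        simp [Atom.crd] at hd
  have hFo : ∀ x ∈ F.image val, Fo Q rk nm ξ S t x U := by
    intro x hx r hr hUr
    obtain ⟨α, hα, rfl⟩ := Finset.mem_image.1 hx
    have h1 := hpN α (hT1 (hFT hα)).1
    have h2 : N α ≤ t := by
      have h3 : g α = n := (hT1 (hFT hα)).2
      have h4 : N α ≤ g α := le_max_left _ _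
      have h5 : n ≤ t := (le_max_left _ _).trans htN
      omega
    refine h1.2 t h2 ht r hr ?_ (val α) ?_
    · exact ((Finset.subset_biUnion_of_mem p hα).trans Finset.subset_union_left).trans hUr
    · exact hUr (Finset.mem_union_right _ (Finset.mem_image_of_mem _ hα))
  have h1 := Fo.width hS ht hUPT _ hFo
  rw [Finset.card_image_of_injOn (fun α hα β hβ h => hval2 α hα β hβ h), hFcard] at h1
  omega

open Classical in
/-- The stem atoms of `p` at `c`. -/
noncomputable def stmPart (c : Θ) (p : Cond K Θ) : Cond K Θ :=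
  p.filter fun a => ∃ j k S, a = Atom.stm c j k S

open Classical in
/-- The promises of `p` at `c`. -/
noncomputable def proPart (c : Θ) (p : Cond K Θ) : Cond K Θ :=
  p.filter fun a => ∃ ζ i, a = Atom.pro c ζ i

theorem mem_stmPart {c : Θ} {p : Cond K Θ} {a : Atom K Θ} :
    a ∈ stmPart c p ↔ a ∈ p ∧ ∃ j k S, a = Atom.stm c j k S := by
  simp [stmPart]

theorem mem_proPart {c : Θ} {p : Cond K Θ} {a : Atom K Θ} :
    a ∈ proPart c p ↔ a ∈ p ∧ ∃ ζ i, a = Atom.pro c ζ i := by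
  simp [proPart]

theorem slen_congr {c : Θ} {p q : Cond K Θ} (h : ∀ j k S, Atom.stm c j k S ∈ p ↔
    Atom.stm c j k S ∈ q) : slen c p = slen c q :=
  le_antisymm (slen_le_of fun j k S => (h j k S).1) (slen_le_of fun j k S => (h j k S).2)

theorem curK_congr {c : Θ} {p q : Cond K Θ} (h : ∀ j k S, Atom.stm c j k S ∈ p ↔
    Atom.stm c j k S ∈ q) : curK c p = curK c q := by
  classical
  have hs := slen_congr h
  have hfun : (fun k => ∃ S, Atom.stm c (slen c p - 1) k S ∈ p) =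
      fun k => ∃ S, Atom.stm c (slen c q - 1) k S ∈ q := by
    funext k
    rw [hs]
    exact propext (exists_congr fun S => h _ _ _)
  have aux : ∀ P R : ℕ → Prop, P = R → (if h : ∃ k, P k then h.choose else 0) =
      (if h : ∃ k, R k then h.choose else 0) := by
    rintro P _ rfl
    rfl
  have h1 := aux _ _ hfun
  unfold curK
  convert h1

/-- If the coordinates of `p` are at most `c`, then `p` consists of three parts. -/
theorem parts {ξ : WithTop Θ} {c : Θ} (hmax : ∀ d : Θ, (d : WithTop Θ) < ξ → d ≤ c)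
    {p : Cond K Θ} (hp : p ∈ PT Q rk nm ξ) {a : Atom K Θ} (ha : a ∈ p) :
    a ∈ res p c ∨ a ∈ stmPart c p ∨ a ∈ proPart c p := by
  cases a with
  | coh α t x => exact Or.inl (mem_res.2 ⟨ha, by simp [Atom.crd]⟩)
  | stm d j k S =>
    rcases (hmax d ((PT_iff.1 hp).2.1 _ ha d rfl)).lt_or_eq with h | rfl
    · exact Or.inl (mem_res.2 ⟨ha, by rintro d' ⟨⟩; exact h⟩)
    · exact Or.inr (Or.inl (mem_stmPart.2 ⟨ha, j, k, S, rfl⟩))
  | pro d ζ i =>
    rcases (hmax d ((PT_iff.1 hp).2.1 _ ha d rfl)).lt_or_eq with h | rfl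
    · exact Or.inl (mem_res.2 ⟨ha, by rintro d' ⟨⟩; exact h⟩)
    · exact Or.inr (Or.inr (mem_proPart.2 ⟨ha, ζ, i, rfl⟩))

open Classical in
/-- Successor step, small poset. -/
theorem pres_small (hK : ∀ n : ℕ, Cardinal.mk {α : K // rk α < n} ≤ Cardinal.aleph n)
    {ξ : WithTop Θ} {c : Θ} (hc : (c : WithTop Θ) < ξ)
    (hmax : ∀ d : Θ, (d : WithTop Θ) < ξ → d ≤ c) (l q : ℕ) (hl : (nm c).1 ≤ l)
    (S : ℕ → List Bool → Set (Cond K Θ)) (hS : SName Q rk nm ξ l (Q.H q) S)
    (ih : ∀ S' : ℕ → List Bool → Set (Cond K Θ), SName Q rk nm c l (Q.H q) S' →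
      Cardinal.mk (BadS Q rk nm c l S') < Cardinal.aleph ((l : Ordinal) + 1)) :
    Cardinal.mk (BadS Q rk nm ξ l S) < Cardinal.aleph ((l : Ordinal) + 1) := by
  set n := (nm c).1 with hn
  -- the set of data at `c`
  let B : Type := (ℕ × ℕ × Finset (List Bool)) ⊕ ({ζ : K // rk ζ < n} × ℕ)
  let dec : B → Atom K Θ := fun b => match b with
    | .inl (j, k, S) => Atom.stm c j k S
    | .inr (ζ, i) => Atom.pro c ζ.1 i
  have hBcard : Cardinal.mk (Finset B) < Cardinal.aleph ((l : Ordinal) + 1) := by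
    have : Infinite B := Sum.infinite_of_left
    rw [Cardinal.mk_finset_of_infinite]
    refine lt_of_le_of_lt ?_ (aleph_lt_succ l)
    have h1 : Cardinal.mk (ℕ × ℕ × Finset (List Bool)) ≤ Cardinal.aleph (l : Ordinal) :=
      (Cardinal.mk_le_aleph0_iff.2 inferInstance).trans (Cardinal.aleph0_le_aleph _)
    have h2 : Cardinal.mk ({ζ : K // rk ζ < n} × ℕ) ≤ Cardinal.aleph (l : Ordinal) := by
      rw [Cardinal.mk_prod, Cardinal.lift_id, Cardinal.lift_id]
      refine Cardinal.mul_le_of_le (Cardinal.aleph0_le_aleph _) ?_ ?_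
      · exact (hK n).trans (Cardinal.aleph_le_aleph.2 (by exact_mod_cast hl))
      · exact (Cardinal.mk_le_aleph0_iff.2 inferInstance).trans (Cardinal.aleph0_le_aleph _)
    calc Cardinal.mk B = Cardinal.mk (ℕ × ℕ × Finset (List Bool)) +
          Cardinal.mk ({ζ : K // rk ζ < n} × ℕ) := by
            rw [Cardinal.mk_sum, Cardinal.lift_id, Cardinal.lift_id]
      _ ≤ Cardinal.aleph (l : Ordinal) + Cardinal.aleph (l : Ordinal) := add_le_add h1 h2
      _ = Cardinal.aleph (l : Ordinal) := Cardinal.add_eq_self (Cardinal.aleph0_le_aleph _)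
  let D : Finset B → Cond K Θ := fun b => b.image dec
  let S' : Finset B → ℕ → List Bool → Set (Cond K Θ) := fun b t x =>
    {p | p ∈ PT Q rk nm c ∧ p ∪ D b ∈ PT Q rk nm ξ ∧ Fo Q rk nm ξ S t x (p ∪ D b)}
  have hS' : ∀ b, SName Q rk nm c l (Q.H q) (S' b) := by
    intro b
    constructor
    · intro t x p hp p' hp' hpp' h
      obtain ⟨h1, h2, h3⟩ := h
      have hsub : res (p ∪ D b) c ⊆ p' := by
        intro a ha
        obtain ⟨h4, h5⟩ := mem_res.1 ha
        rcases Finset.mem_union.1 h4 with h4 | h4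
        · exact hpp' h4
        · obtain ⟨b', -, rfl⟩ := Finset.mem_image.1 h4
          rcases b' with ⟨j, k, S⟩ | ⟨ζ, i⟩
          · exact absurd (h5 c rfl) (lt_irrefl _)
          · exact absurd (h5 c rfl) (lt_irrefl _)
      have h6 := join_mem h2 hp' hc.le hsub
      have h7 : p' ∪ (p ∪ D b) = p' ∪ D b := by
        rw [← Finset.union_assoc, Finset.union_eq_left.2 hpp']
      rw [h7] at h6
      exact ⟨hp', h6, h3.mono (Finset.union_subset_union_left hpp')⟩
    · intro t ht p hp X hX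
      rcases X.eq_empty_or_nonempty with rfl | ⟨x₀, hx₀⟩
      · simp
      · exact Fo.width hS ht (hX x₀ hx₀).2.1 X fun x hx => (hX x hx).2.2
  refine small_union l hBcard _ (fun b => BadS Q rk nm c l (S' b)) (fun b => ih _ (hS' b)) ?_
  rintro α ⟨hα, p, hp, N, hN⟩
  rw [Set.mem_iUnion]
  -- the data of `p` at `c`
  have hb : ∃ b : Finset B, D b = stmPart c p ∪ proPart c p := by
    have hsub : (↑(stmPart c p ∪ proPart c p) : Set (Atom K Θ)) ⊆ Set.range dec := by
      intro a ha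
      rcases Finset.mem_union.1 (Finset.mem_coe.1 ha) with h | h
      · obtain ⟨-, j, k, S, rfl⟩ := mem_stmPart.1 h
        exact ⟨Sum.inl (j, k, S), rfl⟩
      · obtain ⟨h1, ζ, i, rfl⟩ := mem_proPart.1 h
        exact ⟨Sum.inr (⟨ζ, (PT.okat hp c).typ ζ ⟨i, h1⟩⟩, i), rfl⟩
    rw [← Set.image_univ] at hsub
    obtain ⟨b, -, hb⟩ := Finset.subset_set_image_iff.1 hsub
    exact ⟨b, hb⟩
  obtain ⟨b, hb⟩ := hb
  refine ⟨b, hα, res p c, res_mem' hp c, N, fun t htN ht => ?_⟩
  intro r hr hpr x hx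
  have hsubU : p ⊆ r ∪ D b := by
    intro a ha
    rcases parts hmax hp ha with h | h
    · exact Finset.mem_union_left _ (hpr h)
    · refine Finset.mem_union_right _ ?_
      rw [hb]
      exact Finset.mem_union.2 h
  have hU : r ∪ D b ∈ PT Q rk nm ξ := by
    have h1 := join_mem hp hr hc.le hpr
    have h2 : r ∪ p = r ∪ D b := by
      ext a
      rw [Finset.mem_union, Finset.mem_union]
      constructor
      · rintro (h | h)
        · exact Or.inl h
        · exact Finset.mem_union.1 (hsubU h)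
      · rintro (h | h)
        · exact Or.inl h
        · rw [hb] at h
          rcases Finset.mem_union.1 h with h | h
          · exact Or.inr (mem_stmPart.1 h).1
          · exact Or.inr (mem_proPart.1 h).1
    rwa [h2] at h1
  refine ⟨r, hr, subset_rfl, hr, hU, ?_⟩
  intro r' hr' hUr'
  exact hN t htN ht r' hr' (hsubU.trans hUr') x (hUr' (Finset.mem_union_left _ hx))


open Classical in
/-- Successor step, big poset. -/
theorem pres_big {ξ : WithTop Θ} {c : Θ} (hc : (c : WithTop Θ) < ξ)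
    (hmax : ∀ d : Θ, (d : WithTop Θ) < ξ → d ≤ c) (l q : ℕ) (hl : l < (nm c).1)
    (S : ℕ → List Bool → Set (Cond K Θ)) (hS : SName Q rk nm ξ l (Q.H q) S)
    (ih : ∀ S' : ℕ → List Bool → Set (Cond K Θ), SName Q rk nm c l (Q.H (q + 1)) S' →
      Cardinal.mk (BadS Q rk nm c l S') < Cardinal.aleph ((l : Ordinal) + 1)) :
    Cardinal.mk (BadS Q rk nm ξ l S) < Cardinal.aleph ((l : Ordinal) + 1) := by
  set n := (nm c).1 with hn
  -- the pieces
  let B : Type := Finset (ℕ × ℕ × Finset (List Bool)) × ℕ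
  have hBcard : Cardinal.mk B < Cardinal.aleph ((l : Ordinal) + 1) :=
    (Cardinal.mk_le_aleph0_iff.2 inferInstance).trans_lt
      ((Cardinal.aleph0_le_aleph _).trans_lt (aleph_lt_succ l))
  let st : Finset (ℕ × ℕ × Finset (List Bool)) → Cond K Θ := fun b =>
    b.image fun x => Atom.stm c x.1 x.2.1 x.2.2
  have hgrow : ∀ b : B, ∃ T, ∀ t, T ≤ t → Q.ty t ≠ n →
      (∏ j ∈ Finset.range (max (slen c (st b.1)) (b.2 * (Q.H q t + 1))),
        2 ^ 2 ^ Q.f n (j ^ curK c (st b.1))) * Q.H q t ≤ Q.H (q + 1) t := fun b =>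
    Q.H_grow q n (curK c (st b.1)) b.2 (slen c (st b.1))
  choose T₀ hT₀ using hgrow
  let Mt : B → ℕ → ℕ := fun b t => max (slen c (st b.1)) (b.2 * (Q.H q t + 1))
  let S' : B → ℕ → List Bool → Set (Cond K Θ) := fun b t x =>
    {p | p ∈ PT Q rk nm c ∧ T₀ b ≤ t ∧ ∃ s' E : Cond K Θ,
      StemExt (Q.f n) c (curK c (st b.1)) (slen c (st b.1)) (Mt b t) s' ∧
      (∀ a ∈ E, ∃ ζ i, a = Atom.pro c ζ i) ∧ (proms c E).ncard ≤ b.2 ∧
      p ∪ st b.1 ∪ E ∪ s' ∈ PT Q rk nm ξ ∧ Fo Q rk nm ξ S t x (p ∪ st b.1 ∪ E ∪ s')}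
  have hS' : ∀ b, SName Q rk nm c l (Q.H (q + 1)) (S' b) := by
    intro b
    constructor
    · intro t x p hp p' hp' hpp' h
      obtain ⟨h1, h2, s', E, h3, h4, h5, h6, h7⟩ := h
      have hsub : res (p ∪ st b.1 ∪ E ∪ s') c ⊆ p' := by
        intro a ha
        obtain ⟨h8, h9⟩ := mem_res.1 ha
        rcases Finset.mem_union.1 h8 with h8 | h8
        · rcases Finset.mem_union.1 h8 with h8 | h8
          · rcases Finset.mem_union.1 h8 with h8 | h8
            · exact hpp' h8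
            · obtain ⟨y, -, rfl⟩ := Finset.mem_image.1 h8
              exact absurd (h9 c rfl) (lt_irrefl _)
          · obtain ⟨ζ, i, rfl⟩ := h4 a h8
            exact absurd (h9 c rfl) (lt_irrefl _)
        · obtain ⟨j, S, rfl, -⟩ := h3.1 a h8
          exact absurd (h9 c rfl) (lt_irrefl _)
      have h10 := join_mem h6 hp' hc.le hsub
      have h11 : p' ∪ (p ∪ st b.1 ∪ E ∪ s') = p' ∪ st b.1 ∪ E ∪ s' := by
        rw [Finset.union_assoc, Finset.union_assoc, ← Finset.union_assoc p' p,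
          Finset.union_eq_left.2 hpp']
        simp only [Finset.union_assoc]
      rw [h11] at h10
      refine ⟨hp', h2, s', E, h3, h4, h5, h10, h7.mono ?_⟩
      rw [← h11]
      exact Finset.subset_union_right
    · intro t ht p hp X hX
      by_contra hcon
      push Not at hcon
      have hne : X.Nonempty := by
        rw [← Finset.card_pos]
        omega
      obtain ⟨x₀, hx₀⟩ := hne
      have hT : T₀ b ≤ t := (hX x₀ hx₀).2.1
      have hex : ∀ x : List Bool, ∃ s' E : Cond K Θ, x ∈ X →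
          StemExt (Q.f n) c (curK c (st b.1)) (slen c (st b.1)) (Mt b t) s' ∧
          (∀ a ∈ E, ∃ ζ i, a = Atom.pro c ζ i) ∧ (proms c E).ncard ≤ b.2 ∧
          p ∪ st b.1 ∪ E ∪ s' ∈ PT Q rk nm ξ ∧ Fo Q rk nm ξ S t x (p ∪ st b.1 ∪ E ∪ s') := by
        intro x
        by_cases hx : x ∈ X
        · obtain ⟨-, -, s', E, h⟩ := hX x hx
          exact ⟨s', E, fun _ => h⟩
        · exact ⟨∅, ∅, fun h => absurd h hx⟩
      choose s' E hsE using hex
      obtain ⟨hfin, hcard⟩ := stemExt_card (Q.f n) c (curK c (st b.1)) (slen c (st b.1)) (Mt b t)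
      have hpig := Finset.exists_lt_card_fiber_of_mul_lt_card_of_maps_to
        (s := X) (t := hfin.toFinset) (f := s') (n := Q.H q t)
        (fun x hx => hfin.mem_toFinset.2 (hsE x hx).1) (by
          refine lt_of_le_of_lt ?_ hcon
          refine le_trans ?_ (hT₀ b t hT (by rw [ht]; exact hl.ne))
          refine Nat.mul_le_mul_right _ ?_
          rw [← Set.ncard_eq_toFinset_card _ hfin]
          exact hcard)
      obtain ⟨s₀, -, hlt⟩ := hpig
      obtain ⟨Y, hYsub, hYcard⟩ := Finset.exists_subset_card_eq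
        (s := X.filter fun x => s' x = s₀) (n := Q.H q t + 1) (by omega)
      have hYX : ∀ x ∈ Y, x ∈ X := fun x hx => (Finset.mem_filter.1 (hYsub hx)).1
      have hYs : ∀ x ∈ Y, s' x = s₀ := fun x hx => (Finset.mem_filter.1 (hYsub hx)).2
      set U : Cond K Θ := p ∪ st b.1 ∪ Y.biUnion E ∪ s₀ with hU
      have hWU : ∀ x ∈ Y, p ∪ st b.1 ∪ E x ∪ s' x ⊆ U := by
        intro x hx
        rw [hYs x hx]
        refine Finset.union_subset_union_left (Finset.union_subset_union_right ?_)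
        exact Finset.subset_biUnion_of_mem E hx
      obtain ⟨y₀, hy₀⟩ : Y.Nonempty := by
        rw [← Finset.card_pos]
        omega
      have hUlow : ∀ a ∈ U, a.crd ≠ some c → a ∈ p := by
        intro a ha h
        rcases Finset.mem_union.1 ha with h8 | h8
        · rcases Finset.mem_union.1 h8 with h8 | h8
          · rcases Finset.mem_union.1 h8 with h8 | h8
            · exact h8
            · obtain ⟨y, -, rfl⟩ := Finset.mem_image.1 h8
              exact absurd rfl h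
          · obtain ⟨x, hx, h8⟩ := Finset.mem_biUnion.1 h8
            obtain ⟨ζ, i, rfl⟩ := (hsE x (hYX x hx)).2.1 a h8
            exact absurd rfl h
        · have h3 := (hsE y₀ (hYX y₀ hy₀)).1
          rw [hYs y₀ hy₀] at h3
          obtain ⟨j, S, rfl, -⟩ := h3.1 a h8
          exact absurd rfl h
      have hpU : p ⊆ U := fun a ha => by
        simp [hU, ha]
      have hstU : ∀ x ∈ Y, ∀ j k S, Atom.stm c j k S ∈ U →
          Atom.stm c j k S ∈ p ∪ st b.1 ∪ E x ∪ s' x := by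
        intro x hx j k S h8
        rw [hYs x hx]
        rcases Finset.mem_union.1 h8 with h8 | h8
        · rcases Finset.mem_union.1 h8 with h8 | h8
          · exact Finset.mem_union_left _ (Finset.mem_union_left _ h8)
          · obtain ⟨x', hx', h8⟩ := Finset.mem_biUnion.1 h8
            obtain ⟨ζ, i, h9⟩ := (hsE x' (hYX x' hx')).2.1 _ h8
            cases h9
        · exact Finset.mem_union_right _ h8
      have hUPT : U ∈ PT Q rk nm ξ := by
        refine union_mem ⟨?_, ?_, ?_⟩ ?_ ?_ ?_ ?_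
        · intro α s x y h1 h2
          exact hp.1.uniq α s x y (hUlow _ h1 (by simp [Atom.crd]))
            (hUlow _ h2 (by simp [Atom.crd]))
        · intro α s x h1
          exact hp.1.ty α s x (hUlow _ h1 (by simp [Atom.crd]))
        · intro α s x h1
          exact hp.1.len α s x (hUlow _ h1 (by simp [Atom.crd]))
        · intro a ha d hd
          by_cases h : a.crd = some c
          · rw [h] at hd
            cases hd
            exact hc
          · exact ((PT_iff.1 hp).2.1 a (hUlow a ha h) d hd).trans hc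
        · intro a ha d hd
          by_cases h : d = c
          · subst h
            exact ⟨ξ, _, (hsE y₀ (hYX y₀ hy₀)).2.2.2.1, hWU y₀ hy₀, hstU y₀ hy₀⟩
          · refine ⟨c, p, hp, hpU, fun j k S h1 => hUlow _ h1 ?_⟩
            intro h2
            simp only [Atom.crd, Option.some.injEq] at h2
            exact h h2
        · intro d ζ i h1
          by_cases h : d = c
          · subst h
            have h8 := h1
            rcases Finset.mem_union.1 h8 with h8 | h8
            · rcases Finset.mem_union.1 h8 with h8 | h8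
              · rcases Finset.mem_union.1 h8 with h8 | h8
                · exact absurd ((PT_iff.1 hp).2.1 _ h8 d rfl) (lt_irrefl _)
                · obtain ⟨y, -, h9⟩ := Finset.mem_image.1 h8
                  cases h9
              · obtain ⟨x, hx, h8⟩ := Finset.mem_biUnion.1 h8
                refine ⟨ξ, _, (hsE x (hYX x hx)).2.2.2.1, hWU x hx, ?_, hstU x hx⟩
                exact Finset.mem_union_left _ (Finset.mem_union_right _ h8)
            · have h3 := (hsE y₀ (hYX y₀ hy₀)).1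
              rw [hYs y₀ hy₀] at h3
              obtain ⟨j, S, h9, -⟩ := h3.1 _ h8
              cases h9
          · refine ⟨c, p, hp, hpU, hUlow _ h1 ?_, fun j k S h1 => hUlow _ h1 ?_⟩
            · intro h2
              simp only [Atom.crd, Option.some.injEq] at h2
              exact h h2
            · intro h2
              simp only [Atom.crd, Option.some.injEq] at h2
              exact h h2
        · intro a ha d hd
          by_cases h : d = c
          · subst h
            have hsub : proms d U ⊆ ⋃ x ∈ Y, proms d (E x) := by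
              rintro ζ ⟨i, h8⟩
              rcases Finset.mem_union.1 h8 with h8 | h8
              · rcases Finset.mem_union.1 h8 with h8 | h8
                · rcases Finset.mem_union.1 h8 with h8 | h8
                  · exact absurd ((PT_iff.1 hp).2.1 _ h8 d rfl) (lt_irrefl _)
                  · obtain ⟨y, -, h9⟩ := Finset.mem_image.1 h8
                    cases h9
                · obtain ⟨x, hx, h8⟩ := Finset.mem_biUnion.1 h8
                  exact Set.mem_biUnion hx ⟨i, h8⟩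
              · have h3 := (hsE y₀ (hYX y₀ hy₀)).1
                rw [hYs y₀ hy₀] at h3
                obtain ⟨j, S, h9, -⟩ := h3.1 _ h8
                cases h9
            have hle : (proms d U).ncard ≤ (Q.H q t + 1) * b.2 := by
              calc (proms d U).ncard ≤ (⋃ x ∈ Y, proms d (E x)).ncard :=
                    Set.ncard_le_ncard hsub
                      (Y.finite_toSet.biUnion fun x _ => proms_finite d (E x))
                _ ≤ ∑ x ∈ Y, (proms d (E x)).ncard := Finset.set_ncard_biUnion_le _ _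
                _ ≤ ∑ x ∈ Y, b.2 := Finset.sum_le_sum fun x hx => (hsE x (hYX x hx)).2.2.1
                _ = (Q.H q t + 1) * b.2 := by rw [Finset.sum_const, hYcard, smul_eq_mul]
            refine hle.trans ?_
            have h1 : Mt b t ≤ slen d U := by
              rcases le_or_gt (Mt b t) (slen d (st b.1)) with h2 | h2
              · exact h2.trans (slen_mono fun a ha => by simp [hU, ha])
              · have h3 := (hsE y₀ (hYX y₀ hy₀)).1
                rw [hYs y₀ hy₀] at h3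
                obtain ⟨S, hS, -⟩ := h3.2 (Mt b t - 1) (by omega) (by omega)
                have := lt_slen (Finset.mem_union_right (p ∪ st b.1 ∪ Y.biUnion E) hS)
                rw [← hU] at this
                omega
            refine le_trans ?_ h1
            rw [mul_comm]
            exact le_max_right _ _
          · have h1 : proms d U ⊆ proms d p := by
              rintro ζ ⟨i, h8⟩
              refine ⟨i, hUlow _ h8 ?_⟩
              intro h2
              simp only [Atom.crd, Option.some.injEq] at h2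
              exact h h2
            exact ((Set.ncard_le_ncard h1 (proms_finite d p)).trans (PT.okat hp d).cnt).trans
              (slen_mono hpU)
      have h1 := Fo.width hS ht hUPT Y fun x hx => ((hsE x (hYX x hx)).2.2.2.2).mono (hWU x hx)
      omega
  refine small_union l hBcard _ (fun b => BadS Q rk nm c l (S' b)) (fun b => ih _ (hS' b)) ?_
  rintro α ⟨hα, p, hp, N, hN⟩
  rw [Set.mem_iUnion]
  -- the stem of `p` at `c`
  have hb : ∃ b : Finset (ℕ × ℕ × Finset (List Bool)), st b = stmPart c p := by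
    have hsub : (↑(stmPart c p) : Set (Atom K Θ)) ⊆
        Set.range fun x : ℕ × ℕ × Finset (List Bool) => Atom.stm c x.1 x.2.1 x.2.2 := by
      intro a ha
      obtain ⟨-, j, k, S, rfl⟩ := mem_stmPart.1 (Finset.mem_coe.1 ha)
      exact ⟨(j, k, S), rfl⟩
    rw [← Set.image_univ] at hsub
    obtain ⟨b, -, hb⟩ := Finset.subset_set_image_iff.1 hsub
    exact ⟨b, hb⟩
  obtain ⟨b, hb⟩ := hb
  have hstb : ∀ j k S, Atom.stm c j k S ∈ st b ↔ Atom.stm c j k S ∈ p := by
    intro j k S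
    rw [hb, mem_stmPart]
    exact ⟨fun h => h.1, fun h => ⟨h, j, k, S, rfl⟩⟩
  have hslb : slen c (st b) = slen c p := slen_congr hstb
  have hcurb : curK c (st b) = curK c p := curK_congr hstb
  refine ⟨(b, (proms c p).ncard), hα, res p c, res_mem' hp c,
    max N (T₀ (b, (proms c p).ncard)), fun t htN ht => ?_⟩
  intro r hr hpr x hx
  obtain ⟨r', hr', hrr', s', hs', hU, -⟩ := extend_stem hc hp hr hpr
    ((proms c p).ncard * (Q.H q t + 1))
  have heq : r' ∪ st b ∪ proPart c p ∪ s' = r' ∪ p ∪ s' := by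
    ext a
    simp only [Finset.mem_union, hb, mem_stmPart, mem_proPart]
    constructor
    · rintro (((h | h) | h) | h)
      · exact Or.inl (Or.inl h)
      · exact Or.inl (Or.inr h.1)
      · exact Or.inl (Or.inr h.1)
      · exact Or.inr h
    · rintro ((h | h) | h)
      · exact Or.inl (Or.inl (Or.inl h))
      · rcases parts hmax hp h with h' | h' | h'
        · exact Or.inl (Or.inl (Or.inl (hrr' (hpr h'))))
        · exact Or.inl (Or.inl (Or.inr (mem_stmPart.1 h')))
        · exact Or.inl (Or.inr (mem_proPart.1 h'))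
      · exact Or.inr h
  refine ⟨r', hr', hrr', hr', (le_max_right _ _).trans htN, s', proPart c p, ?_, ?_, ?_, ?_, ?_⟩
  · show StemExt (Q.f n) c (curK c (st b)) (slen c (st b)) (max (slen c (st b))
      ((proms c p).ncard * (Q.H q t + 1))) s'
    rw [hslb, hcurb]
    exact hs'
  · intro a ha
    exact (mem_proPart.1 ha).2
  · have : proms c (proPart c p) = proms c p := by
      ext ζ
      exact exists_congr fun i => by
        rw [mem_proPart]
        exact ⟨fun h => h.1, fun h => ⟨h, ζ, i, rfl⟩⟩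
    rw [this]
  · show r' ∪ st b ∪ proPart c p ∪ s' ∈ _
    rw [heq]
    exact hU
  · show Fo Q rk nm ξ S t x (r' ∪ st b ∪ proPart c p ∪ s')
    rw [heq]
    intro w hw hUw
    refine hN t ((le_max_left _ _).trans htN) ht w hw ?_ x ?_
    · exact (Finset.subset_union_right.trans Finset.subset_union_left).trans hUw
    · exact hUw (Finset.mem_union_left _ (Finset.mem_union_left _ (hrr' hx)))

open Classical in
/-- Limit step, countable cofinality. -/
theorem pres_limit {ξ : WithTop Θ} (l q : ℕ)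
    (C₀ : Set Θ) (hC₀ : C₀.Countable) (hC₁ : ∀ c ∈ C₀, (c : WithTop Θ) < ξ)
    (hC₂ : ∀ p ∈ PT Q rk nm ξ, ∃ c ∈ C₀, p ∈ PT Q rk nm c)
    (S : ℕ → List Bool → Set (Cond K Θ)) (hS : SName Q rk nm ξ l (Q.H q) S)
    (ih : ∀ c ∈ C₀, ∀ S' : ℕ → List Bool → Set (Cond K Θ), SName Q rk nm c l (Q.H q) S' →
      Cardinal.mk (BadS Q rk nm c l S') < Cardinal.aleph ((l : Ordinal) + 1)) :
    Cardinal.mk (BadS Q rk nm ξ l S) < Cardinal.aleph ((l : Ordinal) + 1) := by
  have hdec : ∀ t x, ∀ p ∈ PT Q rk nm ξ, ∃ r ∈ PT Q rk nm ξ, p ⊆ r ∧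
      (r ∈ S t x ∨ ∀ r' ∈ PT Q rk nm ξ, r ⊆ r' → r' ∉ S t x) := by
    intro t x p hp
    by_cases h : ∃ r ∈ PT Q rk nm ξ, p ⊆ r ∧ r ∈ S t x
    · obtain ⟨r, h1, h2, h3⟩ := h
      exact ⟨r, h1, h2, Or.inl h3⟩
    · push Not at h
      exact ⟨p, hp, subset_rfl, Or.inr fun r' h1 h2 => h r' h1 h2⟩
  have hdecF : ∀ t (X : Finset (List Bool)), ∀ p ∈ PT Q rk nm ξ, ∃ r ∈ PT Q rk nm ξ, p ⊆ r ∧
      ∀ x ∈ X, (r ∈ S t x ∨ ∀ r' ∈ PT Q rk nm ξ, r ⊆ r' → r' ∉ S t x) := by
    intro t X p hp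
    induction X using Finset.induction_on with
    | empty => exact ⟨p, hp, subset_rfl, by simp⟩
    | insert y Y hy ihY =>
      obtain ⟨r, hr, hpr, h1⟩ := ihY
      obtain ⟨r', hr', hrr', h2⟩ := hdec t y r hr
      refine ⟨r', hr', hpr.trans hrr', fun x hx => ?_⟩
      rcases Finset.mem_insert.1 hx with rfl | hx
      · exact h2
      · rcases h1 x hx with h3 | h3
        · exact Or.inl (hS.mono t x r hr r' hr' hrr' h3)
        · exact Or.inr fun r'' h4 h5 => h3 r'' h4 (hrr'.trans h5)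
  -- conditions below `c` with a witness deciding `S t`
  let W : Θ → ℕ → Cond K Θ → Cond K Θ → Prop := fun c t a r =>
    r ∈ PT Q rk nm ξ ∧ res r c = a ∧
      ∀ x ∈ strs (Q.L t), (r ∈ S t x ∨ ∀ r' ∈ PT Q rk nm ξ, r ⊆ r' → r' ∉ S t x)
  have hanti : ∀ (c : Θ) (t : ℕ), ∃ A ⊆ {a | a ∈ PT Q rk nm c ∧ ∃ r, W c t a r}, A.Countable ∧
      (∀ a ∈ A, ∀ b ∈ A, a ≠ b → ¬ ∃ r ∈ PT Q rk nm c, a ⊆ r ∧ b ⊆ r) ∧
      ∀ d ∈ {a | a ∈ PT Q rk nm c ∧ ∃ r, W c t a r}, ∃ a ∈ A, ∃ r ∈ PT Q rk nm c, a ⊆ r ∧ d ⊆ r :=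
    fun c t => exists_antichain _ fun a ha => ha.1
  choose A hA1 hA2 hA3 hA4 using hanti
  have hw : ∀ (c : Θ) (t : ℕ) (a : Cond K Θ), ∃ r, a ∈ A c t → W c t a r := by
    intro c t a
    by_cases h : a ∈ A c t
    · obtain ⟨-, r, hr⟩ := hA1 c t h
      exact ⟨r, fun _ => hr⟩
    · exact ⟨∅, fun h' => absurd h' h⟩
  choose w hw using hw
  let S' : Θ → ℕ → List Bool → Set (Cond K Θ) := fun c t x =>
    {p | p ∈ PT Q rk nm c ∧ ∃ a ∈ A c t, a ⊆ p ∧ w c t a ∈ S t x}
  have hS' : ∀ c ∈ C₀, SName Q rk nm c l (Q.H q) (S' c) := by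
    intro c hc
    constructor
    · rintro t x p hp p' hp' hpp' ⟨-, a, ha, hap, h1⟩
      exact ⟨hp', a, ha, hap.trans hpp', h1⟩
    · intro t ht p hp X hX
      rcases X.eq_empty_or_nonempty with rfl | ⟨x₀, hx₀⟩
      · simp
      · obtain ⟨-, a, ha, hap, -⟩ := hX x₀ hx₀
        refine hS.width t ht (w c t a) (hw c t a ha).1 X fun x hx => ?_
        obtain ⟨-, b, hb, hbp, h2⟩ := hX x hx
        have : a = b := by
          by_contra hne
          exact hA3 c t a ha b hb hne ⟨p, hp, hap, hbp⟩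
        rw [this]
        exact h2
  have hι : Cardinal.mk C₀ < Cardinal.aleph ((l : Ordinal) + 1) :=
    (Cardinal.mk_le_aleph0_iff.2 hC₀.to_subtype).trans_lt
      ((Cardinal.aleph0_le_aleph _).trans_lt (aleph_lt_succ l))
  refine small_union l hι _ (fun c : C₀ => BadS Q rk nm c.1 l (S' c.1))
    (fun c => ih c.1 c.2 _ (hS' c.1 c.2)) ?_
  rintro α ⟨hα, p, hp, N, hN⟩
  obtain ⟨c, hc, hpc⟩ := hC₂ p hp
  rw [Set.mem_iUnion]
  refine ⟨⟨c, hc⟩, hα, p, hpc, N, fun t htN ht => ?_⟩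
  intro r hr hpr x hx
  have hcξ := hC₁ c hc
  -- density
  obtain ⟨r₁, hr₁, hrr₁, hd₁⟩ := hdecF t (strs (Q.L t)) r (PT_mono hcξ.le hr)
  have hrres : r ⊆ res r₁ c := by
    intro a ha
    exact mem_res.2 ⟨hrr₁ ha, fun d hd =>
      WithTop.coe_lt_coe.1 ((PT_iff.1 hr).2.1 a ha d hd)⟩
  obtain ⟨a, ha, r₂, hr₂, har₂, hr₁₂⟩ := hA4 c t (res r₁ c) ⟨res_mem' hr₁ c, r₁, hr₁, rfl, hd₁⟩
  obtain ⟨hw1, hw2, hw3⟩ := hw c t a ha
  have hU := join_mem hw1 hr₂ hcξ.le (hw2.le.trans har₂)
  have hpU : p ⊆ r₂ ∪ w c t a := ((hpr.trans hrres).trans hr₁₂).trans Finset.subset_union_left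
  have hxU : Atom.coh α t x ∈ r₂ ∪ w c t a :=
    Finset.mem_union_left _ (hr₁₂ (hrres hx))
  obtain ⟨r', hr', hUr', h1⟩ := hN t htN ht _ hU hpU x hxU
  have hxs : x ∈ strs (Q.L t) := mem_strs.2 (hr.1.len α t x hx)
  have h2 : w c t a ∈ S t x := by
    rcases hw3 x hxs with h3 | h3
    · exact h3
    · exact absurd h1 (h3 r' hr' (Finset.subset_union_right.trans hUr'))
  exact ⟨r₂, hr₂, hrres.trans hr₁₂, hr₂, a, ha, har₂, h2⟩

open Classical in
/-- Limit step, the name is bounded. -/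
theorem pres_bounded {ξ : WithTop Θ} (l q : ℕ) {c : Θ} (hc : (c : WithTop Θ) < ξ)
    (S : ℕ → List Bool → Set (Cond K Θ)) (hS : SName Q rk nm ξ l (Q.H q) S)
    (hb : ∀ t x, ∀ r ∈ PT Q rk nm ξ, r ∈ S t x → ∃ a ∈ PT Q rk nm c, ∃ r₂ ∈ PT Q rk nm ξ,
      a ⊆ r₂ ∧ r ⊆ r₂ ∧ a ∈ S t x)
    (ih : ∀ S' : ℕ → List Bool → Set (Cond K Θ), SName Q rk nm c l (Q.H q) S' →
      Cardinal.mk (BadS Q rk nm c l S') < Cardinal.aleph ((l : Ordinal) + 1)) :
    Cardinal.mk (BadS Q rk nm ξ l S) < Cardinal.aleph ((l : Ordinal) + 1) := by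
  have hS' : SName Q rk nm c l (Q.H q) S :=
    ⟨fun t x p hp p' hp' => hS.mono t x p (PT_mono hc.le hp) p' (PT_mono hc.le hp'),
      fun t ht p hp => hS.width t ht p (PT_mono hc.le hp)⟩
  refine (Cardinal.mk_le_mk_of_subset ?_).trans_lt (ih S hS')
  rintro α ⟨hα, p, hp, N, hN⟩
  refine ⟨hα, res p c, res_mem' hp c, N, fun t htN ht => ?_⟩
  intro r hr hpr x hx
  have hU := join_mem hp hr hc.le hpr
  obtain ⟨r₁, hr₁, hU₁, h1⟩ := hN t htN ht _ hU Finset.subset_union_right x
    (Finset.mem_union_left _ hx)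
  obtain ⟨a, ha, r₂, hr₂, har₂, hr₁₂, h2⟩ := hb t x r₁ hr₁ h1
  have hlow : ∀ b : Cond K Θ, b ∈ PT Q rk nm c → b ⊆ r₂ → b ⊆ res r₂ c := by
    intro b hb hbr a' ha'
    exact mem_res.2 ⟨hbr ha', fun d hd =>
      WithTop.coe_lt_coe.1 ((PT_iff.1 hb).2.1 a' ha' d hd)⟩
  refine ⟨res r₂ c, res_mem' hr₂ c, hlow r hr ?_, ?_⟩
  · exact (Finset.subset_union_left.trans hU₁).trans hr₁₂
  · exact hS.mono t x a (PT_mono hc.le ha) _ (PT_mono hc.le (res_mem' hr₂ c)) (hlow a ha har₂) h2

open Classical in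
/-- **The preservation theorem.** -/
theorem preservation (hK : ∀ n : ℕ, Cardinal.mk {α : K // rk α < n} ≤ Cardinal.aleph n) (l : ℕ)
    (ξ : WithTop Θ) (q : ℕ) (S : ℕ → List Bool → Set (Cond K Θ))
    (hS : SName Q rk nm ξ l (Q.H q) S) :
    Cardinal.mk (BadS Q rk nm ξ l S) < Cardinal.aleph (l + 1) := by
  induction ξ using WellFoundedLT.induction generalizing q S with
  | ind ξ ih =>
    by_cases h0 : ∀ c : Θ, ¬ (c : WithTop Θ) < ξ
    · exact (Cardinal.mk_le_aleph0_iff.2 (pres_bot h0 l q S hS).to_subtype).trans_lt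
        ((Cardinal.aleph0_le_aleph _).trans_lt (aleph_lt_succ l))
    push Not at h0
    by_cases h1 : ∃ c : Θ, (c : WithTop Θ) < ξ ∧ ∀ d : Θ, (d : WithTop Θ) < ξ → d ≤ c
    · obtain ⟨c, hc, hmax⟩ := h1
      rcases le_or_gt (nm c).1 l with hl | hl
      · exact pres_small hK hc hmax l q hl S hS fun S' hS' => ih c hc q S' hS'
      · exact pres_big hc hmax l q hl S hS fun S' hS' => ih c hc (q + 1) S' hS'
    push Not at h1
    -- maximal antichains deciding `x ∈ S t`
    have hanti : ∀ (t : ℕ) (x : List Bool), ∃ A ⊆ {p | p ∈ PT Q rk nm ξ ∧ (p ∈ S t x ∨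
          ∀ r ∈ PT Q rk nm ξ, p ⊆ r → r ∉ S t x)}, A.Countable ∧
        (∀ a ∈ A, ∀ b ∈ A, a ≠ b → ¬ ∃ r ∈ PT Q rk nm ξ, a ⊆ r ∧ b ⊆ r) ∧
        ∀ d ∈ {p | p ∈ PT Q rk nm ξ ∧ (p ∈ S t x ∨
          ∀ r ∈ PT Q rk nm ξ, p ⊆ r → r ∉ S t x)}, ∃ a ∈ A, ∃ r ∈ PT Q rk nm ξ, a ⊆ r ∧ d ⊆ r :=
      fun t x => exists_antichain _ fun a ha => ha.1
    choose A hA1 hA2 hA3 hA4 using hanti
    let C₀ : Set Θ := {c | ∃ t x, ∃ a ∈ A t x, ∃ b ∈ a, b.crd = some c}
    have hC₀ : C₀.Countable := by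
      have h2 : C₀ = ⋃ (t : ℕ), ⋃ (x : List Bool), ⋃ a ∈ A t x,
          ⋃ b ∈ (↑a : Set (Atom K Θ)), {c | b.crd = some c} := by
        ext c
        simp [C₀]
      rw [h2]
      refine Set.countable_iUnion fun t => Set.countable_iUnion fun x =>
        (hA2 t x).biUnion fun a _ => (a.finite_toSet.countable).biUnion fun b _ => ?_
      refine Set.Subsingleton.countable fun c hc d hd => ?_
      rw [Set.mem_setOf_eq] at hc hd
      rw [hc] at hd
      exact Option.some_injective _ hd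
    have hC₁ : ∀ c ∈ C₀, (c : WithTop Θ) < ξ := by
      rintro c ⟨t, x, a, ha, b, hb, hbc⟩
      exact (PT_iff.1 (hA1 t x ha).1).2.1 b hb c hbc
    by_cases h2 : ∀ c : Θ, (c : WithTop Θ) < ξ → ∃ c' ∈ C₀, c ≤ c'
    · refine pres_limit l q C₀ hC₀ hC₁ ?_ S hS fun c hc S' hS' => ih c (hC₁ c hc) q S' hS'
      intro p hp
      -- a bound for the coordinates of `p`
      have h3 : ∃ c : Θ, (c : WithTop Θ) < ξ ∧ ∀ a ∈ p, ∀ d, a.crd = some d → d < c := by
        set F : Finset Θ := p.biUnion fun a => a.crd.toFinset with hF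
        have hmemF : ∀ d, d ∈ F ↔ ∃ a ∈ p, a.crd = some d := by
          intro d
          simp [hF]
        rcases F.eq_empty_or_nonempty with hE | hne
        · obtain ⟨c, hc⟩ := h0
          refine ⟨c, hc, fun a ha d hd => ?_⟩
          have : d ∈ F := (hmemF d).2 ⟨a, ha, hd⟩
          rw [hE] at this
          simp at this
        · obtain ⟨a, ha, had⟩ := (hmemF _).1 (F.max'_mem hne)
          obtain ⟨c, hc, hlt⟩ := h1 _ ((PT_iff.1 hp).2.1 a ha _ had)
          refine ⟨c, hc, fun a ha d hd => ?_⟩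
          exact (F.le_max' d ((hmemF d).2 ⟨a, ha, hd⟩)).trans_lt hlt
      obtain ⟨c, hc, h4⟩ := h3
      obtain ⟨c', hc', hcc'⟩ := h2 c hc
      refine ⟨c', hc', ?_⟩
      rw [PT_iff] at hp ⊢
      exact ⟨hp.1, fun a ha d hd => WithTop.coe_lt_coe.2 ((h4 a ha d hd).trans_le hcc'), hp.2.2⟩
    · push Not at h2
      obtain ⟨c, hc, h3⟩ := h2
      refine pres_bounded l q hc S hS ?_ fun S' hS' => ih c hc q S' hS'
      intro t x r hr hrS
      obtain ⟨a, ha, r₂, hr₂, har₂, hrr₂⟩ := hA4 t x r ⟨hr, Or.inl hrS⟩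
      refine ⟨a, ?_, r₂, hr₂, har₂, hrr₂, ?_⟩
      · have ha' := (hA1 t x ha).1
        rw [PT_iff] at ha' ⊢
        exact ⟨ha'.1, fun b hb d hd => WithTop.coe_lt_coe.2 (h3 d ⟨t, x, a, ha, b, hb, hd⟩),
          ha'.2.2⟩
      · rcases (hA1 t x ha).2 with h4 | h4
        · exact h4
        · exact absurd (hS.mono t x r hr r₂ hr₂ hrr₂ hrS) (h4 r₂ hr₂ har₂)

end MP958
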