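import Pool.Agent.Lib.MP_958b88_lc.YPresM
import Pool.Agent.Lib.MP_958b88_lc.YComb

/-!
# The upper and the lower bound, and the combinatorial main theorem
-/

set_option autoImplicit false

section

/-!
# The upper bound
-/


namespace MP958

open Set

variable {K Θ : Type} [LinearOrder Θ] [WellFoundedLT Θ]

/-- The poset of all conditions. -/
def PP (Q : Params) (rk : K → ℕ) (nm : Θ → Nm K Θ) : Type := {p : Cond K Θ // p ∈ PT Q rk nm ⊤}

instance (Q : Params) (rk : K → ℕ) (nm : Θ → Nm K Θ) : Preorder (PP Q rk nm) where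
  le q p := p.1 ⊆ q.1
  le_refl p := subset_rfl
  le_trans r q p h1 h2 := h2.trans h1

instance (Q : Params) (rk : K → ℕ) (nm : Θ → Nm K Θ) : Nonempty (PP Q rk nm) :=
  ⟨⟨∅, empty_mem ⊤⟩⟩

variable {Q : Params} {rk : K → ℕ} {nm : Θ → Nm K Θ}

/-! ### Coding of words -/

/-- Code of a word. -/
def enc : List Bool → ℕ
  | [] => 1
  | b :: u => 2 * enc u + b.toNat

theorem enc_lower (u : List Bool) : 2 ^ u.length ≤ enc u := by
  induction u with
  | nil => simp [enc]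
  | cons b u ih =>
    simp only [enc, List.length_cons, pow_succ]
    omega

theorem enc_upper (u : List Bool) : enc u < 2 ^ (u.length + 1) := by
  induction u with
  | nil => simp [enc]
  | cons b u ih =>
    simp only [enc, List.length_cons]
    rw [pow_succ]
    have := Bool.toNat_lt b
    omega

theorem enc_inj : ∀ {u v : List Bool}, enc u = enc v → u = v
  | [], [], _ => rfl
  | [], b :: v, h => by
    simp only [enc] at h
    have h1 := enc_lower v
    have h2 := Nat.one_le_two_pow (n := v.length)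
    omega
  | a :: u, [], h => by
    simp only [enc] at h
    have h1 := enc_lower u
    have h2 := Nat.one_le_two_pow (n := u.length)
    omega
  | a :: u, b :: v, h => by
    simp only [enc] at h
    have h1 := Bool.toNat_lt a
    have h2 := Bool.toNat_lt b
    have h3 : a.toNat = b.toNat := by omega
    have h4 : enc u = enc v := by omega
    have h5 : a = b := by
      revert h3
      cases a <;> cases b <;> simp
    rw [enc_inj h4, h5]

/-! ### The parameters -/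

theorem Params.e_strictMono (Q : Params) : StrictMono Q.e := fun t t' h => by
  have := Q.e_step t t' h
  have := Q.e_ge t
  omega

theorem Params.L_pos (Q : Params) (t : ℕ) : 0 < Q.L t := by
  have h1 := Q.big t
  have h2 := Q.len t
  have h3 : 2 ^ Q.e t ≤ (2 ^ (2 * Q.e t + 1)) ^ (t + 1) := by
    rw [← pow_mul]
    refine Nat.pow_le_pow_right (by norm_num) ?_
    nlinarith [Nat.zero_le (Q.e t), Nat.zero_le t]
  have h4 := (Q.f_mono (Q.ty t)).monotone h3
  omega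

/-! ### Adding values of Cohen reals -/

open Classical in
theorem add_coh {ξ : WithTop Θ} {p : Cond K Θ} (hp : p ∈ PT Q rk nm ξ) {α : K} {t : ℕ}
    {x : List Bool} (hx : ∀ y, Atom.coh α t y ∉ p) (ht : Q.ty t = rk α)
    (hl : x.length = Q.L t) : insert (Atom.coh α t x) p ∈ PT Q rk nm ξ := by
  have hmem : ∀ a : Atom K Θ, ∀ d, a.crd = some d → (a ∈ insert (Atom.coh α t x) p ↔ a ∈ p) := by
    intro a d ha
    rw [Finset.mem_insert]
    refine ⟨fun h => h.resolve_left ?_, Or.inr⟩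
    rintro rfl
    simp [Atom.crd] at ha
  refine union_mem ⟨?_, ?_, ?_⟩ ?_ ?_ ?_ ?_
  · intro α' t' y z h1 h2
    rw [Finset.mem_insert] at h1 h2
    rcases h1 with h1 | h1 <;> rcases h2 with h2 | h2
    · cases h1; cases h2; rfl
    · cases h1; exact absurd h2 (hx _)
    · cases h2; exact absurd h1 (hx _)
    · exact (PT.coh hp).uniq _ _ _ _ h1 h2
  · intro α' t' y h1
    rw [Finset.mem_insert] at h1
    rcases h1 with h1 | h1
    · cases h1; exact ht
    · exact (PT.coh hp).ty _ _ _ h1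
  · intro α' t' y h1
    rw [Finset.mem_insert] at h1
    rcases h1 with h1 | h1
    · cases h1; exact hl
    · exact (PT.coh hp).len _ _ _ h1
  · intro a ha d hd
    exact (PT_iff.1 hp).2.1 a ((hmem a d hd).1 ha) d hd
  · intro a ha d hd
    exact ⟨ξ, p, hp, Finset.subset_insert _ _, fun j k S h => (hmem _ d rfl).1 h⟩
  · intro d ζ i hi
    exact ⟨ξ, p, hp, Finset.subset_insert _ _, (hmem _ d rfl).1 hi,
      fun j k S h => (hmem _ d rfl).1 h⟩
  · intro a ha d hd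
    have h1 : proms d (insert (Atom.coh α t x) p) = proms d p := by
      ext ζ
      exact exists_congr fun i => hmem _ d rfl
    rw [h1]
    exact (PT.okat hp d).cnt.trans (slen_mono (Finset.subset_insert _ _))

/-! ### The names of the family -/

/-- The name for the `α`-th sequence. -/
def sig (Q : Params) (rk : K → ℕ) (nm : Θ → Nm K Θ) (l : ℕ) (α : K) (j : ℕ) (w : List Bool)
    (p : PP Q rk nm) : Prop :=
  (∃ t u x, Q.ty t = l ∧ u.length = 2 * Q.e t ∧ j = enc u ∧ Atom.coh α t x ∈ p.1 ∧ w = u ++ x) ∨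
  ((∀ t u, Q.ty t = l → u.length = 2 * Q.e t → j ≠ enc u) ∧
    w = List.replicate (Q.f l (j ^ j)) false)

theorem sig_name (l : ℕ) (α : K) (hα : rk α = l) (p₀ : PP Q rk nm) :
    RNameBelow p₀ (sig Q rk nm l α) := by
  classical
  constructor
  · rintro j w p q hqp (⟨t, u, x, h1, h2, h3, h4, h5⟩ | h)
    · exact Or.inl ⟨t, u, x, h1, h2, h3, hqp h4, h5⟩
    · exact Or.inr h
  · rintro j w w' p (⟨t, u, x, h1, h2, h3, h4, h5⟩ | h) (⟨t', u', x', h1', h2', h3', h4', h5'⟩ | h')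
    · have h6 : u = u' := enc_inj (h3.symm.trans h3')
      subst h6
      have h7 : t = t' := Q.e_strictMono.injective (by omega)
      subst h7
      rw [h5, h5', (PT.coh p.2).uniq _ _ _ _ h4 h4']
    · exact absurd h3 (h'.1 t u h1 h2)
    · exact absurd h3' (h.1 t' u' h1' h2')
    · rw [h.2, h'.2]
  · intro j p _
    by_cases h : ∃ t u, Q.ty t = l ∧ u.length = 2 * Q.e t ∧ j = enc u
    · obtain ⟨t, u, h1, h2, h3⟩ := h
      by_cases h4 : ∃ x, Atom.coh α t x ∈ p.1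
      · obtain ⟨x, h4⟩ := h4
        exact ⟨p, le_rfl, u ++ x, Or.inl ⟨t, u, x, h1, h2, h3, h4, rfl⟩⟩
      · push Not at h4
        have h5 := add_coh (x := List.replicate (Q.L t) false) p.2 h4 (h1.trans hα.symm) (by simp)
        refine ⟨⟨_, h5⟩, Finset.subset_insert _ _, u ++ List.replicate (Q.L t) false,
          Or.inl ⟨t, u, _, h1, h2, h3, Finset.mem_insert_self _ _, rfl⟩⟩
    · push Not at h
      exact ⟨p, le_rfl, _, Or.inr ⟨h, rfl⟩⟩

theorem sig_grow (l k : ℕ) : ∃ N, ∀ j, N ≤ j → ∀ (α : K) (w : List Bool) (p : PP Q rk nm),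
    sig Q rk nm l α j w p → Q.f l (j ^ k) ≤ w.length := by
  refine ⟨max (k + 1) (2 ^ (2 * Q.e k + 1)), ?_⟩
  rintro j hj α w p (⟨t, u, x, h1, h2, h3, h4, h5⟩ | ⟨_, h⟩)
  · rw [h5, List.length_append, h2, (PT.coh p.2).len _ _ _ h4, Q.len t, h1]
    refine (Q.f_mono l).monotone ?_
    have h6 : j < 2 ^ (2 * Q.e t + 1) := by
      rw [h3, ← h2]
      exact enc_upper u
    have h7 : k < t := by
      by_contra hcon
      push Not at hcon
      have h8 := Q.e_strictMono.monotone hcon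
      have h9 : 2 ^ (2 * Q.e t + 1) ≤ 2 ^ (2 * Q.e k + 1) :=
        Nat.pow_le_pow_right (by norm_num) (by omega)
      have h10 := le_max_right (k + 1) (2 ^ (2 * Q.e k + 1))
      omega
    calc j ^ k ≤ (2 ^ (2 * Q.e t + 1)) ^ k := Nat.pow_le_pow_left h6.le k
      _ ≤ (2 ^ (2 * Q.e t + 1)) ^ (t + 1) := Nat.pow_le_pow_right (by positivity) (by omega)
  · rw [h, List.length_replicate]
    refine (Q.f_mono l).monotone ?_
    have h1 := le_max_left (k + 1) (2 ^ (2 * Q.e k + 1))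
    exact Nat.pow_le_pow_right (by omega) (by omega)

/-! ### Deciding names -/

theorem RNameBelow.decide {P : Type} [Preorder P] {p₀ : P} {τ : ℕ → List Bool → P → Prop}
    (h : RNameBelow p₀ τ) {p : P} (hp : p ≤ p₀) (N : ℕ) :
    ∃ r ≤ p, ∃ T : ℕ → List Bool, ∀ j, j < N → τ j (T j) r := by
  induction N with
  | zero => exact ⟨p, le_rfl, fun _ => [], fun j hj => absurd hj (Nat.not_lt_zero j)⟩
  | succ N ih =>
    obtain ⟨r, hr, T, hT⟩ := ih
    obtain ⟨r', hr', w, hw⟩ := h.total N r (hr.trans hp)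
    refine ⟨r', hr'.trans hr, fun j => if j < N then T j else w, fun j hj => ?_⟩
    by_cases h1 : j < N
    · simp only [h1, if_true]
      exact h.mono _ _ _ _ hr' (hT j h1)
    · have h2 : j = N := by omega
      subst h2
      simp only [lt_irrefl, if_false]
      exact hw

section Main

variable (q₀ : PP Q rk nm) (τ : ℕ → List Bool → PP Q rk nm → Prop) (m l : ℕ)

/-- The name of the slalom above `v`. -/
def Sv (v : List Bool) (t : ℕ) (x : List Bool) : Set (Cond K Θ) :=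
  {c | ∃ h : c ∈ PT Q rk nm ⊤, q₀.1 ⊆ c ∧ ∃ T N, 2 ^ Q.e t ≤ N ∧
    (∀ j, j < N → τ j (T j) ⟨c, h⟩) ∧ (∃ u ∈ Rset Q T m t, v <+: u) ∧
    ∀ u ∈ Rset Q T m t, v <+: u → x ∈ Bfin Q T m l t N u}

variable {q₀ τ m l}

theorem Bfin_mono {T T' : ℕ → List Bool} {t N N' : ℕ} {u x : List Bool} (hN : N ≤ N')
    (hT : ∀ j, j < N → T j = T' j) (hx : x ∈ Bfin Q T m l t N u) : x ∈ Bfin Q T' m l t N' u := by
  obtain ⟨h1, t', h2, h3, h4, h5⟩ := hx
  refine ⟨h1, t', h2, h3, h4.trans hN, ?_⟩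
  rw [← Rset_congr (T := T) fun j hj => hT j (hj.trans_le h4)]
  exact h5

theorem Sv_name (hτ : RNameBelow q₀ τ)
    (hm : ∀ j, m ≤ j → ∀ r ≤ q₀, ∀ w, τ j w r → Q.f l j ≤ w.length) (v : List Bool) :
    SName Q rk nm ⊤ l (Q.H 0) (Sv q₀ τ m l v) := by
  constructor
  · rintro t x p hp q hq hpq ⟨h, h1, T, N, h2, h3, h4, h5⟩
    refine ⟨hq, h1.trans hpq, T, N, h2, fun j hj => hτ.mono _ _ _ _ ?_ (h3 j hj), h4, h5⟩
    exact hpq
  · intro t ht p hp X hX
    rcases X.eq_empty_or_nonempty with rfl | ⟨x₀, hx₀⟩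
    · simp
    have h1 : ∀ x ∈ X, ∃ T N, 2 ^ Q.e t ≤ N ∧ (∀ j, j < N → τ j (T j) ⟨p, hp⟩) ∧
        (∃ u ∈ Rset Q T m t, v <+: u) ∧ ∀ u ∈ Rset Q T m t, v <+: u → x ∈ Bfin Q T m l t N u := by
      intro x hx
      obtain ⟨_, _, h⟩ := hX x hx
      exact h
    have hq : q₀.1 ⊆ p := by
      obtain ⟨_, h, _⟩ := hX x₀ hx₀
      exact h
    choose! T N hN hT hu hB using h1
    obtain ⟨y, hy, hmax⟩ := X.exists_max_image N ⟨x₀, hx₀⟩
    have hagree : ∀ x ∈ X, ∀ j, j < N x → T x j = T y j := fun x hx j hj =>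
      hτ.func _ _ _ _ (hT x hx j hj) (hT y hy j (hj.trans_le (hmax x hx)))
    obtain ⟨u, hu1, hu2⟩ := hu y hy
    refine card_Bfin (T := T y) (m := m) (l := l) (N := N y) (u := u) ?_ ht hu1 X ?_
    · intro j hj1 hj2
      exact hm j hj1 ⟨p, hp⟩ hq _ (hT y hy j hj2)
    · intro x hx
      refine Bfin_mono (hmax x hx) (hagree x hx) (hB x hx u ?_ hu2)
      rw [Rset_congr (T := T x) (T' := T y) fun j hj => hagree x hx j (hj.trans_le (hN x hx))]
      exact hu1

/-- The invariant: above `v` there are clean nodes at all stages `≥ n`. -/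
def Inv (q₀ : PP Q rk nm) (τ : ℕ → List Bool → PP Q rk nm → Prop) (m l : ℕ) (s : ℕ × List Bool)
    (p : PP Q rk nm) : Prop :=
  ∀ t, s.1 ≤ t → Q.ty t = l → ∀ q ≤ p, ∀ T, (∀ j, j < 2 ^ Q.e t → τ j (T j) q) →
    ∃ u ∈ Rset Q T m t, s.2 <+: u

/-- The step relation. -/
def Stp (τ : ℕ → List Bool → PP Q rk nm → Prop) (m l : ℕ) (α : K) (s s' : ℕ × List Bool)
    (p : PP Q rk nm) : Prop :=
  ∃ t u x T, Q.ty t = l ∧ s.1 ≤ t ∧ s'.1 = t + 1 ∧ s'.2 = u ++ x ∧ Atom.coh α t x ∈ p.1 ∧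
    s.2 <+: u ∧ (∀ j, j < 2 ^ Q.e t → τ j (T j) p) ∧ u ∈ Rset Q T m t

theorem exists_step (hτ : RNameBelow q₀ τ) {α : K}
    (hα : ∀ v, α ∉ BadS Q rk nm ⊤ l (Sv q₀ τ m l v)) (hl : rk α = l) (s : ℕ × List Bool)
    (p : PP Q rk nm) (hp : p ≤ q₀) (hInv : Inv q₀ τ m l s p) :
    ∃ r ≤ p, ∃ s', Stp τ m l α s s' r ∧ Inv q₀ τ m l s' r := by
  classical
  have h1 := hα s.2
  simp only [BadS, mem_setOf_eq, hl, true_and, not_exists, not_and, not_forall] at h1
  obtain ⟨t, ht1, ht2, h2⟩ := h1 p.1 p.2 s.1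
  simp only [CapAt, not_forall, not_exists, not_and] at h2
  obtain ⟨q, hq, hpq, x, hx, h3⟩ := h2
  have hxl : x.length = Q.L t := (PT.coh hq).len _ _ _ hx
  set q₁ : PP Q rk nm := ⟨q, hq⟩ with hq₁
  have hq₁p : q₁ ≤ p := hpq
  obtain ⟨r, hr, T, hT⟩ := hτ.decide (hq₁p.trans hp) (2 ^ Q.e t)
  have hrp : r ≤ p := hr.trans hq₁p
  -- if no clean node works, then `x` is in the slalom
  by_contra hcon
  have hbad : ∀ u ∈ Rset Q T m t, s.2 <+: u → ∀ r' ≤ r, ∃ r'' ≤ r', ∃ T' N, 2 ^ Q.e t ≤ N ∧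
      (∀ j, j < N → τ j (T' j) r'') ∧ x ∈ Bfin Q T' m l t N u := by
    intro u hu hsu r' hr'
    have h4 : ¬ Inv q₀ τ m l (t + 1, u ++ x) r' := by
      intro h5
      refine hcon ⟨r', hr'.trans hrp, (t + 1, u ++ x), ⟨t, u, x, T, ht2, ht1, rfl, rfl, ?_, hsu,
        fun j hj => hτ.mono _ _ _ _ hr' (hT j hj), hu⟩, h5⟩
      exact hr' (hr hx)
    simp only [Inv, not_forall, not_exists, not_and] at h4
    obtain ⟨t', ht', hty, r'', hr'', T', hT', h5⟩ := h4
    refine ⟨r'', hr'', T', 2 ^ Q.e t', ?_, hT', hxl, t', hty, ht', le_rfl, h5⟩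
    exact Nat.pow_le_pow_right (by norm_num) (Q.e_strictMono.monotone (by omega))
  -- go through all clean nodes
  have hall : ∀ F : Finset (List Bool), ∃ r' ≤ r, ∃ T' N, 2 ^ Q.e t ≤ N ∧
      (∀ j, j < N → τ j (T' j) r') ∧
      ∀ u ∈ F, u ∈ Rset Q T m t → s.2 <+: u → x ∈ Bfin Q T' m l t N u := by
    intro F
    induction F using Finset.induction_on with
    | empty =>
      exact ⟨r, le_rfl, T, 2 ^ Q.e t, le_rfl, hT, fun u hu => absurd hu (Finset.notMem_empty u)⟩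
    | insert u F _ ih =>
      obtain ⟨r', hr', T', N, hN, hT', hF⟩ := ih
      by_cases hu : u ∈ Rset Q T m t ∧ s.2 <+: u
      · obtain ⟨r₂, hr₂, T₂, N₂, hN₂, hT₂, hx₂⟩ := hbad u hu.1 hu.2 r' hr'
        obtain ⟨r₃, hr₃, T₃, hT₃⟩ := hτ.decide (((hr₂.trans hr').trans hrp).trans hp) (max N N₂)
        refine ⟨r₃, (hr₃.trans hr₂).trans hr', T₃, max N N₂, hN.trans (le_max_left _ _), hT₃, ?_⟩
        intro u' hu' h6 h7
        rcases Finset.mem_insert.1 hu' with rfl | hu'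
        · refine Bfin_mono (le_max_right _ _) (fun j hj => ?_) hx₂
          exact hτ.func _ _ _ _ (hτ.mono _ _ _ _ hr₃ (hT₂ j hj))
            (hT₃ j (hj.trans_le (le_max_right _ _)))
        · refine Bfin_mono (le_max_left _ _) (fun j hj => ?_) (hF u' hu' h6 h7)
          exact hτ.func _ _ _ _ (hτ.mono _ _ _ _ (hr₃.trans hr₂) (hT' j hj))
            (hT₃ j (hj.trans_le (le_max_left _ _)))
      · refine ⟨r', hr', T', N, hN, hT', ?_⟩
        intro u' hu' h6 h7
        rcases Finset.mem_insert.1 hu' with rfl | hu'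
        · exact absurd ⟨h6, h7⟩ hu
        · exact hF u' hu' h6 h7
  obtain ⟨r', hr', T', N, hN, hT', hF⟩ := hall (Wd (2 * Q.e t))
  have hTT : ∀ j, j < 2 ^ Q.e t → T j = T' j := fun j hj =>
    hτ.func _ _ _ _ (hτ.mono _ _ _ _ hr' (hT j hj)) (hT' j (hj.trans_le hN))
  obtain ⟨u, hu, hsu⟩ := hInv t ht1 ht2 r hrp T hT
  refine h3 r'.1 r'.2 ?_ ?_
  · exact hr'.trans hr
  · refine ⟨r'.2, (show r' ≤ q₀ from (hr'.trans hrp).trans hp), T', N, hN, hT',
      ⟨u, ?_, hsu⟩, ?_⟩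
    · rw [← Rset_congr (T := T) hTT]
      exact hu
    · intro u' hu' h6
      rw [← Rset_congr (T := T) hTT] at hu'
      exact hF u' (mem_Wd.2 hu'.1) hu' h6

end Main

theorem exists_not_bad (hK' : ∀ n, Cardinal.mk {α : K // rk α = n} = Cardinal.aleph (n + 1))
    (l : ℕ) (B : List Bool → Set K) (hB : ∀ v, Cardinal.mk (B v) < Cardinal.aleph (l + 1)) :
    ∃ α, rk α = l ∧ ∀ v, α ∉ B v := by
  by_contra hcon
  push Not at hcon
  have h1 : {α : K | rk α = l} ⊆ ⋃ v, B v := fun α hα => by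
    obtain ⟨v, hv⟩ := hcon α hα
    exact mem_iUnion.2 ⟨v, hv⟩
  have hreg : (Cardinal.aleph (l + 1)).IsRegular := by
    rw [← Order.succ_eq_add_one]
    exact Cardinal.isRegular_aleph_succ _
  have h2 : Cardinal.mk (⋃ v, B v) < Cardinal.aleph (l + 1) := by
    refine (Cardinal.mk_iUnion_le_sum_mk).trans_lt ?_
    refine Cardinal.sum_lt_of_isRegular hreg ?_ hB
    have h3 : Cardinal.mk (List Bool) ≤ Cardinal.aleph0 := Cardinal.mk_le_aleph0
    refine h3.trans_lt ?_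
    rw [← Cardinal.aleph_zero]
    exact Cardinal.aleph_lt_aleph.2 (by simp)
  have h3 := (Cardinal.mk_le_mk_of_subset h1).trans_lt h2
  rw [← hK' l] at h3
  exact lt_irrefl _ h3

theorem upper (hK : ∀ n, Cardinal.mk {α : K // rk α < n} ≤ Cardinal.aleph n)
    (hK' : ∀ n, Cardinal.mk {α : K // rk α = n} = Cardinal.aleph (n + 1)) (m : ℕ) :
    UpperProp (P := PP Q rk nm) rk Q.f m := by
  classical
  rename_i inst1 inst2
  refine ⟨fun α => sig Q rk nm m α.1, fun α p₀ => sig_name m α.1 α.2 p₀, fun k => ?_, ?_⟩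
  · obtain ⟨N, hN⟩ := sig_grow (Q := Q) (rk := rk) (nm := nm) m k
    exact ⟨N, fun j hj α w p h => hN j hj α.1 w p h⟩
  intro τ p₀ hτ₀ hgrow
  obtain ⟨q₀, hq₀, N₀, hN₀⟩ := hgrow 1 p₀ le_rfl
  have hτ : RNameBelow q₀ τ := ⟨hτ₀.mono, hτ₀.func, fun j p hp => hτ₀.total j p (hp.trans hq₀)⟩
  set M := max N₀ 2 with hM
  have hm : ∀ j, M ≤ j → ∀ r ≤ q₀, ∀ w, τ j w r → Q.f m j ≤ w.length := by
    intro j hj r hr w hw
    have := hN₀ j ((le_max_left _ _).trans hj) r hr w hw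
    simpa using this
  obtain ⟨α, hα, hbad⟩ := exists_not_bad (rk := rk) hK' m
    (fun v => BadS Q rk nm ⊤ m (Sv q₀ τ M m v))
    (fun v => preservation hK m ⊤ 0 _ (Sv_name hτ hm v))
  -- dependent choice
  obtain ⟨Z, Zmono, Zfunc, Ztot, Zzero, Zinv, Zstep, Zprev⟩ := exists_dc
    (P := PP Q rk nm) (X := ℕ × List Bool) (Inv q₀ τ M m) (Stp τ M m α)
    (by
      intro x p r hr h t h1 h2 q hq T hT
      exact h t h1 h2 q (hq.trans hr) T hT)
    (by
      rintro x y p r hr ⟨t, u, x', T, h1, h2, h3, h4, h5, h6, h7, h8⟩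
      exact ⟨t, u, x', T, h1, h2, h3, h4, hr h5, h6, fun j hj => hτ.mono _ _ _ _ hr (h7 j hj), h8⟩)
    q₀ (0, [])
    (by
      intro t _ ht q hq T hT
      obtain ⟨u, hu⟩ := exists_clean (Q := Q) (T := T) (m := M) (l := m) (t := t)
        (le_max_right _ _) (fun j h1 h2 => hm j h1 q hq _ (hT j h2))
      exact ⟨u, hu, List.nil_prefix⟩)
    (by
      intro x p hp h
      obtain ⟨r, hr, s', h1, h2⟩ := exists_step hτ hbad hα x p hp h
      exact ⟨r, hr, s', h1, h2⟩)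
  -- basic facts on the states
  have Zpre : ∀ k s s' p, Z k s p → Z (k + 1) s' p → s.2 <+: s'.2 ∧ s.2.length < s'.2.length ∧
      s.1 < s'.1 := by
    intro k s s' p h1 h2
    obtain ⟨t, u, x, T, h3, h4, h5, h6, h7, h8, h9, h10⟩ := Zstep k s s' p h1 h2
    have hx : x.length = Q.L t := (PT.coh p.2).len _ _ _ h7
    have hL := Q.L_pos t
    refine ⟨by rw [h6]; exact h8.trans (List.prefix_append u x), ?_, by omega⟩
    rw [h6, List.length_append]
    have := h8.length_le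
    omega
  have Zlow : ∀ k s p, Z k s p → k ≤ s.2.length ∧ k ≤ s.1 := by
    intro k
    induction k with
    | zero => intro s p _; exact ⟨Nat.zero_le _, Nat.zero_le _⟩
    | succ k ih =>
      intro s p h
      obtain ⟨s', h'⟩ := Zprev k s p h
      have h1 := Zpre k s' s p h' h
      have h2 := ih s' p h'
      omega
  have Zle : ∀ k k' s s' p, k ≤ k' → Z k s p → Z k' s' p → s.2 <+: s'.2 := by
    intro k k' s s' p hk
    induction k', hk using Nat.le_induction generalizing s' with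
    | base => intro h1 h2; rw [Zfunc k s s' p h1 h2]
    | succ n hn ih =>
      intro h1 h2
      obtain ⟨s'', h3⟩ := Zprev n s' p h2
      exact (ih s'' h1 h3).trans (Zpre n s'' s' p h3 h2).1
  -- the name of the real
  refine ⟨q₀, hq₀, ⟨α, hα⟩, fun i b p => ∃ k s, Z k s p ∧ ∃ h : i < s.2.length, s.2[i] = b,
    ⟨?_, ?_, ?_⟩, ?_, M, ?_⟩
  · rintro i b p q hqp ⟨k, s, h1, h2⟩
    exact ⟨k, s, Zmono k s p q hqp h1, h2⟩
  · rintro i b b' p ⟨k, s, h1, h2, h3⟩ ⟨k', s', h1', h2', h3'⟩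
    rcases le_total k k' with h | h
    · have h4 := Zle k k' s s' p h h1 h1'
      rw [← h3, ← h3']
      exact h4.getElem h2
    · have h4 := Zle k' k s' s p h h1' h1
      rw [← h3, ← h3']
      exact (h4.getElem h2').symm
  · intro i p hp
    obtain ⟨r, hr, s, hs⟩ := Ztot (i + 1) p hp
    have h1 := (Zlow _ _ _ hs).1
    exact ⟨r, hr, s.2[i], i + 1, s, hs, by omega, rfl⟩
  · intro N r hr
    obtain ⟨r', hr', s', hs'⟩ := Ztot (N + 1) r hr
    obtain ⟨s, hs⟩ := Zprev N s' r' hs'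
    obtain ⟨t, u, x, T, h3, h4, h5, h6, h7, h8, h9, h10⟩ := Zstep N s s' r' hs hs'
    have h11 := (Zlow _ _ _ hs).2
    refine ⟨r', hr', enc u, ?_, u ++ x, Or.inl ⟨t, u, x, h3, h10.1, rfl, h7, rfl⟩, ?_⟩
    · have h12 := enc_lower u
      rw [h10.1] at h12
      have h13 : 2 * Q.e t < 2 ^ (2 * Q.e t) := Nat.lt_two_pow_self
      have h14 := Q.e_ge t
      omega
    · intro i hi
      refine ⟨N + 1, s', hs', by rw [h6]; exact hi, ?_⟩
      simp only [h6]
  · intro j hj r hr w hw hinit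
    obtain ⟨r', hr', s', hs'⟩ := Ztot (j + 1) r hr
    obtain ⟨s, hs⟩ := Zprev j s' r' hs'
    obtain ⟨t, u, x, T, h3, h4, h5, h6, h7, h8, h9, h10⟩ := Zstep j s s' r' hs hs'
    have h11 := (Zlow _ _ _ hs).2
    have h14 := Q.e_ge t
    have hjt : j < 2 ^ Q.e t := by
      have : Q.e t < 2 ^ Q.e t := Nat.lt_two_pow_self
      omega
    have hTj : T j = w := hτ.func _ _ _ _ (h9 j hjt) (hτ.mono _ _ _ _ hr' hw)
    refine h10.2 j hj hjt ?_
    rw [hTj]
    -- `w` and `s'.2` are comparable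
    have hcomp : ∀ i (h1 : i < w.length) (h2 : i < s'.2.length), w[i] = s'.2[i] := by
      intro i h1 h2
      obtain ⟨k, s₁, h12, h13, h15⟩ := hinit i h1
      have h16 := Zmono k s₁ r r' hr' h12
      rcases le_total k (j + 1) with h | h
      · have h17 := Zle k (j + 1) s₁ s' r' h h16 hs'
        rw [← h15]
        exact h17.getElem h13
      · have h17 := Zle (j + 1) k s' s₁ r' h hs' h16
        rw [← h15]
        exact (h17.getElem h2).symm
    have hus : u <+: s'.2 := by rw [h6]; exact List.prefix_append u x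
    rcases le_total w.length s'.2.length with h | h
    · have h1 : w <+: s'.2 := by
        rw [List.prefix_iff_eq_take]
        refine List.ext_getElem (by simp [h]) fun i h2 h3 => ?_
        rw [List.getElem_take]
        exact hcomp i h2 (by omega)
      exact comp_of_prefix (Or.inl h1) hus
    · have h1 : s'.2 <+: w := by
        rw [List.prefix_iff_eq_take]
        refine List.ext_getElem (by simp [h]) fun i h2 h3 => ?_
        rw [List.getElem_take]
        exact (hcomp i (by omega) h2).symm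
      exact Or.inr (hus.trans h1)

end MP958

end

section

/-!
# The lower bound
-/


namespace MP958

open Set

variable {K Θ : Type} [LinearOrder Θ] [WellFoundedLT Θ]
  {Q : Params} {rk : K → ℕ} {nm : Θ → Nm K Θ}

theorem curK_ge' {ξ : WithTop Θ} {c : Θ} {p : Cond K Θ} (hp : p ∈ PT Q rk nm ξ) {j k : ℕ}
    {S : Finset (List Bool)} (h : Atom.stm c j k S ∈ p) : k ≤ curK c p := by
  have hj := lt_slen h
  have hok := (PT.okat hp c).stem
  have hex : ∃ k S, Atom.stm c (slen c p - 1) k S ∈ p := hok.tot _ (by omega)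
  unfold curK
  rw [dif_pos hex]
  exact hok.mono _ _ _ _ _ _ h hex.choose_spec.choose_spec (by omega)

theorem curK_mem' {ξ : WithTop Θ} {c : Θ} {p : Cond K Θ} (hp : p ∈ PT Q rk nm ξ)
    (h : 0 < slen c p) : ∃ S, Atom.stm c (slen c p - 1) (curK c p) S ∈ p := by
  have hok := (PT.okat hp c).stem
  have hex : ∃ k S, Atom.stm c (slen c p - 1) k S ∈ p := hok.tot _ (by omega)
  unfold curK
  rw [dif_pos hex]
  exact hex.choose_spec

/-- The information about an extension of a stem. -/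
theorem stem_info {f : ℕ → ℕ} {c : Θ} {p r s : Cond K Θ} {k M : ℕ}
    (hr : r ∈ PT Q rk nm c) (hs : StemExt f c k (slen c p) (max (slen c p) M) s) [DecidableEq (Atom K Θ)] :
    (∀ j k' S, Atom.stm c j k' S ∈ r ∪ p ∪ s → Atom.stm c j k' S ∈ p ∨ k' = k) ∧
    (∀ ζ i, Atom.pro c ζ i ∈ r ∪ p ∪ s ↔ Atom.pro c ζ i ∈ p) ∧
    slen c (r ∪ p ∪ s) = max (slen c p) M := by
  have h1 : ∀ j k' S, Atom.stm c j k' S ∈ r ∪ p ∪ s →
      Atom.stm c j k' S ∈ p ∨ (k' = k ∧ j < max (slen c p) M) := by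
    intro j k' S h
    rw [Finset.mem_union, Finset.mem_union] at h
    rcases h with (h | h) | h
    · exact absurd (crd_lt hr h rfl) (lt_irrefl _)
    · exact Or.inl h
    · obtain ⟨j', S', h1, h2, h3, h4⟩ := hs.1 _ h
      injection h1 with _ h5 h6 h7
      subst h5
      exact Or.inr ⟨h6, h3⟩
  refine ⟨fun j k' S h => (h1 j k' S h).imp id And.left, ?_, ?_⟩
  · intro ζ i
    rw [Finset.mem_union, Finset.mem_union]
    constructor
    · rintro ((h | h) | h)
      · exact absurd (crd_lt hr h rfl) (lt_irrefl _)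
      · exact h
      · obtain ⟨j', S', h1, h2, h3, h4⟩ := hs.1 _ h
        cases h1
    · exact fun h => Or.inl (Or.inr h)
  · apply le_antisymm
    · refine slen_le fun j k' S h => ?_
      rcases h1 j k' S h with h | ⟨_, h⟩
      · exact lt_max_of_lt_left (lt_slen h)
      · exact h
    · refine max_le (slen_mono fun a ha => ?_) ?_
      · rw [Finset.mem_union, Finset.mem_union]
        exact Or.inl (Or.inr ha)
      · by_cases hM : M ≤ slen c p
        · refine hM.trans (slen_mono fun a ha => ?_)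
          rw [Finset.mem_union, Finset.mem_union]
          exact Or.inl (Or.inr ha)
        · obtain ⟨S, hS, _⟩ := hs.2 (M - 1) (by omega) (by omega)
          have h2 : Atom.stm c (M - 1) k S ∈ r ∪ p ∪ s := Finset.mem_union_right _ hS
          have := lt_slen h2
          omega

/-- `code` codes the names `ρ` by conditions below `ξ`. -/
structure Codes (m n : ℕ) (p₀ : PP Q rk nm)
    (ρ : {α : K // rk α = m} → ℕ → List Bool → PP Q rk nm → Prop) (code : Nm K Θ) (ξ : Θ) :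
    Prop where
  fst : code.1 = n
  val : ∀ ζ j a u v, code.2 ζ j a = some (u, v) → (∀ b ∈ u, ∀ d, b.crd = some d → d < ξ) ∧
    ∃ (hζ : rk ζ = m) (hu : u ∈ PT Q rk nm ⊤), ρ ⟨ζ, hζ⟩ j v ⟨u, hu⟩
  tot : ∀ (α : {α : K // rk α = m}) (j : ℕ) (p : PP Q rk nm), p ≤ p₀ →
    ∃ a u v, ∃ r ∈ PT Q rk nm ⊤, code.2 α j a = some (u, v) ∧ p.1 ⊆ r ∧ u ⊆ r

/-- Every family of names can be coded. -/
theorem exists_codes [Nonempty Θ] (hbound : ∀ f : K × ℕ × ℕ → Θ, ∃ η, ∀ x, f x < η) (m n : ℕ)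
    (p₀ : PP Q rk nm) (ρ : {α : K // rk α = m} → ℕ → List Bool → PP Q rk nm → Prop)
    (hρ : ∀ α, RNameBelow p₀ (ρ α)) :
    ∃ (code : Nm K Θ) (η : Θ), ∀ ξ, η ≤ ξ → Codes m n p₀ ρ code ξ := by
  classical
  have h1 : ∀ (α : {α : K // rk α = m}) (j : ℕ), ∃ (g : ℕ → Cond K Θ × List Bool),
      (∀ a, ∃ hu : (g a).1 ∈ PT Q rk nm ⊤, ρ α j (g a).2 ⟨(g a).1, hu⟩) ∧
      ∀ p : PP Q rk nm, p ≤ p₀ → ∃ a, ∃ r ∈ PT Q rk nm ⊤, p.1 ⊆ r ∧ (g a).1 ⊆ r := by
    intro α j
    obtain ⟨A, hAD, hAc, -, hA⟩ := exists_antichain (Q := Q) (rk := rk) (nm := nm) (ξ := ⊤)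
      {u | ∃ hu : u ∈ PT Q rk nm ⊤, ∃ w, ρ α j w ⟨u, hu⟩} (fun u hu => hu.1)
    have hA' : ∀ p : PP Q rk nm, p ≤ p₀ → ∃ u ∈ A, ∃ r ∈ PT Q rk nm ⊤, p.1 ⊆ r ∧ u ⊆ r := by
      intro p hp
      obtain ⟨q, hq, w, hw⟩ := (hρ α).total j p hp
      obtain ⟨u, hu, r, hr, h2, h3⟩ := hA q.1 ⟨q.2, w, hw⟩
      exact ⟨u, hu, r, hr, Finset.Subset.trans hq h3, h2⟩
    obtain ⟨u₀, hu₀, -⟩ := hA' p₀ le_rfl
    obtain ⟨g, hg⟩ := hAc.exists_eq_range ⟨u₀, hu₀⟩
    have h2 : ∀ a, ∃ w, ∃ hu : g a ∈ PT Q rk nm ⊤, ρ α j w ⟨g a, hu⟩ := by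
      intro a
      have : g a ∈ A := by
        rw [hg]
        exact mem_range_self a
      obtain ⟨hu, w, hw⟩ := hAD this
      exact ⟨w, hu, hw⟩
    choose w hw using h2
    refine ⟨fun a => (g a, w a), hw, ?_⟩
    intro p hp
    obtain ⟨u, hu, r, hr, h3, h4⟩ := hA' p hp
    rw [hg] at hu
    obtain ⟨a, rfl⟩ := hu
    exact ⟨a, r, hr, h3, h4⟩
  choose g hg1 hg2 using h1
  let code : Nm K Θ := (n, fun ζ j a => if h : rk ζ = m then some (g ⟨ζ, h⟩ j a) else none)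
  have hcode : ∀ ζ j a u v, code.2 ζ j a = some (u, v) →
      ∃ h : rk ζ = m, g ⟨ζ, h⟩ j a = (u, v) := by
    intro ζ j a u v h
    by_cases hζ : rk ζ = m
    · refine ⟨hζ, ?_⟩
      simp only [code, dif_pos hζ] at h
      exact Option.some.inj h
    · simp only [code, dif_neg hζ] at h
      cases h
  -- a bound for the coordinates of one condition
  have hub : ∀ u : Cond K Θ, ∃ d : Θ, ∀ b ∈ u, ∀ d', b.crd = some d' → d' ≤ d := by
    intro u
    induction u using Finset.induction_on with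
    | empty => exact ⟨Classical.arbitrary Θ, by simp⟩
    | insert a u ha ih =>
      obtain ⟨d, hd⟩ := ih
      cases hc : a.crd with
      | none =>
        refine ⟨d, fun b hb d' hd' => ?_⟩
        rcases Finset.mem_insert.1 hb with rfl | hb
        · rw [hc] at hd'
          cases hd'
        · exact hd b hb d' hd'
      | some d₁ =>
        refine ⟨max d d₁, fun b hb d' hd' => ?_⟩
        rcases Finset.mem_insert.1 hb with rfl | hb
        · rw [hc] at hd'
          cases hd'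
          exact le_max_right _ _
        · exact (hd b hb d' hd').trans (le_max_left _ _)
  choose ub hub using hub
  obtain ⟨η, hη⟩ := hbound fun x =>
    if h : rk x.1 = m then ub (g ⟨x.1, h⟩ x.2.1 x.2.2).1 else Classical.arbitrary Θ
  refine ⟨code, η, fun ξ hξ => ⟨rfl, ?_, ?_⟩⟩
  · intro ζ j a u v h
    obtain ⟨hζ, h2⟩ := hcode ζ j a u v h
    have h3 := hη (ζ, j, a)
    simp only [dif_pos hζ, h2] at h3
    refine ⟨fun b hb d hd => ?_, hζ, ?_⟩
    · exact ((hub u b hb d hd).trans_lt h3).trans_le hξ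
    · have := hg1 ⟨ζ, hζ⟩ j a
      rw [h2] at this
      exact this
  · intro α j p hp
    obtain ⟨a, r, hr, h2, h3⟩ := hg2 α j p hp
    exact ⟨a, (g α j a).1, (g α j a).2, r, hr, dif_pos α.2, h2, h3⟩

section Tau

variable {m n : ℕ} {p₀ : PP Q rk nm}
  {ρ : {α : K // rk α = m} → ℕ → List Bool → PP Q rk nm → Prop} {code : Nm K Θ} {ξ : Θ}

/-- What is forced about the names is forced, below `ξ`, about their codes. -/
theorem transfer (hρ : ∀ α, RNameBelow p₀ (ρ α)) (hc : Codes m n p₀ ρ code ξ)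
    {q : PP Q rk nm} (hq : q ≤ p₀) (α : {α : K // rk α = m}) (j : ℕ) (B : Set (List Bool))
    (hB : ∀ r ≤ q, ∀ w, ρ α j w r → w ∈ B) :
    Fc (Pst Q rk nm ξ) (res q.1 ξ) code α j B := by
  classical
  intro q1 hq1 hqq
  rw [Pst_eq] at hq1
  have h1 : q1 ∪ q.1 ∈ PT Q rk nm ⊤ := join_mem q.2 hq1 le_top hqq
  set r : PP Q rk nm := ⟨q1 ∪ q.1, h1⟩ with hr
  have hrq : r ≤ q := Finset.subset_union_right
  obtain ⟨r1, hr1, w, hw⟩ := (hρ α).total j r (hrq.trans hq)
  obtain ⟨a, u, v, r2, hr2, h2, h3, h4⟩ := hc.tot α j r1 ((hr1.trans hrq).trans hq)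
  obtain ⟨h5, h6, hu, h7⟩ := hc.val _ _ _ _ _ h2
  set r3 : PP Q rk nm := ⟨r2, hr2⟩ with hr3
  have h8 : ρ α j v r3 := (hρ α).mono j v ⟨u, hu⟩ r3 h4 h7
  refine ⟨res r2 ξ, res_mem hr2 ξ, ?_, a, u, v, h2, ?_, ?_⟩
  · refine subset_res hq1 (Finset.Subset.trans ?_ h3)
    exact Finset.Subset.trans Finset.subset_union_left hr1
  · exact fun b hb => mem_res.2 ⟨h4 hb, h5 b hb⟩
  · refine hB r3 ?_ v h8
    exact le_trans (show r3 ≤ r1 from h3) (hr1.trans hrq)

open Classical in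
/-- The value at `i` if the corresponding member of the slalom is `S`. -/
noncomputable def tval (f : ℕ → ℕ) (i : ℕ) (S : Finset (List Bool)) : List Bool :=
  if h : (Nat.unpair i).2 < S.toList.length then S.toList[(Nat.unpair i).2]
  else List.replicate (f (i ^ i)) false

/-- The name for the enumeration of the generic slalom. -/
def tau (n : ℕ) (ξ : Θ) (i : ℕ) (w : List Bool) (p : PP Q rk nm) : Prop :=
  ∃ k S, Atom.stm ξ (Nat.unpair i).1 k S ∈ p.1 ∧ w = tval (Q.f n) i S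

theorem long_stem (p : PP Q rk nm) (ξ : Θ) (M : ℕ) : ∃ q ≤ p, M < slen ξ q.1 := by
  classical
  obtain ⟨r, hr, hpr, s, hs, h, -⟩ := extend_stem (WithTop.coe_lt_top ξ) p.2 (res_mem' p.2 ξ)
    subset_rfl (M + 1)
  refine ⟨⟨r ∪ p.1 ∪ s, h⟩, ?_, ?_⟩
  · exact fun a ha => Finset.mem_union_left _ (Finset.mem_union_right _ ha)
  · have := (stem_info hr hs).2.2
    simp only [this]
    omega

theorem tau_name : RNameBelow p₀ (tau (Q := Q) (rk := rk) (nm := nm) n ξ) where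
  mono := by
    rintro i w p q hqp ⟨k, S, h1, h2⟩
    exact ⟨k, S, hqp h1, h2⟩
  func := by
    rintro i w w' p ⟨k, S, h1, h2⟩ ⟨k', S', h3, h4⟩
    obtain ⟨-, h5⟩ := (PT.okat p.2 ξ).stem.uniq _ _ _ _ _ h1 h3
    rw [h2, h4, h5]
  total := by
    intro i p hp
    obtain ⟨q, hqp, hq⟩ := long_stem p ξ (Nat.unpair i).1
    obtain ⟨k, S, h⟩ := (PT.okat q.2 ξ).stem.tot _ hq
    exact ⟨q, hqp, _, k, S, h, rfl⟩

/-- Only names of type `m` are promised. -/
theorem rk_eq (hc : Codes m n p₀ ρ code ξ) (hn : nm ξ = code) {p : Cond K Θ}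
    (hp : p ∈ PT Q rk nm ⊤) {ζ : K} {i : ℕ} (h : Atom.pro ξ ζ i ∈ p) :
    rk ζ = m ∧ 0 < slen ξ p := by
  have hok := PT.okat hp ξ
  have h1 : 0 < slen ξ p := by
    refine lt_of_lt_of_le ?_ hok.cnt
    rw [Set.ncard_pos (proms_finite ξ p)]
    exact ⟨ζ, i, h⟩
  obtain ⟨S, h2⟩ := curK_mem' hp h1
  obtain ⟨q, -, -, a, u, v, h3, -⟩ := hok.lng ζ i _ _ _ h h2 (slen ξ p) le_rfl (res p ξ)
    (res_mem hp ξ) subset_rfl
  rw [hn] at h3
  obtain ⟨-, h4, -⟩ := hc.val _ _ _ _ _ h3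
  exact ⟨h4, h1⟩

/-- Growth of finitely many names. -/
theorem grow_finite (hgrow : ∀ α, GrowBelow (Q.f n) p₀ (ρ α)) (k : ℕ)
    (F : Finset {α : K // rk α = m}) {p : PP Q rk nm} (hp : p ≤ p₀) :
    ∃ q ≤ p, ∃ N, ∀ α ∈ F, ∀ j, N ≤ j → ∀ r ≤ q, ∀ w, ρ α j w r → Q.f n (j ^ k) ≤ w.length := by
  classical
  induction F using Finset.induction_on with
  | empty => exact ⟨p, le_rfl, 0, by simp⟩
  | insert α F hα ih =>
    obtain ⟨q, hqp, N, h⟩ := ih
    obtain ⟨q', hq', N', h'⟩ := hgrow α k q (hqp.trans hp)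
    refine ⟨q', hq'.trans hqp, max N N', fun β hβ j hj r hr w hw => ?_⟩
    rcases Finset.mem_insert.1 hβ with rfl | hβ
    · exact h' j (le_of_max_le_right hj) r hr w hw
    · exact h β hβ j (le_of_max_le_left hj) r (hr.trans hq') w hw

theorem unpair_bound {i N : ℕ} (h : (Nat.unpair i).2 < (Nat.unpair i).1)
    (hi : (N + 4) ^ 2 ≤ i) : N ≤ (Nat.unpair i).1 ∧ i ≤ (Nat.unpair i).1 ^ 3 := by
  set j := (Nat.unpair i).1
  set l := (Nat.unpair i).2
  have h1 : i = j * j + j + l := by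
    conv_lhs => rw [← Nat.pair_unpair i]
    rw [Nat.pair, if_neg (by omega)]
  have h2 : N + 3 ≤ j := by
    by_contra hlt
    push Not at hlt
    have h3 : j ≤ N + 2 := by omega
    nlinarith
  refine ⟨by omega, ?_⟩
  rw [h1]
  have h3 : 3 ≤ j := by omega
  have h4 : 3 * (j * j) ≤ j * (j * j) := Nat.mul_le_mul_right _ h3
  have h5 : j ^ 3 = j * (j * j) := by ring
  rw [h5]
  nlinarith

theorem tau_grow (hρ : ∀ α, RNameBelow p₀ (ρ α)) (hgrow : ∀ α, GrowBelow (Q.f n) p₀ (ρ α))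
    (hc : Codes m n p₀ ρ code ξ) (hn : nm ξ = code) :
    GrowBelow (Q.f n) p₀ (tau (Q := Q) (rk := rk) (nm := nm) n ξ) := by
  classical
  intro k p hp
  -- the promised names
  set F : Finset {α : K // rk α = m} := (proms_finite ξ p.1).toFinset.subtype _ with hF
  have hFm : ∀ (α : {α : K // rk α = m}) i, Atom.pro ξ α.1 i ∈ p.1 → α ∈ F := by
    intro α i h
    rw [hF, Finset.mem_subtype, Set.Finite.mem_toFinset]
    exact ⟨i, h⟩
  obtain ⟨q, hqp, N, hN⟩ := grow_finite hgrow (3 * k) F hp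
  obtain ⟨r, hr, hqr, s, hs, h1, -⟩ := extend_stem (WithTop.coe_lt_top ξ) p.2 (res_mem' q.2 ξ)
    (res_mono hqp ξ) N
  obtain ⟨hi1, hi2, hi3⟩ := stem_info hr hs
  set p1 := r ∪ p.1 ∪ s with hp1
  have hpp1 : p.1 ⊆ p1 := fun a ha => Finset.mem_union_left _ (Finset.mem_union_right _ ha)
  have hrp1 : r ⊆ p1 := fun a ha => Finset.mem_union_left _ (Finset.mem_union_left _ ha)
  have hnf : Q.f (nm ξ).1 = Q.f n := by rw [hn, hc.fst]
  obtain ⟨r2, hr2, hr2', S', h2⟩ := one_extend (WithTop.coe_lt_top ξ) h1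
    (max (curK ξ p.1) (3 * k)) (by
      intro j k' S h
      rcases hi1 j k' S h with h | rfl
      · exact (curK_ge' p.2 h).trans (le_max_left _ _)
      · exact le_max_left _ _) (by
      intro ζ i h j hj
      have h3 := (hi2 ζ i).1 h
      obtain ⟨h4, h5⟩ := rk_eq hc hn p.2 h3
      rw [hi3] at hj
      rcases max_choice (curK ξ p.1) (3 * k) with h6 | h6
      · rw [h6]
        obtain ⟨S, h7⟩ := curK_mem' p.2 h5
        exact Fc_mono (res_mono hpp1 ξ) ((PT.okat p.2 ξ).lng ζ i _ _ _ h3 h7 j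
          (le_of_max_le_left hj))
      · rw [h6]
        have h7 := transfer hρ hc (hqp.trans hp) ⟨ζ, h4⟩ j {v | Q.f n (j ^ (3 * k)) ≤ v.length}
          (hN ⟨ζ, h4⟩ (hFm ⟨ζ, h4⟩ i h3) j (le_of_max_le_right hj))
        rw [hn, hc.fst]
        exact Fc_mono (hqr.trans (subset_res hr hrp1)) h7)
  set L' := slen ξ p1 with hL'
  set p2 : PP Q rk nm := ⟨r2 ∪ p1 ∪ {Atom.stm ξ L' (max (curK ξ p.1) (3 * k)) S'}, h2⟩ with hp2
  have hst : Atom.stm ξ L' (max (curK ξ p.1) (3 * k)) S' ∈ p2.1 :=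
    Finset.mem_union_right _ (Finset.mem_singleton_self _)
  have hp2p : p2 ≤ p := fun a ha =>
    Finset.mem_union_left _ (Finset.mem_union_right _ (hpp1 ha))
  refine ⟨p2, hp2p, (L' + 4) ^ 2 + k, ?_⟩
  intro i hi t ht w hw
  obtain ⟨k1, S, h3, rfl⟩ := hw
  have hokt := (PT.okat t.2 ξ).stem
  unfold tval
  split_ifs with h4
  · -- a member of the slalom
    have h5 := hokt.card _ _ _ h3
    rw [Finset.length_toList] at h4
    obtain ⟨h6, h7⟩ := unpair_bound (N := L') (h4.trans_le h5) (by omega)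
    have h8 := hokt.mono _ _ _ _ _ _ (ht hst) h3 h6
    have h9 := hokt.str _ _ _ h3 _ (Finset.mem_toList.1 (List.getElem_mem
      (by rw [Finset.length_toList]; exact h4)))
    rw [h9, hnf]
    refine (Q.f_mono n).monotone ?_
    calc i ^ k ≤ ((Nat.unpair i).1 ^ 3) ^ k := Nat.pow_le_pow_left h7 k
      _ = (Nat.unpair i).1 ^ (3 * k) := by rw [← pow_mul]
      _ ≤ (Nat.unpair i).1 ^ k1 :=
        Nat.pow_le_pow_right (by omega) ((le_max_right _ _).trans h8)
  · rw [List.length_replicate]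
    refine (Q.f_mono n).monotone (Nat.pow_le_pow_right ?_ (by omega))
    have : 0 < (L' + 4) ^ 2 := by positivity
    omega

theorem tau_catch (hmn : m < n) (hρ : ∀ α, RNameBelow p₀ (ρ α))
    (hgrow : ∀ α, GrowBelow (Q.f n) p₀ (ρ α))
    (hc : Codes m n p₀ ρ code ξ) (hn : nm ξ = code) (α : {α : K // rk α = m}) :
    ∀ p ≤ p₀, ∃ q ≤ p, ∃ N, ∀ j, N ≤ j → ∀ r ≤ q, ∃ r' ≤ r, ∃ i, j ≤ i ∧
      ∃ w w', ρ α j w r' ∧ tau (Q := Q) (rk := rk) (nm := nm) n ξ i w' r' ∧ w' <+: w := by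
  classical
  intro p hp
  have hnf : Q.f (nm ξ).1 = Q.f n := by rw [hn, hc.fst]
  obtain ⟨q, hqp, N, hN⟩ := hgrow α (curK ξ p.1) p hp
  obtain ⟨r, hr, hqr, s, hs, h1, -⟩ := extend_stem (WithTop.coe_lt_top ξ) p.2 (res_mem' q.2 ξ)
    (res_mono hqp ξ) (max N ((proms ξ p.1).ncard + 1))
  obtain ⟨hi1, hi2, hi3⟩ := stem_info hr hs
  set p1 := r ∪ p.1 ∪ s with hp1
  have hpp1 : p.1 ⊆ p1 := fun a ha => Finset.mem_union_left _ (Finset.mem_union_right _ ha)
  have hrp1 : r ⊆ p1 := fun a ha => Finset.mem_union_left _ (Finset.mem_union_left _ ha)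
  set L' := slen ξ p1 with hL'
  have hL1 : N ≤ L' := by rw [hi3]; omega
  have hL2 : (proms ξ p.1).ncard + 1 ≤ L' := by rw [hi3]; omega
  have hok := PT.okat h1 ξ
  -- the new condition
  have hstm : ∀ j k S, Atom.stm ξ j k S ∈ p1 ∪ {Atom.pro ξ α.1 L'} ↔ Atom.stm ξ j k S ∈ p1 := by
    intro j k S
    rw [Finset.mem_union, Finset.mem_singleton]
    exact ⟨fun h => h.elim id (fun h => by cases h), Or.inl⟩
  have hsl : slen ξ (p1 ∪ {Atom.pro ξ α.1 L'}) = L' :=
    le_antisymm (slen_le_of fun j k S => (hstm j k S).1) (slen_le_of fun j k S => (hstm j k S).2)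
  have hpr : proms ξ (p1 ∪ {Atom.pro ξ α.1 L'}) ⊆ insert α.1 (proms ξ p.1) := by
    rintro ζ ⟨i, hi⟩
    rcases Finset.mem_union.1 hi with h | h
    · exact Or.inr ⟨i, (hi2 ζ i).1 h⟩
    · rw [Finset.mem_singleton] at h
      injection h with _ h2 h3
      exact Or.inl h2
  have hfin : (insert α.1 (proms ξ p.1)).Finite := (proms_finite ξ p.1).insert _
  have h2 : p1 ∪ {Atom.pro ξ α.1 L'} ∈ PT Q rk nm ⊤ := by
    refine one_add_mem (WithTop.coe_lt_top ξ) h1 (by simp [Atom.crd]) ?_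
    constructor
    · exact hok.stem.congr fun j k S => (hstm j k S).symm
    · intro ζ hζ
      rcases hpr hζ with h | ⟨i, hi⟩
      · rw [h, α.2, hn, hc.fst]
        exact hmn
      · exact (PT.okat p.2 ξ).typ ζ ⟨i, hi⟩
    · rw [hsl]
      refine (Set.ncard_le_ncard hpr hfin).trans ((Set.ncard_insert_le _ _).trans hL2)
    · intro ζ i j k S h3 h4 h5
      have h4' := (hstm j k S).1 h4
      rcases Finset.mem_union.1 h3 with h | h
      · exact Fc_mono (res_mono Finset.subset_union_left ξ) (hok.mem ζ i j k S h h4' h5)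
      · rw [Finset.mem_singleton] at h
        injection h with _ h6 h7
        have := lt_slen h4'
        omega
    · intro ζ i j k S h3 h4 j' h5
      rw [hsl] at h5
      have h4' := (hstm j k S).1 h4
      rcases Finset.mem_union.1 h3 with h | h
      · exact Fc_mono (res_mono Finset.subset_union_left ξ) (hok.lng ζ i j k S h h4' j' h5)
      · rw [Finset.mem_singleton] at h
        injection h with _ h6 h7
        subst h6
        have hk : k ≤ curK ξ p.1 := by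
          rcases hi1 j k S h4' with h | rfl
          · exact curK_ge' p.2 h
          · exact le_rfl
        have h8 := transfer hρ hc (hqp.trans hp) α j'
          {v | Q.f n (j' ^ (curK ξ p.1)) ≤ v.length} (hN j' (by omega))
        rw [hn, hc.fst]
        refine Fc_sub ?_ (Fc_mono (hqr.trans ((subset_res hr hrp1).trans
          (res_mono Finset.subset_union_left ξ))) h8)
        intro v hv
        refine le_trans ((Q.f_mono n).monotone ?_) hv
        exact Nat.pow_le_pow_right (by omega) hk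
  set p2 : PP Q rk nm := ⟨p1 ∪ {Atom.pro ξ α.1 L'}, h2⟩ with hp2
  have hp2p : p2 ≤ p := fun a ha => Finset.mem_union_left _ (hpp1 ha)
  refine ⟨p2, hp2p, L', ?_⟩
  intro j hj r0 hr0
  obtain ⟨r1, hr1, hlen⟩ := long_stem r0 ξ j
  have hok1 := PT.okat r1.2 ξ
  obtain ⟨k, S, h3⟩ := hok1.stem.tot j hlen
  have h4 : Atom.pro ξ α.1 L' ∈ r1.1 :=
    hr1 (hr0 (Finset.mem_union_right _ (Finset.mem_singleton_self _)))
  obtain ⟨q', hq', h5, a, u, v, h6, h7, w', h8, h9⟩ := hok1.mem α.1 L' j k S h4 h3 hj (res r1.1 ξ)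
    (res_mem r1.2 ξ) subset_rfl
  rw [Pst_eq] at hq'
  rw [hn] at h6
  obtain ⟨-, h10, hu, h11⟩ := hc.val _ _ _ _ _ h6
  have h12 : q' ∪ r1.1 ∈ PT Q rk nm ⊤ := join_mem r1.2 hq' le_top h5
  set r2 : PP Q rk nm := ⟨q' ∪ r1.1, h12⟩ with hr2
  have hr21 : r2 ≤ r1 := Finset.subset_union_right
  obtain ⟨l, hl, hl'⟩ := List.getElem_of_mem (Finset.mem_toList.2 h8)
  refine ⟨r2, hr21.trans hr1, Nat.pair j l, Nat.left_le_pair j l, v, w', ?_, ?_, h9⟩
  · exact (hρ α).mono j v ⟨u, hu⟩ r2 (Finset.Subset.trans h7 Finset.subset_union_left) h11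
  · refine ⟨k, S, ?_, ?_⟩
    · rw [Nat.unpair_pair]
      exact hr21 h3
    · unfold tval
      simp only [Nat.unpair_pair]
      rw [dif_pos hl, hl']

end Tau

theorem lower [Nonempty Θ] (hbound : ∀ f : K × ℕ × ℕ → Θ, ∃ η, ∀ x, f x < η)
    (hbook : ∀ (c : Nm K Θ) (η : Θ), ∃ ξ, η < ξ ∧ nm ξ = c) (m n : ℕ) (hmn : m < n) :
    LowerProp (P := PP Q rk nm) rk Q.f m n := by
  intro p₀ ρ hρ hgrow
  obtain ⟨code, η, hη⟩ := exists_codes hbound m n p₀ ρ hρ
  obtain ⟨ξ, hξ, hn⟩ := hbook code η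
  have hc := hη ξ hξ.le
  exact ⟨tau n ξ, tau_name, tau_grow hρ hgrow hc hn, fun α => tau_catch hmn hρ hgrow hc hn α⟩

end MP958

end

section

/-!
# The combinatorial main theorem
-/


namespace MP958

theorem combMain : CombMain := by
  obtain ⟨Q⟩ := exists_params
  obtain ⟨K, rk, hinf, hK', hK⟩ := exists_K
  obtain ⟨Θ, _, _, _, nm, hbound, hbook⟩ := exists_book K
  exact ⟨PP Q rk nm, inferInstance, inferInstance, K, rk, Q.f, Q.f_mono, upper hK hK',
    fun m n h => lower hbound hbook m n h⟩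

end MP958

end
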