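import Pool.Agent.Lib.MP_958b88_lc.YDefs

/-!
# Restriction and unions of conditions
-/

set_option autoImplicit false

namespace MP958

open Set

variable {K Θ : Type}

theorem slv_le_slen {c : Θ} {p : Cond K Θ} {a : Atom K Θ} (h : a ∈ p) : a.slv c ≤ slen c p :=
  Finset.le_sup (f := Atom.slv c) h

theorem lt_slen {c : Θ} {p : Cond K Θ} {j k : ℕ} {S : Finset (List Bool)}
    (h : Atom.stm c j k S ∈ p) : j < slen c p := by
  have := slv_le_slen (c := c) h
  simp only [Atom.slv, if_true] at this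
  omega

theorem slen_le {c : Θ} {p : Cond K Θ} {n : ℕ} (h : ∀ j k S, Atom.stm c j k S ∈ p → j < n) :
    slen c p ≤ n := by
  refine Finset.sup_le fun a ha => ?_
  cases a with
  | coh α t x => simp [Atom.slv]
  | pro d ζ j => simp [Atom.slv]
  | stm d j k S =>
    simp only [Atom.slv]
    split_ifs with hd
    · subst hd
      exact h j k S ha
    · omega

theorem slen_mono {c : Θ} {p q : Cond K Θ} (h : p ⊆ q) : slen c p ≤ slen c q :=
  Finset.sup_mono h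

theorem slen_le_of {c : Θ} {p q : Cond K Θ} (h : ∀ j k S, Atom.stm c j k S ∈ p →
    Atom.stm c j k S ∈ q) : slen c p ≤ slen c q :=
  slen_le fun j k S hj => lt_slen (h j k S hj)

theorem proms_mono {c : Θ} {p q : Cond K Θ} (h : p ⊆ q) : proms c p ⊆ proms c q :=
  fun _ ⟨j, hj⟩ => ⟨j, h hj⟩

theorem proms_finite (c : Θ) (p : Cond K Θ) : (proms c p).Finite := by
  classical
  refine (p.finite_toSet.image (fun a => match a with
    | .pro _ ζ _ => some ζ
    | _ => none)).preimage (f := some) (Option.some_injective K).injOn |>.subset ?_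
  rintro ζ ⟨j, hj⟩
  exact ⟨_, hj, rfl⟩

section

variable [LinearOrder Θ]

theorem mem_res {p : Cond K Θ} {c : Θ} {a : Atom K Θ} :
    a ∈ res p c ↔ a ∈ p ∧ ∀ d, a.crd = some d → d < c := by
  simp [res]

theorem res_subset (p : Cond K Θ) (c : Θ) : res p c ⊆ p := fun _ h => (mem_res.1 h).1

theorem res_mono {p q : Cond K Θ} (h : p ⊆ q) (c : Θ) : res p c ⊆ res q c :=
  fun _ ha => mem_res.2 ⟨h (mem_res.1 ha).1, (mem_res.1 ha).2⟩

theorem res_res {p : Cond K Θ} {c d : Θ} (h : d ≤ c) : res (res p c) d = res p d := by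
  ext a
  simp only [mem_res]
  exact ⟨fun ha => ⟨ha.1.1, ha.2⟩, fun ha => ⟨⟨ha.1, fun b hb => (ha.2 b hb).trans_le h⟩, ha.2⟩⟩

theorem res_eq_self {p : Cond K Θ} {c : Θ} (h : ∀ a ∈ p, ∀ d, a.crd = some d → d < c) :
    res p c = p := by
  ext a
  rw [mem_res]
  exact ⟨fun ha => ha.1, fun ha => ⟨ha, h a ha⟩⟩

theorem Fc_mono {G : Set (Cond K Θ)} {r r' : Cond K Θ} {nm : Nm K Θ} {ζ : K} {j : ℕ}
    {A : Set (List Bool)} (h : r ⊆ r') (hF : Fc G r nm ζ j A) : Fc G r' nm ζ j A :=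
  fun q hq hr => hF q hq (h.trans hr)

theorem Fc_sub {G : Set (Cond K Θ)} {r : Cond K Θ} {nm : Nm K Θ} {ζ : K} {j : ℕ}
    {A B : Set (List Bool)} (h : A ⊆ B) (hF : Fc G r nm ζ j A) : Fc G r nm ζ j B := by
  intro q hq hr
  obtain ⟨q', h1, h2, a, u, v, h3, h4, h5⟩ := hF q hq hr
  exact ⟨q', h1, h2, a, u, v, h3, h4, h h5⟩

/-- `p` and `q` have the same stem at `d`, and `p ⊆ q`. -/
theorem StemOK.congr {f : ℕ → ℕ} {d : Θ} {p q : Cond K Θ}
    (h : ∀ j k S, Atom.stm d j k S ∈ p ↔ Atom.stm d j k S ∈ q) (hp : StemOK f d p) :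
    StemOK f d q := by
  have hs : slen d p = slen d q := le_antisymm (slen_le_of fun j k S => (h j k S).1)
    (slen_le_of fun j k S => (h j k S).2)
  constructor
  · intro j k S k' S' h1 h2
    exact hp.uniq j k S k' S' ((h _ _ _).2 h1) ((h _ _ _).2 h2)
  · intro j hj
    obtain ⟨k, S, h1⟩ := hp.tot j (hs ▸ hj)
    exact ⟨k, S, (h _ _ _).1 h1⟩
  · intro j k S j' k' S' h1 h2
    exact hp.mono j k S j' k' S' ((h _ _ _).2 h1) ((h _ _ _).2 h2)
  · intro j k S h1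
    exact hp.card j k S ((h _ _ _).2 h1)
  · intro j k S h1
    exact hp.str j k S ((h _ _ _).2 h1)

variable {Q : Params} {rk : K → ℕ}

theorem OKat.congr {nm : Nm K Θ} {d : Θ} {G : Set (Cond K Θ)} {p q : Cond K Θ}
    (h : ∀ a : Atom K Θ, a.crd = some d → (a ∈ p ↔ a ∈ q)) (hr : res p d ⊆ res q d)
    (hp : OKat Q rk nm d G p) : OKat Q rk nm d G q := by
  have h1 : ∀ j k S, Atom.stm d j k S ∈ p ↔ Atom.stm d j k S ∈ q := fun j k S => h _ rfl
  have h2 : ∀ ζ j, Atom.pro d ζ j ∈ p ↔ Atom.pro d ζ j ∈ q := fun ζ j => h _ rfl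
  have hs : slen d p = slen d q := le_antisymm (slen_le_of fun j k S => (h1 j k S).1)
    (slen_le_of fun j k S => (h1 j k S).2)
  have hpr : proms d p = proms d q := by
    ext ζ
    simp only [proms, Set.mem_setOf_eq, h2]
  constructor
  · exact hp.stem.congr h1
  · rw [← hpr]
    exact hp.typ
  · rw [← hpr, ← hs]
    exact hp.cnt
  · intro ζ i j k S h3 h4 h5
    exact Fc_mono hr (hp.mem ζ i j k S ((h2 _ _).2 h3) ((h1 _ _ _).2 h4) h5)
  · intro ζ i j k S h3 h4 j' h5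
    exact Fc_mono hr (hp.lng ζ i j k S ((h2 _ _).2 h3) ((h1 _ _ _).2 h4) j' (hs ▸ h5))

theorem OKat_of_empty {nm : Nm K Θ} {d : Θ} {G : Set (Cond K Θ)} {p : Cond K Θ}
    (h : ∀ a ∈ p, a.crd ≠ some d) : OKat Q rk nm d G p := by
  have h1 : ∀ j k S, Atom.stm d j k S ∉ p := fun j k S ha => h _ ha rfl
  have h2 : ∀ ζ j, Atom.pro d ζ j ∉ p := fun ζ j ha => h _ ha rfl
  have hs : slen d p = 0 := by
    have := slen_le (c := d) (p := p) (n := 0) fun j k S ha => absurd ha (h1 _ _ _)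
    omega
  have hpr : proms d p = ∅ := by
    ext ζ
    simp only [proms, Set.mem_setOf_eq, Set.mem_empty_iff_false, iff_false, not_exists]
    exact h2 ζ
  constructor
  · constructor
    · intro j k S k' S' h3
      exact absurd h3 (h1 _ _ _)
    · intro j hj
      omega
    · intro j k S j' k' S' h3
      exact absurd h3 (h1 _ _ _)
    · intro j k S h3
      exact absurd h3 (h1 _ _ _)
    · intro j k S h3
      exact absurd h3 (h1 _ _ _)
  · rw [hpr]
    simp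
  · rw [hpr]
    simp
  · intro ζ i j k S h3
    exact absurd h3 (h2 _ _)
  · intro ζ i j k S h3
    exact absurd h3 (h2 _ _)

variable [WellFoundedLT Θ] {nm : Θ → Nm K Θ}

theorem PT.okat {ξ : WithTop Θ} {p : Cond K Θ} (hp : p ∈ PT Q rk nm ξ) (d : Θ) :
    OKat Q rk (nm d) d (Pst Q rk nm d) p := by
  by_cases h : ∀ a ∈ p, a.crd ≠ some d
  · exact OKat_of_empty h
  · push Not at h
    obtain ⟨a, ha, h1⟩ := h
    exact (hp.2 a ha d h1).2

theorem PT.coh {ξ : WithTop Θ} {p : Cond K Θ} (hp : p ∈ PT Q rk nm ξ) : CohOK Q rk p := hp.1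

theorem PT_iff {ξ : WithTop Θ} {p : Cond K Θ} : p ∈ PT Q rk nm ξ ↔ CohOK Q rk p ∧
    (∀ a ∈ p, ∀ d, a.crd = some d → (d : WithTop Θ) < ξ) ∧
    ∀ d, OKat Q rk (nm d) d (Pst Q rk nm d) p :=
  ⟨fun h => ⟨h.1, fun a ha d hd => (h.2 a ha d hd).1, PT.okat h⟩,
    fun h => ⟨h.1, fun a ha d hd => ⟨h.2.1 a ha d hd, h.2.2 d⟩⟩⟩

theorem PT_mono {ξ ξ' : WithTop Θ} (h : ξ ≤ ξ') : PT Q rk nm ξ ⊆ PT Q rk nm ξ' :=
  fun _ hp => ⟨hp.1, fun a ha d hd => ⟨((hp.2 a ha d hd).1).trans_le h, (hp.2 a ha d hd).2⟩⟩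

theorem CohOK.mono {p q : Cond K Θ} (h : p ⊆ q) (hq : CohOK Q rk q) : CohOK Q rk p :=
  ⟨fun α t x y h1 h2 => hq.uniq α t x y (h h1) (h h2), fun α t x h1 => hq.ty α t x (h h1),
    fun α t x h1 => hq.len α t x (h h1)⟩

theorem res_mem {ξ : WithTop Θ} {p : Cond K Θ} (hp : p ∈ PT Q rk nm ξ) (c : Θ) :
    res p c ∈ Pst Q rk nm c := by
  rw [mem_Pst]
  refine ⟨hp.1.mono (res_subset p c), fun a ha d hd => ?_⟩
  have hdc : d < c := (mem_res.1 ha).2 d hd
  refine ⟨hdc, (PT.okat hp d).congr ?_ (res_res hdc.le).ge⟩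
  intro b hb
  rw [mem_res]
  exact ⟨fun h => ⟨h, fun d' hd' => by rw [hb] at hd'; cases hd'; exact hdc⟩, fun h => h.1⟩

theorem res_mem' {ξ : WithTop Θ} {p : Cond K Θ} (hp : p ∈ PT Q rk nm ξ) (c : Θ) :
    res p c ∈ PT Q rk nm c := by
  rw [← Pst_eq]
  exact res_mem hp c

theorem empty_mem (ξ : WithTop Θ) : (∅ : Cond K Θ) ∈ PT Q rk nm ξ := by
  rw [PT_iff]
  refine ⟨⟨?_, ?_, ?_⟩, ?_, fun d => OKat_of_empty ?_⟩ <;> simp

/-- The union lemma: all amalgamations of conditions are instances of it. -/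
theorem union_mem {ξ : WithTop Θ} {U : Cond K Θ} (hcoh : CohOK Q rk U)
    (hU : ∀ a ∈ U, ∀ d, a.crd = some d → (d : WithTop Θ) < ξ)
    (h1 : ∀ a ∈ U, ∀ d, a.crd = some d → ∃ ξ', ∃ p ∈ PT Q rk nm ξ', p ⊆ U ∧
      ∀ j k S, Atom.stm d j k S ∈ U → Atom.stm d j k S ∈ p)
    (h2 : ∀ d ζ i, Atom.pro d ζ i ∈ U → ∃ ξ', ∃ p ∈ PT Q rk nm ξ', p ⊆ U ∧
      Atom.pro d ζ i ∈ p ∧ ∀ j k S, Atom.stm d j k S ∈ U → Atom.stm d j k S ∈ p)
    (h3 : ∀ a ∈ U, ∀ d, a.crd = some d → (proms d U).ncard ≤ slen d U) :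
    U ∈ PT Q rk nm ξ := by
  refine ⟨hcoh, fun a ha d hd => ⟨hU a ha d hd, ?_⟩⟩
  obtain ⟨ξ', p, hp, hpU, hst⟩ := h1 a ha d hd
  constructor
  · exact (PT.okat hp d).stem.congr fun j k S => ⟨fun h => hpU h, hst j k S⟩
  · rintro ζ ⟨i, hi⟩
    obtain ⟨ξ', p, hp, hpU, h4, hst⟩ := h2 d ζ i hi
    exact (PT.okat hp d).typ ζ ⟨i, h4⟩
  · exact h3 a ha d hd
  · intro ζ i j k S h4 h5 h6
    obtain ⟨ξ', p, hp, hpU, h7, hst⟩ := h2 d ζ i h4
    exact Fc_mono (res_mono hpU d) ((PT.okat hp d).mem ζ i j k S h7 (hst _ _ _ h5) h6)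
  · intro ζ i j k S h4 h5 j' h6
    obtain ⟨ξ', p, hp, hpU, h7, hst⟩ := h2 d ζ i h4
    exact Fc_mono (res_mono hpU d) ((PT.okat hp d).lng ζ i j k S h7 (hst _ _ _ h5) j'
      ((slen_mono hpU).trans h6))

open Classical in
/-- Complete embedding: a condition below `c` can be joined with a condition it extends. -/
theorem join_mem {ξ : WithTop Θ} {c : Θ} {p q : Cond K Θ} (hp : p ∈ PT Q rk nm ξ)
    (hq : q ∈ PT Q rk nm c) (hcξ : (c : WithTop Θ) ≤ ξ) (h : res p c ⊆ q) :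
    q ∪ p ∈ PT Q rk nm ξ := by
  have hqc : ∀ a ∈ q, ∀ d, a.crd = some d → d < c := fun a ha d hd =>
    WithTop.coe_lt_coe.1 ((PT_iff.1 hq).2.1 a ha d hd)
  -- atoms at coordinates `≥ c` come from `p`, the others from `q`
  have hlow : ∀ a : Atom K Θ, (∀ d, a.crd = some d → d < c) → (a ∈ q ∪ p ↔ a ∈ q) := by
    intro a ha
    rw [Finset.mem_union]
    exact ⟨fun h' => h'.elim id fun h'' => h (mem_res.2 ⟨h'', ha⟩), Or.inl⟩
  have hhigh : ∀ a : Atom K Θ, ∀ d, a.crd = some d → c ≤ d → (a ∈ q ∪ p ↔ a ∈ p) := by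
    intro a d ha hd
    rw [Finset.mem_union]
    exact ⟨fun h' => h'.elim (fun h'' => absurd (hqc a h'' d ha) (not_lt.2 hd)) id, Or.inr⟩
  refine union_mem ⟨?_, ?_, ?_⟩ ?_ ?_ ?_ ?_
  · intro α t x y h1 h2
    exact (PT.coh hq).uniq α t x y ((hlow _ (by simp [Atom.crd])).1 h1)
      ((hlow _ (by simp [Atom.crd])).1 h2)
  · intro α t x h1
    exact (PT.coh hq).ty α t x ((hlow _ (by simp [Atom.crd])).1 h1)
  · intro α t x h1
    exact (PT.coh hq).len α t x ((hlow _ (by simp [Atom.crd])).1 h1)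
  · intro a ha d hd
    rcases Finset.mem_union.1 ha with h' | h'
    · exact ((PT_iff.1 hq).2.1 a h' d hd).trans_le hcξ
    · exact (PT_iff.1 hp).2.1 a h' d hd
  · intro a ha d hd
    rcases lt_or_ge d c with hdc | hdc
    · refine ⟨c, q, hq, Finset.subset_union_left, fun j k S h' => ?_⟩
      exact (hlow _ (by rintro d' ⟨⟩; exact hdc)).1 h'
    · refine ⟨ξ, p, hp, Finset.subset_union_right, fun j k S h' => ?_⟩
      exact (hhigh _ d rfl hdc).1 h'
  · intro d ζ i hi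
    rcases lt_or_ge d c with hdc | hdc
    · refine ⟨c, q, hq, Finset.subset_union_left, (hlow _ (by rintro d' ⟨⟩; exact hdc)).1 hi,
        fun j k S h' => ?_⟩
      exact (hlow _ (by rintro d' ⟨⟩; exact hdc)).1 h'
    · refine ⟨ξ, p, hp, Finset.subset_union_right, (hhigh _ d rfl hdc).1 hi, fun j k S h' => ?_⟩
      exact (hhigh _ d rfl hdc).1 h'
  · intro a ha d hd
    rcases lt_or_ge d c with hdc | hdc
    · have : proms d (q ∪ p) = proms d q := by
        ext ζ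
        exact exists_congr fun i => hlow _ (by rintro d' ⟨⟩; exact hdc)
      rw [this]
      exact (PT.okat hq d).cnt.trans (slen_mono Finset.subset_union_left)
    · have : proms d (q ∪ p) = proms d p := by
        ext ζ
        exact exists_congr fun i => hhigh _ d rfl hdc
      rw [this]
      exact (PT.okat hp d).cnt.trans (slen_mono Finset.subset_union_right)

open Classical in
theorem res_join {c : Θ} {p q : Cond K Θ} (hqc : ∀ a ∈ q, ∀ d, a.crd = some d → d < c)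
    (h : res p c ⊆ q) : res (q ∪ p) c = q := by
  ext a
  rw [mem_res, Finset.mem_union]
  constructor
  · rintro ⟨h1 | h1, h2⟩
    · exact h1
    · exact h (mem_res.2 ⟨h1, h2⟩)
  · intro h1
    exact ⟨Or.inl h1, hqc a h1⟩

end

end MP958
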