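import Pool.Agent.Lib.MP_958b88_lc.ZStmt
import Pool.Agent.Lib.MP_958b88_lc.YComb
import Pool.Agent.Lib.MP_9708fd_lc.FAxioms
import Pool.Agent.Lib.MP_9708fd_lc.FModel

/-!
# Evaluation of the statement in the generic model
-/

set_option autoImplicit false

section

/-!
# Formulas for the notions of `ZStmt`
-/


namespace MP958.Z

open MP9708F

universe u

/-- Implication. -/
def imp (φ ψ : SetFormula) : SetFormula := .neg (.and φ (.neg ψ))

/-- Disjunction. -/
def or' (φ ψ : SetFormula) : SetFormula := .neg (.and (.neg φ) (.neg ψ))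

/-- Equivalence. -/
def iff' (φ ψ : SetFormula) : SetFormula := .and (imp φ ψ) (imp ψ φ)

/-- `p = (a, b)`. -/
def fPair (p a b : ℕ) : SetFormula :=
  .all (iff' (.mem 0 (p + 1)) (or' (.all (iff' (.mem 0 1) (.eq 0 (a + 2))))
    (.all (iff' (.mem 0 1) (or' (.eq 0 (a + 2)) (.eq 0 (b + 2)))))))

/-- `(a, b) ∈ f`. -/
def fHas (f a b : ℕ) : SetFormula := (SetFormula.and (.mem 0 (f + 1)) (fPair 0 (a + 1) (b + 1))).ex

/-- `x ⊆ y`. -/
def fSub (x y : ℕ) : SetFormula := .all (imp (.mem 0 (x + 1)) (.mem 0 (y + 1)))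

/-- `w` is inductive. -/
def fInd (w : ℕ) : SetFormula :=
  .and (SetFormula.and (.mem 0 (w + 1)) (.all (.neg (.mem 0 1)))).ex
    (.all (imp (.mem 0 (w + 1)) (SetFormula.and (.mem 0 (w + 2))
      (.all (iff' (.mem 0 1) (or' (.mem 0 2) (.eq 0 2))))).ex))

/-- `w = ω`. -/
def fOm (w : ℕ) : SetFormula :=
  .and (fInd w) (.all (imp (fInd 0) (fSub (w + 1) 0)))

/-- `f` is a function on `x`. -/
def fFunOn (f x : ℕ) : SetFormula :=
  .and (.all (imp (.mem 0 (f + 1)) (SetFormula.and (.mem 1 (x + 3)) (fPair 2 1 0)).ex.ex))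
    (.and (.all (imp (.mem 0 (x + 1)) (fHas (f + 2) 1 0).ex))
      (.all (.all (.all (imp (fHas (f + 3) 2 1) (imp (fHas (f + 3) 2 0) (.eq 1 0)))))))

/-- `f : x → y`. -/
def fFunc (f x y : ℕ) : SetFormula :=
  .and (fFunOn f x) (.all (.all (imp (fHas (f + 2) 1 0) (.mem 0 (y + 2)))))

/-- `b : x → y` is a bijection. -/
def fBij (b x y : ℕ) : SetFormula :=
  .and (fFunc b x y)
    (.and (.all (.all (.all (imp (fHas (b + 3) 2 0) (imp (fHas (b + 3) 1 0) (.eq 2 1))))))
      (.all (imp (.mem 0 (y + 1)) (fHas (b + 2) 0 1).ex)))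

/-- `t = 2`. -/
def fTwo (t : ℕ) : SetFormula :=
  (SetFormula.and (.all (.neg (.mem 0 2))) (.and (.all (iff' (.mem 0 1) (.eq 0 2)))
    (.all (iff' (.mem 0 (t + 3)) (or' (.eq 0 2) (.eq 0 1)))))).ex.ex

/-- `x ∈ 2^ω`. -/
def fReal (w x : ℕ) : SetFormula := (SetFormula.and (fTwo 0) (fFunc (x + 1) (w + 1) 0)).ex

/-- `s` is a finite binary sequence of length `n`. -/
def fStr (w s n : ℕ) : SetFormula :=
  .and (.mem n w) (SetFormula.and (fTwo 0) (fFunc (s + 1) (n + 1) 0)).ex

/-- `σ` is a sequence of finite binary sequences. -/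
def fStrSeq (w σ : ℕ) : SetFormula :=
  .and (fFunOn σ w) (.all (.all (imp (fHas (σ + 2) 1 0) (fStr (w + 3) 1 0).ex)))

/-- `m = i ^ k`. -/
def fPow (w i k m : ℕ) : SetFormula :=
  .and (.mem m w) (SetFormula.and (.all (iff' (.mem 0 2) (fFunc 0 (k + 3) (i + 3))))
    (fBij 0 (m + 2) 1)).ex.ex

/-- `f ≪ ht_σ`. -/
def fGrows (w f σ : ℕ) : SetFormula :=
  .all (imp (.mem 0 (w + 1)) (SetFormula.and (.mem 0 (w + 2)) (.all (imp (.mem 0 (w + 3))
    (imp (fSub 1 0) (.all (.all (.all (.all (imp (fPow (w + 7) 4 6 3) (imp (fHas (f + 7) 3 2)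
      (imp (fHas (σ + 7) 4 1) (imp (fStr (w + 7) 1 0) (fSub 2 0))))))))))))).ex)

/-- `x ∈ [σ]_∞`. -/
def fLim (w σ x : ℕ) : SetFormula :=
  .and (fReal w x) (.all (imp (.mem 0 (w + 1)) (SetFormula.and (.mem 1 (w + 3))
    (.and (fSub 2 1) (.and (fHas (σ + 3) 1 0) (fSub 0 (x + 3))))).ex.ex))

/-- `X ∈ I_f`. -/
def fYor (w f X : ℕ) : SetFormula :=
  .and (.all (imp (.mem 0 (X + 1)) (fReal (w + 1) 0)))
    (SetFormula.and (fStrSeq (w + 1) 0) (.and (fGrows (w + 1) (f + 1) 0)
      (.all (imp (.mem 0 (X + 2)) (fLim (w + 2) 1 0))))).ex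

/-- `f` is increasing. -/
def fIncr (w f : ℕ) : SetFormula :=
  .and (fFunc f w w) (.all (.all (.all (.all (imp (.mem 3 2) (imp (fHas (f + 4) 3 1)
    (imp (fHas (f + 4) 2 0) (.mem 1 0))))))))

/-- `x` is transitive. -/
def fTrans (x : ℕ) : SetFormula := .all (imp (.mem 0 (x + 1)) (fSub 0 (x + 1)))

/-- `x` is an ordinal. -/
def fOrd (x : ℕ) : SetFormula := .and (fTrans x) (.all (imp (.mem 0 (x + 1)) (fTrans 0)))

/-- Some `κ`-sequence of members of `I_f` has union outside `I_f`. -/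
def fUnb (w f κ : ℕ) : SetFormula :=
  (SetFormula.and (fFunOn 1 (κ + 2)) (.and (.all (.all (imp (fHas 3 1 0)
    (fYor (w + 4) (f + 4) 0)))) (.and (.all (iff' (.mem 0 1) (SetFormula.and (fHas 4 1 0)
      (.mem 2 0)).ex.ex)) (.neg (fYor (w + 2) (f + 2) 0))))).ex.ex

/-- `κ = add(I_f)`. -/
def fAdd (w f κ : ℕ) : SetFormula :=
  .and (fOrd κ) (.and (fUnb w f κ) (.all (imp (.mem 0 (κ + 1)) (.neg (fUnb (w + 1) (f + 1) 0)))))

/-- The matrix of the statement `InfinitelyManyAdd`. -/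
def fMain : SetFormula :=
  .and (fOm 0) (.and (fFunOn 1 0) (.and (fFunOn 2 0) (.and
    (.all (imp (.mem 0 1) (.all (.all (imp (fHas 4 2 1) (imp (fHas 5 2 0)
      (.and (fIncr 3 1) (fAdd 3 1 0))))))))
    (.all (.all (.all (.all (imp (.mem 3 2) (imp (fHas 6 3 1) (imp (fHas 6 2 0)
      (.mem 1 0)))))))))))

section Holds

variable {M : Type u} (E : M → M → Prop) (v : ℕ → M)

@[simp] theorem push_zero' (x : M) : push x v 0 = x := rfl

@[simp] theorem push_succ' (x : M) (n : ℕ) : push x v (n + 1) = v n := rfl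

theorem holds_imp (φ ψ : SetFormula) : (imp φ ψ).Holds E v ↔ (φ.Holds E v → ψ.Holds E v) := by
  simp [imp, SetFormula.Holds]

theorem holds_or (φ ψ : SetFormula) : (or' φ ψ).Holds E v ↔ (φ.Holds E v ∨ ψ.Holds E v) := by
  simp [or', SetFormula.Holds]
  tauto

theorem holds_iff (φ ψ : SetFormula) : (iff' φ ψ).Holds E v ↔ (φ.Holds E v ↔ ψ.Holds E v) := by
  simp only [iff', SetFormula.Holds, holds_imp]
  tauto

theorem holds_ex (φ : SetFormula) : φ.ex.Holds E v ↔ ∃ x, φ.Holds E (push x v) := by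
  simp [SetFormula.ex, SetFormula.Holds]

theorem holds_fPair (p a b : ℕ) : (fPair p a b).Holds E v ↔ IsPair E (v p) (v a) (v b) := by
  simp only [fPair, SetFormula.Holds, holds_iff, holds_or]
  rfl

theorem holds_fHas (f a b : ℕ) : (fHas f a b).Holds E v ↔ HasPair E (v f) (v a) (v b) := by
  simp only [fHas, SetFormula.Holds, holds_ex, holds_fPair]
  rfl

theorem holds_fSub (x y : ℕ) : (fSub x y).Holds E v ↔ Sub E (v x) (v y) := by
  simp only [fSub, SetFormula.Holds, holds_imp]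
  rfl

theorem holds_fInd (w : ℕ) : (fInd w).Holds E v ↔ IsInductive E (v w) := by
  simp only [fInd, SetFormula.Holds, holds_ex, holds_imp, holds_iff, holds_or]
  rfl

theorem holds_fOm (w : ℕ) : (fOm w).Holds E v ↔ IsOmega E (v w) := by
  simp only [fOm, SetFormula.Holds, holds_imp, holds_fInd, holds_fSub]
  rfl

theorem holds_fFunOn (f x : ℕ) : (fFunOn f x).Holds E v ↔ IsFunOn E (v f) (v x) := by
  simp only [fFunOn, SetFormula.Holds, holds_imp, holds_ex, holds_fPair, holds_fHas]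
  rfl

theorem holds_fFunc (f x y : ℕ) : (fFunc f x y).Holds E v ↔ IsFunc E (v f) (v x) (v y) := by
  simp only [fFunc, SetFormula.Holds, holds_imp, holds_fFunOn, holds_fHas]
  rfl

theorem holds_fBij (b x y : ℕ) : (fBij b x y).Holds E v ↔ IsBij E (v b) (v x) (v y) := by
  simp only [fBij, SetFormula.Holds, holds_imp, holds_ex, holds_fFunc, holds_fHas]
  rfl

theorem holds_fTwo (t : ℕ) : (fTwo t).Holds E v ↔ IsTwo E (v t) := by
  simp only [fTwo, SetFormula.Holds, holds_ex, holds_iff, holds_or]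
  rfl

theorem holds_fReal (w x : ℕ) : (fReal w x).Holds E v ↔ IsReal E (v w) (v x) := by
  simp only [fReal, SetFormula.Holds, holds_ex, holds_fTwo, holds_fFunc]
  rfl

theorem holds_fStr (w s n : ℕ) : (fStr w s n).Holds E v ↔ IsStr E (v w) (v s) (v n) := by
  simp only [fStr, SetFormula.Holds, holds_ex, holds_fTwo, holds_fFunc]
  rfl

theorem holds_fStrSeq (w σ : ℕ) : (fStrSeq w σ).Holds E v ↔ IsStrSeq E (v w) (v σ) := by
  simp only [fStrSeq, SetFormula.Holds, holds_imp, holds_ex, holds_fFunOn, holds_fHas, holds_fStr]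
  rfl

theorem holds_fPow (w i k m : ℕ) :
    (fPow w i k m).Holds E v ↔ IsPow E (v w) (v i) (v k) (v m) := by
  simp only [fPow, SetFormula.Holds, holds_iff, holds_ex, holds_fFunc, holds_fBij]
  rfl

theorem holds_fGrows (w f σ : ℕ) : (fGrows w f σ).Holds E v ↔ Grows E (v w) (v f) (v σ) := by
  simp only [fGrows, SetFormula.Holds, holds_imp, holds_ex, holds_fSub, holds_fPow, holds_fHas,
    holds_fStr]
  rfl

theorem holds_fLim (w σ x : ℕ) : (fLim w σ x).Holds E v ↔ InLimsup E (v w) (v σ) (v x) := by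
  simp only [fLim, SetFormula.Holds, holds_imp, holds_ex, holds_fSub, holds_fReal, holds_fHas]
  rfl

theorem holds_fYor (w f X : ℕ) : (fYor w f X).Holds E v ↔ InYor E (v w) (v f) (v X) := by
  simp only [fYor, SetFormula.Holds, holds_imp, holds_ex, holds_fReal, holds_fStrSeq,
    holds_fGrows, holds_fLim]
  rfl

theorem holds_fIncr (w f : ℕ) : (fIncr w f).Holds E v ↔ IsIncr E (v w) (v f) := by
  simp only [fIncr, SetFormula.Holds, holds_imp, holds_fFunc, holds_fHas]
  rfl

theorem holds_fTrans (x : ℕ) : (fTrans x).Holds E v ↔ IsTrans' E (v x) := by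
  simp only [fTrans, SetFormula.Holds, holds_imp, holds_fSub]
  rfl

theorem holds_fOrd (x : ℕ) : (fOrd x).Holds E v ↔ IsOrd E (v x) := by
  simp only [fOrd, SetFormula.Holds, holds_imp, holds_fTrans]
  rfl

theorem holds_fUnb (w f κ : ℕ) : (fUnb w f κ).Holds E v ↔ Unbounded E (v w) (v f) (v κ) := by
  simp only [fUnb, SetFormula.Holds, holds_imp, holds_ex, holds_iff, holds_fFunOn, holds_fHas,
    holds_fYor]
  rfl

theorem holds_fAdd (w f κ : ℕ) : (fAdd w f κ).Holds E v ↔ IsAdd E (v w) (v f) (v κ) := by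
  simp only [fAdd, SetFormula.Holds, holds_imp, holds_fOrd, holds_fUnb]
  rfl

theorem holds_fMain (h : fMain.Holds E v) : InfinitelyManyAdd E := by
  refine ⟨v 0, v 1, v 2, ?_⟩
  simp only [fMain, SetFormula.Holds, holds_imp, holds_fOm, holds_fFunOn, holds_fHas, holds_fIncr,
    holds_fAdd] at h
  exact h

end Holds

section Connectives

variable {P : Type u} [Preorder P] {φ ψ : SetFormula} {v : ℕ → Nam P} {p : P}

theorem forces_imp : (imp φ ψ).Forces v p ↔ ∀ q ≤ p, φ.Forces v q → ψ.Forces v q := by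
  constructor
  · intro h q hq hφ
    refine (ψ.forces_reg v).reg fun r hr => ?_
    by_contra hcon
    push Not at hcon
    exact h r (hr.trans hq) ⟨φ.forces_mono v hr hφ, hcon⟩
  · intro h q hq hφψ
    exact hφψ.2 q le_rfl (h q hq hφψ.1)

theorem forces_or : (or' φ ψ).Forces v p ↔ DB (fun r => φ.Forces v r ∨ ψ.Forces v r) p := by
  constructor
  · intro h q hq
    by_contra hcon
    push Not at hcon
    exact h q hq ⟨fun r hr => (hcon r hr).1, fun r hr => (hcon r hr).2⟩
  · intro h q hq hφψ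
    obtain ⟨r, hr, h' | h'⟩ := h q hq
    · exact hφψ.1 r hr h'
    · exact hφψ.2 r hr h'

theorem forces_iff : (iff' φ ψ).Forces v p ↔ ∀ q ≤ p, (φ.Forces v q ↔ ψ.Forces v q) := by
  constructor
  · rintro ⟨h1, h2⟩ q hq
    exact ⟨forces_imp.1 h1 q hq, forces_imp.1 h2 q hq⟩
  · intro h
    exact ⟨forces_imp.2 fun q hq => (h q hq).1, forces_imp.2 fun q hq => (h q hq).2⟩

theorem forces_ex' : φ.ex.Forces v p ↔ DB (fun r => ∃ x, φ.Forces (push x v) r) p :=
  SetFormula.forces_ex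

end Connectives

end MP958.Z

end

section

/-!
# Evaluation of the forcing relation: pairs, natural numbers, functions

The first part (pairs, natural numbers) follows `Lib/MP_d41870_lc/NSMain.lean` of helper54.
-/


namespace MP958.Z

open MP9708F

universe u

section Pairs

variable {P : Type u} [Preorder P]

/-- The ordered pair name. -/
def opair (x y : Nam P) : Nam P := Nam.pair (Nam.pair x x) (Nam.pair x y)

theorem fmem_single {a w : Nam P} {p : P} : fmem w (Nam.pair a a) p ↔ feq w a p := by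
  rw [fmem_pair]
  constructor
  · intro h
    refine feq_reg fun q hq => ?_
    obtain ⟨r, hr, h' | h'⟩ := h q hq
    · exact ⟨r, hr, h'⟩
    · exact ⟨r, hr, h'⟩
  · intro h q hq
    exact ⟨q, le_rfl, Or.inl (feq_mono hq h)⟩

theorem feq_single {z a : Nam P} {p : P} :
    (∀ w, ∀ q ≤ p, (fmem w z q ↔ feq w a q)) ↔ feq z (Nam.pair a a) p := by
  rw [feq_iff_fmem]
  simp only [fmem_single]

theorem feq_pair' {z a b : Nam P} {p : P} :
    (∀ w, ∀ q ≤ p, (fmem w z q ↔ DB (fun r => feq w a r ∨ feq w b r) q)) ↔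
      feq z (Nam.pair a b) p := by
  rw [feq_iff_fmem]
  simp only [fmem_pair]

theorem forces_fPair {v : ℕ → Nam P} {c : P} {p a b : ℕ} :
    (fPair p a b).Forces v c ↔ feq (v p) (opair (v a) (v b)) c := by
  unfold fPair opair
  simp only [SetFormula.Forces, forces_iff, forces_or, push_succ', push_zero']
  rw [← feq_pair']
  simp only [← feq_single (P := P), ← feq_pair' (P := P) (a := v a) (b := v b)]

theorem forces_fHas {v : ℕ → Nam P} {c : P} {f a b : ℕ} :
    (fHas f a b).Forces v c ↔ fmem (opair (v a) (v b)) (v f) c := by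
  unfold fHas
  simp only [SetFormula.Forces, forces_ex', forces_fPair, push_succ', push_zero']
  constructor
  · intro h
    refine fmem_reg fun q hq => ?_
    obtain ⟨r, hr, x, h1, h2⟩ := h q hq
    exact ⟨r, hr, fmem_congr_left h2 h1⟩
  · intro h q hq
    exact ⟨q, le_rfl, opair (v a) (v b), fmem_mono hq h, feq_refl _ _⟩

theorem feq_pair_congr {a a' b b' : Nam P} {p : P} (h1 : feq a a' p) (h2 : feq b b' p) :
    feq (Nam.pair a b) (Nam.pair a' b') p := by
  refine feq_of_fmem fun z q hq => ?_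
  rw [fmem_pair, fmem_pair]
  constructor
  · refine DB.imp fun r hr h => ?_
    rcases h with h | h
    · exact Or.inl (feq_trans h (feq_mono (hr.trans hq) h1))
    · exact Or.inr (feq_trans h (feq_mono (hr.trans hq) h2))
  · refine DB.imp fun r hr h => ?_
    rcases h with h | h
    · exact Or.inl (feq_trans h (feq_symm (feq_mono (hr.trans hq) h1)))
    · exact Or.inr (feq_trans h (feq_symm (feq_mono (hr.trans hq) h2)))

theorem feq_opair {a a' b b' : Nam P} {p : P} (h1 : feq a a' p) (h2 : feq b b' p) :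
    feq (opair a b) (opair a' b') p :=
  feq_pair_congr (feq_pair_congr h1 h1) (feq_pair_congr h1 h2)

theorem fmem_pair_left (a b : Nam P) (p : P) : fmem a (Nam.pair a b) p :=
  fmem_pair.2 fun q _ => ⟨q, le_rfl, Or.inl (feq_refl _ _)⟩

theorem fmem_pair_right (a b : Nam P) (p : P) : fmem b (Nam.pair a b) p :=
  fmem_pair.2 fun q _ => ⟨q, le_rfl, Or.inr (feq_refl _ _)⟩

theorem opair_inj {a a' b b' : Nam P} {p : P} (h : feq (opair a b) (opair a' b') p) :
    feq a a' p ∧ feq b b' p := by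
  have hA : ∀ q ≤ p, feq a a' q := by
    intro q hq
    refine feq_reg fun r hr => ?_
    have h1 : fmem (Nam.pair a a) (opair a' b') r :=
      fmem_congr_right (feq_mono (hr.trans hq) h) (fmem_pair_left _ _ _)
    obtain ⟨s, hs, h2 | h2⟩ := fmem_pair.1 h1 r le_rfl
    · exact ⟨s, hs, feq_symm (fmem_single.1 (fmem_congr_right (feq_symm h2)
        (fmem_pair_left a' a' s)))⟩
    · exact ⟨s, hs, feq_symm (fmem_single.1 (fmem_congr_right (feq_symm h2)
        (fmem_pair_left a' b' s)))⟩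
  refine ⟨hA p le_rfl, feq_reg fun q hq => ?_⟩
  have haa := hA q hq
  have h1 : fmem (Nam.pair a b) (opair a' b') q :=
    fmem_congr_right (feq_mono hq h) (fmem_pair_right _ _ _)
  obtain ⟨r, hr, h2⟩ := fmem_pair.1 h1 q le_rfl
  have h3 : fmem (Nam.pair a' b') (opair a b) r :=
    fmem_congr_right (feq_symm (feq_mono (hr.trans hq) h)) (fmem_pair_right _ _ _)
  obtain ⟨s, hs, h4⟩ := fmem_pair.1 h3 r le_rfl
  have haa' := feq_mono (hs.trans hr) haa
  rcases h4 with h4 | h4
  · -- `b' = a`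
    have hb' : feq b' a s := fmem_single.1 (fmem_congr_right h4 (fmem_pair_right _ _ _))
    rcases h2 with h2 | h2
    · have hb : feq b a' s := fmem_single.1 (fmem_congr_right (feq_mono hs h2)
        (fmem_pair_right _ _ _))
      exact ⟨s, hs.trans hr, feq_trans hb (feq_trans (feq_symm haa') (feq_symm hb'))⟩
    · have hb : fmem b (Nam.pair a' b') s :=
        fmem_congr_right (feq_mono hs h2) (fmem_pair_right _ _ _)
      have hb2 : feq b a s := fmem_single.1 (fmem_congr_right h4 hb)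
      exact ⟨s, hs.trans hr, feq_trans hb2 (feq_symm hb')⟩
  · -- `b' ∈ {a, b}`
    have hb' : fmem b' (Nam.pair a b) s := fmem_congr_right h4 (fmem_pair_right _ _ _)
    obtain ⟨t, ht, h5 | h5⟩ := fmem_pair.1 hb' s le_rfl
    · have hb : fmem b (Nam.pair a' b') t :=
        fmem_congr_right (feq_symm (feq_mono ht h4)) (fmem_pair_right _ _ _)
      obtain ⟨w, hw, h6 | h6⟩ := fmem_pair.1 hb t le_rfl
      · exact ⟨w, ((hw.trans ht).trans hs).trans hr, feq_trans h6
          (feq_trans (feq_symm (feq_mono (hw.trans ht) haa')) (feq_symm (feq_mono hw h5)))⟩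
      · exact ⟨w, ((hw.trans ht).trans hs).trans hr, h6⟩
    · exact ⟨t, (ht.trans hs).trans hr, feq_symm h5⟩

theorem not_fmem_self (x : Nam P) : ∀ p : P, ¬ fmem x x p := by
  induction x with
  | mk ι w e ih =>
    intro p h
    obtain ⟨r, hr, j, h1, h2⟩ := h p le_rfl
    exact ih j r (fmem_congr_right h2 (fmem_of_wt h1))

theorem fin_mem_fin {n m : ℕ} (h : n < m) (p : P) : fmem (Nam.fin n) (Nam.fin m : Nam P) p := by
  induction m with
  | zero => omega
  | succ m ih =>
    refine fmem_succ.2 fun q _ => ⟨q, le_rfl, ?_⟩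
    rcases Nat.lt_succ_iff_lt_or_eq.1 h with h | h
    · exact Or.inl (fmem_mono (by assumption) (ih h))
    · subst h
      exact Or.inr (feq_refl _ _)

theorem fin_inj {n m : ℕ} {p : P} (h : feq (Nam.fin n) (Nam.fin m) p) : n = m := by
  rcases lt_trichotomy n m with h' | h' | h'
  · exact absurd (fmem_congr_right (feq_symm h) (fin_mem_fin h' p)) (not_fmem_self _ _)
  · exact h'
  · exact absurd (fmem_congr_right h (fin_mem_fin h' p)) (not_fmem_self _ _)

theorem fmem_omega {z : Nam P} {p : P} :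
    fmem z Nam.omega p ↔ DB (fun q => ∃ n, feq z (Nam.fin n) q) p := by
  constructor
  · intro h q hq
    obtain ⟨r, hr, ⟨n⟩, -, h2⟩ := h q hq
    exact ⟨r, hr, n, h2⟩
  · intro h q hq
    obtain ⟨r, hr, n, h2⟩ := h q hq
    exact ⟨r, hr, ⟨n⟩, trivial, h2⟩

theorem forces_fInd {v : ℕ → Nam P} {p : P} {w : ℕ} : (fInd w).Forces v p ↔
    fmem Nam.empty (v w) p ∧ ∀ y, ∀ q ≤ p, fmem y (v w) q → fmem (Nam.succ y) (v w) q := by
  unfold fInd
  simp only [SetFormula.Forces, forces_ex', forces_iff, forces_or, forces_imp, push_succ',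
    push_zero']
  constructor
  · rintro ⟨h1, h2⟩
    constructor
    · refine fmem_reg fun q hq => ?_
      obtain ⟨r, hr, y, h3, h4⟩ := h1 q hq
      refine ⟨r, hr, fmem_congr_left ?_ h3⟩
      exact feq_of_fmem fun z s hs => iff_of_false (h4 z s hs) (not_fmem_empty z s)
    · intro y q hq hy
      refine fmem_reg fun r hr => ?_
      obtain ⟨s, hs, z, h3, h4⟩ := h2 y q hq hy r hr
      refine ⟨s, hs, fmem_congr_left ?_ h3⟩
      refine feq_of_fmem fun u t ht => ?_
      rw [fmem_succ]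
      exact h4 u t ht
  · rintro ⟨h1, h2⟩
    constructor
    · intro q hq
      exact ⟨q, le_rfl, Nam.empty, fmem_mono hq h1, fun z s _ => not_fmem_empty z s⟩
    · intro y q hq hy r hr
      exact ⟨r, le_rfl, Nam.succ y, fmem_mono hr (h2 y q hq hy), fun u t _ => fmem_succ⟩

theorem forces_fSub {v : ℕ → Nam P} {p : P} {x y : ℕ} : (fSub x y).Forces v p ↔
    ∀ z, ∀ q ≤ p, fmem z (v x) q → fmem z (v y) q := by
  unfold fSub
  simp only [SetFormula.Forces, forces_imp, push_succ', push_zero']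

theorem forces_fOm {v : ℕ → Nam P} {p : P} {w : ℕ} (h : feq (v w) Nam.omega p) :
    (fOm w).Forces v p := by
  unfold fOm
  simp only [SetFormula.Forces, forces_imp, forces_fInd, forces_fSub, push_succ', push_zero']
  refine ⟨⟨fmem_congr_right (feq_symm h) (infinity_forced.1 p), fun y q hq hy => ?_⟩, ?_⟩
  · have h' := feq_mono hq h
    exact fmem_congr_right (feq_symm h') (infinity_forced.2 y q (fmem_congr_right h' hy))
  · intro w' q hq hw' y r hr hy
    have h5 : ∀ n : ℕ, fmem (Nam.fin n) w' q := by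
      intro n
      induction n with
      | zero => exact hw'.1
      | succ n ih => exact hw'.2 _ q le_rfl ih
    refine fmem_reg fun s hs => ?_
    obtain ⟨t, ht, n, h6⟩ := fmem_omega.1 (fmem_congr_right (feq_mono (hr.trans hq) h) hy) s hs
    exact ⟨t, ht, fmem_congr_left (feq_symm h6) (fmem_mono ((ht.trans hs).trans hr) (h5 n))⟩

/-- Two nested forced existential quantifiers. -/
theorem DB_ex2 {S : Nam P → Nam P → P → Prop} (hS : ∀ a b p q, q ≤ p → S a b p → S a b q) {p : P} :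
    DB (fun r => ∃ a, DB (fun s => ∃ b, S a b s) r) p ↔ DB (fun r => ∃ a b, S a b r) p := by
  constructor
  · intro h q hq
    obtain ⟨r, hr, a, ha⟩ := h q hq
    obtain ⟨s, hs, b, hb⟩ := ha r le_rfl
    exact ⟨s, hs.trans hr, a, b, hb⟩
  · intro h q hq
    obtain ⟨r, hr, a, b, hab⟩ := h q hq
    exact ⟨r, hr, a, fun s hs => ⟨s, le_rfl, b, hS a b r s hs hab⟩⟩

/-- `p` forces `f` to be a function on `x`. -/
structure FunOn (f x : Nam P) (p : P) : Prop where
  pairs : ∀ z, ∀ q ≤ p, fmem z f q → DB (fun r => ∃ a b, fmem a x r ∧ feq z (opair a b) r) q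
  total : ∀ a, ∀ q ≤ p, fmem a x q → DB (fun r => ∃ b, fmem (opair a b) f r) q
  func : ∀ a b b', ∀ q ≤ p, fmem (opair a b) f q → fmem (opair a b') f q → feq b b' q

/-- `p` forces `f` to be a function from `x` to `y`. -/
structure Func (f x y : Nam P) (p : P) : Prop extends FunOn f x p where
  val : ∀ a b, ∀ q ≤ p, fmem (opair a b) f q → fmem b y q

theorem forces_fFunOn {v : ℕ → Nam P} {p : P} {f x : ℕ} :
    (fFunOn f x).Forces v p ↔ FunOn (v f) (v x) p := by
  unfold fFunOn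
  simp only [SetFormula.Forces, forces_ex', forces_imp, forces_fPair, forces_fHas, push_succ',
    push_zero']
  constructor
  · rintro ⟨h1, h2, h3⟩
    refine ⟨fun z q hq hz => ?_, h2, fun a b b' q hq h h' => h3 a b b' q hq h q le_rfl h'⟩
    refine (DB_ex2 ?_).1 (h1 z q hq hz)
    intro a b p q hqp h
    exact ⟨fmem_mono hqp h.1, feq_mono hqp h.2⟩
  · rintro ⟨h1, h2, h3⟩
    refine ⟨fun z q hq hz => ?_, h2, fun a b b' q hq h r hr h' =>
      h3 a b b' r (hr.trans hq) (fmem_mono hr h) h'⟩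
    refine (DB_ex2 ?_).2 (h1 z q hq hz)
    intro a b p q hqp h
    exact ⟨fmem_mono hqp h.1, feq_mono hqp h.2⟩

theorem forces_fFunc {v : ℕ → Nam P} {p : P} {f x y : ℕ} :
    (fFunc f x y).Forces v p ↔ Func (v f) (v x) (v y) p := by
  unfold fFunc
  simp only [SetFormula.Forces, forces_imp, forces_fFunOn, forces_fHas, push_succ', push_zero']
  exact ⟨fun h => ⟨h.1, h.2⟩, fun h => ⟨h.toFunOn, h.val⟩⟩

theorem FunOn.reg' (f x : Nam P) : Reg (FunOn f x) := by
  have h : FunOn f x = (fFunOn 0 1).Forces (push f fun _ => x) := by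
    funext p
    exact propext (forces_fFunOn (v := push f fun _ => x) (f := 0) (x := 1)).symm
  rw [h]
  exact SetFormula.forces_reg _ _

theorem Func.reg' (f x y : Nam P) : Reg (Func f x y) := by
  have h : Func f x y = (fFunc 0 1 2).Forces (push f (push x fun _ => y)) := by
    funext p
    exact propext (forces_fFunc (v := push f (push x fun _ => y)) (f := 0) (x := 1) (y := 2)).symm
  rw [h]
  exact SetFormula.forces_reg _ _

theorem FunOn.congr {f x f' x' : Nam P} {p : P} (hf : feq f f' p) (hx : feq x x' p)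
    (h : FunOn f x p) : FunOn f' x' p := by
  have h1 := SetFormula.forces_congr (fFunOn 0 1) (v := push f fun _ => x)
    (v' := push f' fun _ => x') (p := p) (by
      intro n
      rcases n with _ | n
      · exact hf
      · exact hx) (forces_fFunOn.2 h)
  exact forces_fFunOn.1 h1

theorem Func.congr {f x y f' x' y' : Nam P} {p : P} (hf : feq f f' p) (hx : feq x x' p)
    (hy : feq y y' p) (h : Func f x y p) : Func f' x' y' p := by
  have h1 := SetFormula.forces_congr (fFunc 0 1 2) (v := push f (push x fun _ => y))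
    (v' := push f' (push x' fun _ => y')) (p := p) (by
      intro n
      rcases n with _ | _ | n
      · exact hf
      · exact hx
      · exact hy) (forces_fFunc.2 h)
  exact forces_fFunc.1 h1

theorem fmem_fin {z : Nam P} {n : ℕ} {p : P} :
    fmem z (Nam.fin n) p ↔ DB (fun q => ∃ m < n, feq z (Nam.fin m) q) p := by
  induction n generalizing p with
  | zero =>
    constructor
    · intro h
      exact absurd h (not_fmem_empty z p)
    · intro h
      obtain ⟨r, -, m, hm, -⟩ := h p le_rfl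
      omega
  | succ n ih =>
    have h1 : fmem z (Nam.fin (n + 1)) p ↔ DB (fun q => fmem z (Nam.fin n) q ∨
      feq z (Nam.fin n) q) p := fmem_succ
    rw [h1]
    constructor
    · intro h q hq
      obtain ⟨r, hr, h | h⟩ := h q hq
      · obtain ⟨s, hs, m, hm, hm'⟩ := ih.1 h r le_rfl
        exact ⟨s, hs.trans hr, m, by omega, hm'⟩
      · exact ⟨r, hr, n, by omega, h⟩
    · intro h q hq
      obtain ⟨r, hr, m, hm, hm'⟩ := h q hq
      rcases Nat.lt_succ_iff_lt_or_eq.1 hm with hm | rfl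
      · exact ⟨r, hr, Or.inl (ih.2 fun s hs => ⟨s, le_rfl, m, hm, feq_mono hs hm'⟩)⟩
      · exact ⟨r, hr, Or.inr hm'⟩

theorem forces_fTwo {v : ℕ → Nam P} {p : P} {t : ℕ} :
    (fTwo t).Forces v p ↔ feq (v t) (Nam.fin 2) p := by
  unfold fTwo
  simp only [SetFormula.Forces, forces_ex', forces_iff, forces_or, push_succ', push_zero']
  have h0 : ∀ {a : Nam P} {r : P}, (∀ z, ∀ q ≤ r, ¬ fmem z a q) ↔ feq a (Nam.fin 0) r := by
    intro a r
    rw [feq_iff_fmem]
    exact forall_congr' fun z => forall_congr' fun q => forall_congr' fun _ =>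
      ⟨fun h => iff_of_false h (not_fmem_empty z q), fun h h' => not_fmem_empty z q (h.1 h')⟩
  have h1 : ∀ {a b : Nam P} {r : P}, feq a (Nam.fin 0) r →
      ((∀ z, ∀ q ≤ r, (fmem z b q ↔ feq z a q)) ↔ feq b (Nam.fin 1) r) := by
    intro a b r ha
    rw [feq_iff_fmem]
    refine forall_congr' fun z => forall_congr' fun q => forall_congr' fun hq => ?_
    have h2 : fmem z (Nam.fin 1) q ↔ feq z a q := by
      rw [fmem_fin]
      constructor
      · intro h
        refine feq_reg fun s hs => ?_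
        obtain ⟨t, ht, m, hm, hm'⟩ := h s hs
        obtain rfl : m = 0 := by omega
        exact ⟨t, ht, feq_trans hm' (feq_symm (feq_mono ((ht.trans hs).trans hq) ha))⟩
      · intro h s hs
        exact ⟨s, le_rfl, 0, by omega, feq_trans (feq_mono hs h) (feq_mono (hs.trans hq) ha)⟩
    rw [h2]
  have h2 : ∀ {a b t : Nam P} {r : P}, feq a (Nam.fin 0) r → feq b (Nam.fin 1) r →
      ((∀ z, ∀ q ≤ r, (fmem z t q ↔ DB (fun s => feq z a s ∨ feq z b s) q)) ↔
        feq t (Nam.fin 2) r) := by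
    intro a b t r ha hb
    rw [feq_iff_fmem]
    refine forall_congr' fun z => forall_congr' fun q => forall_congr' fun hq => ?_
    have h2 : fmem z (Nam.fin 2) q ↔ DB (fun s => feq z a s ∨ feq z b s) q := by
      rw [fmem_fin]
      constructor
      · intro h s hs
        obtain ⟨t, ht, m, hm, hm'⟩ := h s hs
        have htr : t ≤ r := (ht.trans hs).trans hq
        rcases (by omega : m = 0 ∨ m = 1) with rfl | rfl
        · exact ⟨t, ht, Or.inl (feq_trans hm' (feq_symm (feq_mono htr ha)))⟩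
        · exact ⟨t, ht, Or.inr (feq_trans hm' (feq_symm (feq_mono htr hb)))⟩
      · intro h s hs
        obtain ⟨t, ht, h | h⟩ := h s hs
        · exact ⟨t, ht, 0, by omega, feq_trans h (feq_mono ((ht.trans hs).trans hq) ha)⟩
        · exact ⟨t, ht, 1, by omega, feq_trans h (feq_mono ((ht.trans hs).trans hq) hb)⟩
    rw [h2]
  constructor
  · intro h
    refine feq_reg fun q hq => ?_
    obtain ⟨r, hr, a, ha⟩ := h q hq
    obtain ⟨s, hs, b, hb1, hb2, hb3⟩ := ha r le_rfl
    have ha0 := h0.1 hb1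
    have hb0 := (h1 ha0).1 hb2
    exact ⟨s, hs.trans hr, (h2 ha0 hb0).1 hb3⟩
  · intro h q hq
    refine ⟨q, le_rfl, Nam.fin 0, fun r hr => ⟨r, le_rfl, Nam.fin 1, h0.2 (feq_refl _ _),
      (h1 (feq_refl _ _)).2 (feq_refl _ _), (h2 (feq_refl _ _) (feq_refl _ _)).2
        (feq_mono (hr.trans hq) h)⟩⟩

end Pairs

end MP958.Z

end

section

/-!
# Names of functions between ground sets
-/


namespace MP958.Z

open MP9708F

section General

variable {P : Type} [Preorder P] {I : Type} {e : I → Nam P} {D : Nam P}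

/-- `D` is the canonical name of the set of all `e i`, which are pairwise distinct. -/
structure GDom (e : I → Nam P) (D : Nam P) : Prop where
  mem : ∀ z p, fmem z D p ↔ DB (fun q => ∃ i, feq z (e i) q) p
  inj : ∀ i i' p, feq (e i) (e i') p → i = i'

theorem GDom.self (h : GDom e D) (i : I) (p : P) : fmem (e i) D p :=
  (h.mem _ _).2 fun q _ => ⟨q, le_rfl, i, feq_refl _ _⟩

theorem gdom_omega : GDom (fun n : ℕ => (Nam.fin n : Nam P)) Nam.omega :=
  ⟨fun _ _ => fmem_omega, fun _ _ _ h => fin_inj h⟩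

theorem gdom_fin (k : ℕ) : GDom (fun i : Fin k => (Nam.fin i : Nam P)) (Nam.fin k) := by
  refine ⟨fun z p => ?_, fun i i' p h => Fin.ext (fin_inj h)⟩
  rw [fmem_fin]
  constructor
  · exact DB.imp fun q _ ⟨m, hm, h⟩ => ⟨⟨m, hm⟩, h⟩
  · exact DB.imp fun q _ ⟨m, h⟩ => ⟨m.1, m.2, h⟩

/-- Extensionality for functions on a ground set. -/
theorem FunOn.ext (hD : GDom e D) {f g : Nam P} {p : P} (hf : FunOn f D p) (hg : FunOn g D p)
    (h : ∀ i, ∀ q ≤ p, ∃ r ≤ q, ∃ b, fmem (opair (e i) b) f r ∧ fmem (opair (e i) b) g r) :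
    feq f g p := by
  have key : ∀ f g : Nam P, FunOn f D p → (∀ i, ∀ q ≤ p, ∃ r ≤ q, ∃ b,
      fmem (opair (e i) b) f r ∧ fmem (opair (e i) b) g r) → ∀ z, ∀ q ≤ p, fmem z f q →
        fmem z g q := by
    intro f g hf h z q hq hz
    refine fmem_reg fun r hr => ?_
    obtain ⟨s, hs, a, b, ha, hab⟩ := hf.pairs z q hq hz r hr
    obtain ⟨t, ht, i, hi⟩ := (hD.mem _ _).1 ha s le_rfl
    have htp : t ≤ p := ht.trans (hs.trans (hr.trans hq))
    obtain ⟨t1, ht1, b', h1, h2⟩ := h i t htp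
    have h3 : fmem (opair (e i) b) f t1 := by
      refine fmem_congr_left ?_ (fmem_mono (ht1.trans (ht.trans (hs.trans hr))) hz)
      exact feq_trans (feq_mono (ht1.trans ht) hab)
        (feq_opair (feq_mono ht1 hi) (feq_refl _ _))
    have h4 := hf.func _ _ _ t1 (ht1.trans htp) h3 h1
    refine ⟨t1, ht1.trans (ht.trans hs), fmem_congr_left ?_ h2⟩
    refine feq_symm (feq_trans (feq_mono (ht1.trans ht) hab) ?_)
    exact feq_opair (feq_mono ht1 hi) h4
  refine feq_of_fmem fun z q hq => ⟨key f g hf h z q hq, key g f hg (fun i q hq => ?_) z q hq⟩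
  obtain ⟨r, hr, b, h1, h2⟩ := h i q hq
  exact ⟨r, hr, b, h2, h1⟩

/-- The name of a family of pairs. -/
def famN {κ : Type} (e : I → Nam P) (π : κ → I) (w : κ → LowerSet P) (b : κ → Nam P) : Nam P :=
  ⟨κ, w, fun k => opair (e (π k)) (b k)⟩

variable {κ : Type} {π : κ → I} {w : κ → LowerSet P} {b : κ → Nam P}

theorem mem_famN {z : Nam P} {p : P} : fmem z (famN e π w b) p ↔
    DB (fun q => ∃ k, q ∈ w k ∧ feq z (opair (e (π k)) (b k)) q) p := Iff.rfl

theorem pair_mem_famN (hD : GDom e D) {i : I} {c : Nam P} {p : P} :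
    fmem (opair (e i) c) (famN e π w b) p ↔
      DB (fun q => ∃ k, π k = i ∧ q ∈ w k ∧ feq c (b k) q) p := by
  rw [mem_famN]
  constructor
  · refine DB.imp fun q _ => ?_
    rintro ⟨k, hk, h⟩
    obtain ⟨h1, h2⟩ := opair_inj h
    exact ⟨k, (hD.inj _ _ _ h1).symm, hk, h2⟩
  · refine DB.imp fun q _ => ?_
    rintro ⟨k, rfl, hk, h⟩
    exact ⟨k, hk, feq_opair (feq_refl _ _) h⟩

theorem famN_funOn (hD : GDom e D) {p : P}
    (tot : ∀ i, ∀ q ≤ p, ∃ r ≤ q, ∃ k, π k = i ∧ r ∈ w k)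
    (func : ∀ k k', π k = π k' → ∀ q ≤ p, q ∈ w k → q ∈ w k' → feq (b k) (b k') q) :
    FunOn (famN e π w b) D p := by
  refine ⟨fun z q hq hz => ?_, fun a q hq ha => ?_, fun a c c' q hq h h' => ?_⟩
  · refine DB.imp (fun r hr => ?_) (mem_famN.1 hz)
    rintro ⟨k, hk, h⟩
    exact ⟨e (π k), b k, hD.self _ _, h⟩
  · intro r hr
    obtain ⟨s, hs, i, hi⟩ := (hD.mem _ _).1 ha r hr
    obtain ⟨t, ht, k, rfl, hk⟩ := tot i s (hs.trans (hr.trans hq))
    refine ⟨t, ht.trans hs, b k, fmem_congr_left (feq_opair (feq_symm (feq_mono ht hi))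
      (feq_refl _ _)) ?_⟩
    exact fmem_of_wt (y := famN e π w b) (j := k) hk
  · refine feq_reg fun r hr => ?_
    obtain ⟨s, hs, k, hk, h1⟩ := mem_famN.1 h r hr
    obtain ⟨t, ht, k', hk', h2⟩ := mem_famN.1 h' s (hs.trans hr)
    obtain ⟨h3, h4⟩ := opair_inj h1
    obtain ⟨h5, h6⟩ := opair_inj h2
    have h7 : π k = π k' := hD.inj _ _ _ (feq_trans (feq_symm (feq_mono ht h3)) h5)
    have h8 := func k k' h7 t ((ht.trans hs).trans (hr.trans hq)) ((w k).lower ht hk) hk'
    exact ⟨t, ht.trans hs, feq_trans (feq_mono ht h4) (feq_trans h8 (feq_symm h6))⟩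

/-- The name of the function `e i ↦ b i`. -/
def tabN (e : I → Nam P) (b : I → Nam P) : Nam P := famN e id (fun _ => ⊤) b

theorem tabN_funOn (hD : GDom e D) (b : I → Nam P) (p : P) : FunOn (tabN e b) D p :=
  famN_funOn hD (fun i q _ => ⟨q, le_rfl, i, rfl, trivial⟩) (by
    rintro k k' h q _ - -
    obtain rfl : k = k' := h
    exact feq_refl _ _)

theorem pair_mem_tabN (hD : GDom e D) {b : I → Nam P} {i : I} {c : Nam P} {p : P} :
    fmem (opair (e i) c) (tabN e b) p ↔ feq c (b i) p := by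
  unfold tabN
  rw [pair_mem_famN hD]
  constructor
  · intro h
    refine feq_reg fun q hq => ?_
    obtain ⟨r, hr, k, rfl, -, h'⟩ := h q hq
    exact ⟨r, hr, h'⟩
  · intro h q hq
    exact ⟨q, le_rfl, i, rfl, trivial, feq_mono hq h⟩

theorem mem_tabN {b : I → Nam P} {z : Nam P} {p : P} : fmem z (tabN e b) p ↔
    DB (fun q => ∃ i, feq z (opair (e i) (b i)) q) p := by
  unfold tabN
  rw [mem_famN]
  exact ⟨DB.imp fun q _ ⟨k, _, h⟩ => ⟨k, h⟩, DB.imp fun q _ ⟨k, h⟩ => ⟨k, trivial, h⟩⟩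

/-- Evaluation of a function on a ground set. -/
theorem FunOn.eval (hD : GDom e D) {f : Nam P} {p : P} (hf : FunOn f D p) (i : I) {q : P}
    (hq : q ≤ p) : ∃ r ≤ q, ∃ b, fmem (opair (e i) b) f r :=
  hf.total (e i) q hq (hD.self _ _) q le_rfl

/-- A pair in a function on a ground set. -/
theorem FunOn.dom (hD : GDom e D) {f : Nam P} {p : P} (hf : FunOn f D p) {a b : Nam P} {q : P}
    (hq : q ≤ p) (h : fmem (opair a b) f q) : ∃ r ≤ q, ∃ i, feq a (e i) r := by
  obtain ⟨r, hr, a', b', ha', hab⟩ := hf.pairs _ q hq h q le_rfl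
  obtain ⟨s, hs, i, hi⟩ := (hD.mem _ _).1 ha' r le_rfl
  exact ⟨s, hs.trans hr, i, feq_trans (feq_mono hs (opair_inj hab).1) hi⟩

end General

section Finite

variable {P : Type} [Preorder P]

/-- The name of the function `g` restricted to `k`. -/
def fN (k : ℕ) (g : ℕ → ℕ) : Nam P :=
  tabN (fun i : Fin k => Nam.fin i) fun i : Fin k => Nam.fin (g i)

theorem fN_funOn (k : ℕ) (g : ℕ → ℕ) (p : P) : FunOn (fN k g : Nam P) (Nam.fin k) p :=
  tabN_funOn (gdom_fin k) _ p

theorem fN_func {k j : ℕ} {g : ℕ → ℕ} (hg : ∀ i < k, g i < j) (p : P) :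
    Func (fN k g : Nam P) (Nam.fin k) (Nam.fin j) p := by
  refine ⟨fN_funOn k g p, fun a b q hq h => fmem_reg fun r hr => ?_⟩
  obtain ⟨s, hs, i, hi⟩ := mem_tabN.1 h r hr
  obtain ⟨-, h2⟩ := opair_inj hi
  exact ⟨s, hs, fmem_congr_left (feq_symm h2) (fin_mem_fin (hg i i.2) s)⟩

theorem pair_mem_fN {k : ℕ} {g : ℕ → ℕ} {i : ℕ} (hi : i < k) {c : Nam P} {p : P} :
    fmem (opair (Nam.fin i) c) (fN k g) p ↔ feq c (Nam.fin (g i)) p :=
  pair_mem_tabN (gdom_fin k) (i := ⟨i, hi⟩)

theorem fN_inj {k k' : ℕ} {g g' : ℕ → ℕ} {p : P} (h : feq (fN k g : Nam P) (fN k' g') p) :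
    k = k' ∧ ∀ i < k, g i = g' i := by
  have key : ∀ {k k' : ℕ} {g g' : ℕ → ℕ} {p : P}, feq (fN k g : Nam P) (fN k' g') p →
      ∀ i < k, i < k' ∧ g i = g' i := by
    intro k k' g g' p h i hi
    have h1 : fmem (opair (Nam.fin i) (Nam.fin (g i))) (fN k' g') p :=
      fmem_congr_right h ((pair_mem_fN hi).2 (feq_refl _ _))
    obtain ⟨r, hr, j, hj⟩ := mem_tabN.1 h1 p le_rfl
    obtain ⟨h2, h3⟩ := opair_inj hj
    have h4 := fin_inj h2
    have h5 := fin_inj h3
    refine ⟨h4 ▸ j.2, ?_⟩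
    rw [h5, h4]
  have h1 := key h
  have h2 := key (feq_symm h)
  refine ⟨?_, fun i hi => (h1 i hi).2⟩
  rcases lt_trichotomy k k' with h3 | h3 | h3
  · exact absurd (h2 k h3).1 (lt_irrefl _)
  · exact h3
  · exact absurd (h1 k' h3).1 (lt_irrefl _)

/-- A function between natural numbers is decided densely often. -/
theorem Func.decide {s : Nam P} {k j : ℕ} {p : P} (h : Func s (Nam.fin k) (Nam.fin j) p) :
    DB (fun q => ∃ g : ℕ → ℕ, (∀ i < k, g i < j) ∧ feq s (fN k g) q) p := by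
  have key : ∀ m ≤ k, ∀ q ≤ p, ∃ r ≤ q, ∃ g : ℕ → ℕ, ∀ i < m, g i < j ∧
      fmem (opair (Nam.fin i) (Nam.fin (g i))) s r := by
    intro m
    induction m with
    | zero => exact fun _ q _ => ⟨q, le_rfl, fun _ => 0, fun i hi => absurd hi (Nat.not_lt_zero i)⟩
    | succ m ih =>
      intro hm q hq
      obtain ⟨r, hr, g, hg⟩ := ih (by omega) q hq
      obtain ⟨t, ht, b, hb⟩ := h.toFunOn.eval (gdom_fin k) ⟨m, hm⟩ (hr.trans hq)
      have hb1 := h.val _ _ t (ht.trans (hr.trans hq)) hb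
      obtain ⟨t', ht', c, hc, hc'⟩ := fmem_fin.1 hb1 t le_rfl
      refine ⟨t', ht'.trans (ht.trans hr), Function.update g m c, fun i hi => ?_⟩
      rcases Nat.lt_succ_iff_lt_or_eq.1 hi with hi | rfl
      · rw [Function.update_of_ne (by omega)]
        exact ⟨(hg i hi).1, fmem_mono (ht'.trans ht) (hg i hi).2⟩
      · rw [Function.update_self]
        exact ⟨hc, fmem_congr_left (feq_opair (feq_refl _ _) hc') (fmem_mono ht' hb)⟩
  intro q hq
  obtain ⟨r, hr, g, hg⟩ := key k le_rfl q hq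
  refine ⟨r, hr, g, fun i hi => (hg i hi).1, ?_⟩
  refine FunOn.ext (gdom_fin k) ((FunOn.reg' _ _).mono (hr.trans hq) h.toFunOn) (fN_funOn k g r)
    fun i q' hq' => ⟨q', le_rfl, Nam.fin (g i), fmem_mono hq' (hg i i.2).2, ?_⟩
  exact (pair_mem_fN i.2).2 (feq_refl _ _)

/-- The extension of a function between finite sets. -/
def extF {k j : ℕ} (h : Fin k → Fin j) (a : ℕ) : ℕ := if ha : a < k then (h ⟨a, ha⟩ : ℕ) else 0

theorem extF_eq {k j : ℕ} (h : Fin k → Fin j) (a : Fin k) : extF h a = h a := by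
  simp [extF]

theorem extF_lt {k j : ℕ} (h : Fin k → Fin j) {a : ℕ} (ha : a < k) : extF h a < j := by
  simp [extF, ha]

theorem extF_inj {k j : ℕ} {h h' : Fin k → Fin j} (hh : ∀ a < k, extF h a = extF h' a) :
    h = h' := by
  funext a
  have h1 := hh a a.2
  rw [extF_eq, extF_eq] at h1
  exact Fin.ext h1

/-- `p` forces `m = i ^ k`. -/
theorem forces_fPow {v : ℕ → Nam P} {p : P} {w i k m : ℕ} {i₀ k₀ : ℕ} (hw : v w = Nam.omega)
    (hi : feq (v i) (Nam.fin i₀) p) (hk : feq (v k) (Nam.fin k₀) p) :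
    (fPow w i k m).Forces v p ↔ feq (v m) (Nam.fin (i₀ ^ k₀)) p := by
  unfold fPow fBij
  simp only [SetFormula.Forces, forces_ex', forces_iff, forces_imp, forces_fFunc, forces_fHas,
    push_succ', push_zero', hw]
  constructor
  · rintro ⟨hm, h⟩
    refine feq_reg fun q hq => ?_
    obtain ⟨q1, hq1, m₀, hm₀⟩ := fmem_omega.1 hm q hq
    obtain ⟨q2, hq2, F, hF⟩ := h q1 (hq1.trans hq)
    obtain ⟨q3, hq3, b, hb1, hb2, hb3, hb4⟩ := hF q2 le_rfl
    have hq3p : q3 ≤ p := hq3.trans (hq2.trans (hq1.trans hq))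
    have hFi : ∀ g, ∀ r ≤ q3, fmem g F r ↔ Func g (Nam.fin k₀) (Nam.fin i₀) r := by
      intro g r hr
      rw [hb1 g r hr]
      exact ⟨Func.congr (feq_refl _ _) (feq_mono (hr.trans hq3p) hk)
        (feq_mono (hr.trans hq3p) hi), Func.congr (feq_refl _ _)
        (feq_symm (feq_mono (hr.trans hq3p) hk)) (feq_symm (feq_mono (hr.trans hq3p) hi))⟩
    have hm3 : feq (v m) (Nam.fin m₀) q3 := feq_mono (hq3.trans hq2) hm₀
    have hbf : Func b (Nam.fin m₀) F q3 := Func.congr (feq_refl _ _) hm3 (feq_refl _ _) hb2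
    -- decide `b`
    have key : ∀ l ≤ m₀, ∀ q ≤ q3, ∃ r ≤ q, ∃ G : ℕ → ℕ → ℕ, ∀ i < l, (∀ a < k₀, G i a < i₀) ∧
        fmem (opair (Nam.fin i) (fN k₀ (G i))) b r := by
      intro l
      induction l with
      | zero =>
        exact fun _ q _ => ⟨q, le_rfl, fun _ _ => 0, fun i hi => absurd hi (Nat.not_lt_zero i)⟩
      | succ l ih =>
        intro hl q hq
        obtain ⟨r, hr, G, hG⟩ := ih (by omega) q hq
        obtain ⟨t, ht, c, hc⟩ := hbf.toFunOn.eval (gdom_fin m₀) ⟨l, hl⟩ (hr.trans hq)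
        have htq : t ≤ q3 := ht.trans (hr.trans hq)
        have hc1 := (hFi c t htq).1 (hbf.val _ _ t htq hc)
        obtain ⟨t', ht', g, hg, hg'⟩ := hc1.decide t le_rfl
        refine ⟨t', ht'.trans (ht.trans hr), Function.update G l g, fun i hi => ?_⟩
        rcases Nat.lt_succ_iff_lt_or_eq.1 hi with hi | rfl
        · rw [Function.update_of_ne (by omega)]
          exact ⟨(hG i hi).1, fmem_mono (ht'.trans ht) (hG i hi).2⟩
        · rw [Function.update_self]
          exact ⟨hg, fmem_congr_left (feq_opair (feq_refl _ _) hg') (fmem_mono ht' hc)⟩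
    obtain ⟨r, hr, G, hG⟩ := key m₀ le_rfl q3 le_rfl
    have hcard : m₀ = i₀ ^ k₀ := by
      let Φ : Fin m₀ → (Fin k₀ → Fin i₀) := fun i a => ⟨G i a, (hG i i.2).1 a a.2⟩
      have hΦ : Function.Bijective Φ := by
        constructor
        · intro i i' hii
          have h1 : feq (fN k₀ (G i) : Nam P) (fN k₀ (G i')) r := by
            refine FunOn.ext (gdom_fin k₀) (fN_funOn _ _ _) (fN_funOn _ _ _) fun a s _ =>
              ⟨s, le_rfl, Nam.fin (G i a), (pair_mem_fN a.2).2 (feq_refl _ _),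
                (pair_mem_fN a.2).2 ?_⟩
            have h2 : G i a = G i' a := by
              have := congrFun hii a
              exact congrArg Fin.val this
            rw [h2]
            exact feq_refl _ _
          have h2 := hb3 _ _ _ r hr (fmem_congr_left (feq_opair (feq_refl _ _) h1)
            (hG i i.2).2) r le_rfl (hG i' i'.2).2
          exact Fin.ext (fin_inj h2)
        · intro h
          have h1 : fmem (fN k₀ (extF h)) F r := (hFi _ r hr).2
            (fN_func (fun a ha => extF_lt h ha) r)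
          obtain ⟨s, hs, a, ha⟩ := hb4 _ r hr h1 r le_rfl
          obtain ⟨t, ht, i, hi⟩ := hbf.toFunOn.dom (gdom_fin m₀) (hs.trans hr) ha
          refine ⟨i, ?_⟩
          have h2 : fmem (opair (Nam.fin i) (fN k₀ (extF h))) b t :=
            fmem_congr_left (feq_opair hi (feq_refl _ _)) (fmem_mono ht ha)
          have h3 := hbf.func _ _ _ t (ht.trans (hs.trans hr)) h2
            (fmem_mono (ht.trans hs) (hG i i.2).2)
          have h4 := (fN_inj h3).2
          funext a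
          refine Fin.ext ?_
          change G i a = h a
          rw [← h4 a a.2, extF_eq]
      have := Fintype.card_of_bijective hΦ
      simpa using this
    refine ⟨q3, hq3.trans (hq2.trans hq1), ?_⟩
    rw [← hcard]
    exact hm3
  · intro h
    refine ⟨fmem_congr_left (feq_symm h) (fmem_omega_fin _ _), fun q hq => ⟨q, le_rfl,
      ⟨Fin k₀ → Fin i₀, fun _ => ⊤, fun g => fN k₀ (extF g)⟩, fun r hr => ⟨r, le_rfl,
        tabN (fun i : Fin (i₀ ^ k₀) => Nam.fin i) fun i => fN k₀ (extF (finFunctionFinEquiv.symm i)),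
        ?_, ?_, ?_, ?_⟩⟩⟩
    · intro g s hs
      have hsp : s ≤ p := hs.trans (hr.trans hq)
      constructor
      · intro hg
        refine (Func.reg' _ _ _).reg fun t ht => ?_
        obtain ⟨t', ht', g', -, hg'⟩ := hg t ht
        refine ⟨t', ht', Func.congr (feq_symm hg') (feq_symm (feq_mono (ht'.trans (ht.trans hsp)) hk))
          (feq_symm (feq_mono (ht'.trans (ht.trans hsp)) hi)) (fN_func (fun a ha => extF_lt g' ha) t')⟩
      · intro hg t ht
        have h1 : Func g (Nam.fin k₀) (Nam.fin i₀) t := Func.congr (feq_refl _ _)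
          (feq_mono (ht.trans hsp) hk) (feq_mono (ht.trans hsp) hi) ((Func.reg' _ _ _).mono ht hg)
        obtain ⟨t', ht', g', hg', hgg⟩ := h1.decide t le_rfl
        refine ⟨t', ht', fun a => ⟨g' a, hg' a a.2⟩, trivial, feq_trans hgg ?_⟩
        refine FunOn.ext (gdom_fin k₀) (fN_funOn _ _ _) (fN_funOn _ _ _) fun a s _ =>
          ⟨s, le_rfl, Nam.fin (g' a), (pair_mem_fN a.2).2 (feq_refl _ _),
            (pair_mem_fN a.2).2 ?_⟩
        rw [extF_eq]
        exact feq_refl _ _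
    · refine Func.congr (feq_refl _ _) (feq_symm (feq_mono (hr.trans hq) h)) (feq_refl _ _) ?_
      refine ⟨tabN_funOn (gdom_fin _) _ _, fun a b s hs hab => fmem_reg fun t ht => ?_⟩
      obtain ⟨t', ht', i, hi⟩ := mem_tabN.1 hab t ht
      obtain ⟨-, h2⟩ := opair_inj hi
      exact ⟨t', ht', fmem_congr_left (feq_symm h2) (fun s _ => ⟨s, le_rfl, _, trivial,
        feq_refl _ _⟩)⟩
    · intro a a' c s hs h1 t ht h2
      refine feq_reg fun t1 ht1 => ?_
      obtain ⟨t2, ht2, i, hi⟩ := mem_tabN.1 h1 t1 (ht1.trans ht)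
      obtain ⟨t3, ht3, i', hi'⟩ := mem_tabN.1 h2 t2 (ht2.trans ht1)
      obtain ⟨h3, h4⟩ := opair_inj hi
      obtain ⟨h5, h6⟩ := opair_inj hi'
      have h7 := (fN_inj (feq_trans (feq_symm (feq_mono ht3 h4)) h6)).2
      have h8 := finFunctionFinEquiv.symm.injective (extF_inj h7)
      subst h8
      exact ⟨t3, ht3.trans ht2, feq_trans (feq_mono ht3 h3) (feq_symm h5)⟩
    · intro c s hs hc t ht
      obtain ⟨t1, ht1, (g : Fin k₀ → Fin i₀), -, (hg : feq c (fN k₀ (extF g)) t1)⟩ := hc t ht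
      refine ⟨t1, ht1, Nam.fin (finFunctionFinEquiv g : Fin _), ?_⟩
      have h1 := (pair_mem_tabN (gdom_fin (P := P) (i₀ ^ k₀))
        (b := fun i => fN k₀ (extF (finFunctionFinEquiv.symm i)))
        (i := finFunctionFinEquiv g) (c := c) (p := t1)).2
      refine h1 ?_
      rw [Equiv.symm_apply_apply]
      exact hg

end Finite

end MP958.Z

end

section

/-!
# Names of reals, finite binary sequences and sequences of them
-/


namespace MP958.Z

open MP9708F

variable {P : Type} [Preorder P]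

/-- A bit as a natural number. -/
def b2n : Bool → ℕ
  | true => 1
  | false => 0

theorem b2n_inj {b b' : Bool} (h : b2n b = b2n b') : b = b' := by
  cases b <;> cases b' <;> simp_all [b2n]

theorem b2n_lt (b : Bool) : b2n b < 2 := by cases b <;> simp [b2n]

theorem exists_b2n {n : ℕ} (h : n < 2) : ∃ b, b2n b = n := by
  interval_cases n
  · exact ⟨false, rfl⟩
  · exact ⟨true, rfl⟩

/-- The name of a finite binary sequence. -/
def strN (l : List Bool) : Nam P := fN l.length fun i => b2n (l.getD i false)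

theorem strN_inj {l l' : List Bool} {p : P} (h : feq (strN l : Nam P) (strN l') p) : l = l' := by
  obtain ⟨h1, h2⟩ := fN_inj h
  refine List.ext_getElem h1 fun i hi hi' => ?_
  have h3 := b2n_inj (h2 i hi)
  rwa [List.getD_eq_getElem _ _ hi, List.getD_eq_getElem _ _ hi'] at h3

theorem strN_func (l : List Bool) (p : P) :
    Func (strN l : Nam P) (Nam.fin l.length) (Nam.fin 2) p :=
  fN_func (fun _ _ => b2n_lt _) p

theorem pair_mem_strN {l : List Bool} {i : ℕ} (hi : i < l.length) {c : Nam P} {p : P} :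
    fmem (opair (Nam.fin i) c) (strN l) p ↔ feq c (Nam.fin (b2n l[i])) p := by
  unfold strN
  rw [pair_mem_fN hi, List.getD_eq_getElem _ _ hi]

theorem mem_strN {l : List Bool} {z : Nam P} {p : P} : fmem z (strN l) p ↔
    DB (fun q => ∃ i, ∃ h : i < l.length,
      feq z (opair (Nam.fin i) (Nam.fin (b2n l[i]))) q) p := by
  unfold strN fN
  rw [mem_tabN]
  constructor
  · refine DB.imp fun q _ => ?_
    rintro ⟨i, hi⟩
    refine ⟨i, i.2, ?_⟩
    have h3 := List.getD_eq_getElem l false i.2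
    simp only [h3] at hi
    exact hi
  · refine DB.imp fun q _ => ?_
    rintro ⟨i, h, hi⟩
    refine ⟨⟨i, h⟩, ?_⟩
    have h3 := List.getD_eq_getElem l false h
    simp only [h3]
    exact hi

/-- Finite binary sequences are decided densely often. -/
theorem forces_fStr {v : ℕ → Nam P} {p : P} {w s n : ℕ} (hw : v w = Nam.omega) :
    (fStr w s n).Forces v p ↔
      DB (fun q => ∃ l : List Bool, feq (v s) (strN l) q ∧ feq (v n) (Nam.fin l.length) q) p := by
  unfold fStr
  simp only [SetFormula.Forces, forces_ex', forces_fTwo, forces_fFunc, push_succ', push_zero', hw]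
  constructor
  · rintro ⟨h1, h2⟩ q hq
    obtain ⟨r, hr, k, hk⟩ := fmem_omega.1 h1 q hq
    obtain ⟨t, ht, c, hc, hs⟩ := h2 r (hr.trans hq)
    have h3 : Func (v s) (Nam.fin k) (Nam.fin 2) t :=
      Func.congr (feq_refl _ _) (feq_mono ht hk) hc hs
    obtain ⟨t', ht', g, hg, hg'⟩ := h3.decide t le_rfl
    choose b hb using fun i : Fin k => exists_b2n (hg i i.2)
    refine ⟨t', ht'.trans (ht.trans hr), List.ofFn b, feq_trans hg' ?_, ?_⟩
    · have h4 : (strN (List.ofFn b) : Nam P) = fN k fun i => b2n ((List.ofFn b).getD i false) := by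
        unfold strN
        rw [List.length_ofFn]
      rw [h4]
      refine FunOn.ext (gdom_fin k) (fN_funOn _ _ _) (fN_funOn _ _ _) fun a s _ =>
          ⟨s, le_rfl, Nam.fin (g a), (pair_mem_fN a.2).2 (feq_refl _ _),
            (pair_mem_fN a.2).2 ?_⟩
      rw [List.getD_eq_getElem _ _ (by rw [List.length_ofFn]; exact a.2), List.getElem_ofFn,
        hb]
      exact feq_refl _ _
    · rw [List.length_ofFn]
      exact feq_mono (ht'.trans ht) hk
  · intro h
    refine ⟨fmem_reg fun q hq => ?_, fun q hq => ?_⟩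
    · obtain ⟨r, hr, l, -, hl⟩ := h q hq
      exact ⟨r, hr, fmem_congr_left (feq_symm hl) (fmem_omega_fin _ _)⟩
    · obtain ⟨r, hr, l, hl, hl'⟩ := h q hq
      exact ⟨r, hr, Nam.fin 2, feq_refl _ _, Func.congr (feq_symm hl) (feq_symm hl')
        (feq_refl _ _) (strN_func l r)⟩

theorem forces_fReal {v : ℕ → Nam P} {p : P} {w x : ℕ} (hw : v w = Nam.omega) :
    (fReal w x).Forces v p ↔ Func (v x) Nam.omega (Nam.fin 2) p := by
  unfold fReal
  simp only [SetFormula.Forces, forces_ex', forces_fTwo, forces_fFunc, push_succ', push_zero', hw]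
  constructor
  · intro h
    refine (Func.reg' _ _ _).reg fun q hq => ?_
    obtain ⟨r, hr, c, hc, hs⟩ := h q hq
    exact ⟨r, hr, Func.congr (feq_refl _ _) (feq_refl _ _) hc hs⟩
  · intro h q hq
    exact ⟨q, le_rfl, Nam.fin 2, feq_refl _ _, (Func.reg' _ _ _).mono hq h⟩

/-- `p` forces `σ` to be a sequence of finite binary sequences. -/
structure SSeq (σ : Nam P) (p : P) : Prop extends FunOn σ Nam.omega p where
  str : ∀ i s, ∀ q ≤ p, fmem (opair i s) σ q → DB (fun r => ∃ l : List Bool, feq s (strN l) r) q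

theorem forces_fStrSeq {v : ℕ → Nam P} {p : P} {w σ : ℕ} (hw : v w = Nam.omega) :
    (fStrSeq w σ).Forces v p ↔ SSeq (v σ) p := by
  unfold fStrSeq
  simp only [SetFormula.Forces, forces_ex', forces_imp, forces_fFunOn, forces_fHas, push_succ',
    push_zero']
  have hstr : ∀ (n s i : Nam P) (q : P), (fStr (w + 3) 1 0).Forces (push n (push s (push i v))) q ↔
      DB (fun r => ∃ l : List Bool, feq s (strN l) r ∧ feq n (Nam.fin l.length) r) q :=
    fun n s i q => forces_fStr hw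
  simp only [hstr, hw]
  constructor
  · rintro ⟨h1, h2⟩
    refine ⟨h1, fun i s q hq his => ?_⟩
    intro r hr
    obtain ⟨t, ht, n, hn⟩ := h2 i s q hq his r hr
    obtain ⟨t', ht', l, hl, -⟩ := hn t le_rfl
    exact ⟨t', ht'.trans ht, l, hl⟩
  · rintro ⟨h1, h2⟩
    refine ⟨h1, fun i s q hq his r hr => ?_⟩
    obtain ⟨t, ht, l, hl⟩ := h2 i s q hq his r hr
    exact ⟨t, ht, Nam.fin l.length, fun t' ht' => ⟨t', le_rfl, l, feq_mono ht' hl, feq_refl _ _⟩⟩

theorem SSeq.reg' (σ : Nam P) : Reg (SSeq σ) := by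
  have h : SSeq σ = (fStrSeq 0 1).Forces (push Nam.omega fun _ => σ) := by
    funext p
    exact propext (forces_fStrSeq (v := push Nam.omega fun _ => σ) (w := 0) (σ := 1) rfl).symm
  rw [h]
  exact SetFormula.forces_reg _ _

/-- The name in the sense of the combinatorial part given by a name of a sequence. -/
def decS (σ : Nam P) (p₀ : P) (j : ℕ) (l : List Bool) (q : P) : Prop :=
  q ≤ p₀ ∧ fmem (opair (Nam.fin j) (strN l)) σ q

theorem SSeq.rname {σ : Nam P} {p : P} (h : SSeq σ p) : RNameBelow p (decS σ p) := by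
  refine ⟨fun j w q r hr hq => ⟨hr.trans hq.1, fmem_mono hr hq.2⟩, fun j w w' q hq hq' => ?_,
    fun j q hq => ?_⟩
  · exact strN_inj (h.func _ _ _ q hq.1 hq.2 hq'.2)
  · obtain ⟨r, hr, b, hb⟩ := h.toFunOn.eval gdom_omega j hq
    obtain ⟨t, ht, l, hl⟩ := h.str _ _ r (hr.trans hq) hb r le_rfl
    exact ⟨t, ht.trans hr, l, (ht.trans hr).trans hq, fmem_congr_left
      (feq_opair (feq_refl _ _) hl) (fmem_mono ht hb)⟩

/-- The name of the sequence with decisions `τ`. -/
def seqN (τ : ℕ → List Bool → P → Prop) (hτ : ∀ j w p q, q ≤ p → τ j w p → τ j w q) : Nam P :=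
  famN (κ := ℕ × List Bool) (fun n : ℕ => Nam.fin n) Prod.fst
    (fun k => ⟨{q | τ k.1 k.2 q}, fun _ _ h h' => hτ _ _ _ _ h h'⟩) fun k => strN k.2

theorem pair_mem_seqN {τ : ℕ → List Bool → P → Prop}
    {hτ : ∀ j w p q, q ≤ p → τ j w p → τ j w q} {j : ℕ} {c : Nam P} {p : P} :
    fmem (opair (Nam.fin j) c) (seqN τ hτ) p ↔
      DB (fun q => ∃ l, τ j l q ∧ feq c (strN l) q) p := by
  unfold seqN
  rw [pair_mem_famN gdom_omega]
  constructor
  · refine DB.imp fun q _ => ?_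
    rintro ⟨⟨j', l⟩, rfl, h1, h2⟩
    exact ⟨l, h1, h2⟩
  · refine DB.imp fun q _ => ?_
    rintro ⟨l, h1, h2⟩
    exact ⟨⟨j, l⟩, rfl, h1, h2⟩

theorem seqN_sseq {τ : ℕ → List Bool → P → Prop} {p : P} (h : RNameBelow p τ) :
    SSeq (seqN τ h.mono) p := by
  have h1 : FunOn (seqN τ h.mono) Nam.omega p := by
    refine famN_funOn gdom_omega (fun i q hq => ?_) ?_
    · obtain ⟨r, hr, l, hl⟩ := h.total i q hq
      exact ⟨r, hr, (i, l), rfl, hl⟩
    · rintro ⟨j, l⟩ ⟨j', l'⟩ hjj q _ hk hk'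
      obtain rfl : j = j' := hjj
      obtain rfl : l = l' := h.func _ _ _ _ hk hk'
      exact feq_refl _ _
  refine ⟨h1, fun i s q hq his r hr => ?_⟩
  obtain ⟨t, ht, ⟨j, l⟩, -, hjl⟩ := mem_famN.1 his r hr
  exact ⟨t, ht, l, (opair_inj hjl).2⟩

/-- The name of a function from `ℕ` to `ℕ`. -/
def fnN (g : ℕ → ℕ) : Nam P := tabN (fun n : ℕ => Nam.fin n) fun n => Nam.fin (g n)

theorem fin_sub_fin {a b : ℕ} (h : a ≤ b) {z : Nam P} {p : P} (hz : fmem z (Nam.fin a) p) :
    fmem z (Nam.fin b) p :=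
  fmem_fin.2 (DB.imp (fun _ _ ⟨m, hm, h'⟩ => ⟨m, hm.trans_le h, h'⟩) (fmem_fin.1 hz))

theorem le_of_fin_sub {a b : ℕ} {p : P}
    (h : ∀ z, ∀ q ≤ p, fmem z (Nam.fin a) q → fmem z (Nam.fin b : Nam P) q) : a ≤ b := by
  by_contra hab
  push Not at hab
  exact not_fmem_self _ p (h _ p le_rfl (fin_mem_fin hab p))

/-- `p` forces `f ≪ ht_σ`. -/
theorem forces_fGrows {v : ℕ → Nam P} {p : P} {w f σ : ℕ} {g : ℕ → ℕ} (hw : v w = Nam.omega)
    (hf : feq (v f) (fnN g) p) :
    (fGrows w f σ).Forces v p ↔ ∀ k, ∀ q ≤ p, ∃ r ≤ q, ∃ N, ∀ j, N ≤ j → ∀ l : List Bool, ∀ s ≤ r,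
      fmem (opair (Nam.fin j) (strN l)) (v σ) s → g (j ^ k) ≤ l.length := by
  unfold fGrows
  simp only [SetFormula.Forces, forces_ex', forces_imp, forces_fSub, forces_fHas, push_succ',
    push_zero', hw]
  constructor
  · intro h k q hq
    obtain ⟨r, hr, N, hN, h1⟩ := h (Nam.fin k) q hq (fmem_omega_fin k q) q le_rfl
    obtain ⟨r', hr', N₀, hN₀⟩ := fmem_omega.1 hN r le_rfl
    refine ⟨r', hr'.trans hr, N₀, fun j hj l s hs hsσ => ?_⟩
    refine le_of_fin_sub (P := P) (p := s) fun z t ht hz => ?_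
    refine h1 (Nam.fin j) s (hs.trans hr') (fmem_omega_fin j s) s le_rfl ?_ (Nam.fin (j ^ k))
      (Nam.fin (g (j ^ k))) (strN l) (Nam.fin l.length) s le_rfl ?_ s le_rfl ?_ s le_rfl ?_ s
      le_rfl ?_ z t ht hz
    · intro z t ht hz
      exact fin_sub_fin hj (fmem_congr_right (feq_mono (ht.trans hs) hN₀) hz)
    · refine (forces_fPow (i₀ := j) (k₀ := k) ?_ ?_ ?_).2 ?_
      · exact hw
      · exact feq_refl _ _
      · exact feq_refl _ _
      · exact feq_refl _ _
    · exact fmem_congr_right (feq_symm (feq_mono (hs.trans (hr'.trans (hr.trans hq))) hf))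
        ((pair_mem_tabN gdom_omega).2 (feq_refl _ _))
    · exact hsσ
    · refine (forces_fStr ?_).2 fun t _ => ⟨t, le_rfl, l, feq_refl _ _, feq_refl _ _⟩
      exact hw
  · intro h k q hq hk q' hq'
    obtain ⟨q0, hq0, k₀, hk₀⟩ := fmem_omega.1 hk q' hq'
    obtain ⟨r, hr, N, hN⟩ := h k₀ q0 (hq0.trans (hq'.trans hq))
    refine ⟨r, hr.trans hq0, Nam.fin N, fmem_omega_fin N r, ?_⟩
    intro i q1 hq1 hi q2 hq2 hsub m a s l q3 hq3 hpow q4 hq4 hma q5 hq5 his q6 hq6 hstr z q7 hq7 hz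
    refine fmem_reg fun t ht => ?_
    have h52 : t ≤ q2 := ht.trans (hq7.trans (hq6.trans (hq5.trans (hq4.trans hq3))))
    have htr : t ≤ r := h52.trans (hq2.trans hq1)
    have htp : t ≤ p := htr.trans (hr.trans (hq0.trans (hq'.trans hq)))
    obtain ⟨t1, ht1, i₀, hi₀⟩ := fmem_omega.1 hi t (h52.trans hq2)
    have hkt : feq k (Nam.fin k₀) t1 := feq_mono (ht1.trans (htr.trans hr)) hk₀
    have h7 : feq m (Nam.fin (i₀ ^ k₀)) t1 := by
      refine (forces_fPow (v := push l (push s (push a (push m (push i (push (Nam.fin N)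
        (push k v))))))) (w := w + 7) (i := 4) (k := 6) (m := 3) ?_ ?_ ?_).1
          (SetFormula.forces_mono _ _ (ht1.trans (ht.trans (hq7.trans (hq6.trans (hq5.trans hq4)))))
            hpow)
      · exact hw
      · exact hi₀
      · exact hkt
    have h8 : feq a (Nam.fin (g (i₀ ^ k₀))) t1 := by
      refine (pair_mem_tabN gdom_omega (b := fun n => Nam.fin (g n))).1 ?_
      refine fmem_congr (feq_opair h7 (feq_refl _ _)) (feq_mono (ht1.trans htp) hf) ?_
      exact fmem_mono (ht1.trans (ht.trans (hq7.trans (hq6.trans hq5)))) hma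
    obtain ⟨t2, ht2, l₀, hsl, hll⟩ := (forces_fStr (v := push l (push s (push a (push m (push i
      (push (Nam.fin N) (push k v))))))) (w := w + 7) (s := 1) (n := 0) (by exact hw)).1 hstr t1
      (ht1.trans (ht.trans hq7))
    have hsl' : feq s (strN l₀) t2 := hsl
    have hll' : feq l (Nam.fin l₀.length) t2 := hll
    have h9 : N ≤ i₀ := by
      refine le_of_fin_sub (P := P) (p := t2) fun z s hs hz => ?_
      exact fmem_congr_right (feq_mono (hs.trans ht2) hi₀)
        (hsub z s (hs.trans (ht2.trans (ht1.trans h52))) hz)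
    have h10 := hN i₀ h9 l₀ t2 (ht2.trans (ht1.trans htr)) (fmem_congr_left
      (feq_opair (feq_mono ht2 hi₀) hsl') (fmem_mono (ht2.trans (ht1.trans (ht.trans (hq7.trans
        hq6)))) his))
    refine ⟨t2, ht2.trans ht1, fmem_congr_right (feq_symm hll') (fin_sub_fin h10 ?_)⟩
    exact fmem_congr_right (feq_mono ht2 h8) (fmem_mono (ht2.trans (ht1.trans ht)) hz)

/-- `p` forces `w` to be an initial segment of `x`. -/
theorem strN_sub {l : List Bool} {x : Nam P} {p : P} :
    (∀ z, ∀ q ≤ p, fmem z (strN l) q → fmem z x q) ↔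
      ∀ i (h : i < l.length), fmem (opair (Nam.fin i) (Nam.fin (b2n l[i]))) x p := by
  constructor
  · intro h i hi
    exact h _ p le_rfl ((pair_mem_strN hi).2 (feq_refl _ _))
  · intro h z q hq hz
    refine fmem_reg fun r hr => ?_
    obtain ⟨s, hs, i, hi, hzi⟩ := mem_strN.1 hz r hr
    exact ⟨s, hs, fmem_congr_left (feq_symm hzi) (fmem_mono (hs.trans (hr.trans hq)) (h i hi))⟩

/-- `p` forces `x ∈ [σ]_∞`, for a name `x` of a real. -/
def InL (σ x : Nam P) (p : P) : Prop :=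
  ∀ N, ∀ q ≤ p, ∃ r ≤ q, ∃ j, N ≤ j ∧ ∃ l : List Bool, fmem (opair (Nam.fin j) (strN l)) σ r ∧
    ∀ i (h : i < l.length), fmem (opair (Nam.fin i) (Nam.fin (b2n l[i]))) x r

theorem forces_fLim {v : ℕ → Nam P} {p : P} {w σ x : ℕ} (hw : v w = Nam.omega)
    (hσ : SSeq (v σ) p) :
    (fLim w σ x).Forces v p ↔ Func (v x) Nam.omega (Nam.fin 2) p ∧ InL (v σ) (v x) p := by
  unfold fLim
  simp only [SetFormula.Forces, forces_ex', forces_imp, forces_fSub, forces_fHas, push_succ',
    push_zero', hw]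
  rw [forces_fReal hw]
  refine and_congr_right fun hx => ?_
  constructor
  · intro h N q hq
    obtain ⟨r, hr, i, hi⟩ := h (Nam.fin N) q hq (fmem_omega_fin N q) q le_rfl
    obtain ⟨r1, hr1, s, hs, hsub, his, hsx⟩ := hi r le_rfl
    obtain ⟨r2, hr2, j, hj⟩ := fmem_omega.1 hs r1 le_rfl
    have hr1p : r1 ≤ p := hr1.trans (hr.trans hq)
    obtain ⟨r3, hr3, l, hl⟩ := hσ.str _ _ r1 hr1p his r2 hr2
    refine ⟨r3, hr3.trans (hr2.trans (hr1.trans hr)), j, ?_, l, ?_, ?_⟩
    · refine le_of_fin_sub (P := P) (p := r3) fun z t ht hz => ?_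
      exact fmem_congr_right (feq_mono (ht.trans hr3) hj)
        (hsub z t (ht.trans (hr3.trans hr2)) hz)
    · exact fmem_congr_left (feq_opair (feq_mono hr3 hj) hl) (fmem_mono (hr3.trans hr2) his)
    · refine strN_sub.1 fun z t ht hz => ?_
      exact hsx z t (ht.trans (hr3.trans hr2)) (fmem_congr_right (feq_symm (feq_mono ht hl)) hz)
  · intro h N q hq hN q' hq'
    obtain ⟨q0, hq0, N₀, hN₀⟩ := fmem_omega.1 hN q' hq'
    obtain ⟨r, hr, j, hj, l, hl, hlx⟩ := h N₀ q0 (hq0.trans (hq'.trans hq))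
    refine ⟨r, hr.trans hq0, Nam.fin j, fun r' hr' => ⟨r', le_rfl, strN l, fmem_omega_fin j r',
      ?_, fmem_mono hr' hl, ?_⟩⟩
    · intro z t ht hz
      exact fin_sub_fin hj (fmem_congr_right (feq_mono (ht.trans (hr'.trans hr)) hN₀) hz)
    · refine strN_sub.2 fun i hi => fmem_mono hr' (hlx i hi)

/-- The name in the sense of the combinatorial part given by a name of a real. -/
def decR (x : Nam P) (p₀ : P) (i : ℕ) (b : Bool) (q : P) : Prop :=
  q ≤ p₀ ∧ fmem (opair (Nam.fin i) (Nam.fin (b2n b))) x q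

/-- The name of the real with decisions `z`. -/
def realN (z : ℕ → Bool → P → Prop) (hz : ∀ i b p q, q ≤ p → z i b p → z i b q) : Nam P :=
  famN (κ := ℕ × Bool) (fun n : ℕ => Nam.fin n) Prod.fst
    (fun k => ⟨{q | z k.1 k.2 q}, fun _ _ h h' => hz _ _ _ _ h h'⟩) fun k => Nam.fin (b2n k.2)

theorem pair_mem_realN {z : ℕ → Bool → P → Prop}
    {hz : ∀ i b p q, q ≤ p → z i b p → z i b q} {j : ℕ} {c : Nam P} {p : P} :
    fmem (opair (Nam.fin j) c) (realN z hz) p ↔
      DB (fun q => ∃ b, z j b q ∧ feq c (Nam.fin (b2n b)) q) p := by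
  unfold realN
  rw [pair_mem_famN gdom_omega]
  constructor
  · refine DB.imp fun q _ => ?_
    rintro ⟨⟨j', l⟩, rfl, h1, h2⟩
    exact ⟨l, h1, h2⟩
  · refine DB.imp fun q _ => ?_
    rintro ⟨l, h1, h2⟩
    exact ⟨⟨j, l⟩, rfl, h1, h2⟩

theorem realN_func {z : ℕ → Bool → P → Prop} {p : P} (h : ZNameBelow p z) :
    Func (realN z h.mono) Nam.omega (Nam.fin 2) p := by
  have h1 : FunOn (realN z h.mono) Nam.omega p := by
    refine famN_funOn gdom_omega (fun i q hq => ?_) ?_
    · obtain ⟨r, hr, l, hl⟩ := h.total i q hq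
      exact ⟨r, hr, (i, l), rfl, hl⟩
    · rintro ⟨j, l⟩ ⟨j', l'⟩ hjj q _ hk hk'
      obtain rfl : j = j' := hjj
      obtain rfl : l = l' := h.func _ _ _ _ hk hk'
      exact feq_refl _ _
  refine ⟨h1, fun i s q hq his => fmem_reg fun r hr => ?_⟩
  obtain ⟨t, ht, ⟨j, l⟩, -, hjl⟩ := mem_famN.1 his r hr
  exact ⟨t, ht, fmem_congr_left (feq_symm (opair_inj hjl).2) (fin_mem_fin (b2n_lt l) t)⟩

theorem Func.zname {x : Nam P} {p : P} (h : Func x Nam.omega (Nam.fin 2) p) :
    ZNameBelow p (decR x p) := by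
  refine ⟨fun j w q r hr hq => ⟨hr.trans hq.1, fmem_mono hr hq.2⟩, fun j w w' q hq hq' => ?_,
    fun j q hq => ?_⟩
  · exact b2n_inj (fin_inj (h.func _ _ _ q hq.1 hq.2 hq'.2))
  · obtain ⟨r, hr, b, hb⟩ := h.toFunOn.eval gdom_omega j hq
    obtain ⟨t, ht, m, hm, hm'⟩ := fmem_fin.1 (h.val _ _ r (hr.trans hq) hb) r le_rfl
    obtain ⟨c, rfl⟩ := exists_b2n hm
    exact ⟨t, ht.trans hr, c, (ht.trans hr).trans hq, fmem_congr_left
      (feq_opair (feq_refl _ _) hm') (fmem_mono ht hb)⟩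

/-- Every real is given by its decisions. -/
theorem feq_realN {x : Nam P} {p : P} (h : Func x Nam.omega (Nam.fin 2) p) :
    feq x (realN (decR x p) h.zname.mono) p := by
  refine FunOn.ext gdom_omega h.toFunOn (realN_func h.zname).toFunOn fun i q hq => ?_
  obtain ⟨r, hr, b, hb⟩ := h.zname.total i q hq
  exact ⟨r, hr, Nam.fin (b2n b), hb.2, pair_mem_realN.2 fun s hs => ⟨s, le_rfl, b,
    h.zname.mono _ _ _ _ hs hb, feq_refl _ _⟩⟩

end MP958.Z

end

section

/-!
# Names of Yorioka ideals and of families of their members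
-/


namespace MP958.Z

open MP9708F

variable {P : Type} [Preorder P]

theorem DB_congr {S T : P → Prop} {p : P} (h : ∀ q ≤ p, (S q ↔ T q)) : DB S p ↔ DB T p :=
  ⟨DB.imp fun q hq => (h q hq).1, DB.imp fun q hq => (h q hq).2⟩

theorem forces_ex2 {φ : SetFormula} {v : ℕ → Nam P} {p : P} :
    φ.ex.ex.Forces v p ↔ DB (fun r => ∃ x y, φ.Forces (push y (push x v)) r) p := by
  simp only [forces_ex']
  exact DB_ex2 (S := fun x y r => φ.Forces (push y (push x v)) r) fun a b p q hq h =>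
    SetFormula.forces_mono _ _ hq h

/-! ### Sets of reals -/

/-- Index set for the names of reals. -/
def RealIdx (P : Type) [Preorder P] : Type :=
  {z : ℕ → Bool → P → Prop // ∀ i b p q, q ≤ p → z i b p → z i b q}

/-- The name of the set of reals with the property `S`. -/
def setN (S : Nam P → P → Prop) (hS : ∀ x, Reg (S x)) : Nam P :=
  ⟨RealIdx P, fun z => ⟨{p | Func (realN z.1 z.2) Nam.omega (Nam.fin 2) p ∧
    S (realN z.1 z.2) p}, fun _ _ h h' => ⟨(Func.reg' _ _ _).mono h h'.1, (hS _).mono h h'.2⟩⟩,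
    fun z => realN z.1 z.2⟩

theorem mem_setN {S : Nam P → P → Prop} {hS : ∀ x, Reg (S x)} (hext : Ext' S) {x : Nam P} {p : P} :
    fmem x (setN S hS) p ↔ Func x Nam.omega (Nam.fin 2) p ∧ S x p := by
  constructor
  · intro h
    refine ((Func.reg' _ _ _).and (hS x)).reg fun q hq => ?_
    obtain ⟨r, hr, z, ⟨h1, h2⟩, h3⟩ := h q hq
    exact ⟨r, hr, Func.congr (feq_symm h3) (feq_refl _ _) (feq_refl _ _) h1,
      hext _ _ _ (feq_symm h3) h2⟩
  · rintro ⟨h1, h2⟩ q hq
    have h3 : Func x Nam.omega (Nam.fin 2) q := (Func.reg' _ _ _).mono hq h1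
    have h4 := feq_realN h3
    refine ⟨q, le_rfl, ⟨decR x q, h3.zname.mono⟩, ⟨?_, ?_⟩, h4⟩
    · exact Func.congr h4 (feq_refl _ _) (feq_refl _ _) h3
    · exact hext _ _ _ h4 ((hS x).mono hq h2)

theorem InL.reg' (σ x : Nam P) : Reg (InL σ x) := Reg.all fun _ => Reg.dense

theorem InL.ext' (σ : Nam P) : Ext' (InL σ) := by
  intro x y p hxy h N q hq
  obtain ⟨r, hr, j, hj, l, hl, hlx⟩ := h N q hq
  exact ⟨r, hr, j, hj, l, hl, fun i hi => fmem_congr_right (feq_mono (hr.trans hq) hxy) (hlx i hi)⟩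

/-! ### Yorioka ideals -/

/-- `p` forces `g ≪ ht_σ`. -/
def Grow (g : ℕ → ℕ) (σ : Nam P) (p : P) : Prop :=
  ∀ k, ∀ q ≤ p, ∃ r ≤ q, ∃ N, ∀ j, N ≤ j → ∀ l : List Bool, ∀ s ≤ r,
    fmem (opair (Nam.fin j) (strN l)) σ s → g (j ^ k) ≤ l.length

/-- `p` forces `X ∈ I_g`. -/
def Yor (g : ℕ → ℕ) (X : Nam P) (p : P) : Prop :=
  (∀ x, ∀ q ≤ p, fmem x X q → Func x Nam.omega (Nam.fin 2) q) ∧
    DB (fun r => ∃ σ, SSeq σ r ∧ Grow g σ r ∧ ∀ x, ∀ q ≤ r, fmem x X q → InL σ x q) p

theorem forces_fYor {v : ℕ → Nam P} {p : P} {w f X : ℕ} {g : ℕ → ℕ} (hw : v w = Nam.omega)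
    (hf : feq (v f) (fnN g) p) : (fYor w f X).Forces v p ↔ Yor g (v X) p := by
  unfold fYor Yor
  simp only [SetFormula.Forces, forces_ex', forces_imp, push_succ', push_zero']
  have h1 : ∀ (x : Nam P) (q : P), (fReal (w + 1) 0).Forces (push x v) q ↔
      Func x Nam.omega (Nam.fin 2) q := fun x q => forces_fReal (by exact hw)
  simp only [h1]
  refine and_congr_right fun hreal => DB_congr fun q hq => exists_congr fun σ => ?_
  rw [forces_fStrSeq (by exact hw), forces_fGrows (g := g) (by exact hw) (by exact feq_mono hq hf)]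
  refine and_congr_right fun hσ => and_congr_right fun _ => ?_
  refine forall_congr' fun x => forall_congr' fun r => forall_congr' fun hr => ?_
  have hσ' : SSeq σ r := (SSeq.reg' σ).mono hr hσ
  refine imp_congr_right fun hx => ?_
  rw [forces_fLim (v := push x (push σ v)) (w := w + 2) (σ := 1) (x := 0) (by exact hw)
    (by exact hσ')]
  exact ⟨fun h => h.2, fun h => ⟨hreal x r (hr.trans hq) hx, h⟩⟩

theorem Yor.reg' (g : ℕ → ℕ) (X : Nam P) : Reg (Yor g X) := by
  have h : Yor g X = (fYor 0 1 2).Forces (push Nam.omega (push (fnN g) fun _ => X)) := by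
    funext p
    exact propext (forces_fYor (v := push Nam.omega (push (fnN g) fun _ => X)) (w := 0) (f := 1)
      (X := 2) rfl (feq_refl _ _)).symm
  rw [h]
  exact SetFormula.forces_reg _ _

theorem Yor.ext' (g : ℕ → ℕ) : Ext' (Yor g : Nam P → P → Prop) := by
  intro X Y p hXY h
  have h1 := (forces_fYor (v := push Nam.omega (push (fnN g) fun _ => X)) (w := 0) (f := 1)
      (X := 2) rfl (feq_refl _ _)).2 h
  have h2 := SetFormula.forces_congr (fYor 0 1 2)
    (v' := push Nam.omega (push (fnN g) fun _ => Y)) (p := p) (by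
      intro n
      rcases n with _ | _ | n
      · exact feq_refl _ _
      · exact feq_refl _ _
      · exact hXY) h1
  exact (forces_fYor (v := push Nam.omega (push (fnN g) fun _ => Y)) (w := 0) (f := 1)
      (X := 2) rfl (feq_refl _ _)).1 h2

/-- `p` forces that some `κ`-sequence of members of `I_g` has union outside `I_g`. -/
def Unb (g : ℕ → ℕ) (κ : Nam P) (p : P) : Prop :=
  DB (fun r => ∃ X U, FunOn X κ r ∧ (∀ a Y, ∀ q ≤ r, fmem (opair a Y) X q → Yor g Y q) ∧
    (∀ z, ∀ q ≤ r, fmem z U q ↔ DB (fun s => ∃ a Y, fmem (opair a Y) X s ∧ fmem z Y s) q) ∧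
      ∀ q ≤ r, ¬ Yor g U q) p

theorem forces_fUnb {v : ℕ → Nam P} {p : P} {w f κ : ℕ} {g : ℕ → ℕ} (hw : v w = Nam.omega)
    (hf : feq (v f) (fnN g) p) : (fUnb w f κ).Forces v p ↔ Unb g (v κ) p := by
  unfold fUnb Unb
  rw [forces_ex2]
  refine DB_congr fun r hr => exists_congr fun X => exists_congr fun U => ?_
  simp only [SetFormula.Forces, forces_ex2, forces_imp, forces_iff, forces_fFunOn, forces_fHas,
    push_succ', push_zero']
  have hfr := feq_mono hr hf
  refine and_congr_right fun _ => and_congr ?_ (and_congr_right fun _ => ?_)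
  · refine forall_congr' fun a => forall_congr' fun Y => forall_congr' fun q =>
      forall_congr' fun hq => imp_congr_right fun _ => ?_
    exact forces_fYor (by exact hw) (by exact feq_mono hq hfr)
  · refine forall_congr' fun q => forall_congr' fun hq => not_congr ?_
    exact forces_fYor (by exact hw) (by exact feq_mono hq hfr)

theorem Unb.reg' (g : ℕ → ℕ) (κ : Nam P) : Reg (Unb g κ) := Reg.dense

theorem Unb.ext' (g : ℕ → ℕ) : Ext' (Unb g : Nam P → P → Prop) := by
  intro X Y p hXY h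
  have h1 := (forces_fUnb (v := push Nam.omega (push (fnN g) fun _ => X)) (w := 0) (f := 1)
      (κ := 2) rfl (feq_refl _ _)).2 h
  have h2 := SetFormula.forces_congr (fUnb 0 1 2)
    (v' := push Nam.omega (push (fnN g) fun _ => Y)) (p := p) (by
      intro n
      rcases n with _ | _ | n
      · exact feq_refl _ _
      · exact feq_refl _ _
      · exact hXY) h1
  exact (forces_fUnb (v := push Nam.omega (push (fnN g) fun _ => Y)) (w := 0) (f := 1)
      (κ := 2) rfl (feq_refl _ _)).1 h2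

/-! ### Increasing functions -/

theorem forces_fIncr {v : ℕ → Nam P} {p : P} {w f : ℕ} {g : ℕ → ℕ} (hg : StrictMono g)
    (hw : v w = Nam.omega) (hf : feq (v f) (fnN g) p) : (fIncr w f).Forces v p := by
  unfold fIncr
  simp only [SetFormula.Forces, forces_imp, forces_fFunc, forces_fHas, push_succ', push_zero', hw]
  constructor
  · refine Func.congr (feq_symm hf) (feq_refl _ _) (feq_refl _ _) ⟨tabN_funOn gdom_omega _ _,
      fun a b q hq hab => fmem_reg fun r hr => ?_⟩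
    obtain ⟨s, hs, i, hi⟩ := mem_tabN.1 hab r hr
    exact ⟨s, hs, fmem_congr_left (feq_symm (opair_inj hi).2) (fmem_omega_fin _ _)⟩
  · intro m n a b q hq hmn r hr hma s hs hnb
    refine fmem_reg fun t ht => ?_
    have hrp : r ≤ p := hr.trans hq
    obtain ⟨t1, ht1, i, hi⟩ := mem_tabN.1 (fmem_congr_right (feq_mono hrp hf) hma) t
      (ht.trans hs)
    obtain ⟨t2, ht2, j, hj⟩ := mem_tabN.1 (fmem_congr_right (feq_mono (hs.trans hrp) hf) hnb) t1
      (ht1.trans ht)
    obtain ⟨h1, h2⟩ := opair_inj hi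
    obtain ⟨h3, h4⟩ := opair_inj hj
    have h5 : i < j := by
      have h6 : fmem (Nam.fin i) (Nam.fin j) t2 := fmem_congr (feq_mono ht2 h1) h3
        (fmem_mono (ht2.trans (ht1.trans (ht.trans (hs.trans hr)))) hmn)
      obtain ⟨t3, -, m', hm', h7⟩ := fmem_fin.1 h6 t2 le_rfl
      rw [fin_inj h7]
      exact hm'
    exact ⟨t2, ht2.trans ht1, fmem_congr (feq_symm (feq_mono ht2 h2)) (feq_symm h4)
      (fin_mem_fin (hg h5) t2)⟩

end MP958.Z

end

section

/-!
# Names of ordinals, and the two halves of the evaluation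
-/


namespace MP958.Z

open MP9708F Cardinal

section Ordinals

variable {P : Type} [Preorder P] {Ω : Type} [LinearOrder Ω] [WellFoundedLT Ω]

/-- The name of the ordinal `{y | y < x}`. -/
noncomputable def vert : Ω → Nam P :=
  (wellFounded_lt (α := Ω)).fix fun α rec => ⟨{β : Ω // β < α}, fun _ => ⊤, fun β => rec β.1 β.2⟩

theorem vert_eq (α : Ω) :
    (vert α : Nam P) = ⟨{β : Ω // β < α}, fun _ => ⊤, fun β => vert β.1⟩ := by
  unfold vert
  rw [WellFounded.fix_eq]

theorem vert_mem {α β : Ω} (h : β < α) (p : P) : fmem (vert β : Nam P) (vert α) p := by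
  rw [vert_eq α]
  exact fmem_of_wt (y := (⟨{β : Ω // β < α}, fun _ => ⊤, fun β => vert β.1⟩ : Nam P))
    (j := (⟨β, h⟩ : {β : Ω // β < α})) trivial

theorem vert_inj {α β : Ω} {p : P} (h : feq (vert α : Nam P) (vert β) p) : α = β := by
  rcases lt_trichotomy α β with h' | h' | h'
  · exact absurd (fmem_congr_right (feq_symm h) (vert_mem h' p)) (not_fmem_self _ _)
  · exact h'
  · exact absurd (fmem_congr_right h (vert_mem h' p)) (not_fmem_self _ _)

theorem gdom_vert (y : Ω) : GDom (fun x : {x : Ω // x < y} => (vert x.1 : Nam P)) (vert y) := by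
  refine ⟨fun z p => ?_, fun i i' p h => Subtype.ext (vert_inj h)⟩
  rw [vert_eq y]
  constructor
  · intro h q hq
    obtain ⟨r, hr, j, -, hj⟩ := h q hq
    exact ⟨r, hr, j, hj⟩
  · intro h q hq
    obtain ⟨r, hr, j, hj⟩ := h q hq
    exact ⟨r, hr, j, trivial, hj⟩

theorem vert_trans {y : Ω} {z u : Nam P} {p : P} (hz : fmem z (vert y) p) (hu : fmem u z p) :
    fmem u (vert y) p := by
  refine fmem_reg fun q hq => ?_
  obtain ⟨r, hr, x, hx⟩ := ((gdom_vert y).mem _ _).1 hz q hq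
  obtain ⟨s, hs, x', hx'⟩ := ((gdom_vert x.1).mem _ _).1
    (fmem_congr_right hx (fmem_mono (hr.trans hq) hu)) r le_rfl
  exact ⟨s, hs.trans hr, fmem_congr_left (feq_symm hx') (vert_mem (x'.2.trans x.2) s)⟩

/-- `p` forces `κ` to be an ordinal. -/
def OrdS (κ : Nam P) (p : P) : Prop :=
  (∀ y, ∀ q ≤ p, fmem y κ q → ∀ z, ∀ r ≤ q, fmem z y r → fmem z κ r) ∧
    ∀ x, ∀ q ≤ p, fmem x κ q → ∀ y, ∀ r ≤ q, fmem y x r → ∀ z, ∀ s ≤ r, fmem z y s → fmem z x s

theorem forces_fOrd {v : ℕ → Nam P} {p : P} {x : ℕ} :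
    (fOrd x).Forces v p ↔ OrdS (v x) p := by
  unfold fOrd fTrans OrdS
  simp only [SetFormula.Forces, forces_imp, forces_fSub, push_succ', push_zero']

theorem ordS_vert (y : Ω) (p : P) : OrdS (vert y : Nam P) p := by
  refine ⟨fun z q _ hz u r hr hu => vert_trans (fmem_mono hr hz) hu,
    fun x q _ hx z r hr hz u s hs hu => fmem_reg fun t ht => ?_⟩
  obtain ⟨t', ht', x', hx'⟩ := ((gdom_vert y).mem _ _).1 hx t (ht.trans (hs.trans hr))
  have h1 : fmem z (vert x'.1) t' := fmem_congr_right hx' (fmem_mono (ht'.trans (ht.trans hs)) hz)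
  exact ⟨t', ht', fmem_congr_right (feq_symm hx') (vert_trans h1 (fmem_mono (ht'.trans ht) hu))⟩

/-- `p` forces `κ = add(I_g)`. -/
def AddS (g : ℕ → ℕ) (κ : Nam P) (p : P) : Prop :=
  OrdS κ p ∧ Unb g κ p ∧ ∀ α, ∀ q ≤ p, fmem α κ q → ∀ r ≤ q, ¬ Unb g α r

theorem forces_fAdd {v : ℕ → Nam P} {p : P} {w f κ : ℕ} {g : ℕ → ℕ} (hw : v w = Nam.omega)
    (hf : feq (v f) (fnN g) p) : (fAdd w f κ).Forces v p ↔ AddS g (v κ) p := by
  unfold fAdd AddS
  simp only [SetFormula.Forces, forces_imp, forces_fOrd, push_succ', push_zero']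
  rw [forces_fUnb hw hf]
  refine and_congr_right fun _ => and_congr_right fun _ => ?_
  refine forall_congr' fun α => forall_congr' fun q => forall_congr' fun hq =>
    imp_congr_right fun _ => forall_congr' fun r => forall_congr' fun hr => not_congr ?_
  exact forces_fUnb (by exact hw) (by exact feq_mono (hr.trans hq) hf)

theorem AddS.reg' (g : ℕ → ℕ) (X : Nam P) : Reg (AddS g X) := by
  have h : AddS g X = (fAdd 0 1 2).Forces (push Nam.omega (push (fnN g) fun _ => X)) := by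
    funext p
    exact propext (forces_fAdd (v := push Nam.omega (push (fnN g) fun _ => X)) (w := 0) (f := 1)
      (κ := 2) rfl (feq_refl _ _)).symm
  rw [h]
  exact SetFormula.forces_reg _ _

theorem AddS.ext' (g : ℕ → ℕ) : Ext' (AddS g : Nam P → P → Prop) := by
  intro X Y p hXY h
  have h1 := (forces_fAdd (v := push Nam.omega (push (fnN g) fun _ => X)) (w := 0) (f := 1)
      (κ := 2) rfl (feq_refl _ _)).2 h
  have h2 := SetFormula.forces_congr (fAdd 0 1 2)
    (v' := push Nam.omega (push (fnN g) fun _ => Y)) (p := p) (by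
      intro n
      rcases n with _ | _ | n
      · exact feq_refl _ _
      · exact feq_refl _ _
      · exact hXY) h1
  exact (forces_fAdd (v := push Nam.omega (push (fnN g) fun _ => Y)) (w := 0) (f := 1)
      (κ := 2) rfl (feq_refl _ _)).1 h2

end Ordinals

section Halves

variable {P : Type} [Preorder P] {Ω : Type} [LinearOrder Ω] [WellFoundedLT Ω] {K : Type}
  {rk : K → ℕ} {f : ℕ → ℕ → ℕ}

theorem finite_dense {A : ℕ → P → Prop} (hA : ∀ i p q, q ≤ p → A i p → A i q) {p : P} (n : ℕ)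
    (h : ∀ i < n, ∀ q ≤ p, ∃ r ≤ q, A i r) : ∃ q ≤ p, ∀ i < n, A i q := by
  induction n with
  | zero => exact ⟨p, le_rfl, fun i hi => absurd hi (Nat.not_lt_zero i)⟩
  | succ n ih =>
    obtain ⟨q, hq, h1⟩ := ih fun i hi => h i (by omega)
    obtain ⟨r, hr, h2⟩ := h n (by omega) q hq
    refine ⟨r, hr.trans hq, fun i hi => ?_⟩
    rcases Nat.lt_succ_iff_lt_or_eq.1 hi with hi | rfl
    · exact hA i q r hr (h1 i hi)
    · exact h2

theorem grow_of {g : ℕ → ℕ} {σ : Nam P} {p : P} (h : Grow g σ p) :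
    GrowBelow g p (decS σ p) := by
  intro k q hq
  obtain ⟨r, hr, N, hN⟩ := h k q hq
  exact ⟨r, hr, N, fun j hj s hs w hw => hN j hj w s hs hw.2⟩

theorem grow_seqN {g : ℕ → ℕ} {τ : ℕ → List Bool → P → Prop} {p : P}
    (hτ : ∀ j w p q, q ≤ p → τ j w p → τ j w q) (h : GrowBelow g p τ) :
    Grow g (seqN τ hτ) p := by
  intro k q hq
  obtain ⟨r, hr, N, hN⟩ := h k q hq
  refine ⟨r, hr, N, fun j hj l s hs hl => ?_⟩
  obtain ⟨t, ht, l', h1, h2⟩ := pair_mem_seqN.1 hl s le_rfl
  obtain rfl := strN_inj h2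
  exact hN j hj t (ht.trans hs) l h1

/-- The family indexed by `K_m` has union outside `I_{f m}`. -/
theorem unb_of_upper {m : ℕ} (hU : UpperProp (P := P) rk f m) {y : Ω}
    (e : {x : Ω // x < y} → {α : K // rk α = m}) (he : Function.Surjective e) (p : P) :
    Unb (f m) (vert y : Nam P) p := by
  obtain ⟨σ, h1, h2, h3⟩ := hU
  have hmono := fun α => (h1 α p).mono
  let σN : {α : K // rk α = m} → Nam P := fun α => seqN (σ α) (hmono α)
  have hσg : ∀ α q, Grow (f m) (σN α) q := by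
    intro α q
    refine grow_seqN _ fun k q hq => ?_
    obtain ⟨N, hN⟩ := h2 k
    exact ⟨q, le_rfl, N, fun j hj r _ w hw => hN j hj α w r hw⟩
  have hσs : ∀ α q, SSeq (σN α) q := fun α q => seqN_sseq (h1 α q)
  let Yn : {x : Ω // x < y} → Nam P := fun x => setN (InL (σN (e x))) (InL.reg' _)
  have hSU : Ext' (fun z : Nam P => DB fun q => ∃ α, InL (σN α) z q) := by
    intro x x' q hx
    exact DB.imp fun r hr ⟨α, hα⟩ => ⟨α, InL.ext' _ _ _ _ (feq_mono hr hx) hα⟩
  intro q hq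
  refine ⟨q, le_rfl, tabN (fun x : {x : Ω // x < y} => vert x.1) Yn,
    setN (fun z => DB fun q => ∃ α, InL (σN α) z q) (fun _ => DB.reg' _), ?_, ?_, ?_, ?_⟩
  · exact tabN_funOn (gdom_vert y) _ _
  · intro a Y r hr haY
    refine (Yor.reg' _ _).reg fun s hs => ?_
    obtain ⟨t, ht, x, hx⟩ := mem_tabN.1 haY s hs
    refine ⟨t, ht, Yor.ext' _ _ _ _ (feq_symm (opair_inj hx).2) ⟨fun z t' ht' hz =>
      ((mem_setN (InL.ext' _)).1 hz).1, fun t' ht' => ⟨t', le_rfl, σN (e x), hσs _ _, hσg _ _,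
        fun z s' hs' hz => ((mem_setN (InL.ext' _)).1 hz).2⟩⟩⟩
  · intro z r hr
    rw [mem_setN hSU]
    constructor
    · rintro ⟨hz1, hz2⟩ s hs
      obtain ⟨t, ht, α, hα⟩ := hz2 s hs
      obtain ⟨x, rfl⟩ := he α
      refine ⟨t, ht, vert x.1, Yn x, (pair_mem_tabN (gdom_vert y) (i := x)).2 (feq_refl _ _), ?_⟩
      exact (mem_setN (InL.ext' _)).2 ⟨(Func.reg' _ _ _).mono (ht.trans hs) hz1, hα⟩
    · intro h
      have h4 : ∀ s ≤ r, ∃ t ≤ s, Func z Nam.omega (Nam.fin 2) t ∧ ∃ α, InL (σN α) z t := by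
        intro s hs
        obtain ⟨t, ht, a, Y, haY, hzY⟩ := h s hs
        obtain ⟨t', ht', x, hx⟩ := mem_tabN.1 haY t le_rfl
        have h5 := (mem_setN (InL.ext' _)).1 (fmem_congr_right (opair_inj hx).2
          (fmem_mono ht' hzY))
        exact ⟨t', ht'.trans ht, h5.1, e x, h5.2⟩
      exact ⟨(Func.reg' _ _ _).reg fun s hs => (h4 s hs).imp fun t ht => ⟨ht.1, ht.2.1⟩,
        fun s hs => (h4 s hs).imp fun t ht => ⟨ht.1, ht.2.2⟩⟩
  · rintro r hr ⟨-, hY⟩
    obtain ⟨s, hs, ρ, hρ1, hρ2, hρ3⟩ := hY r le_rfl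
    obtain ⟨t, ht, α, z, hz, hinf, N, hfin⟩ := h3 (decS ρ s) s hρ1.rname (grow_of hρ2)
    have hx1 : InL (σN α) (realN z hz.mono) t := by
      intro N q hq
      obtain ⟨r', hr', j, hj, w, hw, hwz⟩ := hinf N q hq
      refine ⟨r', hr', j, hj, w, ?_, fun i hi => ?_⟩
      · exact pair_mem_seqN.2 fun s' hs' => ⟨s', le_rfl, w, hmono α _ _ _ _ hs' hw, feq_refl _ _⟩
      · exact pair_mem_realN.2 fun s' hs' => ⟨s', le_rfl, w[i], hz.mono _ _ _ _ hs' (hwz i hi),
          feq_refl _ _⟩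
    have hx2 := hρ3 (realN z hz.mono) t ht ((mem_setN hSU).2 ⟨realN_func hz,
      fun q hq => ⟨q, le_rfl, α, (InL.reg' _ _).mono hq hx1⟩⟩)
    obtain ⟨r1, hr1, j, hj, l, hl, hlz⟩ := hx2 N t le_rfl
    obtain ⟨r2, hr2, h4⟩ := finite_dense (A := fun i q => ∀ h : i < l.length, z i l[i] q)
      (p := r1) (fun i p q hq h h' => hz.mono _ _ _ _ hq (h h')) l.length (by
        intro i hi q hq
        obtain ⟨r', hr', b, hb, hb'⟩ := pair_mem_realN.1 (hlz i hi) q hq
        have h5 := b2n_inj (fin_inj hb')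
        exact ⟨r', hr', fun _ => by rw [h5]; exact hb⟩)
    refine hfin j hj r2 (hr2.trans hr1) l ⟨(hr2.trans hr1).trans ht, fmem_mono hr2 hl⟩ ?_
    exact fun i hi => h4 i hi hi

/-- The forced statement that `σ` covers the value of `X` at `a`. -/
def Cov (g : ℕ → ℕ) (X a σ : Nam P) (p : P) : Prop :=
  SSeq σ p ∧ Grow g σ p ∧ ∀ Y, ∀ q ≤ p, fmem (opair a Y) X q → ∀ z, ∀ s ≤ q, fmem z Y s → InL σ z s

theorem Cov.reg' (g : ℕ → ℕ) (X a σ : Nam P) : Reg (Cov g X a σ) := by
  refine (SSeq.reg' σ).and (Reg.and (Reg.all fun k => Reg.dense) ⟨?_, ?_⟩)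
  · intro p q hq h Y r hr hY z s hs hz
    exact h Y r (hr.trans hq) hY z s hs hz
  · intro p h Y r hr hY z s hs hz
    refine (InL.reg' σ z).reg fun t ht => ?_
    obtain ⟨t', ht', h'⟩ := h t (ht.trans (hs.trans hr))
    exact ⟨t', ht', h' Y t' le_rfl (fmem_mono (ht'.trans (ht.trans hs)) hY) z t' le_rfl
      (fmem_mono (ht'.trans ht) hz)⟩

theorem Cov.ext' (g : ℕ → ℕ) (X a : Nam P) : Ext' (Cov g X a) := by
  rintro σ σ' p hσ ⟨h1, h2, h3⟩
  refine ⟨?_, ?_, ?_⟩
  · have h4 := (forces_fStrSeq (v := push Nam.omega fun _ => σ) (w := 0) (σ := 1) rfl).2 h1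
    have h5 := SetFormula.forces_congr (fStrSeq 0 1)
      (v' := push Nam.omega fun _ => σ') (p := p) (by
        intro n
        rcases n with _ | n
        · exact feq_refl _ _
        · exact hσ) h4
    exact (forces_fStrSeq (v := push Nam.omega fun _ => σ') (w := 0) (σ := 1) rfl).1 h5
  · intro k q hq
    obtain ⟨r, hr, N, hN⟩ := h2 k q hq
    exact ⟨r, hr, N, fun j hj l s hs hl => hN j hj l s hs (fmem_congr_right (feq_symm
      (feq_mono (hs.trans (hr.trans hq)) hσ)) hl)⟩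
  · intro Y q hq hY z s hs hz N r hr
    obtain ⟨r', hr', j, hj, l, hl, hlx⟩ := h3 Y q hq hY z s hs hz N r hr
    exact ⟨r', hr', j, hj, l, fmem_congr_right (feq_mono (hr'.trans (hr.trans (hs.trans hq))) hσ)
      hl, hlx⟩

/-- Families indexed by `K_m` of members of `I_{f n}` have union in `I_{f n}`. -/
theorem not_unb_of_lower {m n : ℕ} (hL : LowerProp (P := P) rk f m n) (hf : StrictMono (f n))
    {y : Ω} (e : {x : Ω // x < y} → {α : K // rk α = m}) (he : Function.Injective e) (p : P) :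
    ¬ Unb (f n) (vert y : Nam P) p := by
  intro h
  obtain ⟨r, hr, X, U, hX, hY, hU, hN⟩ := h p le_rfl
  -- the names `σ_x`
  have hcov : ∀ x : {x : Ω // x < y}, ∃ σ, Cov (f n) X (vert x.1) σ r := by
    intro x
    obtain ⟨σ, hσ⟩ := fullness' (Cov (f n) X (vert x.1)) (Cov.reg' _ _ _) (Cov.ext' _ _ _)
    refine ⟨σ, hσ r fun q hq => ?_⟩
    obtain ⟨q1, hq1, b, hb⟩ := hX.eval (gdom_vert y) x hq
    obtain ⟨-, h2⟩ := hY _ _ q1 (hq1.trans hq) hb
    obtain ⟨q2, hq2, ρ, h3, h4, h5⟩ := h2 q1 le_rfl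
    refine ⟨q2, hq2.trans hq1, ρ, h3, h4, fun Y s hs hYs z t ht hz => ?_⟩
    have h6 := hX.func _ _ _ s (hs.trans (hq2.trans (hq1.trans hq))) hYs
      (fmem_mono (hs.trans hq2) hb)
    exact h5 z t (ht.trans hs) (fmem_congr_right (feq_mono ht h6) hz)
  choose σ hσ using hcov
  classical
  let ρ : {α : K // rk α = m} → ℕ → List Bool → P → Prop := fun α =>
    if h : ∃ x, e x = α then decS (σ h.choose) r else fun j w _ =>
      w = List.replicate (f n (j ^ j)) false
  have hρ1 : ∀ x, ρ (e x) = decS (σ x) r := by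
    intro x
    have hx : ∃ x', e x' = e x := ⟨x, rfl⟩
    have h1 : hx.choose = x := he hx.choose_spec
    simp only [ρ]
    rw [dif_pos hx, h1]
  have hρ2 : ∀ α, (¬ ∃ x, e x = α) → ρ α = fun j w _ =>
      w = List.replicate (f n (j ^ j)) false := by
    intro α hα
    simp only [ρ]
    rw [dif_neg hα]
  have hA : ∀ α, RNameBelow r (ρ α) := by
    intro α
    by_cases hα : ∃ x, e x = α
    · obtain ⟨x, rfl⟩ := hα
      rw [hρ1]
      exact (hσ x).1.rname
    · rw [hρ2 α hα]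
      exact ⟨fun j w p q _ h => h, fun j w w' p h h' => h.trans h'.symm,
        fun j p _ => ⟨p, le_rfl, _, rfl⟩⟩
  have hB : ∀ α, GrowBelow (f n) r (ρ α) := by
    intro α
    by_cases hα : ∃ x, e x = α
    · obtain ⟨x, rfl⟩ := hα
      rw [hρ1]
      exact grow_of (hσ x).2.1
    · rw [hρ2 α hα]
      intro k q _
      refine ⟨q, le_rfl, k, fun j hj s _ w hw => ?_⟩
      rw [hw, List.length_replicate]
      refine hf.monotone ?_
      rcases Nat.eq_zero_or_pos j with rfl | hj0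
      · obtain rfl : k = 0 := by omega
        exact le_rfl
      · exact Nat.pow_le_pow_right hj0 hj
  obtain ⟨τ, hτ1, hτ2, hτ3⟩ := hL r ρ hA hB
  refine hN r le_rfl ⟨?_, ?_⟩
  · intro x q hq hx
    refine (Func.reg' _ _ _).reg fun s hs => ?_
    obtain ⟨t, ht, a, Y, haY, hxY⟩ := (hU x q hq).1 hx s hs
    exact ⟨t, ht, (hY a Y t (ht.trans (hs.trans hq)) haY).1 x t le_rfl hxY⟩
  · intro q hq
    refine ⟨q, le_rfl, seqN τ hτ1.mono, ?_, ?_, ?_⟩
    · exact (SSeq.reg' _).mono hq (seqN_sseq hτ1)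
    · exact (Reg.all fun k => Reg.dense : Reg (Grow (f n) _)).mono hq (grow_seqN _ hτ2)
    · intro x s hs hx
      refine (InL.reg' _ _).reg fun t ht => ?_
      obtain ⟨t1, ht1, a, Y, haY, hxY⟩ := (hU x s (hs.trans hq)).1 hx t ht
      have ht1r : t1 ≤ r := ht1.trans (ht.trans (hs.trans hq))
      obtain ⟨t2, ht2, i, hi⟩ := hX.dom (gdom_vert y) ht1r haY
      have h1 : InL (σ i) x t2 := (hσ i).2.2 Y t2 (ht2.trans ht1r)
        (fmem_congr_left (feq_opair hi (feq_refl _ _)) (fmem_mono ht2 haY)) x t2 le_rfl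
          (fmem_mono ht2 hxY)
      refine ⟨t2, ht2.trans ht1, fun N q1 hq1 => ?_⟩
      obtain ⟨q2, hq2, N', hN'⟩ := hτ3 (e i) q1 (hq1.trans (ht2.trans ht1r))
      obtain ⟨q3, hq3, j, hj, l, hl, hlx⟩ := h1 (max N N') q2 (hq2.trans hq1)
      obtain ⟨q4, hq4, i', hi', w, w', hw, hw', hpre⟩ := hN' j (le_of_max_le_right hj) q3 hq3
      rw [hρ1] at hw
      obtain rfl : w = l := strN_inj ((hσ i).1.func _ _ _ q4 hw.1 hw.2 (fmem_mono hq4 hl))
      refine ⟨q4, hq4.trans (hq3.trans hq2), i', (le_of_max_le_left hj).trans hi', w', ?_, ?_⟩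
      · exact pair_mem_seqN.2 fun s' hs' => ⟨s', le_rfl, w', hτ1.mono _ _ _ _ hs' hw',
          feq_refl _ _⟩
      · intro a ha
        have h2 : a < w.length := ha.trans_le hpre.length_le
        have h3 : w'[a] = w[a] := hpre.getElem ha
        rw [h3]
        exact fmem_mono hq4 (hlx a h2)

end Halves

end MP958.Z

end

section

/-!
# The model
-/


namespace MP958.Z

open MP9708F Cardinal

/-- A well order with an initial segment of every cardinality at most `#K`. -/
theorem exists_order (K : Type) : ∃ (Ω : Type) (_ : LinearOrder Ω) (_ : WellFoundedLT Ω),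
    ∀ S : Set K, ∃ d : Ω, Nonempty ({x : Ω // x < d} ≃ S) := by
  refine ⟨(Order.succ (#K)).ord.ToType, inferInstance, inferInstance, fun S => ?_⟩
  have h1 : (#S).ord < Ordinal.type (fun x y : (Order.succ (#K)).ord.ToType => x < y) := by
    have h2 : Ordinal.type (fun x y : (Order.succ (#K)).ord.ToType => x < y) =
        (Order.succ (#K)).ord := Ordinal.type_toType _
    rw [h2, Cardinal.ord_lt_ord]
    exact (Cardinal.mk_set_le S).trans_lt (Order.lt_succ _)
  refine ⟨Ordinal.enum (fun x y : (Order.succ (#K)).ord.ToType => x < y) ⟨(#S).ord, h1⟩, ?_⟩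
  rw [← Cardinal.eq]
  have h3 := Ordinal.card_typein (r := fun x y : (Order.succ (#K)).ord.ToType => x < y)
    (Ordinal.enum (fun x y : (Order.succ (#K)).ord.ToType => x < y) ⟨(#S).ord, h1⟩)
  rw [Ordinal.typein_enum, Cardinal.card_ord] at h3
  exact h3.symm

section

variable {P : Type} [Preorder P] {Ω : Type} [LinearOrder Ω] [WellFoundedLT Ω] {K : Type}
  {rk : K → ℕ} {f : ℕ → ℕ → ℕ} {d : ℕ → Ω}

/-- The value of `add(I_{f n})` is at most `d n`. -/
theorem exists_add {n : ℕ} (hU : ∀ p, Unb (f n) (vert (d n) : Nam P) p) :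
    ∃ κ : Nam P, ∀ p, AddS (f n) κ p ∧ DB (fun r => ∃ x ≤ d n, feq κ (vert x) r) p := by
  obtain ⟨κ, hκ⟩ := fullness' (P := P) (fun κ p => AddS (f n) κ p ∧
    DB (fun r => ∃ x ≤ d n, feq κ (vert x) r) p) (fun κ => (AddS.reg' _ _).and (DB.reg' _)) (by
      rintro κ κ' p hκ ⟨h1, h2⟩
      refine ⟨AddS.ext' _ _ _ _ hκ h1, DB.imp (fun q hq => ?_) h2⟩
      rintro ⟨x, hx, hx'⟩
      exact ⟨x, hx, feq_trans (feq_symm (feq_mono hq hκ)) hx'⟩)
  refine ⟨κ, fun p => hκ p fun p' _ => ?_⟩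
  obtain ⟨x, ⟨q, hq, hx⟩, hmin⟩ := (wellFounded_lt (α := Ω)).has_min
    {x : Ω | ∃ q ≤ p', Unb (f n) (vert x : Nam P) q} ⟨d n, p', le_rfl, hU p'⟩
  have hxd : x ≤ d n := not_lt.1 (hmin (d n) ⟨p', le_rfl, hU p'⟩)
  refine ⟨q, hq, vert x, ⟨ordS_vert x q, hx, fun α r hr hα s hs hun => ?_⟩, fun r _ =>
    ⟨r, le_rfl, x, hxd, feq_refl _ _⟩⟩
  obtain ⟨t, ht, x', hx'⟩ := ((gdom_vert x).mem _ _).1 hα s hs
  refine hmin x'.1 ⟨t, ht.trans (hs.trans (hr.trans hq)), ?_⟩ x'.2
  exact Unb.ext' _ _ _ _ hx' ((Unb.reg' _ _).mono ht hun)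

/-- All conditions force the main statement. -/
theorem forces_main (hf : ∀ n, StrictMono (f n))
    (hU : ∀ n p, Unb (f n) (vert (d n) : Nam P) p)
    (hL : ∀ m n, m < n → ∀ y ≤ d m, ∀ p, ¬ Unb (f n) (vert y : Nam P) p) :
    ∃ v : ℕ → Nam P, ∀ p, fMain.Forces v p := by
  choose κ hκ using fun n => exists_add (hU n)
  let FN : Nam P := tabN (fun n : ℕ => Nam.fin n) fun n => fnN (f n)
  let AN : Nam P := tabN (fun n : ℕ => Nam.fin n) κ
  refine ⟨push Nam.omega (push FN fun _ => AN), fun p => ?_⟩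
  unfold fMain
  simp only [SetFormula.Forces, forces_imp, forces_fFunOn, forces_fHas, push_succ', push_zero']
  refine ⟨forces_fOm (feq_refl _ _), tabN_funOn gdom_omega _ _, tabN_funOn gdom_omega _ _, ?_, ?_⟩
  · intro n q hq hn g k r hr hg s hs hk
    have key : ∀ t ≤ s, ∃ t' ≤ t, ∃ n₀, feq g (fnN (f n₀)) t' ∧ feq k (κ n₀) t' := by
      intro t ht
      obtain ⟨t1, ht1, n₀, h1⟩ := mem_tabN.1 hg t (ht.trans hs)
      obtain ⟨t2, ht2, n₁, h2⟩ := mem_tabN.1 hk t1 (ht1.trans ht)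
      obtain ⟨h3, h4⟩ := opair_inj h1
      obtain ⟨h5, h6⟩ := opair_inj h2
      obtain rfl : n₀ = n₁ := fin_inj (feq_trans (feq_symm (feq_mono ht2 h3)) h5)
      exact ⟨t2, ht2.trans ht1, n₀, feq_mono ht2 h4, h6⟩
    constructor
    · refine (SetFormula.forces_reg _ _).reg fun t ht => ?_
      obtain ⟨t', ht', n₀, h1, h2⟩ := key t ht
      exact ⟨t', ht', forces_fIncr (hf n₀) rfl h1⟩
    · refine (SetFormula.forces_reg _ _).reg fun t ht => ?_
      obtain ⟨t', ht', n₀, h1, h2⟩ := key t ht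
      refine ⟨t', ht', (forces_fAdd (g := f n₀) rfl (by exact h1)).2 ?_⟩
      exact AddS.ext' _ _ _ _ (feq_symm h2) (hκ n₀ t').1
  · intro m n k μ q hq hmn r hr hk s hs hμ
    refine fmem_reg fun t ht => ?_
    obtain ⟨t1, ht1, m₀, h1⟩ := mem_tabN.1 hk t (ht.trans hs)
    obtain ⟨t2, ht2, n₀, h2⟩ := mem_tabN.1 hμ t1 (ht1.trans ht)
    obtain ⟨h3, h4⟩ := opair_inj h1
    obtain ⟨h5, h6⟩ := opair_inj h2
    have hlt : m₀ < n₀ := by
      have h7 : fmem (Nam.fin m₀) (Nam.fin n₀) t2 := fmem_congr (feq_mono ht2 h3) h5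
        (fmem_mono (ht2.trans (ht1.trans (ht.trans (hs.trans hr)))) hmn)
      obtain ⟨t3, -, m', hm', h7⟩ := fmem_fin.1 h7 t2 le_rfl
      rw [fin_inj h7]
      exact hm'
    obtain ⟨t3, ht3, x, hx, hx'⟩ := (hκ m₀ t2).2 t2 le_rfl
    obtain ⟨t4, ht4, y, hy, hy'⟩ := (hκ n₀ t3).2 t3 le_rfl
    have h8 : Unb (f n₀) (vert y : Nam P) t4 := Unb.ext' _ _ _ _ hy' (hκ n₀ t4).1.2.1
    have h9 : d m₀ < y := by
      by_contra hcon
      exact hL m₀ n₀ hlt y (not_lt.1 hcon) t4 h8
    have h10 : fmem (vert x : Nam P) (vert y) t4 := vert_mem (hx.trans_lt h9) t4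
    refine ⟨t4, ht4.trans (ht3.trans (ht2.trans ht1)), fmem_congr (feq_symm ?_) (feq_symm ?_) h10⟩
    · exact feq_trans (feq_mono (ht4.trans (ht3.trans ht2)) h4) (feq_mono ht4 hx')
    · exact feq_trans (feq_mono (ht4.trans ht3) h6) hy'

end

/-- **The evaluation theorem.** -/
theorem exists_model_of_combMain (h : CombMain) :
    ∃ (M : Type 1) (E : M → M → Prop), ModelsZFC E ∧ InfinitelyManyAdd E := by
  obtain ⟨P, _, _, K, rk, f, hf, hU, hL⟩ := h
  obtain ⟨Ω, _, _, hΩ⟩ := exists_order K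
  choose d hd using fun n => hΩ {α : K | rk α = n}
  have e := fun n => (hd n).some
  obtain ⟨v, hv⟩ := forces_main (P := P) (d := d) hf
    (fun n p => unb_of_upper (hU n) (e n) (e n).surjective p)
    (fun m n hmn y hy p => not_unb_of_lower (hL m n hmn) (hf n)
      (fun x => e m ⟨x.1, x.2.trans_le hy⟩) (by
        intro x x' hxx
        have h1 := (e m).injective hxx
        exact Subtype.ext (by simpa using h1)) p)
  obtain ⟨M, E, i, -, hM, hi⟩ := exists_model P
  exact ⟨M, E, hM, holds_fMain E _ (hi fMain v hv)⟩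

end MP958.Z

end
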