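import Pool.Agent.Lib.MP_9708fd_lc.FStmt

/-!
# Yorioka ideals and their additivities inside a model of set theory

`M` is a type with a binary relation `E` (read `E x y` as `x ∈ y`).  Everything below is first
order over `(M, E)`.  In all definitions with a parameter `w`, this parameter is `ω`.
-/

namespace MP958.Z

universe u

variable {M : Type u} (E : M → M → Prop)

/-- `p` is the Kuratowski pair `(a, b)`. -/
def IsPair (p a b : M) : Prop :=
  ∀ z, E z p ↔ (∀ w, E w z ↔ w = a) ∨ (∀ w, E w z ↔ w = a ∨ w = b)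

/-- `(a, b) ∈ f`; for a function `f` this says `f(a) = b`. -/
def HasPair (f a b : M) : Prop := ∃ p, E p f ∧ IsPair E p a b

/-- `x ⊆ y`. For natural numbers, and for ordinals, this says `x ≤ y`. -/
def Sub (x y : M) : Prop := ∀ z, E z x → E z y

/-- `w` is an inductive set: it contains the empty set and `y ∪ {y}` for all `y ∈ w`. -/
def IsInductive (w : M) : Prop :=
  (∃ y, E y w ∧ ∀ z, ¬ E z y) ∧ ∀ y, E y w → ∃ z, E z w ∧ ∀ u, E u z ↔ E u y ∨ u = y

/-- `w` is the set `ω` of natural numbers: the least inductive set. -/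
def IsOmega (w : M) : Prop :=
  IsInductive E w ∧ ∀ w', IsInductive E w' → Sub E w w'

/-- `f` is a function with domain `x`. -/
def IsFunOn (f x : M) : Prop :=
  (∀ p, E p f → ∃ a b, E a x ∧ IsPair E p a b) ∧ (∀ a, E a x → ∃ b, HasPair E f a b) ∧
    ∀ a b b', HasPair E f a b → HasPair E f a b' → b = b'

/-- `f` is a function from `x` to `y`. -/
def IsFunc (f x y : M) : Prop := IsFunOn E f x ∧ ∀ a b, HasPair E f a b → E b y

/-- `b` is a bijection from `x` onto `y`. -/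
def IsBij (b x y : M) : Prop :=
  IsFunc E b x y ∧ (∀ a a' c, HasPair E b a c → HasPair E b a' c → a = a') ∧
    ∀ c, E c y → ∃ a, HasPair E b a c

/-- `t = 2 = {∅, {∅}}`. -/
def IsTwo (t : M) : Prop :=
  ∃ a b, (∀ z, ¬ E z a) ∧ (∀ z, E z b ↔ z = a) ∧ ∀ z, E z t ↔ z = a ∨ z = b

/-- `x ∈ 2^ω`. -/
def IsReal (w x : M) : Prop := ∃ t, IsTwo E t ∧ IsFunc E x w t

/-- `s ∈ 2^{<ω}` is a finite binary sequence of length `n`. -/
def IsStr (w s n : M) : Prop := E n w ∧ ∃ t, IsTwo E t ∧ IsFunc E s n t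

/-- `σ ∈ (2^{<ω})^ω`. -/
def IsStrSeq (w σ : M) : Prop := IsFunOn E σ w ∧ ∀ i s, HasPair E σ i s → ∃ n, IsStr E w s n

/-- For natural numbers `i`, `k`: `m` is the natural number `i ^ k`, i.e. the number of functions
from `k` to `i`. -/
def IsPow (w i k m : M) : Prop :=
  E m w ∧ ∃ F b, (∀ g, E g F ↔ IsFunc E g k i) ∧ IsBij E b m F

/-- `f ≪ ht_σ`: for every `k`, `f(i ^ k) ≤ |σ(i)|` for all but finitely many `i`. -/
def Grows (w f σ : M) : Prop :=
  ∀ k, E k w → ∃ N, E N w ∧ ∀ i, E i w → Sub E N i → ∀ m a s l, IsPow E w i k m →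
    HasPair E f m a → HasPair E σ i s → IsStr E w s l → Sub E a l

/-- `x ∈ [σ]_∞`: `x ∈ 2^ω` and `σ(i) ⊆ x` for infinitely many `i`. -/
def InLimsup (w σ x : M) : Prop :=
  IsReal E w x ∧ ∀ N, E N w → ∃ i s, E i w ∧ Sub E N i ∧ HasPair E σ i s ∧ Sub E s x

/-- `X` belongs to the Yorioka ideal `I_f`: `X ⊆ 2^ω` and `X ⊆ [σ]_∞` for some
`σ ∈ (2^{<ω})^ω` with `f ≪ ht_σ`. -/
def InYor (w f X : M) : Prop :=
  (∀ x, E x X → IsReal E w x) ∧
    ∃ σ, IsStrSeq E w σ ∧ Grows E w f σ ∧ ∀ x, E x X → InLimsup E w σ x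

/-- `f : ω → ω` is (strictly) increasing. -/
def IsIncr (w f : M) : Prop :=
  IsFunc E f w w ∧ ∀ m n a b, E m n → HasPair E f m a → HasPair E f n b → E a b

/-- `x` is a transitive set. -/
def IsTrans' (x : M) : Prop := ∀ y, E y x → Sub E y x

/-- `x` is an ordinal (in a model of Foundation: a transitive set of transitive sets). -/
def IsOrd (x : M) : Prop := IsTrans' E x ∧ ∀ y, E y x → IsTrans' E y

/-- There is a sequence `X = ⟨X_α : α ∈ κ⟩` of members of `I_f` whose union `U` is not in `I_f`. -/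
def Unbounded (w f κ : M) : Prop :=
  ∃ X U, IsFunOn E X κ ∧ (∀ a Y, HasPair E X a Y → InYor E w f Y) ∧
    (∀ z, E z U ↔ ∃ a Y, HasPair E X a Y ∧ E z Y) ∧ ¬ InYor E w f U

/-- `κ = add(I_f)`: the least ordinal `κ` such that there is a `κ`-sequence of members of `I_f`
whose union is not in `I_f`. -/
def IsAdd (w f κ : M) : Prop :=
  IsOrd E κ ∧ Unbounded E w f κ ∧ ∀ α, E α κ → ¬ Unbounded E w f α

/-- The additivities of the Yorioka ideals take infinitely many values: there are sequences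
`F = ⟨f_n : n ∈ ω⟩` and `A = ⟨κ_n : n ∈ ω⟩` such that all `f_n : ω → ω` are increasing,
`κ_n = add(I_{f_n})`, and `κ_m < κ_n` for `m < n`. -/
def InfinitelyManyAdd : Prop :=
  ∃ w F A, IsOmega E w ∧ IsFunOn E F w ∧ IsFunOn E A w ∧
    (∀ n, E n w → ∀ f κ, HasPair E F n f → HasPair E A n κ → IsIncr E w f ∧ IsAdd E w f κ) ∧
    ∀ m n κ μ, E m n → HasPair E A m κ → HasPair E A n μ → E κ μ

end MP958.Z
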